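import Pool.Agent.AER.Tops
import Pool.Agent.AEB.CfgB

/-!
# Partial embeddings of a forest at a given vertex, with explicit hosts of the pending items

The forest `F` starts with two (three) heavy arcs directed away from the root. The heavy out-branch of `F` itself, of its
heavy child, or of the heavy grandchild is pending at a prescribed vertex (one of a given list of vertices).
-/

set_option autoImplicit false

namespace AER

open Finset AE15 AED AEB
open scoped Classical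

variable {V : Type*} {R : V → V → Prop}

/-- a transitive list in the in-neighbourhood, outside a given set -/
theorem lists (hT : AE32.Tour R) (m : ℕ) (G avoid : Finset V) (y : V) (h : 2 ^ m + avoid.card ≤ (nI R G y).card) :
    ∃ w : List V, w.length = m ∧ (∀ z ∈ w, z ∈ G ∧ R z y ∧ z ∉ avoid) ∧ w.Pairwise R := by
  obtain ⟨w, h1, h2, h3⟩ := exists_tl_avoid hT m (nI R G y) avoid h
  refine ⟨w, h1, fun z hz => ?_, h3⟩
  obtain ⟨h4, h5⟩ := h2 z hz
  exact ⟨(mem_nI.1 h4).1, (mem_nI.1 h4).2, h5⟩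

/-- slots: vertices dominated by `f` with many in-neighbours -/
theorem slots (hT : AE32.Tour R) (f : V) (m : ℕ) (G : Finset V) (P : Finset V) (hP : ∀ x ∈ P, R f x) (k : ℕ) :
    ∀ (avoid : Finset V), avoid.card + k * (m + 1) ≤ P.card →
      (∀ x ∈ P, 2 ^ m + (avoid.card + k * (m + 1)) ≤ (nI R G x).card) →
      ∃ sl : List (V × List V), sl.length = k ∧ (∀ q ∈ sl, Slot R f m q ∧ q.1 ∈ P ∧ ∀ z ∈ q.2, z ∈ G) ∧ (slv sl).Nodup ∧
        ∀ a ∈ slv sl, a ∉ avoid := by
  induction k with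
  | zero =>
    intro avoid _ _
    exact ⟨[], rfl, by simp, by simp [slv], by simp [slv]⟩
  | succ k ih =>
    intro avoid h1 h2
    obtain ⟨x, hx⟩ : (P \ avoid).Nonempty := by
      rw [← card_pos]
      have h3 := le_card_sdiff avoid P
      have h4 : (k + 1) * (m + 1) = k * (m + 1) + (m + 1) := by ring
      omega
    rw [mem_sdiff] at hx
    have h4 : (k + 1) * (m + 1) = k * (m + 1) + (m + 1) := by ring
    obtain ⟨w, w1, w2, w3⟩ := lists hT m G avoid x (by
      have := h2 x hx.1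
      omega)
    have hxw : x ∉ w := fun h => hT.irr _ (w2 x h).2.1
    have hwn := tl_nodup hT w3
    have hc : (avoid ∪ (x :: w).toFinset).card ≤ avoid.card + (m + 1) := by
      refine (card_union_le _ _).trans (Nat.add_le_add_left ?_ _)
      refine (List.toFinset_card_le _).trans ?_
      simp [w1]
    obtain ⟨sl, s1, s2, s3, s4⟩ := ih (avoid ∪ (x :: w).toFinset) (by omega) (by
      intro z hz
      have := h2 z hz
      omega)
    refine ⟨(x, w) :: sl, by simp [s1], ?_, ?_, ?_⟩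
    · intro q hq
      rcases List.mem_cons.1 hq with rfl | hq
      · exact ⟨⟨hP x hx.1, w3, fun z hz => (w2 z hz).2.1, w1.ge⟩, hx.1, fun z hz => (w2 z hz).1⟩
      · exact s2 q hq
    · have h8 : slv ((x, w) :: sl) = (x :: w) ++ slv sl := by rw [slv, slv, List.flatMap_cons]
      rw [h8, List.nodup_append]
      refine ⟨List.nodup_cons.2 ⟨hxw, hwn⟩, s3, ?_⟩
      intro a ha b hb hab
      subst hab
      exact s4 a hb (mem_union_right _ (List.mem_toFinset.2 ha))
    · have h8 : slv ((x, w) :: sl) = (x :: w) ++ slv sl := by rw [slv, slv, List.flatMap_cons]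
      rw [h8]
      intro a ha
      rcases List.mem_append.1 ha with ha | ha
      · rcases List.mem_cons.1 ha with rfl | ha
        · exact hx.2
        · exact (w2 a ha).2.2
      · exact fun h => s4 a ha (mem_union_left _ h)

private theorem host_pel {ts : List (Bool × Fd)} {v : V} {Z : Finset V} {L : List (V × Fd)} (h : PEL R v ts Z L) :
    ∀ p ∈ L, p.1 = v ∨ p.1 ∈ Z := by
  have h1 : PE R (ofT ts) v Z L := (pe_iff (ofT ts) v Z L).2 (by rw [trees_ofT]; exact h)
  exact fun p hp => (AET.PE.host h1 p hp).1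

/-- the heavy out-child of `F` is placed at `x`, with a given partial embedding; the hosts of the other items are explicit -/
theorem pe_heavy_host (hT : AE32.Tour R) {F c : Fd} (hF : F.hv = some (true, c)) (v v₁ : V) (w : List V)
    (hw : w.Pairwise R) (hv : ∀ z ∈ w, R z v) (hv₁ : R v v₁) {Z₁ : Finset V} {L₁ : List (V × Fd)}
    (hP : PE R c v₁ Z₁ L₁) (h1 : v₁ ∉ Z₁) (h2 : ∀ z ∈ w, z ≠ v₁ ∧ z ∉ Z₁) (hl : blk F ≤ w.length) :
    ∃ Z L, PE R F v Z L ∧ Z ⊆ w.toFinset ∪ insert v₁ Z₁ ∧ insert v₁ Z₁ ⊆ Z ∧ (∀ p ∈ L₁, p ∈ L) ∧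
      ∀ p ∈ L, p.1 = v ∨ p.1 ∈ w ∨ p ∈ L₁ := by
  obtain ⟨⟨ts, hts⟩, -⟩ := hv_some hF
  rw [blk_eq, (hts.map _).sum_eq, List.map_cons, List.sum_cons] at hl
  obtain ⟨Z₂, L₂, h3, h4, -⟩ := pel_block hT v ts w hw hv (by simpa using hl)
  have hd : Disjoint (insert v₁ Z₁) Z₂ := by
    rw [disjoint_left]
    intro a ha ha2
    have h5 := h2 a (List.mem_toFinset.1 (h4 ha2))
    rcases mem_insert.1 ha with h6 | h6
    · exact h5.1 h6
    · exact h5.2 h6
  have h5 : PEL R v ((true, c) :: ts) (insert v₁ Z₁ ∪ Z₂) (L₁ ++ L₂) :=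
    ⟨insert v₁ Z₁, Z₂, L₁, L₂, hd, rfl, rfl, Or.inr ⟨v₁, Z₁, by simpa [Adj] using hv₁, h1, rfl, hP⟩, h3⟩
  obtain ⟨L, h6, h7⟩ := PEL.perm hts.symm h5
  refine ⟨insert v₁ Z₁ ∪ Z₂, L, (pe_iff F v _ _).2 h7, ?_, subset_union_left, ?_, ?_⟩
  · intro a ha
    rcases mem_union.1 ha with h8 | h8
    · exact mem_union_right _ h8
    · exact mem_union_left _ (h4 h8)
  · intro p hp
    exact h6.symm.subset (List.mem_append_left _ hp)
  · intro p hp
    rcases List.mem_append.1 (h6.subset hp) with h8 | h8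
    · exact Or.inr (Or.inr h8)
    · rcases host_pel h3 p h8 with h9 | h9
      · exact Or.inl h9
      · exact Or.inr (Or.inl (List.mem_toFinset.1 (h4 h9)))

/-- the block of `y` on `w`, the heavy out-branch of `F` pending at `y` -/
theorem route1 (hT : AE32.Tour R) {b l m : ℕ} (hm : ∀ j ≤ l, ∀ D, FOK b l j D → blk D ≤ m) {F c : Fd}
    (hF : FOK b l 0 F) (hFc : F.hv = some (true, c)) (y : V) (w : List V) (hw : w.Pairwise R) (hwy : ∀ z ∈ w, R z y)
    (hl : m ≤ w.length) :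
    ∃ Z L, PE R F y Z L ∧ Z ⊆ w.toFinset ∧ (y, c) ∈ L ∧ ∀ q ∈ L, q.1 = y ∨ q.1 ∈ w := by
  obtain ⟨Z, L, h1, h2, h3⟩ := pe_block hT F y w hw hwy ((hm 0 (Nat.zero_le _) F hF).trans hl)
  refine ⟨Z, L, h1, h2, h3 c (hv_mem hFc), fun q hq => ?_⟩
  rcases (AET.PE.host h1 q hq).1 with h | h
  · exact Or.inl h
  · exact Or.inr (List.mem_toFinset.1 (h2 h))

/-- the block of `y` on `w`, the heavy out-child of `F` at `x`, its block on `w'`, its heavy out-branch pending at `x` -/
theorem route2 (hT : AE32.Tour R) {b l m : ℕ} (hm : ∀ j ≤ l, ∀ D, FOK b l j D → blk D ≤ m) {F c c' : Fd}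
    (hF : FOK b l 0 F) (hFc : F.hv = some (true, c)) (hc : c.hv = some (true, c')) (y x : V) (w w' : List V)
    (hw : w.Pairwise R) (hwy : ∀ z ∈ w, R z y) (hyx : R y x) (hw' : w'.Pairwise R) (hwx : ∀ z ∈ w', R z x)
    (hnd : (x :: w ++ w').Nodup) (hl : m ≤ w.length) (hl' : m ≤ w'.length) :
    ∃ Z L, PE R F y Z L ∧ Z ⊆ (x :: w ++ w').toFinset ∧ (x, c') ∈ L ∧
      ∀ q ∈ L, q.1 = y ∨ q.1 = x ∨ q.1 ∈ w ∨ q.1 ∈ w' := by
  have hcF : FOK b l 0 c := by
    have h := (hF.child (hv_mem hFc)).1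
    simpa using h
  obtain ⟨Z₁, L₁, h1, h2, h3, h4⟩ := route1 hT hm hcF hc x w' hw' hwx hl'
  rw [List.cons_append, List.nodup_cons, List.nodup_append] at hnd
  obtain ⟨n1, n2, n3, n4⟩ := hnd
  have hx1 : x ∉ Z₁ := fun h => n1 (List.mem_append_right _ (List.mem_toFinset.1 (h2 h)))
  obtain ⟨Z, L, k1, k2, k3, k4, k5⟩ := pe_heavy_host hT hFc y x w hw hwy hyx h1 hx1 (fun z hz =>
    ⟨fun h => n1 (h ▸ List.mem_append_left _ hz), fun h => n4 z hz z (List.mem_toFinset.1 (h2 h)) rfl⟩)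
    ((hm 0 (Nat.zero_le _) F hF).trans hl)
  refine ⟨Z, L, k1, ?_, k4 _ h3, ?_⟩
  · intro a ha
    rw [List.mem_toFinset]
    rcases mem_union.1 (k2 ha) with h | h
    · have := List.mem_toFinset.1 h
      simp [this]
    · rcases mem_insert.1 h with h | h
      · simp [h]
      · have := List.mem_toFinset.1 (h2 h)
        simp [this]
  · intro q hq
    rcases k5 q hq with h | h | h
    · exact Or.inl h
    · exact Or.inr (Or.inr (Or.inl h))
    · rcases h4 q h with h | h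
      · exact Or.inr (Or.inl h)
      · exact Or.inr (Or.inr (Or.inr h))

/-- the block of `y` on `w`, the heavy out-child `c` of `F` at `f`, its block on `wf`, the roots of all out-trees of `c` in
the slots; the heavy out-branch of the heavy grandchild is pending at one of the slots; nothing is pending at `f` -/
theorem route3 (hT : AE32.Tour R) {b l m : ℕ} (hm : ∀ j ≤ l, ∀ D, FOK b l j D → blk D ≤ m) {F c c' c'' : Fd}
    (hF : FOK b l 0 F) (hFc : F.hv = some (true, c)) (hc : c.hv = some (true, c')) (hc' : c'.hv = some (true, c''))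
    (y f : V) (w wf : List V) (sl : List (V × List V)) (hw : w.Pairwise R) (hwy : ∀ z ∈ w, R z y) (hyf : R y f)
    (hwf : wf.Pairwise R) (hwff : ∀ z ∈ wf, R z f) (hsl : ∀ q ∈ sl, Slot R f m q) (hb : b ≤ sl.length)
    (hnd : (f :: w ++ (wf ++ slv sl)).Nodup) (hl : m ≤ w.length) (hl' : m ≤ wf.length) :
    ∃ Z L, ∃ q₀ ∈ sl, PE R F y Z L ∧ Z ⊆ (f :: w ++ (wf ++ slv sl)).toFinset ∧ f ∈ Z ∧ q₀.1 ∈ Z ∧ (q₀.1, c'') ∈ L ∧
      ∀ q ∈ L, q.1 = y ∨ q.1 ∈ w ∨ q.1 ∈ wf ∨ q.1 ∈ slv sl := by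
  have hcF : FOK b l 0 c := by
    have h := (hF.child (hv_mem hFc)).1
    simpa using h
  rw [List.cons_append, List.nodup_cons, List.nodup_append] at hnd
  obtain ⟨n1, n2, n3, n4⟩ := hnd
  obtain ⟨Z₁, L₁, h1, h2, h3, h4⟩ := pe_tops hT c f m wf sl hwf hwff ((hm 0 (Nat.zero_le _) c hcF).trans hl')
    (fun c₁ hc₁ => hm 0 (Nat.zero_le _) c₁ (by
      have h := (hcF.child hc₁).1
      simpa using h)) (hcF.1.trans hb) hsl n3
  obtain ⟨q₀, hq₀, hq₁, hq₂⟩ := h4 c' (hv_mem hc)
  have hf1 : f ∉ Z₁ := fun h => n1 (List.mem_append_right _ (List.mem_toFinset.1 (h2 h)))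
  obtain ⟨Z, L, k1, k2, k3, k4, k5⟩ := pe_heavy_host hT hFc y f w hw hwy hyf h1 hf1 (fun z hz =>
    ⟨fun h => n1 (h ▸ List.mem_append_left _ hz), fun h => n4 z hz z (List.mem_toFinset.1 (h2 h)) rfl⟩)
    ((hm 0 (Nat.zero_le _) F hF).trans hl)
  refine ⟨Z, L, q₀, hq₀, k1, ?_, k3 (mem_insert_self _ _), k3 (mem_insert_of_mem hq₁),
    k4 _ (hq₂ c'' (hv_mem hc')), ?_⟩
  · intro a ha
    rw [List.mem_toFinset]
    rcases mem_union.1 (k2 ha) with h | h
    · have := List.mem_toFinset.1 h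
      simp [this]
    · rcases mem_insert.1 h with h | h
      · simp [h]
      · have := List.mem_toFinset.1 (h2 h)
        rw [List.cons_append]
        exact List.mem_cons_of_mem _ (List.mem_append_right _ this)
  · intro q hq
    rcases k5 q hq with h | h | h
    · exact Or.inl h
    · exact Or.inr (Or.inl h)
    · have h5 := List.mem_toFinset.1 (h2 (h3 q h))
      rcases List.mem_append.1 h5 with h6 | h6
      · exact Or.inr (Or.inr (Or.inl h6))
      · exact Or.inr (Or.inr (Or.inr h6))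

end AER
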