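import Pool.Agent.AER.Broad
import Pool.Agent.AER.Route
import Pool.Agent.AE15.SuperC

/-!
# Rigid ends, general version: choice of the host of the branch
-/

set_option autoImplicit false

namespace AER

open Finset AE15 AED AELT AEB
open scoped Classical

variable {V : Type} {R : V → V → Prop}

/-- slots with lists of the exact length -/
theorem slots' (hT : AE32.Tour R) (f : V) (m : ℕ) (G : Finset V) (P : Finset V) (hP : ∀ x ∈ P, R f x) (k : ℕ) :
    ∀ (avoid : Finset V), avoid.card + k * (m + 1) ≤ P.card →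
      (∀ x ∈ P, 2 ^ m + (avoid.card + k * (m + 1)) ≤ (nI R G x).card) →
      ∃ sl : List (V × List V), sl.length = k ∧ (slv sl).length = k * (m + 1) ∧
        (∀ q ∈ sl, Slot R f m q ∧ q.1 ∈ P ∧ ∀ z ∈ q.2, z ∈ G) ∧ (slv sl).Nodup ∧ ∀ a ∈ slv sl, a ∉ avoid := by
  induction k with
  | zero =>
    intro avoid _ _
    exact ⟨[], rfl, by simp [slv], by simp, by simp [slv], by simp [slv]⟩
  | succ k ih =>
    intro avoid h1 h2
    obtain ⟨x, hx⟩ : (P \ avoid).Nonempty := by
      rw [← card_pos]
      have h3 := le_card_sdiff avoid P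
      have h4 : (k + 1) * (m + 1) = k * (m + 1) + (m + 1) := by ring
      omega
    rw [mem_sdiff] at hx
    have h4 : (k + 1) * (m + 1) = k * (m + 1) + (m + 1) := by ring
    obtain ⟨w, w1, w2, w3⟩ := lists hT m G avoid x (by
      have := h2 x hx.1
      omega)
    have hxw : x ∉ w := fun h => hT.irr _ (w2 x h).2.1
    have hwn := tl_nodup hT w3
    have hc : (avoid ∪ (x :: w).toFinset).card ≤ avoid.card + (m + 1) := by
      refine (card_union_le _ _).trans (Nat.add_le_add_left ?_ _)
      refine (List.toFinset_card_le _).trans ?_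
      simp [w1]
    obtain ⟨sl, s1, s5, s2, s3, s4⟩ := ih (avoid ∪ (x :: w).toFinset) (by omega) (by
      intro z hz
      have := h2 z hz
      omega)
    have h8 : slv ((x, w) :: sl) = (x :: w) ++ slv sl := by rw [slv, slv, List.flatMap_cons]
    refine ⟨(x, w) :: sl, by simp [s1], ?_, ?_, ?_, ?_⟩
    · rw [h8, List.length_append, List.length_cons, s5, w1, h4]
      omega
    · intro q hq
      rcases List.mem_cons.1 hq with rfl | hq
      · exact ⟨⟨hP x hx.1, w3, fun z hz => (w2 z hz).2.1, w1.ge⟩, hx.1, fun z hz => (w2 z hz).1⟩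
      · exact s2 q hq
    · rw [h8, List.nodup_append]
      refine ⟨List.nodup_cons.2 ⟨hxw, hwn⟩, s3, ?_⟩
      intro a ha b hb hab
      subst hab
      exact s4 a hb (mem_union_right _ (List.mem_toFinset.2 ha))
    · rw [h8]
      intro a ha
      rcases List.mem_append.1 ha with ha | ha
      · rcases List.mem_cons.1 ha with rfl | ha
        · exact hx.2
        · exact (w2 a ha).2.2
      · exact fun h => s4 a ha (mem_union_left _ h)

theorem card_low_out (hT : AE32.Tour R) (c : ℕ) (X : Finset V) :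
    (X.filter (fun u => (nO R X u).card < c)).card ≤ 2 * c := by
  rcases c with _ | c
  · simp
  · have h := card_low hT X c
    have h1 : X.filter (fun u => (nO R X u).card < c + 1) = X.filter (fun u => (nO R X u).card ≤ c) := by
      apply filter_congr
      intro u _
      exact Nat.lt_succ_iff
    rw [h1]
    omega

/-- a typical vertex of `G` dominates at least half of `L`, if the vertices of `L` see few vertices of `G` -/
theorem typical (hT : AE32.Tour R) {G L : Finset V} (hd : ∀ u ∈ L, u ∉ G) (hL : L.Nonempty)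
    (h16 : ∀ u ∈ L, 16 * (nO R G u).card ≤ G.card) (M a : ℕ) (hbig : 8 * (2 * M + 2 * a) < 7 * G.card) :
    ∃ y ∈ G, L.card ≤ 2 * (nO R L y).card ∧ M ≤ (nI R G y).card ∧ a ≤ (nO R G y).card := by
  obtain ⟨B, hB⟩ : ∃ B, B = G.filter (fun g => 2 * (nO R L g).card < L.card) := ⟨_, rfl⟩
  have h1 : 8 * B.card ≤ G.card := by
    have h2 : ∑ g ∈ B, (L.filter (fun u => ¬ R g u)).card = ∑ u ∈ L, (B.filter (fun g => ¬ R g u)).card :=
      sum_card_bipartiteAbove_eq_sum_card_bipartiteBelow (fun g u => ¬ R g u)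
    have h3 : B.card * L.card ≤ 2 * ∑ g ∈ B, (L.filter (fun u => ¬ R g u)).card := by
      rw [mul_sum, ← smul_eq_mul]
      apply card_nsmul_le_sum
      intro g hg
      rw [hB, mem_filter] at hg
      have h4 : (L.filter (fun u => R g u)).card + (L.filter (fun u => ¬ R g u)).card = L.card :=
        card_filter_add_card_filter_not _
      have h5 : (L.filter (fun u => R g u)).card = (nO R L g).card := rfl
      omega
    have h4 : 16 * ∑ u ∈ L, (B.filter (fun g => ¬ R g u)).card ≤ L.card * G.card := by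
      rw [mul_sum, ← smul_eq_mul L.card]
      apply sum_le_card_nsmul
      intro u hu
      refine (Nat.mul_le_mul_left 16 (card_le_card ?_)).trans (h16 u hu)
      intro g hg
      rw [mem_filter, hB, mem_filter] at hg
      rw [mem_nO]
      refine ⟨hg.1.1, ?_⟩
      rcases hT.tot g u (fun h => hd u hu (h ▸ hg.1.1)) with h5 | h5
      · exact absurd h5 hg.2
      · exact h5
    have h5 : L.card * (8 * B.card) ≤ L.card * G.card := by
      rw [h2] at h3
      have h6 : L.card * (8 * B.card) = 8 * (B.card * L.card) := by ring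
      omega
    exact Nat.le_of_mul_le_mul_left h5 (card_pos.2 hL)
  have h2 := card_low_in hT M G
  have h3 := card_low_out hT a G
  obtain ⟨y, hy⟩ : (G \ (B ∪ (low R M G ∪ G.filter (fun u => (nO R G u).card < a)))).Nonempty := by
    rw [← card_pos]
    have h4 := le_card_sdiff (B ∪ (low R M G ∪ G.filter (fun u => (nO R G u).card < a))) G
    have h5 := card_union_le B (low R M G ∪ G.filter (fun u => (nO R G u).card < a))
    have h6 := card_union_le (low R M G) (G.filter (fun u => (nO R G u).card < a))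
    omega
  rw [mem_sdiff, mem_union, mem_union, not_or, not_or, hB, mem_filter, mem_low, mem_filter] at hy
  obtain ⟨h4, h5, h6, h7⟩ := hy
  refine ⟨y, h4, ?_, ?_, ?_⟩
  · by_contra h
    exact h5 ⟨h4, not_le.1 h⟩
  · by_contra h
    exact h6 ⟨h4, not_le.1 h⟩
  · by_contra h
    exact h7 ⟨h4, not_le.1 h⟩

/-- sizes along the heavy path -/
theorem hv_size {b : ℕ} {F : Fd} {q : Bool × Fd} (h : F.hv = some q) (hF : F.len ≤ b) :
    (F.size : ℝ) ≤ b * (q.2.size + 1) := by
  have := (size_le_len (hv_some h).2).trans (Nat.mul_le_mul_right (q.2.size + 1) hF)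
  exact_mod_cast this

theorem isz_perm {L L' : List (V × Fd)} (h : L.Perm L') : AEB.isz L = AEB.isz L' := (h.map _).sum_eq

/-- the class of an item at a host fixed in advance -/
theorem Host.cl {p : NP} {κ η s γ δ ν : ℝ} {X E : Finset V} {𝓕 : Finset (Finset V)} {H Nx : Finset V} {x : V}
    (h : Host R p κ η s γ δ ν X E 𝓕 H x Nx) (D : Fd) {S P : Finset V} (h1 : S ⊆ X \ (E ∪ H)) (h2 : S ⊆ P) (h3 : H ⊆ P)
    (h4 : P ⊆ X) (h5 : Disjoint P E) (h6 : Rep (X \ (E ∪ H)) 𝓕 ν S) (h7 : δ * X.card ≤ (S.card : ℝ)) :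
    AEB.Cl R (Good R κ η P) s p D P (R x) := by
  obtain ⟨a1, U, Q, a2, a3, a4, a5⟩ := h.cls S P h1 h2 h3 h4 h5 h6 h7
  exact ⟨a1, fun _ => ⟨a1, U, Q, a2.trans (p.u0_le_ub D), a3, a4, a5⟩⟩

end AER
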