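import Pool.Agent.AER.Avoid
import Pool.Agent.AER.PrepG
import Pool.Agent.AER.Sup

/-!
# Rigid ends anywhere: the choice of the host of the branch after the rest has been embedded

The possible hosts of the marked vertex form a linear set; one of them is seen by a host fixed in advance, or by a suitable
vertex of a reserve.
-/

set_option autoImplicit false

namespace AER

open Finset AE15 AED AELT AEB
open scoped Classical

variable {V : Type} {R : V → V → Prop}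

/-- few vertices of `G` dominate less than half of `L`, if the vertices of `L` see few vertices of `G` -/
theorem typical_bad (hT : AE32.Tour R) {G L : Finset V} (hd : ∀ u ∈ L, u ∉ G) (hL : L.Nonempty)
    (h16 : ∀ u ∈ L, 16 * (nO R G u).card ≤ G.card) :
    8 * (G.filter (fun g => 2 * (nO R L g).card < L.card)).card ≤ G.card := by
  obtain ⟨B, hB⟩ : ∃ B, B = G.filter (fun g => 2 * (nO R L g).card < L.card) := ⟨_, rfl⟩
  rw [← hB]
  have h2 : ∑ g ∈ B, (L.filter (fun u => ¬ R g u)).card = ∑ u ∈ L, (B.filter (fun g => ¬ R g u)).card :=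
    sum_card_bipartiteAbove_eq_sum_card_bipartiteBelow (fun g u => ¬ R g u)
  have h3 : B.card * L.card ≤ 2 * ∑ g ∈ B, (L.filter (fun u => ¬ R g u)).card := by
    rw [mul_sum, ← smul_eq_mul]
    apply card_nsmul_le_sum
    intro g hg
    rw [hB, mem_filter] at hg
    have h4 : (L.filter (fun u => R g u)).card + (L.filter (fun u => ¬ R g u)).card = L.card :=
      card_filter_add_card_filter_not _
    have h5 : (L.filter (fun u => R g u)).card = (nO R L g).card := rfl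
    omega
  have h4 : 16 * ∑ u ∈ L, (B.filter (fun g => ¬ R g u)).card ≤ L.card * G.card := by
    rw [mul_sum, ← smul_eq_mul L.card]
    apply sum_le_card_nsmul
    intro u hu
    refine (Nat.mul_le_mul_left 16 (card_le_card ?_)).trans (h16 u hu)
    intro g hg
    rw [mem_filter, hB, mem_filter] at hg
    rw [mem_nO]
    refine ⟨hg.1.1, ?_⟩
    rcases hT.tot g u (fun h => hd u hu (h ▸ hg.1.1)) with h5 | h5
    · exact absurd h5 hg.2
    · exact h5
  have h5 : L.card * (8 * B.card) ≤ L.card * G.card := by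
    rw [h2] at h3
    have h6 : L.card * (8 * B.card) = 8 * (B.card * L.card) := by ring
    omega
  exact Nat.le_of_mul_le_mul_left h5 (card_pos.2 hL)

/-- a vertex of a large set sees from below many vertices of the structure set -/
theorem select0 (hT : AE32.Tour R) {X G W : Finset V} {a : ℕ} (hWX : W ⊆ X)
    (h16 : ∀ u ∈ X, u ∉ G → 16 * (nO R G u).card ≤ G.card) (hG : 32 * a ≤ 13 * G.card) (hW : 2 * a < W.card) :
    ∃ w ∈ W, a ≤ (nI R G w).card := by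
  by_contra hcon
  push Not at hcon
  have h1 : W ⊆ low R a G := by
    intro w hw
    rw [mem_low]
    refine ⟨?_, hcon w hw⟩
    by_contra hwG
    have h2 := h16 w (hWX hw) hwG
    have h3 := card_nO_add_nI hT hwG
    have h4 := hcon w hw
    omega
  have h2 := card_le_card h1
  have h3 := card_low_in hT a G
  omega

/-- the choice of the host -/
theorem select_host (hT : AE32.Tour R) {X G W Y D T Lo : Finset V} {x : ℕ → V} {N m₀ a a' : ℕ} (hN : 1 ≤ N)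
    (hD : D = G.filter (fun v => (∃ i < N, R v (x i)) ∧ a' ≤ (nI R G v).card))
    (hLo : Lo = (X \ G).filter (fun v => N ≤ 2 * ((range N).filter (fun i => R v (x i))).card))
    (hTy : T = G.filter (fun y => Lo.card ≤ 2 * (nO R Lo y).card ∧ a' ≤ (nI R G y).card ∧ a ≤ (nO R G y).card))
    (hGX : G ⊆ X) (hWX : W ⊆ X) (hxW : ∀ i < N, x i ∉ W)
    (h16 : ∀ u ∈ X, u ∉ G → 16 * (nO R G u).card ≤ G.card) (hG : 48 * a' + 32 * a ≤ 13 * G.card)
    (hWc : 8 * a' < W.card)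
    (hY1 : ∀ w ∈ X, a' ≤ (nI R D w).card → (nI R D w ∩ Y).Nonempty)
    (hY2 : ∀ w ∈ X, a' ≤ (nI R T w).card → (nI R T w ∩ Y).Nonempty)
    (hY3 : ∀ y ∈ X, a' ≤ (nO R Lo y).card → (nO R Lo y ∩ Y).Nonempty)
    (hY4 : ∀ y ∈ X, a' ≤ (nI R G y).card → 2 ^ m₀ + (m₀ + 1) ≤ (nI R G y ∩ Y).card) :
    ∃ w ∈ W, (∃ i < N, R (x i) w) ∨
      (∃ (y : V) (wy : List V), (y ∈ Y ∧ y ∈ G ∧ R y w ∧ wy.length = m₀ ∧ wy.Pairwise R ∧ ∀ a ∈ wy, a ∈ G ∧ R a y ∧ a ∈ Y) ∧
        ∃ i < N, R y (x i)) ∨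
      ∃ (y : V) (wy : List V) (f : V) (wf : List V), (y ∈ Y ∧ y ∈ G ∧ R y w ∧ wy.length = m₀ ∧ wy.Pairwise R ∧ ∀ a ∈ wy, a ∈ G ∧ R a y ∧ a ∈ Y) ∧
        a ≤ (nO R G y).card ∧ f ∈ Y ∧ f ∉ G ∧ R y f ∧ N ≤ 2 * ((range N).filter (fun i => R f (x i))).card ∧
          wf.length = m₀ ∧ wf.Pairwise R ∧ ∀ a ∈ wf, a ∈ G ∧ R a f ∧ a ∈ Y ∧ a ≠ y ∧ a ∉ wy := by
  by_cases hc : ∃ w ∈ W, ∃ i < N, R (x i) w
  · obtain ⟨w, hw, h⟩ := hc
    exact ⟨w, hw, Or.inl h⟩
  push Not at hc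
  have hsee : ∀ w ∈ W, ∀ i < N, R w (x i) := by
    intro w hw i hi
    rcases hT.tot w (x i) (fun h => hxW i hi (h ▸ hw)) with h | h
    · exact h
    · exact absurd h (hc w hw i hi)
  -- lists of in-neighbours in the reserve
  have hlist : ∀ y ∈ X, a' ≤ (nI R G y).card → ∀ av : Finset V, av.card ≤ m₀ + 1 → ∃ w : List V, w.length = m₀ ∧
      (∀ z ∈ w, (z ∈ G ∧ z ∈ Y) ∧ R z y ∧ z ∉ av) ∧ w.Pairwise R := by
    intro y hy hya av hav
    have h1 := hY4 y hy hya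
    have h2 : nI R G y ∩ Y = nI R (G ∩ Y) y := by
      ext v
      simp only [mem_inter, mem_nI]
      tauto
    rw [h2] at h1
    obtain ⟨w, w1, w2, w3⟩ := lists hT m₀ (G ∩ Y) av y (by omega)
    exact ⟨w, w1, fun z hz => ⟨mem_inter.1 (w2 z hz).1, (w2 z hz).2⟩, w3⟩
  have hsplit : W.card = (W ∩ G).card + (W \ G).card := by
    rw [← card_inter_add_card_sdiff W G]
  by_cases hcase : W.card ≤ 2 * (W ∩ G).card
  · -- many hosts in the structure set
    obtain ⟨A, hA⟩ : ∃ A, A = (W ∩ G) \ low R a' G := ⟨_, rfl⟩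
    have h1 : (W ∩ G).card ≤ A.card + 2 * a' := by
      have g1 := le_card_sdiff (low R a' G) (W ∩ G)
      have g2 := card_low_in hT a' G
      rw [hA]
      omega
    have h2 := card_low_in hT a' A
    obtain ⟨w, hw⟩ : (A \ low R a' A).Nonempty := by
      rw [← card_pos]
      have g1 := le_card_sdiff (low R a' A) A
      omega
    rw [mem_sdiff, mem_low, not_and, not_lt] at hw
    obtain ⟨hwA, hwI⟩ := hw
    have hwI := hwI hwA
    have hAW : A ⊆ W := by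
      rw [hA]
      exact sdiff_subset.trans inter_subset_left
    have hAD : A ⊆ D := by
      intro v hv
      have hvW := hAW hv
      rw [hA, mem_sdiff, mem_inter, mem_low, not_and, not_lt] at hv
      rw [hD, mem_filter]
      exact ⟨hv.1.2, ⟨0, by omega, hsee v hvW 0 (by omega)⟩, hv.2 hv.1.2⟩
    obtain ⟨y, hy⟩ := hY1 w (hWX (hAW hwA)) (hwI.trans (card_le_card (nI_mono hAD)))
    rw [mem_inter, mem_nI, hD, mem_filter] at hy
    obtain ⟨⟨⟨hyG, ⟨i, hi, hyx⟩, hya⟩, hyw⟩, hyY⟩ := hy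
    obtain ⟨wy, w1, w2, w3⟩ := hlist y (hGX hyG) hya ∅ (by simp)
    exact ⟨w, hAW hwA, Or.inr (Or.inl ⟨y, wy, ⟨hyY, hyG, hyw, w1, w3, fun z hz =>
      ⟨(w2 z hz).1.1, (w2 z hz).2.1, (w2 z hz).1.2⟩⟩, i, hi, hyx⟩)⟩
  · -- many hosts outside
    push Not at hcase
    have hWL : W \ G ⊆ Lo := by
      intro v hv
      rw [mem_sdiff] at hv
      rw [hLo, mem_filter, mem_sdiff]
      refine ⟨⟨hWX hv.1, hv.2⟩, ?_⟩
      have h1 : (range N).filter (fun i => R v (x i)) = range N := by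
        rw [filter_eq_self]
        intro i hi
        exact hsee v hv.1 i (mem_range.1 hi)
      rw [h1, card_range]
      omega
    have hLc := card_le_card hWL
    have hLG : ∀ u ∈ Lo, u ∈ X ∧ u ∉ G := fun u hu => by
      rw [hLo, mem_filter, mem_sdiff] at hu
      exact hu.1
    have hLne : Lo.Nonempty := by
      rw [← card_pos]
      omega
    obtain ⟨w, hw⟩ : (W \ G).Nonempty := by
      rw [← card_pos]
      omega
    rw [mem_sdiff] at hw
    obtain ⟨hwW, hwG⟩ := hw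
    have hbad := typical_bad hT (fun u hu => (hLG u hu).2) hLne (fun u hu => h16 u (hLG u hu).1 (hLG u hu).2)
    have hGT : (G \ T).card ≤ (G.filter (fun g => 2 * (nO R Lo g).card < Lo.card)).card + (2 * a' + 2 * a) := by
      have g1 : G \ T ⊆ G.filter (fun g => 2 * (nO R Lo g).card < Lo.card) ∪
          (low R a' G ∪ G.filter (fun u => (nO R G u).card < a)) := by
        intro v hv
        rw [mem_sdiff, hTy, mem_filter] at hv
        rw [mem_union, mem_union, mem_filter, mem_low, mem_filter]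
        by_contra hcon
        rw [not_or, not_or, not_and, not_and, not_and, not_lt, not_lt, not_lt] at hcon
        exact hv.2 ⟨hv.1, hcon.1 hv.1, hcon.2.1 hv.1, hcon.2.2 hv.1⟩
      have g2 := card_low_in hT a' G
      have g3 := card_low_out hT a G
      have g4 := (card_le_card g1).trans (card_union_le _ _)
      have g5 := card_union_le (low R a' G) (G.filter (fun u => (nO R G u).card < a))
      omega
    have hTG : T ⊆ G := by rw [hTy]; exact filter_subset _ _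
    have hwT : a' ≤ (nI R T w).card := by
      have g1 := h16 w (hWX hwW) hwG
      have g2 := card_nO_add_nI hT hwG
      have g3 : nI R G w ⊆ nI R T w ∪ (G \ T) := by
        intro v hv
        rw [mem_nI] at hv
        rw [mem_union, mem_nI, mem_sdiff]
        by_cases hvT : v ∈ T
        · exact Or.inl ⟨hvT, hv.2⟩
        · exact Or.inr ⟨hv.1, hvT⟩
      have g4 := (card_le_card g3).trans (card_union_le _ _)
      omega
    obtain ⟨y, hy⟩ := hY2 w (hWX hwW) hwT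
    rw [mem_inter, mem_nI, hTy, mem_filter] at hy
    obtain ⟨⟨⟨hyG, hyL, hya', hya⟩, hyw⟩, hyY⟩ := hy
    obtain ⟨f, hf⟩ := hY3 y (hGX hyG) (by omega)
    rw [mem_inter, mem_nO] at hf
    obtain ⟨⟨hfL, hyf⟩, hfY⟩ := hf
    have hfX := hLG f hfL
    have hfN : N ≤ 2 * ((range N).filter (fun i => R f (x i))).card := by
      rw [hLo, mem_filter] at hfL
      exact hfL.2
    obtain ⟨wy, w1, w2, w3⟩ := hlist y (hGX hyG) hya' ∅ (by simp)
    obtain ⟨wf, v1, v2, v3⟩ := hlist f hfX.1 (by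
      have g1 := h16 f hfX.1 hfX.2
      have g2 := card_nO_add_nI hT hfX.2
      omega) (insert y wy.toFinset) (by
      have g1 := card_insert_le y wy.toFinset
      have g2 := List.toFinset_card_le wy
      omega)
    exact ⟨w, hwW, Or.inr (Or.inr ⟨y, wy, f, wf, ⟨hyY, hyG, hyw, w1, w3, fun z hz =>
      ⟨(w2 z hz).1.1, (w2 z hz).2.1, (w2 z hz).1.2⟩⟩, hya, hfY, hfX.2, hyf, hfN, v1, v3, fun z hz =>
      ⟨(v2 z hz).1.1, (v2 z hz).2.1, (v2 z hz).1.2, fun h => (v2 z hz).2.2 (by rw [h]; exact mem_insert_self _ _),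
        fun h => (v2 z hz).2.2 (mem_insert_of_mem (List.mem_toFinset.2 h))⟩⟩)⟩

/-- **Rigid branch anywhere: the rest is embedded first, the host of the branch is found in a reserve.** -/
theorem avoidG (b m m₀ N : ℕ) (hb : 1 ≤ b) (hN : 1 ≤ N) {κ ε θ : ℝ} (hκ : 0 < κ) (hε : 0 < ε) (hθ : 0 < θ) :
    ∃ δ₀ : ℝ, 0 < δ₀ ∧ ∀ δ : ℝ, 0 < δ → 2 * (m + 2) * δ ≤ δ₀ → ∀ γ₂ : ℝ, 0 < γ₂ → γ₂ ≤ δ₀ → ∀ ν : ℝ, 0 < ν → ∀ K : ℕ,
      ∃ n₀ : ℕ, ∀ {V : Type} {R : V → V → Prop}, AE32.Tour R → ∀ (X B G : Finset V) (Nr : V → Prop)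
        (𝓕 : Finset (Finset V)) (x : ℕ → V), n₀ ≤ X.card → 𝓕.card ≤ K * X.card ^ 2 → B ⊆ X →
        (B.card : ℝ) ≤ γ₂ / 32 * X.card → G ⊆ X → γ₂ * X.card ≤ G.card →
        (∀ u ∈ X, u ∉ G → 16 * (nO R G u).card ≤ G.card) → (∀ i < N, x i ∈ B) →
        (∀ i < N, ∀ j < N, x i = x j → i = j) → ∀ M : AEJ.Mn, M.un.len ≤ b → M.un.Deg b →
        (M.un.size + 1 : ℝ) ≤ (1 - θ) * X.card →
        ε * X.card ≤ ((X.filter (fun z => Nr z ∧ Wide R κ ((dcl M.un + 1) + ε * X.card) X z ∧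
          Wide (fun a b => R b a) κ ((AEB.blk M.un + 1) + ε * X.card) X z)).card : ℝ) →
        ∃ S : ℕ → Finset V, (∀ j ≤ m, S j ⊆ X \ B ∧ Rep (X \ B) 𝓕 ν (S j) ∧ δ * X.card ≤ ((S j).card : ℝ) ∧
            ((S j).card : ℝ) ≤ 2 * δ * X.card) ∧ (∀ i ≤ m, ∀ j ≤ m, i ≠ j → Disjoint (S i) (S j)) ∧
          (∃ (z : V) (A : Finset V) (w : V), AEJ.EmbM R M z A w ∧ z ∉ A ∧ Nr z ∧ insert z A ⊆ (X \ B) \ (range (m + 1)).biUnion S ∧
            γ₂ / 4 * X.card ≤ ((nI R G w).card : ℝ)) ∧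
          (∃ (z : V) (A : Finset V) (w : V), AEJ.EmbM R M z A w ∧ z ∉ A ∧ Nr z ∧ insert z A ⊆ (X \ B) \ (range (m + 1)).biUnion S ∧
            ((∃ i < N, R (x i) w) ∨
            (∃ (y : V) (wy : List V), (y ∈ ((X \ B) \ (range (m + 1)).biUnion S) \ insert z A ∧ y ∈ G ∧ R y w ∧ wy.length = m₀ ∧
              wy.Pairwise R ∧ ∀ a ∈ wy, a ∈ G ∧ R a y ∧ a ∈ ((X \ B) \ (range (m + 1)).biUnion S) \ insert z A) ∧
              ∃ i < N, R y (x i)) ∨
            (∃ (y : V) (wy : List V) (f : V) (wf : List V), (y ∈ ((X \ B) \ (range (m + 1)).biUnion S) \ insert z A ∧ y ∈ G ∧ R y w ∧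
              wy.length = m₀ ∧ wy.Pairwise R ∧
              ∀ a ∈ wy, a ∈ G ∧ R a y ∧ a ∈ ((X \ B) \ (range (m + 1)).biUnion S) \ insert z A) ∧
              γ₂ / 4 * X.card ≤ ((nO R G y).card : ℝ) ∧ f ∈ ((X \ B) \ (range (m + 1)).biUnion S) \ insert z A ∧
              f ∉ G ∧ R y f ∧ N ≤ 2 * ((range N).filter (fun i => R f (x i))).card ∧ wf.length = m₀ ∧
              wf.Pairwise R ∧ ∀ a ∈ wf, a ∈ G ∧ R a f ∧
                a ∈ ((X \ B) \ (range (m + 1)).biUnion S) \ insert z A ∧ a ≠ y ∧ a ∉ wy))) := by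
  obtain ⟨d₀, hd₀, hav⟩ := avoid b (m + 1) hb hκ hε hθ
  refine ⟨d₀, hd₀, ?_⟩
  intro δ hδ hδδ γ₂ hγ₂ hγδ ν hν K
  obtain ⟨ν', hν'⟩ : ∃ ν' : ℝ, ν' = min ν (γ₂ / 64) := ⟨_, rfl⟩
  have v1 : 0 < ν' := by rw [hν']; exact lt_min hν (by positivity)
  have v2 : ν' ≤ ν := by rw [hν']; exact min_le_left _ _
  have v3 : ν' ≤ γ₂ / 64 := by rw [hν']; exact min_le_right _ _
  obtain ⟨n₁, hav⟩ := hav δ hδ (by push_cast; linarith) ν' v1 (K + 4)
  obtain ⟨k, hk⟩ : ∃ k : ℕ, k = 2 ^ m₀ + (m₀ + 1) := ⟨_, rfl⟩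
  have hk1 : 1 ≤ k := by
    rw [hk]
    exact (Nat.succ_le_succ (Nat.zero_le m₀)).trans (Nat.le_add_left _ _)
  refine ⟨n₁ + ⌈64 * k / (γ₂ * δ)⌉₊ + ⌈128 / γ₂⌉₊ + 1, ?_⟩
  intro V R hT X B G Nr 𝓕 x hn h𝓕 hBX hB hGX hG h16 hxB hxi M hl hdg hc hNr
  have hX0 : 0 < X.card := by omega
  obtain ⟨n, hnn⟩ : ∃ n : ℝ, n = (X.card : ℝ) := ⟨_, rfl⟩
  have hn0 : 0 < n := by rw [hnn]; exact_mod_cast hX0
  have hnk : 64 * k ≤ γ₂ * δ * n := by
    have h1 : 64 * k / (γ₂ * δ) ≤ n := by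
      rw [hnn]
      exact (Nat.le_ceil _).trans (Nat.cast_le.2 (by omega))
    rw [div_le_iff₀ (by positivity)] at h1
    linarith
  have hn128 : 128 ≤ γ₂ * n := by
    have h1 : 128 / γ₂ ≤ n := by
      rw [hnn]
      exact (Nat.le_ceil _).trans (Nat.cast_le.2 (by omega))
    rw [div_le_iff₀ hγ₂] at h1
    linarith
  rw [← hnn] at hB hG
  obtain ⟨a, ha⟩ : ∃ a : ℕ, a = ⌈γ₂ / 4 * n⌉₊ := ⟨_, rfl⟩
  obtain ⟨a', ha'⟩ : ∃ a' : ℕ, a' = ⌈γ₂ / 16 * n⌉₊ := ⟨_, rfl⟩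
  have ha1 : (a : ℝ) ≤ γ₂ / 4 * n + 1 := by
    rw [ha]
    exact (Nat.ceil_lt_add_one (by positivity)).le
  have ha2 : γ₂ / 4 * n ≤ (a : ℝ) := by
    rw [ha]
    exact Nat.le_ceil _
  have ha1' : (a' : ℝ) ≤ γ₂ / 16 * n + 1 := by
    rw [ha']
    exact (Nat.ceil_lt_add_one (by positivity)).le
  have ha2' : γ₂ / 16 * n ≤ (a' : ℝ) := by
    rw [ha']
    exact Nat.le_ceil _
  obtain ⟨D, hD⟩ : ∃ D, D = G.filter (fun v => (∃ i < N, R v (x i)) ∧ a' ≤ (nI R G v).card) := ⟨_, rfl⟩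
  obtain ⟨Lo, hLo⟩ : ∃ Lo, Lo = (X \ G).filter (fun v => N ≤ 2 * ((range N).filter (fun i => R v (x i))).card) :=
    ⟨_, rfl⟩
  obtain ⟨T, hTy⟩ : ∃ T, T = G.filter (fun y => Lo.card ≤ 2 * (nO R Lo y).card ∧ a' ≤ (nI R G y).card ∧
    a ≤ (nO R G y).card) := ⟨_, rfl⟩
  have hDX : D ⊆ X := by rw [hD]; exact (filter_subset _ _).trans hGX
  have hLX : Lo ⊆ X := by rw [hLo]; exact (filter_subset _ _).trans sdiff_subset
  have hTX : T ⊆ X := by rw [hTy]; exact (filter_subset _ _).trans hGX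
  obtain ⟨𝓠, h𝓠⟩ : ∃ 𝓠, 𝓠 = (X.image (nI R D) ∪ X.image (nI R T)) ∪ (X.image (nO R Lo) ∪ X.image (nI R G)) := ⟨_, rfl⟩
  have h𝓠c : 𝓠.card ≤ 4 * X.card ^ 2 := by
    have h1 : 𝓠.card ≤ (X.card + X.card) + (X.card + X.card) := by
      rw [h𝓠]
      refine (card_union_le _ _).trans (Nat.add_le_add ((card_union_le _ _).trans ?_) ((card_union_le _ _).trans ?_))
      · exact Nat.add_le_add card_image_le card_image_le
      · exact Nat.add_le_add card_image_le card_image_le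
    have h2 : X.card ≤ X.card ^ 2 := Nat.le_self_pow (by norm_num) _
    omega
  obtain ⟨S, hS, hdis, hW⟩ := hav hT X B (𝓕 ∪ 𝓠) (by omega) (by
    refine (card_union_le _ _).trans ?_
    have : (K + 4) * X.card ^ 2 = K * X.card ^ 2 + 4 * X.card ^ 2 := by ring
    omega) (by
    rw [← hnn]
    refine hB.trans (mul_le_mul_of_nonneg_right ?_ hn0.le)
    linarith)
  obtain ⟨W, hWU, hWc, hWe⟩ := hW Nr M hl hdg hc hNr
  rw [← hnn] at hWc
  -- the reserve
  obtain ⟨Y, hYd⟩ : ∃ Y, Y = S (m + 1) := ⟨_, rfl⟩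
  obtain ⟨U, hU⟩ : ∃ U, U = (range (m + 1)).biUnion S := ⟨_, rfl⟩
  have hU2 : (range (m + 1 + 1)).biUnion S = U ∪ Y := by
    rw [range_add_one, biUnion_insert, ← hU, ← hYd, union_comm]
  obtain ⟨hYX, hYR, hYc, -⟩ := hS (m + 1) le_rfl
  rw [← hYd] at hYX hYR hYc
  rw [← hnn] at hYc
  have hYU : Disjoint Y U := by
    rw [hU, disjoint_biUnion_right]
    intro j hj
    rw [mem_range] at hj
    rw [hYd]
    exact hdis (m + 1) le_rfl j (by omega) (by omega)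
  rw [hU2] at hWU hWe
  have hmeet : ∀ F ∈ 𝓠, F ⊆ X → a' ≤ F.card → k ≤ (F ∩ Y).card := by
    intro F hF hFX hFc
    have h1 := rep_meet' hYR (mem_union_right _ hF) hFX hX0
    rw [← hnn] at h1
    have h2 : γ₂ / 64 ≤ ((F.card : ℝ) - B.card) / n - ν' := by
      have h3 : γ₂ / 32 ≤ ((F.card : ℝ) - B.card) / n := by
        rw [le_div_iff₀ hn0]
        have h4 : (a' : ℝ) ≤ F.card := by exact_mod_cast hFc
        linarith
      linarith
    have h3 : γ₂ / 64 * (δ * n) ≤ ((F ∩ Y).card : ℝ) :=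
      (mul_le_mul h2 hYc (by positivity) (le_trans (by positivity) h2)).trans h1
    have h4 : (k : ℝ) ≤ (F ∩ Y).card := by
      have h5 : γ₂ / 64 * (δ * n) = γ₂ * δ * n / 64 := by ring
      linarith
    exact_mod_cast h4
  have hne : ∀ F ∈ 𝓠, F ⊆ X → a' ≤ F.card → (F ∩ Y).Nonempty := fun F hF hFX hFc =>
    card_pos.1 (by have := hmeet F hF hFX hFc; omega)
  have hWX : W ⊆ X := hWU.trans (sdiff_subset.trans sdiff_subset)
  have hxW : ∀ i < N, x i ∉ W := fun i hi h => (mem_sdiff.1 (mem_sdiff.1 (hWU h)).1).2 (hxB i hi)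
  have hW1 : γ₂ * n ≤ (W.card : ℝ) := (mul_le_mul_of_nonneg_right hγδ hn0.le).trans hWc
  have hG1 : 48 * a' + 32 * a ≤ 13 * G.card := by
    have : (48 * a' + 32 * a : ℝ) ≤ 13 * G.card := by linarith
    exact_mod_cast this
  have hW2 : 8 * a' < W.card := by
    have : (8 * a' : ℝ) < W.card := by linarith
    exact_mod_cast this
  have hW3 : 2 * a < W.card := by
    have : (2 * a : ℝ) < W.card := by linarith
    exact_mod_cast this
  have hsub : ∀ z A, insert z A ⊆ (X \ B) \ (U ∪ Y) → insert z A ⊆ (X \ B) \ U := by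
    intro z A h v hv
    have h1 := h hv
    rw [mem_sdiff, mem_union, not_or] at h1
    exact mem_sdiff.2 ⟨h1.1, h1.2.1⟩
  have hfree : ∀ z A, insert z A ⊆ (X \ B) \ (U ∪ Y) → ∀ v ∈ Y, v ∈ ((X \ B) \ U) \ insert z A := by
    intro z A h v hv
    rw [mem_sdiff, mem_sdiff]
    refine ⟨⟨hYX hv, disjoint_left.1 hYU hv⟩, fun h1 => ?_⟩
    have h2 := h h1
    rw [mem_sdiff, mem_union, not_or] at h2
    exact h2.2.2 hv
  refine ⟨S, ?_, fun i hi j hj hij => hdis i (by omega) j (by omega) hij, ?_, ?_⟩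
  · intro j hj
    obtain ⟨s1, s2, s3, s4⟩ := hS j (by omega)
    refine ⟨s1, ?_, s3, s4⟩
    intro F hF
    exact AEZ.rep_mono s2 v2 F (mem_union_left _ hF)
  · rw [← hU]
    obtain ⟨w, hw, hwa⟩ := select0 hT hWX h16 (by omega) hW3
    obtain ⟨z, -, A, hNz, hzA, hzU, hemb⟩ := hWe w hw
    refine ⟨z, A, w, hemb, hzA, hNz, hsub z A hzU, ?_⟩
    rw [← hnn]
    exact ha2.trans (by exact_mod_cast hwa)
  · rw [← hU]
    obtain ⟨w, hw, h⟩ := select_host (m₀ := m₀) (Y := Y) hT hN hD hLo hTy hGX hWX hxW h16 hG1 hW2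
      (fun w hw h => hne _ (by
        rw [h𝓠]
        exact mem_union_left _ (mem_union_left _ (mem_image_of_mem _ hw))) (nI_sub.trans hDX) h)
      (fun w hw h => hne _ (by
        rw [h𝓠]
        exact mem_union_left _ (mem_union_right _ (mem_image_of_mem _ hw))) (nI_sub.trans hTX) h)
      (fun w hw h => hne _ (by
        rw [h𝓠]
        exact mem_union_right _ (mem_union_left _ (mem_image_of_mem _ hw))) (nO_sub.trans hLX) h)
      (fun w hw h => by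
        rw [← hk]
        exact hmeet _ (by
          rw [h𝓠]
          exact mem_union_right _ (mem_union_right _ (mem_image_of_mem _ hw))) (nI_sub.trans hGX) h)
    obtain ⟨z, -, A, hNz, hzA, hzU, hemb⟩ := hWe w hw
    have hfr := hfree z A hzU
    refine ⟨z, A, w, hemb, hzA, hNz, hsub z A hzU, ?_⟩
    rcases h with h | ⟨y, wy, ⟨y1, y2, y3, y4, y5, y6⟩, h⟩ |
      ⟨y, wy, f, wf, ⟨y1, y2, y3, y4, y5, y6⟩, f1, f2, f3, f4, f5, f6, f7, f8⟩
    · exact Or.inl h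
    · exact Or.inr (Or.inl ⟨y, wy, ⟨hfr y y1, y2, y3, y4, y5, fun c hc =>
        ⟨(y6 c hc).1, (y6 c hc).2.1, hfr c (y6 c hc).2.2⟩⟩, h⟩)
    · refine Or.inr (Or.inr ⟨y, wy, f, wf, ⟨hfr y y1, y2, y3, y4, y5, fun c hc =>
        ⟨(y6 c hc).1, (y6 c hc).2.1, hfr c (y6 c hc).2.2⟩⟩, ?_, hfr f f2, f3, f4, f5, f6, f7, fun c hc =>
        ⟨(f8 c hc).1, (f8 c hc).2.1, hfr c (f8 c hc).2.2.1, (f8 c hc).2.2.2.1, (f8 c hc).2.2.2.2⟩⟩)
      rw [← hnn]
      exact ha2.trans (by exact_mod_cast f1)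

end AER
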