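import Pool.Agent.AER.RouteA
import Pool.Agent.AEJ.Mark

/-!
# Rigid branches anywhere: gluing the branch to the rest, whose marked vertex carries the branch
-/

set_option autoImplicit false

namespace AER

open Finset AE15 AED AELT AEB
open scoped Classical

variable {V : Type} {R : V → V → Prop}

private theorem single_embL {p : Bool × Fd} {w x1 : V} {A : Finset V} (h1 : Adj R p.1 w x1) (h2 : x1 ∉ A)
    (h3 : Emb R p.2 x1 A) : EmbL R w [p] (insert x1 A) :=
  ⟨insert x1 A, ∅, disjoint_empty_right _, (union_empty _).symm, ⟨x1, A, h1, h2, rfl, h3⟩, rfl⟩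

/-- the rest of the tree is embedded with its marked vertex at `w`, the branch hangs partially on `y`, and all items can be
embedded in whatever is left (nothing is wasted) -/
theorem glue_mark {X Z A : Finset V} {y z w : V} {N : V → Prop} {F : Fd} {M : AEJ.Mn} {L : List (V × Fd)} {C : ℝ}
    (hyX : y ∈ X) (hZX : Z ⊆ X) (hyZ : y ∉ Z) (hPE : PE R F y Z L) (hzX : z ∈ X) (hAX : A ⊆ X) (hNz : N z) (hzA : z ∉ A)
    (hM : AEJ.EmbM R M z A w) (hyw : R y w) (hyA : y ∉ insert z A) (hZA : Disjoint Z (insert z A))
    (hit : (AEB.isz L : ℝ) + C ≤ (((X \ insert y Z) \ insert z A).card : ℝ) →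
      ∃ B ⊆ (X \ insert y Z) \ insert z A, EmbI R L B)
    (hcard : ((M.plug (false, F)).size + 1 : ℝ) + C ≤ X.card) : In R (M.plug (false, F)) N X := by
  obtain ⟨P, hP⟩ : ∃ P, P = (X \ insert y Z) \ insert z A := ⟨_, rfl⟩
  rw [← hP] at hit
  have hmP : ∀ a, a ∈ P → a ∈ X ∧ a ∉ insert y Z ∧ a ∉ insert z A := by
    intro a ha
    rw [hP, mem_sdiff, mem_sdiff] at ha
    exact ⟨ha.1.1, ha.1.2, ha.2⟩
  have hsz := hPE.size
  have hAc := hM.emb.card
  have hPc : (AEB.isz L : ℝ) + C ≤ P.card := by
    have h1 : X.card ≤ P.card + ((insert y Z).card + (insert z A).card) := by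
      have h2 : X ⊆ P ∪ (insert y Z ∪ insert z A) := by
        intro a ha
        rw [mem_union, mem_union, hP, mem_sdiff, mem_sdiff]
        tauto
      exact (card_le_card h2).trans ((card_union_le _ _).trans (Nat.add_le_add_left (card_union_le _ _) _))
    rw [card_insert_of_notMem hyZ, card_insert_of_notMem hzA, hAc] at h1
    have h4 : (X.card : ℝ) ≤ P.card + ((Z.card + 1) + (M.un.size + 1)) := by exact_mod_cast h1
    have h5 : (F.size : ℝ) = Z.card + AEB.isz L := by exact_mod_cast hsz
    have h6 : ((M.plug (false, F)).size : ℝ) = M.un.size + (F.size + 1) := by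
      rw [AEJ.Mn.size_plug]
      push_cast
      ring
    linarith
  obtain ⟨B, hBP, hB⟩ := hit hPc
  have hZB : Disjoint Z B := by
    rw [disjoint_left]
    intro a ha ha2
    exact (hmP a (hBP ha2)).2.1 (mem_insert_of_mem ha)
  have hemF := hPE.complete hB hZB
  have hyB : y ∉ Z ∪ B := by
    rw [mem_union, not_or]
    exact ⟨hyZ, fun h => (hmP y (hBP h)).2.1 (mem_insert_self _ _)⟩
  have hdis : Disjoint (insert y (Z ∪ B)) (insert z A) := by
    rw [disjoint_left]
    intro a ha ha2
    rcases mem_insert.1 ha with rfl | ha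
    · exact hyA ha2
    · rcases mem_union.1 ha with ha | ha
      · exact disjoint_left.1 hZA ha ha2
      · exact (hmP a (hBP ha)).2.2 ha2
  have hem := hM.plug (p := (false, F)) hzA hdis (single_embL (by simpa [Adj] using hyw) hyB hemF)
  refine ⟨z, hzX, A ∪ insert y (Z ∪ B), ?_, ?_, hNz, hem⟩
  · intro a ha
    rcases mem_union.1 ha with ha | ha
    · exact hAX ha
    rcases mem_insert.1 ha with rfl | ha
    · exact hyX
    rcases mem_union.1 ha with ha | ha
    · exact hZX ha
    · exact (hmP a (hBP ha)).1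
  · rw [mem_union, not_or]
    exact ⟨hzA, fun h => disjoint_left.1 hdis h (mem_insert_self _ _)⟩

/-- the whole branch is embedded at once, its root dominates the host `w` of the marked vertex -/
theorem glue_mark_whole {X A : Finset V} {z w : V} {N : V → Prop} {F : Fd} {M : AEJ.Mn} {C : ℝ} (hzX : z ∈ X)
    (hAX : A ⊆ X) (hNz : N z) (hzA : z ∉ A) (hM : AEJ.EmbM R M z A w)
    (hit : 1 * (F.size + 1 : ℝ) + C ≤ ((X \ insert z A).card : ℝ) → In R F (fun v => R v w) (X \ insert z A))
    (hcard : ((M.plug (false, F)).size + 1 : ℝ) + C ≤ X.card) : In R (M.plug (false, F)) N X := by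
  obtain ⟨P, hP⟩ : ∃ P, P = X \ insert z A := ⟨_, rfl⟩
  rw [← hP] at hit
  have hmP : ∀ a, a ∈ P → a ∈ X ∧ a ∉ insert z A := by
    intro a ha
    rw [hP, mem_sdiff] at ha
    exact ha
  have hAc := hM.emb.card
  have hPc : 1 * (F.size + 1 : ℝ) + C ≤ P.card := by
    have h1 : X.card ≤ P.card + (insert z A).card := by
      have h2 : X ⊆ P ∪ insert z A := by
        intro a ha
        rw [mem_union, hP, mem_sdiff]
        tauto
      exact (card_le_card h2).trans (card_union_le _ _)
    rw [card_insert_of_notMem hzA, hAc] at h1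
    have h4 : (X.card : ℝ) ≤ P.card + (M.un.size + 1) := by exact_mod_cast h1
    have h6 : ((M.plug (false, F)).size : ℝ) = M.un.size + (F.size + 1) := by
      rw [AEJ.Mn.size_plug]
      push_cast
      ring
    linarith
  obtain ⟨y, hyP, B, hBP, hyB, hyw, hB⟩ := hit hPc
  have hdis : Disjoint (insert y B) (insert z A) := by
    rw [disjoint_left]
    intro a ha ha2
    rcases mem_insert.1 ha with rfl | ha
    · exact (hmP _ hyP).2 ha2
    · exact (hmP a (hBP ha)).2 ha2
  have hem := hM.plug (p := (false, F)) hzA hdis (single_embL (by simpa [Adj] using hyw) hyB hB)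
  refine ⟨z, hzX, A ∪ insert y B, ?_, ?_, hNz, hem⟩
  · intro a ha
    rcases mem_union.1 ha with ha | ha
    · exact hAX ha
    rcases mem_insert.1 ha with rfl | ha
    · exact (hmP _ hyP).1
    · exact (hmP a (hBP ha)).1
  · rw [mem_union, not_or]
    exact ⟨hzA, fun h => disjoint_left.1 hdis h (mem_insert_self _ _)⟩

/-- pairwise disjoint lists of in-neighbours of the given hosts, in the structure set -/
theorem exists_La (hT : AE32.Tour R) (m N : ℕ) (G : Finset V) (x : ℕ → V)
    (hx : ∀ i < N, 2 ^ m + N * (m + 1) ≤ (nI R G (x i)).card) : ∃ La : ℕ → List V,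
      (∀ i < N, (La i).length = m ∧ (La i).Pairwise R ∧ ∀ z ∈ La i, z ∈ G ∧ R z (x i) ∧ ∀ j < N, z ≠ x j) ∧
      ∀ i < N, ∀ j < N, i ≠ j → ∀ z ∈ La i, z ∉ La j := by
  have key : ∀ k ≤ N, ∃ La : ℕ → List V,
      (∀ i < k, (La i).length = m ∧ (La i).Pairwise R ∧ ∀ z ∈ La i, z ∈ G ∧ R z (x i) ∧ ∀ j < N, z ≠ x j) ∧
      ∀ i < k, ∀ j < k, i ≠ j → ∀ z ∈ La i, z ∉ La j := by
    intro k
    induction k with
    | zero => exact fun _ => ⟨fun _ => [], fun i hi => absurd hi (by omega), fun i hi => absurd hi (by omega)⟩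
    | succ k ih =>
      intro hk
      obtain ⟨La, h1, h2⟩ := ih (by omega)
      obtain ⟨av, hav⟩ : ∃ av, av = (range N).image x ∪ (range k).biUnion (fun i => (La i).toFinset) := ⟨_, rfl⟩
      have hc : av.card ≤ N * (m + 1) := by
        have g1 : ((range N).image x).card ≤ N := by simpa using card_image_le (s := range N) (f := x)
        have g2 : ((range k).biUnion (fun i => (La i).toFinset)).card ≤ k * m := by
          refine card_biUnion_le.trans ?_
          refine (sum_le_card_nsmul _ _ m fun i hi => ?_).trans ?_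
          · exact (List.toFinset_card_le _).trans (h1 i (mem_range.1 hi)).1.le
          · rw [card_range, smul_eq_mul]
        have g3 := card_union_le ((range N).image x) ((range k).biUnion (fun i => (La i).toFinset))
        have g4 : k * m ≤ N * m := Nat.mul_le_mul_right _ (by omega)
        have g5 : N * (m + 1) = N * m + N := by ring
        rw [hav]
        omega
      obtain ⟨w, w1, w2, w3⟩ := lists hT m G av (x k) (by
        have := hx k (by omega)
        omega)
      have hw : ∀ z ∈ w, (∀ j < N, z ≠ x j) ∧ ∀ i < k, z ∉ La i := by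
        intro z hz
        have g1 := (w2 z hz).2.2
        rw [hav, mem_union, not_or] at g1
        refine ⟨fun j hj h => g1.1 (mem_image.2 ⟨j, mem_range.2 hj, h.symm⟩), fun i hi h => g1.2 ?_⟩
        exact mem_biUnion.2 ⟨i, mem_range.2 hi, List.mem_toFinset.2 h⟩
      refine ⟨fun i => if i = k then w else La i, ?_, ?_⟩
      · intro i hi
        by_cases hik : i = k
        · subst hik
          simp only [if_true]
          exact ⟨w1, w3, fun z hz => ⟨(w2 z hz).1, (w2 z hz).2.1, (hw z hz).1⟩⟩
        · simp only [if_neg hik]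
          exact h1 i (by omega)
      · intro i hi j hj hij z
        by_cases hik : i = k
        · subst hik
          simp only [if_true, if_neg (Ne.symm hij)]
          exact fun hz => (hw z hz).2 j (by omega)
        · simp only [if_neg hik]
          by_cases hjk : j = k
          · subst hjk
            simp only [if_true]
            exact fun hz hz2 => (hw z hz2).2 i (by omega) hz
          · simp only [if_neg hjk]
            exact fun hz => h2 i (by omega) j (by omega) hij z hz
  exact key N le_rfl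

/-- the slots at the hosts dominated by `f`, with the given lists -/
theorem slots_fix (hT : AE32.Tour R) {m N k : ℕ} {G : Finset V} {x : ℕ → V} {La : ℕ → List V}
    (hxi : ∀ i < N, ∀ j < N, x i = x j → i = j)
    (h1 : ∀ i < N, (La i).length = m ∧ (La i).Pairwise R ∧ ∀ z ∈ La i, z ∈ G ∧ R z (x i) ∧ ∀ j < N, z ≠ x j)
    (h2 : ∀ i < N, ∀ j < N, i ≠ j → ∀ z ∈ La i, z ∉ La j) {f : V}
    (hk : k ≤ ((range N).filter (fun i => R f (x i))).card) : ∃ sl : List (V × List V), sl.length = k ∧
      (slv sl).length = k * (m + 1) ∧ (∀ q ∈ sl, Slot R f m q ∧ ∃ i < N, q = (x i, La i)) ∧ (slv sl).Nodup := by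
  obtain ⟨s, hs, hsc⟩ := exists_subset_card_eq hk
  have hsN : ∀ i ∈ s, i < N ∧ R f (x i) := by
    intro i hi
    have := hs hi
    rw [mem_filter, mem_range] at this
    exact this
  refine ⟨s.toList.map (fun i => (x i, La i)), ?_, ?_, ?_, ?_⟩
  · rw [List.length_map, length_toList, hsc]
  · rw [slv, List.flatMap_map, List.length_flatMap]
    have h3 : (s.toList.map (fun i => (x i :: La i).length)) = s.toList.map (fun _ => m + 1) := by
      apply List.map_congr_left
      intro i hi
      rw [List.length_cons, (h1 i (hsN i (mem_toList.1 hi)).1).1]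
    simp only [List.length_cons] at h3 ⊢
    rw [h3, List.map_const', List.sum_replicate, length_toList, hsc, smul_eq_mul]
  · intro q hq
    obtain ⟨i, hi, rfl⟩ := List.mem_map.1 hq
    obtain ⟨g1, g2⟩ := hsN i (mem_toList.1 hi)
    obtain ⟨g3, g4, g5⟩ := h1 i g1
    exact ⟨⟨g2, g4, fun z hz => (g5 z hz).2.1, g3.ge⟩, i, g1, rfl⟩
  · rw [slv, List.flatMap_map, List.nodup_flatMap]
    refine ⟨?_, ?_⟩
    · intro i hi
      obtain ⟨g1, g2⟩ := hsN i (mem_toList.1 hi)
      obtain ⟨g3, g4, g5⟩ := h1 i g1
      rw [List.nodup_cons]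
      exact ⟨fun h => (g5 _ h).2.2 i g1 rfl, tl_nodup hT g4⟩
    · have h3 : s.toList.Nodup := nodup_toList s
      refine List.Pairwise.imp_of_mem ?_ h3
      intro i j hi hj hij a ha ha2
      have hi' := (hsN i (mem_toList.1 hi)).1
      have hj' := (hsN j (mem_toList.1 hj)).1
      simp only [List.mem_cons] at ha ha2
      rcases ha with ha | ha
      · rcases ha2 with ha2 | ha2
        · exact hij (hxi i hi' j hj' (ha ▸ ha2))
        · exact ((h1 j hj').2.2 a ha2).2.2 i hi' ha
      · rcases ha2 with ha2 | ha2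
        · exact ((h1 i hi').2.2 a ha).2.2 j hj' ha2
        · exact h2 i hi' j hj' hij a ha ha2

end AER
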