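import Pool.Agent.AER.RouteA
import Pool.Agent.AET.BlocksL

/-!
# Partial embeddings of the top of a branch, with a condition on the pending items
-/

set_option autoImplicit false

namespace AER

open Finset AE15 AED AELT AEB
open scoped Classical

section W

variable {V : Type*} {R : V → V → Prop}

/-- the in-trees: blocks on the list `w`; the out-trees: the roots in the slots, with their blocks; everything else is
pending -/
theorem pel_topsW (hT : AE32.Tour R) {W : Fd → Prop} (f : V) (B : ℕ) (ts : List (Bool × Fd)) :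
    (∀ p ∈ ts, AET.OutB W p.2) → ∀ (w : List V) (sl : List (V × List V)),
    w.Pairwise R → (∀ z ∈ w, R z f) → (ts.map (fun p => if p.1 then 0 else blk p.2 + 1)).sum ≤ w.length →
    (∀ p ∈ ts, p.1 = true → blk p.2 ≤ B) → ts.length ≤ sl.length → (∀ q ∈ sl, Slot R f B q) →
    (w ++ slv sl).Nodup → ∃ Z L, PEL R f ts Z L ∧ Z ⊆ (w ++ slv sl).toFinset ∧ (∀ p ∈ L, p.1 ∈ Z) ∧
      (∀ c, (true, c) ∈ ts → ∃ q ∈ sl, q.1 ∈ Z ∧ ∀ c', (true, c') ∈ c.trees → (q.1, c') ∈ L) ∧
      ∀ q ∈ L, W q.2 := by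
  induction ts with
  | nil =>
    intro _ w sl _ _ _ _ _ _ _
    exact ⟨∅, [], ⟨rfl, rfl⟩, by simp, by simp, by simp, by simp⟩
  | cons p ts ih =>
    intro hQ w sl hw hwf hl hB hlen hsl hnd
    obtain ⟨d, c⟩ := p
    have hQc : AET.OutB W c := hQ (d, c) List.mem_cons_self
    have hQs : ∀ p ∈ ts, AET.OutB W p.2 := fun p hp => hQ p (List.mem_cons_of_mem _ hp)
    cases d with
    | true =>
      obtain _ | ⟨q, sl⟩ := sl
      · simp at hlen
      simp only [List.map_cons, List.sum_cons, if_true, Nat.zero_add] at hl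
      obtain ⟨s1, s2, s3, s4⟩ := hsl q List.mem_cons_self
      have hbc : blk c ≤ q.2.length := (hB (true, c) List.mem_cons_self rfl).trans s4
      obtain ⟨Z₁, L₁, h1, h2, h3, hq₁⟩ := AET.pe_block hT c hQc q.1 q.2 s2 s3 hbc
      have hnd' : (w ++ slv sl).Nodup := by
        refine hnd.sublist ?_
        refine List.Sublist.append_left ?_ w
        rw [slv, slv, List.flatMap_cons]
        exact List.sublist_append_right _ _
      obtain ⟨Z₂, L₂, h4, h5, h6, h7, hq₂⟩ := ih hQs w sl hw hwf hl (fun p hp => hB p (List.mem_cons_of_mem _ hp))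
        (by simpa using hlen) (fun q' hq' => hsl q' (List.mem_cons_of_mem _ hq')) hnd'
      have hq1 : q.1 ∉ Z₁ := fun h => hT.irr _ (s3 _ (List.mem_toFinset.1 (h2 h)))
      -- the vertices of the first slot are not among the others
      have hdis : ∀ a, a = q.1 ∨ a ∈ q.2 → a ∉ w ++ slv sl := by
        intro a ha hb
        have h8 : slv (q :: sl) = (q.1 :: q.2) ++ slv sl := by rw [slv, slv, List.flatMap_cons]
        rw [h8] at hnd
        rw [List.nodup_append] at hnd
        obtain ⟨n1, n2, n3⟩ := hnd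
        rw [List.nodup_append] at n2
        obtain ⟨n4, n5, n6⟩ := n2
        have ha' : a ∈ q.1 :: q.2 := List.mem_cons.2 ha
        rcases List.mem_append.1 hb with hb | hb
        · exact n3 a hb a (List.mem_append_left _ ha') rfl
        · exact n6 a ha' a hb rfl
      have hd : Disjoint (insert q.1 Z₁) Z₂ := by
        rw [disjoint_left]
        intro a ha ha2
        refine hdis a ?_ (List.mem_toFinset.1 (h5 ha2))
        rcases mem_insert.1 ha with h8 | h8
        · exact Or.inl h8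
        · exact Or.inr (List.mem_toFinset.1 (h2 h8))
      refine ⟨insert q.1 Z₁ ∪ Z₂, L₁ ++ L₂, ⟨insert q.1 Z₁, Z₂, L₁, L₂, hd, rfl, rfl, Or.inr ⟨q.1, Z₁, by
        simpa [Adj] using s1, hq1, rfl, h1⟩, h4⟩, ?_, ?_, ?_,
        fun q hq' => (List.mem_append.1 hq').elim (hq₁ q) (hq₂ q)⟩
      · intro a ha
        rw [List.mem_toFinset, List.mem_append, mem_slv]
        rcases mem_union.1 ha with h8 | h8
        · right
          refine ⟨q, List.mem_cons_self, ?_⟩
          rcases mem_insert.1 h8 with h9 | h9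
          · exact Or.inl h9
          · exact Or.inr (List.mem_toFinset.1 (h2 h9))
        · have h9 := List.mem_toFinset.1 (h5 h8)
          rcases List.mem_append.1 h9 with h10 | h10
          · exact Or.inl h10
          · obtain ⟨q', h11, h12⟩ := mem_slv.1 h10
            exact Or.inr ⟨q', List.mem_cons_of_mem _ h11, h12⟩
      · intro p hp
        rcases List.mem_append.1 hp with hp | hp
        · rcases (AET.PE.host h1 p hp).1 with h8 | h8
          · rw [h8]
            exact mem_union_left _ (mem_insert_self _ _)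
          · exact mem_union_left _ (mem_insert_of_mem h8)
        · exact mem_union_right _ (h6 p hp)
      · intro c₁ hc₁
        rcases List.mem_cons.1 hc₁ with h8 | h8
        · simp only [Prod.mk.injEq, true_and] at h8
          subst h8
          exact ⟨q, List.mem_cons_self, mem_union_left _ (mem_insert_self _ _), fun c' hc' =>
            List.mem_append_left _ (h3 c' hc')⟩
        · obtain ⟨q', h9, h10, h11⟩ := h7 c₁ h8
          exact ⟨q', List.mem_cons_of_mem _ h9, mem_union_right _ h10, fun c' hc' =>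
            List.mem_append_right _ (h11 c' hc')⟩
    | false =>
      replace hl : blk c + 1 + (ts.map (fun p => if p.1 then 0 else blk p.2 + 1)).sum ≤ w.length := by
        simpa only [List.map_cons, List.sum_cons, Bool.false_eq_true, if_false] using hl
      obtain ⟨w₁, y, w₂, rfl, hw₁⟩ : ∃ w₁ y w₂, w = w₁ ++ y :: w₂ ∧ w₁.length = blk c := by
        have h1 : blk c < w.length := by omega
        refine ⟨w.take (blk c), w[blk c], w.drop (blk c + 1), ?_, ?_⟩
        · rw [List.getElem_cons_drop, List.take_append_drop]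
        · rw [List.length_take]
          omega
      simp only [List.length_append, List.length_cons] at hl
      have hnd0 := tl_nodup hT hw
      rw [List.pairwise_append, List.pairwise_cons] at hw
      obtain ⟨hp1, ⟨hp2, hp3⟩, hp4⟩ := hw
      rw [List.nodup_append, List.nodup_cons] at hnd0
      obtain ⟨hn1, ⟨hn2, hn3⟩, hn4⟩ := hnd0
      obtain ⟨Z₁, L₁, h1, h2, h3, hq₁⟩ := AET.pe_block hT c hQc y w₁ hp1 (fun z hz => hp4 z hz y (by simp)) hw₁.ge
      have hnd' : (w₂ ++ slv sl).Nodup := by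
        refine hnd.sublist ?_
        refine List.Sublist.append_right ?_ _
        exact (List.sublist_cons_self y w₂).trans (List.sublist_append_right w₁ _)
      obtain ⟨Z₂, L₂, h4, h5, h6, h7, hq₂⟩ := ih hQs w₂ sl hp3 (fun z hz => hwf z (by simp [hz])) (by omega)
        (fun p hp => hB p (List.mem_cons_of_mem _ hp)) (by simp only [List.length_cons] at hlen; omega) hsl hnd'
      have hy1 : y ∉ Z₁ := fun h => hn4 y (List.mem_toFinset.1 (h2 h)) y (by simp) rfl
      have hdis : ∀ a, a = y ∨ a ∈ w₁ → a ∉ w₂ ++ slv sl := by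
        intro a ha hb
        rw [List.nodup_append] at hnd
        obtain ⟨n1, n2, n3⟩ := hnd
        have ha' : a ∈ w₁ ++ y :: w₂ := by
          rcases ha with rfl | ha
          · simp
          · simp [ha]
        rcases List.mem_append.1 hb with hb | hb
        · rcases ha with rfl | ha
          · exact hn2 hb
          · exact hn4 a ha a (by simp [hb]) rfl
        · exact n3 a ha' a hb rfl
      have hd : Disjoint (insert y Z₁) Z₂ := by
        rw [disjoint_left]
        intro a ha ha2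
        refine hdis a ?_ (List.mem_toFinset.1 (h5 ha2))
        rcases mem_insert.1 ha with h8 | h8
        · exact Or.inl h8
        · exact Or.inr (List.mem_toFinset.1 (h2 h8))
      refine ⟨insert y Z₁ ∪ Z₂, L₁ ++ L₂, ⟨insert y Z₁, Z₂, L₁, L₂, hd, rfl, rfl, Or.inr ⟨y, Z₁, by
        simpa [Adj] using hwf y (by simp), hy1, rfl, h1⟩, h4⟩, ?_, ?_, ?_,
        fun q hq' => (List.mem_append.1 hq').elim (hq₁ q) (hq₂ q)⟩
      · intro a ha
        rw [List.mem_toFinset, List.mem_append]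
        rcases mem_union.1 ha with h8 | h8
        · left
          rcases mem_insert.1 h8 with h9 | h9
          · simp [h9]
          · simp [List.mem_toFinset.1 (h2 h9)]
        · have h9 := List.mem_toFinset.1 (h5 h8)
          rcases List.mem_append.1 h9 with h10 | h10
          · left
            simp [h10]
          · exact Or.inr h10
      · intro p hp
        rcases List.mem_append.1 hp with hp | hp
        · rcases (AET.PE.host h1 p hp).1 with h8 | h8
          · rw [h8]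
            exact mem_union_left _ (mem_insert_self _ _)
          · exact mem_union_left _ (mem_insert_of_mem h8)
        · exact mem_union_right _ (h6 p hp)
      · intro c₁ hc₁
        rcases List.mem_cons.1 hc₁ with h8 | h8
        · simp at h8
        · obtain ⟨q', h9, h10, h11⟩ := h7 c₁ h8
          exact ⟨q', h9, mem_union_right _ h10, fun c' hc' => List.mem_append_right _ (h11 c' hc')⟩

theorem pe_topsW (hT : AE32.Tour R) {W : Fd → Prop} (F : Fd) (hQ : AET.OutB W F)
    (hQo : ∀ D, (true, D) ∈ F.trees → AET.OutB W D) (f : V) (B : ℕ) (w : List V) (sl : List (V × List V))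
    (hw : w.Pairwise R) (hwf : ∀ z ∈ w, R z f) (hl : blk F ≤ w.length) (hB : ∀ c, (true, c) ∈ F.trees → blk c ≤ B)
    (hlen : F.len ≤ sl.length) (hsl : ∀ q ∈ sl, Slot R f B q) (hnd : (w ++ slv sl).Nodup) :
    ∃ Z L, PE R F f Z L ∧ Z ⊆ (w ++ slv sl).toFinset ∧ (∀ p ∈ L, p.1 ∈ Z) ∧
      (∀ c, (true, c) ∈ F.trees → ∃ q ∈ sl, q.1 ∈ Z ∧ ∀ c', (true, c') ∈ c.trees → (q.1, c') ∈ L) ∧
      ∀ q ∈ L, W q.2 := by
  rw [blk_eq] at hl
  obtain ⟨Z, L, h1, h2, h3, h4, h5⟩ := pel_topsW hT f B F.trees (by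
      rintro ⟨d, c⟩ hp
      cases d with
      | true => exact hQo c hp
      | false =>
        have h6 := (AET.outB_iff W F).1 hQ (false, c) hp
        simpa using h6) w sl hw hwf hl
    (fun p hp hpt => by obtain ⟨d, c⟩ := p; simp only at hpt; subst hpt; exact hB c hp)
    (by rw [length_trees]; exact hlen) hsl hnd
  exact ⟨Z, L, (pe_iff F f Z L).2 h1, h2, h3, h4, h5⟩

private theorem host_pelW {ts : List (Bool × Fd)} {v : V} {Z : Finset V} {L : List (V × Fd)} (h : PEL R v ts Z L) :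
    ∀ p ∈ L, p.1 = v ∨ p.1 ∈ Z := by
  have h1 : PE R (ofT ts) v Z L := (pe_iff (ofT ts) v Z L).2 (by rw [trees_ofT]; exact h)
  exact fun p hp => (AET.PE.host h1 p hp).1

/-- the heavy out-child of `F` is placed at `x`, with a given partial embedding; the hosts of the other items are explicit -/
theorem pe_heavy_hostW (hT : AE32.Tour R) {W : Fd → Prop} {F c : Fd} (hQ : AET.OutB W F)
    (hF : F.hv = some (true, c)) (v v₁ : V) (w : List V)
    (hw : w.Pairwise R) (hv : ∀ z ∈ w, R z v) (hv₁ : R v v₁) {Z₁ : Finset V} {L₁ : List (V × Fd)}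
    (hP : PE R c v₁ Z₁ L₁) (hQ₁ : ∀ q ∈ L₁, W q.2) (h1 : v₁ ∉ Z₁) (h2 : ∀ z ∈ w, z ≠ v₁ ∧ z ∉ Z₁)
    (hl : blk F ≤ w.length) :
    ∃ Z L, PE R F v Z L ∧ Z ⊆ w.toFinset ∪ insert v₁ Z₁ ∧ insert v₁ Z₁ ⊆ Z ∧ (∀ p ∈ L₁, p ∈ L) ∧
      (∀ p ∈ L, p.1 = v ∨ p.1 ∈ w ∨ p ∈ L₁) ∧ ∀ q ∈ L, W q.2 := by
  obtain ⟨⟨ts, hts⟩, -⟩ := hv_some hF
  rw [blk_eq, (hts.map _).sum_eq, List.map_cons, List.sum_cons] at hl
  obtain ⟨Z₂, L₂, h3, h4, -, hq⟩ := AET.pel_block hT v ts (hQ.perm hts).2 w hw hv (by simpa using hl)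
  have hd : Disjoint (insert v₁ Z₁) Z₂ := by
    rw [disjoint_left]
    intro a ha ha2
    have h5 := h2 a (List.mem_toFinset.1 (h4 ha2))
    rcases mem_insert.1 ha with h6 | h6
    · exact h5.1 h6
    · exact h5.2 h6
  have h5 : PEL R v ((true, c) :: ts) (insert v₁ Z₁ ∪ Z₂) (L₁ ++ L₂) :=
    ⟨insert v₁ Z₁, Z₂, L₁, L₂, hd, rfl, rfl, Or.inr ⟨v₁, Z₁, by simpa [Adj] using hv₁, h1, rfl, hP⟩, h3⟩
  obtain ⟨L, h6, h7⟩ := PEL.perm hts.symm h5
  refine ⟨insert v₁ Z₁ ∪ Z₂, L, (pe_iff F v _ _).2 h7, ?_, subset_union_left, ?_, ?_, ?_⟩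
  · intro a ha
    rcases mem_union.1 ha with h8 | h8
    · exact mem_union_right _ h8
    · exact mem_union_left _ (h4 h8)
  · intro p hp
    exact h6.symm.subset (List.mem_append_left _ hp)
  · intro p hp
    rcases List.mem_append.1 (h6.subset hp) with h8 | h8
    · exact Or.inr (Or.inr h8)
    · rcases host_pelW h3 p h8 with h9 | h9
      · exact Or.inl h9
      · exact Or.inr (Or.inl (List.mem_toFinset.1 (h4 h9)))
  · intro q hq'
    rcases List.mem_append.1 (h6.subset hq') with h8 | h8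
    · exact hQ₁ q h8
    · exact hq q h8

end W

section routes

variable {V : Type} {R : V → V → Prop}

theorem routeA1W (hT : AE32.Tour R) {W : Fd → Prop} {m : ℕ} {F c : Fd} (hQ : AET.OutB W F) (hbF : blk F ≤ m)
    (hFc : F.hv = some (true, c)) (y : V)
    (w : List V) (hw : w.Pairwise R) (hwy : ∀ z ∈ w, R z y) (hl : m ≤ w.length) :
    ∃ Z L, PE R F y Z L ∧ Z ⊆ w.toFinset ∧ (y, c) ∈ L ∧ (∀ q ∈ L, q.1 = y ∨ q.1 ∈ w) ∧ ∀ q ∈ L, W q.2 := by
  obtain ⟨Z, L, h1, h2, h3, h4⟩ := AET.pe_block hT F hQ y w hw hwy (hbF.trans hl)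
  refine ⟨Z, L, h1, h2, h3 c (hv_mem hFc), fun q hq => ?_, h4⟩
  rcases (AET.PE.host h1 q hq).1 with h | h
  · exact Or.inl h
  · exact Or.inr (List.mem_toFinset.1 (h2 h))

theorem routeA2W (hT : AE32.Tour R) {W : Fd → Prop} {m : ℕ} {F c c' : Fd} (hQ : AET.OutB W F) (hQc : AET.OutB W c)
    (hbF : blk F ≤ m) (hbc : blk c ≤ m)
    (hFc : F.hv = some (true, c)) (hc : c.hv = some (true, c')) (y x : V) (w w' : List V)
    (hw : w.Pairwise R) (hwy : ∀ z ∈ w, R z y) (hyx : R y x) (hw' : w'.Pairwise R) (hwx : ∀ z ∈ w', R z x)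
    (hnd : (x :: w ++ w').Nodup) (hl : m ≤ w.length) (hl' : m ≤ w'.length) :
    ∃ Z L, PE R F y Z L ∧ Z ⊆ (x :: w ++ w').toFinset ∧ (x, c') ∈ L ∧
      (∀ q ∈ L, q.1 = y ∨ q.1 = x ∨ q.1 ∈ w ∨ q.1 ∈ w') ∧ ∀ q ∈ L, W q.2 := by
  obtain ⟨Z₁, L₁, h1, h2, h3, h4, hq₁⟩ := routeA1W hT hQc hbc hc x w' hw' hwx hl'
  rw [List.cons_append, List.nodup_cons, List.nodup_append] at hnd
  obtain ⟨n1, n2, n3, n4⟩ := hnd
  have hx1 : x ∉ Z₁ := fun h => n1 (List.mem_append_right _ (List.mem_toFinset.1 (h2 h)))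
  obtain ⟨Z, L, k1, k2, k3, k4, k5, k6⟩ := pe_heavy_hostW hT hQ hFc y x w hw hwy hyx h1 hq₁ hx1 (fun z hz =>
    ⟨fun h => n1 (h ▸ List.mem_append_left _ hz), fun h => n4 z hz z (List.mem_toFinset.1 (h2 h)) rfl⟩)
    (hbF.trans hl)
  refine ⟨Z, L, k1, ?_, k4 _ h3, ?_, k6⟩
  · intro a ha
    rw [List.mem_toFinset, List.mem_append, List.mem_cons]
    rcases mem_union.1 (k2 ha) with h | h
    · exact Or.inl (Or.inr (List.mem_toFinset.1 h))
    · rcases mem_insert.1 h with h | h
      · exact Or.inl (Or.inl h)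
      · exact Or.inr (List.mem_toFinset.1 (h2 h))
  · intro q hq
    rcases k5 q hq with h | h | h
    · exact Or.inl h
    · exact Or.inr (Or.inr (Or.inl h))
    · rcases h4 q h with h | h
      · exact Or.inr (Or.inl h)
      · exact Or.inr (Or.inr (Or.inr h))

theorem routeA3W (hT : AE32.Tour R) {W : Fd → Prop} {b m : ℕ} {F c c' c'' : Fd} (hQ : AET.OutB W F)
    (hQc : AET.OutB W c) (hQo : ∀ D, (true, D) ∈ c.trees → AET.OutB W D) (hbF : blk F ≤ m) (hbc : blk c ≤ m)
    (hbo : ∀ D, (true, D) ∈ c.trees → blk D ≤ m) (hlc : c.len ≤ b)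
    (hFc : F.hv = some (true, c)) (hc : c.hv = some (true, c')) (hc' : c'.hv = some (true, c''))
    (y f : V) (w wf : List V) (sl : List (V × List V)) (hw : w.Pairwise R) (hwy : ∀ z ∈ w, R z y) (hyf : R y f)
    (hwf : wf.Pairwise R) (hwff : ∀ z ∈ wf, R z f) (hsl : ∀ q ∈ sl, Slot R f m q) (hb : b ≤ sl.length)
    (hnd : (f :: w ++ (wf ++ slv sl)).Nodup) (hl : m ≤ w.length) (hl' : m ≤ wf.length) :
    ∃ Z L, ∃ q₀ ∈ sl, PE R F y Z L ∧ Z ⊆ (f :: w ++ (wf ++ slv sl)).toFinset ∧ (q₀.1, c'') ∈ L ∧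
      (∀ q ∈ L, q.1 = y ∨ q.1 ∈ w ∨ q.1 ∈ wf ∨ q.1 ∈ slv sl) ∧ ∀ q ∈ L, W q.2 := by
  rw [List.cons_append, List.nodup_cons, List.nodup_append] at hnd
  obtain ⟨n1, n2, n3, n4⟩ := hnd
  obtain ⟨Z₁, L₁, h1, h2, h3, h4, hq₁⟩ := pe_topsW hT c hQc hQo f m wf sl hwf hwff (hbc.trans hl') hbo
    (hlc.trans hb) hsl n3
  obtain ⟨q₀, hq₀, hq₀', hq₂⟩ := h4 c' (hv_mem hc)
  have hmem : ∀ a ∈ Z₁, a ∈ wf ++ slv sl := fun a ha => List.mem_toFinset.1 (h2 ha)
  have hf1 : f ∉ Z₁ := fun h => n1 (List.mem_append_right _ (hmem f h))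
  obtain ⟨Z, L, k1, k2, k3, k4, k5, k6⟩ := pe_heavy_hostW hT hQ hFc y f w hw hwy hyf h1 hq₁ hf1 (fun z hz =>
    ⟨fun h => n1 (h ▸ List.mem_append_left _ hz), fun h => n4 z hz z (hmem z h) rfl⟩) (hbF.trans hl)
  refine ⟨Z, L, q₀, hq₀, k1, ?_, k4 _ (hq₂ c'' (hv_mem hc')), ?_, k6⟩
  · intro a ha
    rw [List.mem_toFinset, List.mem_append, List.mem_cons]
    rcases mem_union.1 (k2 ha) with h | h
    · exact Or.inl (Or.inr (List.mem_toFinset.1 h))
    · rcases mem_insert.1 h with h | h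
      · exact Or.inl (Or.inl h)
      · exact Or.inr (hmem a h)
  · intro q hq
    rcases k5 q hq with h | h | h
    · exact Or.inl h
    · exact Or.inr (Or.inl h)
    · have h5 := hmem _ (h3 q h)
      rcases List.mem_append.1 h5 with h6 | h6
      · exact Or.inr (Or.inr (Or.inl h6))
      · exact Or.inr (Or.inr (Or.inr h6))

end routes

end AER
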