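import Pool.Agent.AER.SupG

/-!
# Rigid ends: hosts fixed in advance, uniformly in the set of used vertices
-/

set_option autoImplicit false

namespace AER

open Finset AE15 AED AELT AEB
open scoped Classical

/-- **Hosts fixed in advance, and the structure set.** `E₀` is any small set; the family `𝓕` and the reserve `H` are the
same for all sets `E ⊆ E₀` of used vertices. -/
theorem exists_hostsV (p : NP) (hp : p.OK) (N e M' : ℕ) (hN : 1 ≤ N)
    (hu : 2 * (e + 2 * p.c0 + 2) + N + 2 + 4 * M' ≤ p.u0)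
    {δ h ε₀ : ℝ} (hδ : 0 < δ) (hδ1 : δ ≤ 1) (hh : 0 < h) (hε : 0 < ε₀) : ∃ D₁ : ℕ, ∀ D : ℕ, D₁ ≤ D →
      ∀ {ω c η η₁ κ₀ κ₁ κ γ₀ τ s σ₂ μ : ℝ}, KB D ω c η η₁ κ₀ κ₁ κ γ₀ τ s σ₂ μ → η ≤ ε₀ ∧
        ∃ (γ γ₂ ν : ℝ) (n₀ : ℕ), 0 < γ ∧ 0 < γ₂ ∧ γ₂ ≤ ε₀ ∧ 0 < ν ∧ ∀ {V : Type} {R : V → V → Prop}, AE32.Tour R →
          ∀ X : Finset V, n₀ ≤ X.card → ∃ (x : ℕ → V) (G : Finset V), G ⊆ X ∧ γ₂ * X.card ≤ G.card ∧
            (∀ u ∈ X, u ∉ G → 16 * (nO R G u).card ≤ G.card) ∧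
            (∀ i < N, x i ∈ G ∧ M' ≤ (nI R G (x i)).card) ∧ (∀ i < N, ∀ j < N, x i = x j → i = j) ∧
            ∀ E₀ ⊆ X, E₀.card ≤ e → ∃ (𝓕 : Finset (Finset V)) (H : Finset V),
              𝓕.card ≤ 16 * (2 ^ e * N) * X.card ^ 2 ∧ H ⊆ X ∧ Disjoint H E₀ ∧ ((H.card : ℝ) + e ≤ h * X.card) ∧
              ((H.card : ℝ) + e ≤ γ₂ / 32 * X.card) ∧
              (∀ E ⊆ E₀, ∃ Nx : ℕ → Finset V, ∀ i < N, x i ∈ E →
                Host R p κ η s γ δ ν X E 𝓕 (H ∪ (E₀ \ E)) (x i) (Nx i)) ∧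
              (∀ g ∈ G, ∀ S P : Finset V, S ⊆ P → P ⊆ X → Rep (X \ (E₀ ∪ H)) 𝓕 ν S →
                δ * X.card ≤ (S.card : ℝ) → Good R κ η P g) ∧
              (∀ z ∈ X, γ₂ / 4 * X.card ≤ (nI R G z).card → ∀ S : Finset V, Rep (X \ (E₀ ∪ H)) 𝓕 ν S →
                δ * X.card ≤ (S.card : ℝ) → s * X.card ≤ ((nI R G z ∩ S).card : ℝ)) ∧
              ∀ z ∈ X, γ₂ / 4 * X.card ≤ (nO R G z).card → ∀ S : Finset V, Rep (X \ (E₀ ∪ H)) 𝓕 ν S →
                δ * X.card ≤ (S.card : ℝ) → s * X.card ≤ ((nO R G z ∩ S).card : ℝ) := by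
  obtain ⟨D₁, hD₁⟩ := kb_small hδ hε
  refine ⟨D₁, fun D hD {ω c η η₁ κ₀ κ₁ κ γ₀ τ s σ₂ μ} P => ?_⟩
  obtain ⟨q1, q2, q3⟩ := hD₁ D hD P
  obtain ⟨hω0, hω1, hc0, hc1, hη0, hη1, hη₁0, hη₁1, hκ₀0, hκ₁0, hκ₁1, hκ0, hκ1, hs0, hγ₀0, hτ0, hσ₂0, hμ0, hκ₁η, hκs⟩ :=
    P.num
  clear P hD₁ hκ₁η hκs hκ₁1 hκ1 hη₁1 hω0 hω1 hc0 hc1 hη₁0 hκ₀0 hκ₁0 hγ₀0 hτ0 hσ₂0 hμ0
  refine ⟨q1, ?_⟩
  obtain ⟨a, ha⟩ : ∃ a : ℝ, a = δ * η / 4 := ⟨_, rfl⟩
  obtain ⟨k, hk⟩ : ∃ k : ℝ, k = (a / 64) ^ 2 / 4 := ⟨_, rfl⟩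
  rw [← ha, ← hk] at q2
  rw [← ha] at q3
  obtain ⟨w, hw⟩ : ∃ w : ℝ, w = (1 + p.c0 + p.c : ℝ) := ⟨_, rfl⟩
  have hw1 : 1 ≤ w := by
    rw [hw]
    have h1 : (0 : ℝ) ≤ p.c0 := Nat.cast_nonneg _
    have h2 : (0 : ℝ) ≤ p.c := Nat.cast_nonneg _
    linarith only []
  obtain ⟨K, hK⟩ : ∃ K : ℕ, K = 2 ^ e * N := ⟨_, rfl⟩
  have hNK : N ≤ K := by
    rw [hK]
    exact Nat.le_mul_of_pos_left _ (by positivity)
  have hK1 : 1 ≤ K := hN.trans hNK
  have hKr : (1 : ℝ) ≤ K := by exact_mod_cast hK1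
  have ha0 : 0 < a := by rw [ha]; positivity
  have ha1 : a ≤ 1 := by
    have h1 : δ * η ≤ 1 * η := mul_le_mul_of_nonneg_right hδ1 hη0.le
    rw [ha]
    linarith only [hη1, h1]
  have hk0 : 0 < k := by rw [hk]; positivity
  have hka : k ≤ a / 64 := by
    have h1 : a * a ≤ a * 1 := mul_le_mul_of_nonneg_left ha1 ha0.le
    have h2 : (a / 64) ^ 2 / 4 = a * a / 16384 := by ring
    rw [hk]
    linarith only [hk, hk0, h1]
  obtain ⟨g, hg⟩ : ∃ g : ℝ, g = min (min (h / 2) (k / 8)) (a / 128) := ⟨_, rfl⟩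
  have hg0 : 0 < g := by rw [hg]; positivity
  have hgh : g ≤ h / 2 := by rw [hg]; exact (min_le_left _ _).trans (min_le_left _ _)
  have hgk : g ≤ k / 8 := by rw [hg]; exact (min_le_left _ _).trans (min_le_right _ _)
  have hga' : g ≤ a / 128 := by rw [hg]; exact min_le_right _ _
  have hga : g ≤ a / 64 := by linarith only [hka, hg0, hgk]
  obtain ⟨σ, hσ⟩ : ∃ σ : ℝ, σ = min (min (a / 8) k) (g / (3 * K * w)) := ⟨_, rfl⟩
  have hσ0 : 0 < σ := by rw [hσ]; positivity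
  have hσa : σ ≤ a / 8 := by rw [hσ]; exact (min_le_left _ _).trans (min_le_left _ _)
  have hσk : σ ≤ k := by rw [hσ]; exact (min_le_left _ _).trans (min_le_right _ _)
  have hσg : 3 * w * σ * K ≤ g := by
    have h1 : σ ≤ g / (3 * K * w) := by rw [hσ]; exact min_le_right _ _
    rw [le_div_iff₀ (by positivity)] at h1
    linarith only [h1]
  have hσg' : σ ≤ g := by
    have h0 : 1 * 1 ≤ w * K := mul_le_mul hw1 hKr zero_le_one (by linarith only [hw])
    have h1 : 1 ≤ 3 * w * K := by linarith only [h0]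
    have h2 : σ * 1 ≤ σ * (3 * w * K) := mul_le_mul_of_nonneg_left h1 hσ0.le
    have h3 : σ * (3 * w * K) = 3 * w * σ * K := by ring
    linarith only [hσg, h2]
  obtain ⟨ν, hν⟩ : ∃ ν : ℝ, ν = δ * σ / 8 := ⟨_, rfl⟩
  have hν0 : 0 < ν := by rw [hν]; positivity
  have hνσ : ν ≤ σ / 8 := by
    rw [hν]
    have : δ * σ ≤ 1 * σ := mul_le_mul_of_nonneg_right hδ1 hσ0.le
    linarith only [this]
  obtain ⟨M, hM⟩ : ∃ M : ℕ, M = 64 * (e + (N + 2 * M') + p.c0 + p.c1 + p.u0 + p.g + 2) := ⟨_, rfl⟩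
  refine ⟨a / 32, a / 2, ν, ⌈M / ν⌉₊ + 1, by positivity, by positivity, ?_, hν0, ?_⟩
  · rw [ha]
    have h1 : δ * η ≤ 1 * η := mul_le_mul_of_nonneg_right hδ1 hη0.le
    linarith only [hε, q1, h1]
  intro V R hT X hX
  obtain ⟨n, hn⟩ : ∃ n : ℝ, n = (X.card : ℝ) := ⟨_, rfl⟩
  have hX1 : 1 ≤ X.card := by omega
  have hn1 : 1 ≤ n := by rw [hn]; exact_mod_cast hX1
  have hMn : (M : ℝ) ≤ ν * n := by
    have h1 : (M : ℝ) / ν ≤ n := by
      rw [hn]
      exact (Nat.le_ceil _).trans (by exact_mod_cast (by omega : ⌈(M : ℝ) / ν⌉₊ ≤ X.card))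
    rw [div_le_iff₀ hν0] at h1
    linarith only [h1]
  have hMr : (M : ℝ) = 64 * (e + (N + 2 * M') + p.c0 + p.c1 + p.u0 + p.g + 2) := by
    rw [hM]
    push_cast
    ring
  have z6 : (0 : ℝ) ≤ M' := Nat.cast_nonneg _
  have z0 : (0 : ℝ) ≤ N := Nat.cast_nonneg _
  have z1 : (0 : ℝ) ≤ e := Nat.cast_nonneg _
  have z2 : (0 : ℝ) ≤ p.c0 := Nat.cast_nonneg _
  have z3 : (0 : ℝ) ≤ p.c1 := Nat.cast_nonneg _
  have z4 : (0 : ℝ) ≤ p.u0 := Nat.cast_nonneg _
  have z5 : (0 : ℝ) ≤ p.g := Nat.cast_nonneg _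
  have hνn : ν * n ≤ k / 8 * n := mul_le_mul_of_nonneg_right (by linarith only [hgk, hσg', hν0, hνσ]) (by linarith only [hn1])
  have hνa : ν * n ≤ a / 512 * n := mul_le_mul_of_nonneg_right (by linarith only [hka, hgk, hσg', hν0, hνσ]) (by linarith only [hn1])
  -- the structure set
  obtain ⟨G, hGX, hG1, hG2, hG3⟩ := structure_lemma hT X (η := a) (κ₀ := a / 64) (by positivity) (by linarith only [hη0, hη1, ha1]) ha1 (by
    rw [← hn]
    have e1 : a / 64 * n = 8 * (a / 512 * n) := by ring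
    linarith only [hMn, hMr, hνa])
  rw [← hk] at hG2
  rw [← hn] at hG1 hG3
  obtain ⟨m, hm⟩ : ∃ m : ℕ, m = ⌊2 * (a / 64) * n⌋₊ := ⟨_, rfl⟩
  have hmn : (m : ℝ) ≤ a / 32 * n := by
    have h1 : (m : ℝ) ≤ 2 * (a / 64) * n := by
      rw [hm]
      exact Nat.floor_le (by positivity)
    linarith only [h1]
  have hm' : ∀ u ∈ X, u ∉ G → (nO R G u).card ≤ m := by
    intro u hu huG
    rw [hm]
    exact Nat.le_floor (hG3 u hu huG).le
  have hGc : 59 / 64 * a * n ≤ (G.card : ℝ) := by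
    have : (a - 5 * (a / 64)) * n = 59 / 64 * a * n := by ring
    linarith only [hG1]
  have han : 0 < a * n := by positivity
  obtain ⟨Z₀, hZ₀⟩ : ∃ Z₀ : Finset V, Z₀ = G.filter (fun v => (nI R G v).card < M') := ⟨_, rfl⟩
  have hZ₀c : Z₀.card ≤ 2 * M' := by
    rw [hZ₀]
    exact card_lowin hT G M'
  have hNG : N + Z₀.card ≤ G.card := by
    have h1 : ((N + 2 * M' : ℕ) : ℝ) ≤ G.card := by
      push_cast
      have e1 : 59 / 64 * a * n = 472 * (a / 512 * n) := by ring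
      linarith only [hMn, hMr, hνa, hG1]
    have h2 : N + 2 * M' ≤ G.card := by exact_mod_cast h1
    omega
  obtain ⟨v₀, hv₀⟩ : X.Nonempty := card_pos.1 (by omega)
  obtain ⟨x, hx⟩ := exists_seqG hT hGX hm' v₀ N hNG
  refine ⟨x, G, hGX, ?_, ?_, ?_, ?_, ?_⟩
  · rw [← hn]
    have e1 : 59 / 64 * a * n = a / 2 * n + 27 / 64 * (a * n) := by ring
    linarith only [hMn, hMr, hνa, hG1]
  · intro u hu huG
    have h1 := (hG3 u hu huG).le
    have h2 : ((16 * (nO R G u).card : ℕ) : ℝ) ≤ G.card := by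
      push_cast
      have h3 : 2 * (a / 64) * n = 1 / 32 * (a * n) := by ring
      have h4 : 59 / 64 * a * n = 59 / 64 * (a * n) := by ring
      linarith only [hMn, hMr, hνa, hG1, h1]
    exact_mod_cast h2
  · intro i hi
    have h1 := mem_sdiff.1 (hx i hi).hx
    refine ⟨h1.1, ?_⟩
    by_contra h2
    refine h1.2 (mem_union_right _ ?_)
    rw [hZ₀]
    exact mem_filter.2 ⟨h1.1, not_le.1 h2⟩
  · have key : ∀ i < N, ∀ j < N, i < j → x i ≠ x j := by
      intro i _ j hj hij h1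
      have h2 := (mem_sdiff.1 (hx j hj).hx).2
      exact h2 (mem_union_left _ (mem_image.2 ⟨i, mem_range.2 hij, h1⟩))
    intro i hi j hj h1
    rcases lt_trichotomy i j with h2 | h2 | h2
    · exact absurd h1 (key i hi j hj h2)
    · exact h2
    · exact absurd h1.symm (key j hj i hi h2)
  intro E₀ hE₀X hE₀c
  have hE₀r : (E₀.card : ℝ) ≤ e := by exact_mod_cast hE₀c
  have hcov : ∀ E ⊆ E₀, ∀ i < N, CovE R p (a / 8) X G E (x i) p.u0 := by
    intro E hE i hi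
    have hZ : ((range i).image x ∪ Z₀).card ≤ N + 2 * M' := by
      have h1 : ((range i).image x).card ≤ i := by simpa using card_image_le (s := range i) (f := x)
      have h2 := card_union_le ((range i).image x) Z₀
      omega
    refine covE_of_xdG (N := N + 2 * M') (e := e) hT hp hGX (hx i hi) ((card_le_card hE).trans hE₀c) hZ (by omega)
      ?_ ?_
    · have h1 := (hx i hi).h4
      have h2 := le_card_sdiff ((range i).image x ∪ Z₀) G
      have h3 : G.card ≤ 2 * (nO R (G \ ((range i).image x ∪ Z₀)) (x i)).card + 1 + (N + 2 * M') := by omega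
      have h4 : (G.card : ℝ) ≤ 2 * (nO R (G \ ((range i).image x ∪ Z₀)) (x i)).card + 1 + (N + 2 * M') := by
        exact_mod_cast h3
      rw [← hn]
      linarith only [hMn, hMr, hνa, hG1, hmn, h4]
    · rw [← hn]
      push_cast
      linarith only [hMn, hMr, hνa]
  have key : ∀ q : Finset V × ℕ, ∃ (𝓕 : Finset (Finset V)) (H Nx : Finset V), (𝓕.card ≤ 8 * X.card ^ 2 ∧ H ⊆ X ∧
      Disjoint H q.1 ∧ (H.card : ℝ) ≤ 3 * (1 + p.c0 + p.c) * σ * X.card ∧ Nx ⊆ G) ∧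
      (q.2 < N → q.1 ⊆ E₀ → x q.2 ∈ q.1 →
      (∀ v ∈ Nx, R (x q.2) v) ∧ a / 8 * X.card ≤ Nx.card ∧
      ∀ A Q P : Finset V, A ⊆ X → (X.card : ℝ) ≤ 2 * A.card → Q ⊆ A → Rep A 𝓕 ν Q →
        δ * A.card ≤ Q.card → P ⊆ X → Disjoint P q.1 → Q ⊆ P → H ⊆ P → (((X \ A) \ P).card : ℝ) ≤ ν * X.card →
        ClB R (Good R κ η P) s p p.u0 P (R (x q.2))) := by
    intro q
    by_cases hq : q.2 < N ∧ q.1 ⊆ E₀ ∧ x q.2 ∈ q.1
    · obtain ⟨𝓕, H, Nx, k1, k2, k3, k4, k5, k6⟩ := host_data (κ := κ) (η := η) (s := s) (σ := σ) (δ := ν) (ν := ν)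
        (c := δ) hT hp hGX
        hG2 (hcov q.1 hq.2.1 q.2 hq.1) hq.2.2 (card_pos.1 (by omega)) hκ0 hη0 hk0 ha0 hσ0 hν0.le hν0 hδ hδ1 hσa
        (by linarith only [hν, hν0])
        hσk (by linarith only [hκ0, q2]) (by rw [ha]; linarith only [ha, hka, hgk, hσg', hν0, hνσ, mul_pos hδ hη0]) hs0 (by linarith only [q3]) (by
          rw [← hn]
          have h1 : δ * σ * n = 8 * (ν * n) := by rw [hν]; ring
          linarith only [hMn, hMr, h1])
      exact ⟨𝓕, H, Nx, ⟨k1, k2, k3, k4, k5⟩, fun _ _ _ => k6⟩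
    · refine ⟨∅, ∅, ∅, ⟨?_, empty_subset _, disjoint_empty_left _, ?_, empty_subset _⟩,
        fun h1 h2 h3 => absurd ⟨h1, h2, h3⟩ hq⟩
      · simp
      · rw [card_empty, ← hw, ← hn]
        have : 0 ≤ 3 * w * σ * n := by positivity
        simpa using this
  choose 𝓕i Hi Ni hkey using key
  obtain ⟨J, hJ⟩ : ∃ J, J = E₀.powerset ×ˢ range N := ⟨_, rfl⟩
  have hJc : J.card ≤ K := by
    rw [hJ, card_product, card_powerset, card_range, hK]
    exact Nat.mul_le_mul_right _ (Nat.pow_le_pow_right (by norm_num) hE₀c)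
  have hJr : (J.card : ℝ) ≤ K := by exact_mod_cast hJc
  have hmJ : ∀ E ⊆ E₀, ∀ i < N, (E, i) ∈ J := by
    intro E hE i hi
    rw [hJ, mem_product]
    exact ⟨mem_powerset.2 hE, mem_range.2 hi⟩
  obtain ⟨FF, hF1, hF2, hF3⟩ := exists_family R k a X
  obtain ⟨H, hH⟩ : ∃ H, H = J.biUnion Hi \ E₀ := ⟨_, rfl⟩
  obtain ⟨𝓖, h𝓖⟩ : ∃ 𝓖, 𝓖 = X.image (nI R G) ∪ X.image (nO R G) := ⟨_, rfl⟩
  obtain ⟨𝓕, h𝓕⟩ : ∃ 𝓕, 𝓕 = ((FF ∪ J.biUnion 𝓕i) ∪ J.image Ni) ∪ 𝓖 := ⟨_, rfl⟩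
  have hHX : H ⊆ X := by
    rw [hH]
    intro v hv
    obtain ⟨q, hq, hv⟩ := mem_biUnion.1 (mem_sdiff.1 hv).1
    exact (hkey q).1.2.1 hv
  have hHE : Disjoint H E₀ := by
    rw [hH]
    exact sdiff_disjoint
  have hHc : (H.card : ℝ) ≤ g * n := by
    have h1 : H.card ≤ ∑ q ∈ J, (Hi q).card := by
      rw [hH]
      exact (card_le_card sdiff_subset).trans card_biUnion_le
    have h2 : (H.card : ℝ) ≤ ∑ q ∈ J, ((Hi q).card : ℝ) := by exact_mod_cast h1
    have h3 : ∑ q ∈ J, ((Hi q).card : ℝ) ≤ ∑ _q ∈ J, 3 * w * σ * n := by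
      apply sum_le_sum
      intro q hq
      have h4 := (hkey q).1.2.2.2.1
      rw [← hw, ← hn] at h4
      exact h4
    rw [sum_const, nsmul_eq_mul] at h3
    have h4 : (J.card : ℝ) * (3 * w * σ * n) ≤ K * (3 * w * σ * n) :=
      mul_le_mul_of_nonneg_right hJr (by positivity)
    have h5 : 3 * w * σ * K * n ≤ g * n := mul_le_mul_of_nonneg_right hσg (by linarith only [hn1])
    linarith only [h2, h3, h4, h5]
  have hBc : ((E₀ ∪ H).card : ℝ) ≤ (g + ν) * n := by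
    have h1 : ((E₀ ∪ H).card : ℝ) ≤ E₀.card + H.card := by exact_mod_cast card_union_le _ _
    linarith only [hMn, hMr, hE₀r, hHc, h1]
  have hBX : E₀ ∪ H ⊆ X := union_subset hE₀X hHX
  have hgoodG : ∀ S P : Finset V, S ⊆ P → P ⊆ X → Rep (X \ (E₀ ∪ H)) 𝓕 ν S → δ * X.card ≤ (S.card : ℝ) →
      ∀ g ∈ G, Good R κ η P g := by
    intro S P hSP hP hS hSc v hv
    have hSP' : (S.card : ℝ) ≤ P.card := by exact_mod_cast card_le_card hSP
    have hPX : (P.card : ℝ) ≤ n := by rw [hn]; exact_mod_cast card_le_card hP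
    rw [← hn] at hSc
    refine hF3 P hP κ η ?_ ?_ v (hGX hv) (hG2 v hv)
    · intro F hF hFc
      rw [← hn] at hFc
      have hF' : F ∈ 𝓕 := by
        rw [h𝓕]
        exact mem_union_left _ (mem_union_left _ (mem_union_left _ hF))
      have h1 := rep_meet' hS hF' (hF2 F hF) hX1
      rw [← hn] at h1
      have h2 : k / 2 ≤ ((F.card : ℝ) - (E₀ ∪ H).card) / n - ν := by
        have h3 : k / 2 + ν ≤ ((F.card : ℝ) - (E₀ ∪ H).card) / n := by
          rw [le_div_iff₀ (by linarith only [hn1])]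
          have h4 : (g + ν) * n ≤ (k / 8 + k / 8) * n := mul_le_mul_of_nonneg_right (by linarith only [hgk, hσg', hν0, hνσ]) (by linarith only [hn1])
          have h5 : (k / 2 + ν) * n ≤ (k / 2 + k / 8) * n := mul_le_mul_of_nonneg_right (by linarith only [hgk, hσg', hν0, hνσ]) (by linarith only [hn1])
          have h6 : (k / 2 + k / 8) * n + (k / 8 + k / 8) * n = 7 / 8 * (k * n) := by ring
          have h7 : 0 < k * n := mul_pos hk0 (by linarith only [hn1])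
          linarith only [hMn, hMr, hνn, hBc, hFc, h4]
        linarith only [h3]
      have h3 : k / 2 * S.card ≤ ((F ∩ S).card : ℝ) :=
        (mul_le_mul_of_nonneg_right h2 (Nat.cast_nonneg _)).trans h1
      have h4 : ((F ∩ S).card : ℝ) ≤ (F ∩ P).card := by
        exact_mod_cast card_le_card (inter_subset_inter (Subset.refl _) hSP)
      have h5 : k / 2 * (δ * n) ≤ k / 2 * S.card := mul_le_mul_of_nonneg_left hSc (by linarith only [hgk, hσg', hν0, hνσ])
      have h6 : κ * P.card ≤ κ * n := mul_le_mul_of_nonneg_left hPX hκ0.le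
      have h7 : κ * n ≤ δ * k / 4 * n := mul_le_mul_of_nonneg_right q2 (by linarith only [hn1])
      have e1 : k / 2 * (δ * n) = 2 * (δ * k / 4 * n) := by ring
      have e2 : 0 < δ * k / 4 * n := mul_pos (by positivity) (by linarith only [hn1])
      linarith only [h3, h4, h5, h6, h7, e2]
    · intro F hF hFc
      rw [← hn] at hFc
      have h1 : ((F ∩ P).card : ℝ) ≤ F.card := by exact_mod_cast card_le_card inter_subset_left
      have h2 : a * n ≤ η * (δ * n) := by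
        have h3 : a * n = η * (δ * n) / 4 := by rw [ha]; ring
        have h4 : 0 ≤ η * (δ * n) := by positivity
        linarith only [hη0, hη1, hMn, hMr, hνa, h3]
      have h3 : η * (δ * n) ≤ η * P.card := mul_le_mul_of_nonneg_left (hSc.trans hSP') hη0.le
      linarith only [hFc, h1, h2, h3]
  have hmeet : ∀ F ∈ 𝓖, F ⊆ X → a / 2 / 4 * X.card ≤ (F.card : ℝ) → ∀ S : Finset V,
      Rep (X \ (E₀ ∪ H)) 𝓕 ν S → δ * X.card ≤ (S.card : ℝ) → s * X.card ≤ ((F ∩ S).card : ℝ) := by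
    intro F hF hFX hFc S hS hSc
    have hF' : F ∈ 𝓕 := by
      rw [h𝓕]
      exact mem_union_right _ hF
    have h1 := rep_meet' hS hF' hFX hX1
    rw [← hn] at h1 hFc hSc ⊢
    have h2 : a / 32 ≤ ((F.card : ℝ) - (E₀ ∪ H).card) / n - ν := by
      have h3 : a / 32 + ν ≤ ((F.card : ℝ) - (E₀ ∪ H).card) / n := by
        rw [le_div_iff₀ (by linarith only [hn1])]
        have h4 : (g + ν) * n ≤ (a / 64 + a / 512) * n := mul_le_mul_of_nonneg_right (by linarith only [hka, hgk, hσg', hν0, hνσ]) (by linarith only [hn1])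
        have h5 : (a / 32 + ν) * n ≤ (a / 32 + a / 512) * n := mul_le_mul_of_nonneg_right (by linarith only [hka, hgk, hσg', hν0, hνσ]) (by linarith only [hn1])
        have e1 : (a / 64 + a / 512) * n + (a / 32 + a / 512) * n = 13 / 256 * (a * n) := by ring
        have e2 : a / 2 / 4 * n = 1 / 8 * (a * n) := by ring
        linarith only [hMn, hMr, hνa, hBc, hFc, h4]
      linarith only [h3]
    have h3 : a / 32 * S.card ≤ ((F ∩ S).card : ℝ) :=
      (mul_le_mul_of_nonneg_right h2 (Nat.cast_nonneg _)).trans h1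
    have h4 : a / 32 * (δ * n) ≤ a / 32 * S.card := mul_le_mul_of_nonneg_left hSc (by positivity)
    have h5 : s * n ≤ δ * (a / 8) / 4 * n := mul_le_mul_of_nonneg_right q3 (by linarith only [hn1])
    have h6 : δ * (a / 8) / 4 * n = a / 32 * (δ * n) := by ring
    linarith only [h3, h4, h5]
  refine ⟨𝓕, H, ?_, hHX, hHE, ?_, ?_, ?_, ?_, ?_, ?_⟩
  · rw [h𝓕, ← hK]
    have h1 : (J.biUnion 𝓕i).card ≤ K * (8 * X.card ^ 2) := by
      have h2 := card_biUnion_le (s := J) (t := 𝓕i)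
      have h3 : ∑ q ∈ J, (𝓕i q).card ≤ ∑ _q ∈ J, 8 * X.card ^ 2 :=
        sum_le_sum fun q _ => (hkey q).1.1
      rw [sum_const, smul_eq_mul] at h3
      exact (h2.trans h3).trans (Nat.mul_le_mul_right _ hJc)
    have h2 : (J.image Ni).card ≤ K := card_image_le.trans hJc
    have h3 := card_union_le (FF ∪ J.biUnion 𝓕i) (J.image Ni)
    have h8 := card_union_le ((FF ∪ J.biUnion 𝓕i) ∪ J.image Ni) 𝓖
    have h9 : 𝓖.card ≤ X.card + X.card := by
      rw [h𝓖]
      exact (card_union_le _ _).trans (Nat.add_le_add card_image_le card_image_le)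
    have h4 := card_union_le FF (J.biUnion 𝓕i)
    have h5 : X.card * (X.card + 1) + K * (8 * X.card ^ 2) + K + (X.card + X.card) ≤ 16 * K * X.card ^ 2 := by
      have hXX : X.card ≤ X.card ^ 2 := Nat.le_self_pow (by norm_num) _
      have h6 : X.card * (X.card + 1) ≤ 2 * (1 * X.card ^ 2) := by
        have e : X.card * (X.card + 1) = X.card ^ 2 + X.card := by ring
        (clear * - hXX e; omega)
      have h7 : 1 * X.card ^ 2 ≤ K * X.card ^ 2 := Nat.mul_le_mul_right _ hK1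
      have h8 : K * 1 ≤ K * X.card ^ 2 := Nat.mul_le_mul_left _ (Nat.one_le_pow _ _ hX1)
      have h10 : X.card + X.card ≤ 2 * (1 * X.card ^ 2) := by omega
      have e1 : K * (8 * X.card ^ 2) = 8 * (K * X.card ^ 2) := by ring
      have e2 : 16 * K * X.card ^ 2 = 16 * (K * X.card ^ 2) := by ring
      rw [e1, e2]
      omega
    omega
  · have h1 : g * n ≤ h / 2 * n := mul_le_mul_of_nonneg_right hgh (by linarith only [hn1])
    have h2 : ν * n ≤ h / 2 * n := mul_le_mul_of_nonneg_right (by linarith only [hgh, hσg', hν0, hνσ]) (by linarith only [hn1])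
    rw [← hn]
    linarith only [hMn, hMr, hHc, h1, h2]
  · have h1 : g * n ≤ a / 128 * n := mul_le_mul_of_nonneg_right hga' (by linarith only [hn1])
    have h2 : ν * n ≤ a / 512 * n := hνa
    have h3 : a / 2 / 32 * n = a / 128 * n + a / 128 * n := by ring
    have h4 : a / 512 * n ≤ a / 128 * n := mul_le_mul_of_nonneg_right (by linarith only [hka, hgk, hσg', hν0, hνσ]) (by linarith only [hn1])
    rw [← hn]
    linarith only [hMn, hMr, hνa, hHc, h1]
  · intro E hE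
    refine ⟨fun i => Ni (E, i), fun i hi hxi => ?_⟩
    obtain ⟨⟨k1, k2, k3, k4, k5⟩, k⟩ := hkey (E, i)
    obtain ⟨k6, k7, k8⟩ := k hi hE hxi
    have hEB : E ∪ (H ∪ (E₀ \ E)) = E₀ ∪ H := by
      ext v
      simp only [mem_union, mem_sdiff]
      constructor
      · rintro (h1 | h1 | h1)
        · exact Or.inl (hE h1)
        · exact Or.inr h1
        · exact Or.inl h1.1
      · rintro (h1 | h1)
        · by_cases h2 : v ∈ E
          · exact Or.inl h2
          · exact Or.inr (Or.inr ⟨h1, h2⟩)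
        · exact Or.inr (Or.inl h1)
    have hNm : Ni (E, i) ∈ 𝓕 := by
      rw [h𝓕]
      exact mem_union_left _ (mem_union_right _ (mem_image_of_mem _ (hmJ E hE i hi)))
    have hnn : (0 : ℝ) < X.card := by rw [← hn]; linarith only [hn1]
    have hEr : (E.card : ℝ) ≤ e := by exact_mod_cast (card_le_card hE).trans hE₀c
    refine ⟨k5.trans hGX, k6, ?_, ?_, ?_⟩
    · intro S hS
      rw [hEB] at hS
      refine le_trans (mul_le_mul_of_nonneg_right ?_ (Nat.cast_nonneg _)) (rep_meet' hS hNm (k5.trans hGX) hX1)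
      rw [← hn] at k7 ⊢
      have h1 : a / 32 + ν ≤ (((Ni (E, i)).card : ℝ) - (E₀ ∪ H).card) / n := by
        rw [le_div_iff₀ (by linarith only [hn1])]
        have h2 : (g + ν) * n ≤ (a / 64 + a / 512) * n := mul_le_mul_of_nonneg_right (by linarith only [hka, hgk, hσg', hν0, hνσ]) (by linarith only [hn1])
        have h3 : (a / 32 + ν) * n ≤ (a / 32 + a / 512) * n := mul_le_mul_of_nonneg_right (by linarith only [hka, hgk, hσg', hν0, hνσ]) (by linarith only [hn1])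
        have e1 : (a / 64 + a / 512) * n + (a / 32 + a / 512) * n = 13 / 256 * (a * n) := by ring
        have e2 : a / 8 * n = 1 / 8 * (a * n) := by ring
        linarith only [hMn, hMr, hνa, hBc, k7, h2]
      linarith only [h1]
    · intro S P hSP hP hS hSc v hv
      rw [hEB] at hS
      exact hgoodG S P hSP hP hS hSc v (k5 hv)
    · intro S P hSA hSP hHP hP hPE hS hSc
      rw [hEB] at hSA hS
      have h𝓕i : 𝓕i (E, i) ⊆ 𝓕 := by
        rw [h𝓕]
        intro F hF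
        exact mem_union_left _ (mem_union_left _ (mem_union_right _ (mem_biUnion.2 ⟨(E, i), hmJ E hE i hi, hF⟩)))
      have hA1 : X.card ≤ (X \ (E₀ ∪ H)).card + (E₀ ∪ H).card := by
        have := le_card_sdiff (E₀ ∪ H) X
        omega
      have hA2 : (X.card : ℝ) ≤ (X \ (E₀ ∪ H)).card + (E₀ ∪ H).card := by exact_mod_cast hA1
      refine k8 (X \ (E₀ ∪ H)) S P sdiff_subset ?_ hSA (fun F hF => hS F (h𝓕i hF)) ?_ hP hPE hSP ?_ ?_
      · rw [← hn] at hA2 ⊢
        have h2 : (g + ν) * n ≤ 1 / 4 * n := mul_le_mul_of_nonneg_right (by linarith only [hη0, hη1, ha1, hka, hgk, hσa, hνσ]) (by linarith only [hn1])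
        linarith only [hη0, hη1, hMn, hMr, hHc, hBc, hA2, h2]
      · refine le_trans (mul_le_mul_of_nonneg_left ?_ hδ.le) hSc
        exact_mod_cast card_le_card sdiff_subset
      · intro v hv
        apply hHP
        by_cases hv0 : v ∈ E₀
        · exact mem_union_right _ (mem_sdiff.2 ⟨hv0, fun h1 => disjoint_left.1 k3 hv h1⟩)
        · rw [hH]
          exact mem_union_left _ (mem_sdiff.2 ⟨mem_biUnion.2 ⟨(E, i), hmJ E hE i hi, hv⟩, hv0⟩)
      · have h1 : (X \ (X \ (E₀ ∪ H))) \ P ⊆ E := by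
          intro v hv
          rw [mem_sdiff, mem_sdiff, mem_sdiff] at hv
          by_contra hvE
          refine hv.2 (hHP ?_)
          have h2 : v ∈ E₀ ∪ H := by
            by_contra h3
            exact hv.1.2 ⟨hv.1.1, h3⟩
          rcases mem_union.1 h2 with h3 | h3
          · exact mem_union_right _ (mem_sdiff.2 ⟨h3, hvE⟩)
          · exact mem_union_left _ h3
        have h2 : ((((X \ (X \ (E₀ ∪ H))) \ P).card : ℕ) : ℝ) ≤ E.card := by exact_mod_cast card_le_card h1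
        rw [← hn]
        linarith only [hMn, hMr, hEr, h2]
  · intro v hv S P hSP hP hS hSc
    exact hgoodG S P hSP hP hS hSc v hv
  · intro z hz hzc S hS hSc
    refine hmeet _ ?_ (nI_sub.trans hGX) hzc S hS hSc
    rw [h𝓖]
    exact mem_union_left _ (mem_image_of_mem _ hz)
  · intro z hz hzc S hS hSc
    refine hmeet _ ?_ (nO_sub.trans hGX) hzc S hS hSc
    rw [h𝓖]
    exact mem_union_right _ (mem_image_of_mem _ hz)

end AER
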