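import Pool.Agent.AER.RigG
import Pool.Agent.AER.SupV
import Pool.Agent.AER.AvoidG
import Pool.Agent.AER.RouteW
import Pool.Agent.AER.GlueM
import Pool.Agent.AEJ.Jump0
import Pool.Agent.AEJ.LabA

/-!
# A large rigid branch anywhere in the tree

The branch hangs at an arbitrary vertex of the tree, the arc is directed away from the branch. The constant `C` is fixed.
-/

set_option autoImplicit false

namespace AER

open Finset AE15 AED AELT AEB
open scoped Classical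

/-- all labels `0` -/
def lab0 : Fd → AEK.Fn
  | .nil => .nil
  | .node d c s => .node d 0 (lab0 c) (lab0 s)

theorem lab0_un (F : Fd) : (lab0 F).un = F := by
  induction F with
  | nil => rfl
  | node d c s ihc ihs => simp only [lab0, AEK.Fn.un, ihc, ihs]

theorem exists_mn (M : AEJ.Mu) : ∃ M' : AEJ.Mn, M'.er = M := by
  induction M with
  | leaf s => exact ⟨.leaf (lab0 s), by rw [AEJ.Mn.er, lab0_un]⟩
  | step s d t ih =>
    obtain ⟨M', h⟩ := ih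
    exact ⟨.step (lab0 s) d 0 M', by rw [AEJ.Mn.er, lab0_un, h]⟩

/-- the hypotheses on the rigid branch (children forest `F` of its root), with light branches -/
structure RigW (m₀ : ℕ) (γB : ℝ) (p : NP) (κ η s C : ℝ) (F : Fd) : Prop where
  ee : ¬ NN F → ∀ {V : Type} {R : V → V → Prop}, AE32.Tour R → AEB.EE R κ η s p 1 C F
  b0 : NN F → AEB.blk F ≤ m₀
  b1 : ∀ c, NN F → F.hv = some (true, c) → AEB.blk c ≤ m₀
  b2 : ∀ c, NN F → F.hv = some (true, c) → ∀ D, (true, D) ∈ c.trees → AEB.blk D ≤ m₀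
  h1 : ∀ c, NN F → F.hv = some (true, c) → HB p κ η s C c
  h2 : ∀ c c', F.hv = some (true, c) → c.hv = some (true, c') → HB p κ η s C c'
  h3 : ∀ c c' c'', F.hv = some (true, c) → c.hv = some (true, c') → c'.hv = some (true, c'') → HB p κ η s C c''
  w : NN F → ∃ W : Fd → Prop, (∀ D, W D → AEB.blk D ≤ m₀ ∨ (AEB.blk D + 1 : ℝ) ≤ γB * (F.size + 1)) ∧ AET.OutB W F ∧
    ∀ c, F.hv = some (true, c) → AET.OutB W c ∧ ∀ D, (true, D) ∈ c.trees → AET.OutB W D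

/-- **Rigid branch anywhere** -/
theorem rigM (b m₀ : ℕ) (hb : 1 ≤ b) : ∃ g : ℕ → ℕ, ∀ {θ κ ε β : ℝ}, 0 < θ → 0 < κ → 0 < ε → 0 < β →
    ∀ p : NP, p.OK → g p.c0 ≤ p.u0 → ∃ D₁ : ℕ, ∀ D : ℕ, D₁ ≤ D →
      ∀ {ω c η η₁ κ₀ κ₁ κ' γ₀ τ s' σ₂ μ : ℝ}, KB D ω c η η₁ κ₀ κ₁ κ' γ₀ τ s' σ₂ μ → ∃ γB C₀ : ℝ, 0 < γB ∧
        ∀ C : ℝ, C₀ ≤ C → ∀ (F : Fd) (Mk : AEJ.Mu), (Mk.plug (false, F)).len ≤ b → (Mk.plug (false, F)).Deg b →
          θ * ((Mk.plug (false, F)).size + 1) ≤ (F.size + 1 : ℝ) → RigW m₀ γB p κ' η s' C F →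
            AEJ.Coarse κ ε β C (Mk.plug (false, F)) := by
  have hb1 : (1 : ℝ) ≤ b := by exact_mod_cast hb
  obtain ⟨T₀, hT₀⟩ : ∃ T₀ : ℕ, T₀ = 2 + 2 * m₀ + b * (m₀ + 1) := ⟨_, rfl⟩
  obtain ⟨N₀, hN₀⟩ : ∃ N₀ : ℕ, N₀ = 2 * T₀ := ⟨_, rfl⟩
  obtain ⟨M₁, hM₁⟩ : ∃ M₁ : ℕ, M₁ = 2 ^ m₀ + N₀ * (m₀ + 1) := ⟨_, rfl⟩
  obtain ⟨e, he⟩ : ∃ e : ℕ, e = N₀ + N₀ * m₀ := ⟨_, rfl⟩
  refine ⟨fun c0 => 2 * (e + 2 * c0 + 2) + N₀ + 2 + 4 * M₁, ?_⟩
  intro θ κ ε β hθ hκ hε hβ p hp hpu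
  obtain ⟨β₀, hβ₀⟩ : ∃ β₀ : ℝ, β₀ = min β 1 := ⟨_, rfl⟩
  obtain ⟨θ₀, hθ₀⟩ : ∃ θ₀ : ℝ, θ₀ = min θ 1 := ⟨_, rfl⟩
  obtain ⟨ε₂, hε₂⟩ : ∃ ε₂ : ℝ, ε₂ = min ε (β₀ / 16) := ⟨_, rfl⟩
  have b1 : 0 < β₀ := by rw [hβ₀]; exact lt_min hβ one_pos
  have b2 : β₀ ≤ β := by rw [hβ₀]; exact min_le_left _ _
  have b3 : β₀ ≤ 1 := by rw [hβ₀]; exact min_le_right _ _
  have t1 : 0 < θ₀ := by rw [hθ₀]; exact lt_min hθ one_pos
  have t2 : θ₀ ≤ θ := by rw [hθ₀]; exact min_le_left _ _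
  have t3 : θ₀ ≤ 1 := by rw [hθ₀]; exact min_le_right _ _
  have e1 : 0 < ε₂ := by rw [hε₂]; exact lt_min hε (by positivity)
  have e2 : ε₂ ≤ ε := by rw [hε₂]; exact min_le_left _ _
  have e3 : ε₂ ≤ β₀ / 16 := by rw [hε₂]; exact min_le_right _ _
  obtain ⟨θ₂, hθ₂⟩ : ∃ θ₂ : ℝ, θ₂ = θ₀ / 2 := ⟨_, rfl⟩
  have t4 : 0 < θ₂ := by rw [hθ₂]; positivity
  have t5 : θ₂ ≤ 1 / 2 := by rw [hθ₂]; linarith only [t3]
  obtain ⟨m, hm⟩ : ∃ m : ℕ, m = b * (T₀ + 1) := ⟨_, rfl⟩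
  have hbT : b ≤ T₀ := by
    have : b * 1 ≤ b * (m₀ + 1) := Nat.mul_le_mul_left _ (by omega)
    omega
  have hm0 : (0 : ℝ) ≤ m := Nat.cast_nonneg _
  obtain ⟨nl, hlt⟩ := AEK.lt1 b hb hκ e1
  obtain ⟨δ₀, hδ₀, hrest⟩ := avoidG b m m₀ N₀ hb (by omega) hκ e1 t4
  obtain ⟨τ, hτ⟩ : ∃ τ : ℝ, τ = θ₂ / (2 * (b : ℝ) ^ 3) := ⟨_, rfl⟩
  have hτ0 : 0 < τ := by rw [hτ]; positivity
  have hb3 : (1 : ℝ) ≤ (b : ℝ) ^ 3 := one_le_pow₀ hb1
  have hτb : τ * (2 * (b : ℝ) ^ 3) = θ₂ := by rw [hτ]; field_simp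
  have hτ1 : τ ≤ 1 := by nlinarith only [b3, t3, hθ₂, hτb, e1, e3, hτ0, hb3]
  obtain ⟨δ, hδ⟩ : ∃ δ : ℝ, δ = min δ₀ (τ / 4) / (2 * (m + 2)) := ⟨_, rfl⟩
  have hm1 : (0 : ℝ) < 2 * (m + 2) := by (clear * -; positivity)
  have d1 : 0 < δ := by rw [hδ]; exact div_pos (lt_min hδ₀ (by positivity)) hm1
  have d2 : 2 * (m + 2) * δ = min δ₀ (τ / 4) := by rw [hδ]; field_simp
  have d3 : 2 * (m + 2) * δ ≤ δ₀ := by rw [d2]; exact min_le_left _ _
  have d4 : 2 * (m + 1) * δ ≤ τ / 4 := by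
    have h1 : 2 * (m + 2) * δ ≤ τ / 4 := by rw [d2]; exact min_le_right _ _
    nlinarith only [d1, h1]
  have d5 : δ ≤ 1 := by nlinarith only [b3, e1, e3, hτ1, d4, d1]
  obtain ⟨h, hh⟩ : ∃ h : ℝ, h = τ / 4 := ⟨_, rfl⟩
  have h1 : 0 < h := by rw [hh]; positivity
  have h3 : h ≤ τ / 4 := hh.le
  obtain ⟨ε₀, hε₀⟩ : ∃ ε₀ : ℝ, ε₀ = min (τ / 64) δ₀ := ⟨_, rfl⟩
  have g1 : 0 < ε₀ := by rw [hε₀]; exact lt_min (by positivity) hδ₀
  have g2 : ε₀ ≤ τ / 64 := by rw [hε₀]; exact min_le_left _ _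
  have g3 : ε₀ ≤ δ₀ := by rw [hε₀]; exact min_le_right _ _
  obtain ⟨D₁, hD₁⟩ := exists_hostsV p hp N₀ e M₁ (by omega) hpu d1 d5 h1 (ε₀ := ε₀) g1
  refine ⟨D₁, ?_⟩
  intro D hD ω c₀ η η₁ κ₀ κ₁ κ' γ₀ τ' s' σ₂ μ P
  obtain ⟨hη, γ, γ₂, ν, n₀, hγ, hγ₂, hγε, hν, hhosts⟩ := hD₁ D hD P
  obtain ⟨-, -, -, -, hη0, -, -, hη₁c, -, hκ₁0, -, hκ'0, hκ'1, hs'0, -, -, -, -, hκ₁η, -⟩ := P.num
  have hη₁s : κ' ≤ 1 := by
    have hc1 : c₀ ≤ 1 / 1024 := P.num.2.2.2.1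
    have hc0 : 0 < c₀ := P.num.2.2.1
    have h5 : c₀ * η ≤ 1 * η := mul_le_mul_of_nonneg_right (by linarith only [hc1, hc0]) hη0.le
    linarith only [hτ1, g2, hη, hη₁c, hκ'0, hκ'1, hκ₁η, h5]
  obtain ⟨n₂, hrest⟩ := hrest δ d1 d3 γ₂ hγ₂ (hγε.trans g3) ν hν (16 * (2 ^ e * N₀))
  obtain ⟨γB, n₁, hγB, hitems⟩ := itemsG b m hb (κ := κ') (η := η) (δ := δ) (τ := τ) (h := h) hκ'0 hη₁s hη0
    (by linarith only [hτ1, g1, g2, hη]) (by linarith only [g2, hη]) d1 hτ0 h3 d4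
  refine ⟨γB, nl + n₀ + n₁ + n₂ + 2 * (1 + b + b * b) / θ₂ + (m₀ + 1) / γB, hγB, ?_⟩
  intro C hC F Mk₀ hl hDg hθF hF V R hT X N hX hN
  obtain ⟨Mk, hMk⟩ := exists_mn Mk₀
  have hFdeg' := AEJ.Mu.deg_plug hDg
  have hunl := AEJ.Mu.len_plug hl
  have hdcl := AEJ.dcl_un_le Mk₀ (false, F)
  have hblk := AEJ.blk_un_le Mk₀ (false, F)
  rw [← hMk, AEJ.Mn.er_un] at hFdeg' hunl
  rw [← hMk, AEJ.Mn.er_un, AEJ.Mn.er_plug] at hdcl hblk
  rw [← hMk, AEJ.Mn.er_plug] at hl hDg hθF hX hN ⊢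
  clear hMk Mk₀
  obtain ⟨hFlen, hFdeg, hund⟩ : F.len ≤ b ∧ F.Deg b ∧ Mk.un.Deg b := ⟨hFdeg'.2.1, hFdeg'.2.2, hFdeg'.1⟩
  obtain ⟨n, hn⟩ : ∃ n : ℝ, n = (X.card : ℝ) := ⟨_, rfl⟩
  have q1 : (0 : ℝ) ≤ 2 * (1 + b + b * b) / θ₂ := by (clear * - hb t4; positivity)
  have q2 : (0 : ℝ) ≤ (m₀ + 1) / γB := by (clear * - hγB; positivity)
  have q4 : (0 : ℝ) ≤ nl := Nat.cast_nonneg _
  have q5 : (0 : ℝ) ≤ n₀ := Nat.cast_nonneg _
  have q6 : (0 : ℝ) ≤ n₁ := Nat.cast_nonneg _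
  have q7 : (0 : ℝ) ≤ n₂ := Nat.cast_nonneg _
  have hC0 : 0 ≤ C := by linarith only [hC, q1, q2]
  have hszr : ((Mk.plug (false, F)).size : ℝ) = Mk.un.size + F.size + 1 := by
    rw [AEJ.Mn.size_plug]
    push_cast
    ring
  have hF0 : (0 : ℝ) ≤ F.size := Nat.cast_nonneg _
  have hs0 : (0 : ℝ) ≤ Mk.un.size := Nat.cast_nonneg _
  have hXC := hX
  rw [← hn, hszr] at hX
  have hXn : (nl : ℝ) + n₀ + n₁ + n₂ + 2 * (1 + b + b * b) / θ₂ + (m₀ + 1) / γB ≤ n := by linarith only [hτ1, g1, g2, hC, hX]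
  have hcard : ∀ a : ℕ, (a : ℝ) ≤ n → a ≤ X.card := fun a ha => by rw [hn] at ha; exact_mod_cast ha
  have hnl : nl ≤ X.card := hcard _ (by linarith only [hτ1, g1, g2, hC, hX, q1, q2])
  have hn₀ : n₀ ≤ X.card := hcard _ (by linarith only [hτ1, g1, g2, hC, hX, q1, q2])
  have hn₁ : n₁ ≤ X.card := hcard _ (by linarith only [hτ1, g1, g2, hC, hX, q1, q2])
  have hn₂ : n₂ ≤ X.card := hcard _ (by linarith only [hτ1, g1, g2, hC, hX, q1, q2])
  have hnpos : 0 < n := by linarith only [hτ1, g1, g2, hC, hX, q1, q2]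
  obtain ⟨N0, hN0⟩ : ∃ N0, N0 = AEJ.Adm R κ ε (Mk.plug (false, F)) X N := ⟨_, rfl⟩
  rw [← hn, ← hN0] at hN
  have hN0X : N0 ⊆ X := by rw [hN0]; exact filter_subset _ _
  have hε₂N : ε₂ * n ≤ N0.card := by
    have g1 : ε₂ * n ≤ β * n := mul_le_mul_of_nonneg_right (by linarith only [b2, e1, e3]) hnpos.le
    linarith only [hN, g1]
  -- the light theorem if there is room
  by_cases hroom : ((Mk.plug (false, F)).size + 1 : ℝ) ≤ (1 - ε₂) * X.card
  · refine hlt hT X N hnl _ hl hDg hroom ?_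
    rw [← hn]
    refine hε₂N.trans ?_
    have g2 : N0 ⊆ X.filter (fun z => N z ∧ Wide R κ ((dcl (Mk.plug (false, F)) + 1) + ε₂ * n) X z ∧
        Wide (fun a b => R b a) κ ((AEB.blk (Mk.plug (false, F)) + 1) + ε₂ * n) X z) := by
      intro v hv
      rw [hN0, AEJ.Adm, mem_filter] at hv
      rw [mem_filter]
      have g3 : ε₂ * n ≤ ε * n := mul_le_mul_of_nonneg_right e2 hnpos.le
      refine ⟨hv.1, hv.2.1, AEK.wide_mono ?_ hv.2.2.1, AEK.wide_mono ?_ hv.2.2.2⟩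
      · rw [← hn]; linarith only [g3]
      · rw [← hn]; linarith only [g3]
    exact_mod_cast card_le_card g2
  push Not at hroom
  rw [hszr, ← hn] at hroom
  have hFn : θ₂ * n ≤ F.size + 1 := by
    have g1 : θ₀ * ((Mk.un.size + F.size + 1 : ℝ) + 1) ≤ θ * ((Mk.un.size + F.size + 1 : ℝ) + 1) :=
      mul_le_mul_of_nonneg_right t2 (by (clear * -; positivity))
    rw [hszr] at hθF
    have g2 : n / 2 ≤ (Mk.un.size + F.size + 1 : ℝ) + 1 := by
      have : ε₂ * n ≤ 1 / 2 * n := mul_le_mul_of_nonneg_right (by linarith) hnpos.le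
      linarith only [hroom, this]
    have g3 : θ₀ * (n / 2) ≤ θ₀ * ((Mk.un.size + F.size + 1 : ℝ) + 1) := mul_le_mul_of_nonneg_left g2 t1.le
    rw [hθ₂]
    linarith only [hθF, g1, g3]
  have hsl : ((Mk.un.size : ℝ) + 1) ≤ (1 - θ₂) * X.card := by rw [← hn]; linarith only [hC, hX, q1, q2, hFn]
  have hFX : (F.size : ℝ) + 1 ≤ X.card := by rw [← hn]; linarith only [hτ1, g1, g2, hC, hX, q1, q2]
  have hm₀B : (m₀ : ℝ) + 1 ≤ γB * X.card := by
    have g3 : ((m₀ : ℝ) + 1) / γB ≤ n := by linarith only [hτ1, g1, g2, hC, hX, q1]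
    rw [div_le_iff₀ hγB] at g3
    rw [← hn]
    linarith only [g3]
  obtain ⟨x, G, hGX, hGc, hG16, hxG, hxi, hE⟩ := hhosts hT X hn₀
  have hbigθ : 2 * (1 + b + b * b) ≤ θ₂ * n := by
    have g3 : 2 * (1 + b + b * b) / θ₂ ≤ n := by linarith only [hτ1, g1, g2, hC, hX, q2]
    rw [div_le_iff₀ t4] at g3
    linarith only [g3]
  -- the lists at the hosts
  obtain ⟨La, hLa, hLd⟩ := exists_La hT m₀ N₀ G x (fun i hi => by
    have := (hxG i hi).2
    (clear * - hM₁ this; omega))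
  obtain ⟨E0, hE0⟩ : ∃ E0, E0 = (range N₀).image x ∪ (range N₀).biUnion (fun i => (La i).toFinset) := ⟨_, rfl⟩
  have hxE0 : ∀ i < N₀, x i ∈ E0 := by
    intro i hi
    rw [hE0]
    exact mem_union_left _ (mem_image.2 ⟨i, mem_range.2 hi, rfl⟩)
  have hLE0 : ∀ i < N₀, ∀ a ∈ La i, a ∈ E0 := by
    intro i hi a ha
    rw [hE0]
    exact mem_union_right _ (mem_biUnion.2 ⟨i, mem_range.2 hi, List.mem_toFinset.2 ha⟩)
  have hE0G : E0 ⊆ G := by
    intro a ha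
    rw [hE0] at ha
    rcases mem_union.1 ha with ha | ha
    · obtain ⟨i, hi, rfl⟩ := mem_image.1 ha
      exact (hxG i (mem_range.1 hi)).1
    · obtain ⟨i, hi, ha⟩ := mem_biUnion.1 ha
      exact ((hLa i (mem_range.1 hi)).2.2 a (List.mem_toFinset.1 ha)).1
  have hE0X : E0 ⊆ X := hE0G.trans hGX
  have hE0c : E0.card ≤ e := by
    rw [hE0, he]
    refine (card_union_le _ _).trans (Nat.add_le_add ?_ ?_)
    · exact card_image_le.trans (card_range _).le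
    · refine card_biUnion_le.trans ?_
      calc ∑ i ∈ range N₀, (La i).toFinset.card ≤ ∑ _i ∈ range N₀, m₀ :=
            sum_le_sum (fun i hi => (List.toFinset_card_le _).trans (hLa i (mem_range.1 hi)).1.le)
        _ = N₀ * m₀ := by rw [sum_const, card_range, smul_eq_mul]
  obtain ⟨𝓕, H, h𝓕, hHX, hHE, hHc, hHc2, hHost, hGood, hI, hO⟩ := hE E0 hE0X hE0c
  obtain ⟨B, hB⟩ : ∃ B, B = E0 ∪ H := ⟨_, rfl⟩
  have hBX : B ⊆ X := by rw [hB]; exact union_subset hE0X hHX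
  have hE0cr : (E0.card : ℝ) ≤ e := by exact_mod_cast hE0c
  have hBc : (B.card : ℝ) ≤ γ₂ / 32 * X.card := by
    have g4 : (B.card : ℝ) ≤ E0.card + H.card := by rw [hB]; exact_mod_cast card_union_le _ _
    linarith only [hHc2, hE0cr, g4]
  rw [← hB] at hGood hI hO
  obtain ⟨S, hS, hdis, hfst, hsnd⟩ := hrest hT X B G N 𝓕 x hn₂ h𝓕 hBX hBc hGX hGc hG16 (fun i hi => by
    rw [hB]
    exact mem_union_left _ (hxE0 i hi)) hxi Mk hunl hund hsl (by
    rw [← hn]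
    refine hε₂N.trans ?_
    have g2 : N0 ⊆ X.filter (fun z => N z ∧ Wide R κ ((dcl Mk.un + 1) + ε₂ * n) X z ∧
        Wide (fun a b => R b a) κ ((AEB.blk Mk.un + 1) + ε₂ * n) X z) := by
      intro v hv
      rw [hN0, AEJ.Adm, mem_filter] at hv
      rw [mem_filter]
      have g3 : ε₂ * n ≤ ε * n := mul_le_mul_of_nonneg_right e2 hnpos.le
      have g4 : ((dcl Mk.un : ℕ) : ℝ) ≤ dcl (Mk.plug (false, F)) := by exact_mod_cast hdcl
      have g5 : ((AEB.blk Mk.un : ℕ) : ℝ) ≤ AEB.blk (Mk.plug (false, F)) := by exact_mod_cast hblk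
      refine ⟨hv.1, hv.2.1, AEK.wide_mono ?_ hv.2.2.1, AEK.wide_mono ?_ hv.2.2.2⟩
      · rw [← hn]; linarith only [g3, g4]
      · rw [← hn]; linarith only [g3, g5]
    exact_mod_cast card_le_card g2)
  obtain ⟨U, hU⟩ : ∃ U, U = (range (m + 1)).biUnion S := ⟨_, rfl⟩
  rw [← hU] at hfst hsnd
  have hSU : ∀ j ≤ m, S j ⊆ U := fun j hj => by
    rw [hU]
    exact subset_biUnion_of_mem S (mem_range.2 (by omega))
  by_cases hNN : NN F
  swap
  · -- the class of the branch is the dense class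
    obtain ⟨z, A, w, hM, hzA, hNz, hzAU, hw⟩ := hfst
    have hzAX : insert z A ⊆ X := hzAU.trans (sdiff_subset.trans sdiff_subset)
    have hwX : w ∈ X := by
      rcases hM.mem with h | h
      · rw [h]; exact hzAX (mem_insert_self _ _)
      · exact hzAX (mem_insert_of_mem h)
    refine glue_mark_whole (C := C) (hzAX (mem_insert_self _ _)) ((subset_insert _ _).trans hzAX) hNz hzA hM ?_ hXC
    obtain ⟨Q, hQ⟩ : ∃ Q, Q = X \ insert z A := ⟨_, rfl⟩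
    rw [← hQ]
    intro hQc
    have hQX : Q ⊆ X := by rw [hQ]; exact sdiff_subset
    refine hF.ee hNN hT Q (fun v => R v w) hQc ⟨?_, fun h => absurd h hNN⟩
    obtain ⟨hS1, hS2, hS3, -⟩ := hS m le_rfl
    have g4 := hI w hwX hw (S m) hS2 hS3
    have hSQ : S m ⊆ Q := by
      intro a ha
      rw [hQ, mem_sdiff]
      refine ⟨(mem_sdiff.1 (hS1 ha)).1, fun h => ?_⟩
      exact (mem_sdiff.1 (hzAU h)).2 (hSU m le_rfl ha)
    unfold ClD
    refine ((mul_le_mul_of_nonneg_left (by exact_mod_cast card_le_card hQX) hs'0.le).trans g4).trans ?_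
    refine Nat.cast_le.2 (card_le_card ?_)
    intro v hv
    rw [mem_inter, mem_nI] at hv
    rw [mem_filter]
    exact ⟨hSQ hv.2, hGood v hv.1.1 (S m) Q hSQ hQX hS2 hS3, hv.1.2⟩
  obtain ⟨W, hWb, hWF, hWc⟩ := hF.w hNN
  obtain ⟨c, c', hFc, hcc'⟩ := id hNN
  obtain ⟨hWc, hWo⟩ := hWc c hFc
  have hWit : ∀ D, W D → (AEB.blk D + 1 : ℝ) ≤ γB * X.card := by
    intro D hD
    rcases hWb D hD with h | h
    · have h5 : (AEB.blk D : ℝ) ≤ m₀ := by exact_mod_cast h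
      linarith only [hm₀B, h5]
    · exact h.trans (mul_le_mul_of_nonneg_left hFX hγB.le)
  have hclen : c.len ≤ b := ((Fd.deg_iff b F).1 hFdeg _ (hv_mem hFc)).1
  have hcdeg : c.Deg b := ((Fd.deg_iff b F).1 hFdeg _ (hv_mem hFc)).2
  have hc'len : c'.len ≤ b := ((Fd.deg_iff b c).1 hcdeg _ (hv_mem hcc')).1
  obtain ⟨sz1, sz2, sz3⟩ := size_chain hb hτb hnpos t4 hbigθ hFlen hclen hFn hFc hcc'
  -- the common part of the cases
  obtain ⟨z, A, w, hM, hzA, hNz, hzAU, hcases⟩ := hsnd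
  have hzAX : insert z A ⊆ X := hzAU.trans (sdiff_subset.trans sdiff_subset)
  have hzAB : ∀ a ∈ insert z A, a ∉ B := fun a ha => (mem_sdiff.1 (mem_sdiff.1 (hzAU ha)).1).2
  have hzAU' : ∀ a ∈ insert z A, a ∉ U := fun a ha => (mem_sdiff.1 (hzAU ha)).2
  have key : ∀ (y : V) (Z : Finset V) (L : List (V × Fd)) (x₀ : V) (D₀ : Fd), R y w → y ∉ Z → Z.card ≤ T₀ →
      (∀ a ∈ insert y Z, a ∈ E0 ∨ a ∈ ((X \ B) \ U) \ insert z A) →
      PE R F y Z L → (x₀, D₀) ∈ L → (∀ q ∈ L, q.1 ∈ G) → (∀ q ∈ L, W q.2) → HB p κ' η s' C D₀ → τ * n ≤ D₀.size + 1 →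
      ((∃ i < N₀, x₀ = x i) ∨ (¬ NN D₀ ∧ γ₂ / 4 * X.card ≤ (nO R G x₀).card)) →
      In R (Mk.plug (false, F)) N X := by
    intro y Z L x₀ D₀ hyw hyZ hZc hcov hPE hxL hLG hLW hHB hD₀ hcl
    have hyZX : insert y Z ⊆ X := by
      intro a ha
      rcases hcov a ha with h | h
      · exact hE0X h
      · exact (mem_sdiff.1 (mem_sdiff.1 (mem_sdiff.1 h).1).1).1
    obtain ⟨E, hEd⟩ : ∃ E, E = insert y Z ∩ E0 := ⟨_, rfl⟩
    have hEE0 : E ⊆ E0 := by rw [hEd]; exact inter_subset_right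
    obtain ⟨Nx, hHost⟩ := hHost E hEE0
    obtain ⟨Hh, hHh⟩ : ∃ Hh, Hh = H ∪ (E0 \ E) := ⟨_, rfl⟩
    have hEH : E ∪ Hh = B := by
      rw [hHh, hB, union_comm H, ← union_assoc, union_sdiff_of_subset hEE0]
    have hHhc : (Hh.card : ℝ) ≤ h * X.card := by
      have g4 : (Hh.card : ℝ) ≤ H.card + (E0 \ E).card := by rw [hHh]; exact_mod_cast card_union_le _ _
      have g5 : ((E0 \ E).card : ℝ) ≤ E0.card := by exact_mod_cast card_le_card sdiff_subset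
      linarith only [hHc, hE0cr, g4, g5]
    rw [← hHh] at hHost
    have hdj : Disjoint (insert y Z) (insert z A) := by
      rw [disjoint_left]
      intro a ha ha2
      rcases hcov a ha with h | h
      · exact hzAB a ha2 (by rw [hB]; exact mem_union_left _ h)
      · exact (mem_sdiff.1 h).2 ha2
    refine glue_mark (C := C) (hyZX (mem_insert_self _ _)) ((subset_insert _ _).trans hyZX) hyZ hPE
      (hzAX (mem_insert_self _ _)) ((subset_insert _ _).trans hzAX) hNz hzA hM hyw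
      (disjoint_left.1 hdj (mem_insert_self _ _)) (hdj.mono_left (subset_insert _ _)) ?_ hXC
    obtain ⟨Q, hQ⟩ : ∃ Q, Q = (X \ insert y Z) \ insert z A := ⟨_, rfl⟩
    rw [← hQ]
    intro hQc
    have hmQ : ∀ a, a ∈ Q ↔ a ∈ X ∧ a ∉ insert y Z ∧ a ∉ insert z A := by
      intro a
      rw [hQ, mem_sdiff, mem_sdiff, and_assoc]
    have hQX : Q ⊆ X := fun a ha => ((hmQ a).1 ha).1
    have hQE : Disjoint Q E := by
      rw [disjoint_left]
      intro a ha ha2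
      rw [hEd] at ha2
      exact ((hmQ a).1 ha).2.1 (mem_inter.1 ha2).1
    have hHQ : Hh ⊆ Q := by
      intro a ha
      rw [hmQ]
      rw [hHh] at ha
      rcases mem_union.1 ha with h | h
      · have haB : a ∈ B := by rw [hB]; exact mem_union_right _ h
        refine ⟨hHX h, fun h2 => ?_, fun h2 => hzAB a h2 haB⟩
        rcases hcov a h2 with h3 | h3
        · exact disjoint_left.1 hHE h h3
        · exact (mem_sdiff.1 (mem_sdiff.1 (mem_sdiff.1 h3).1).1).2 haB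
      · rw [mem_sdiff] at h
        have haB : a ∈ B := by rw [hB]; exact mem_union_left _ h.1
        refine ⟨hE0X h.1, fun h2 => h.2 ?_, fun h2 => hzAB a h2 haB⟩
        rw [hEd]
        exact mem_inter.2 ⟨h2, h.1⟩
    have hSQ : ∀ j ≤ m, S j ⊆ Q := by
      intro j hj a ha
      have h2 := mem_sdiff.1 ((hS j hj).1 ha)
      rw [hmQ]
      refine ⟨h2.1, fun h3 => ?_, fun h3 => hzAU' a h3 (hSU j hj ha)⟩
      rcases hcov a h3 with h4 | h4
      · exact h2.2 (by rw [hB]; exact mem_union_left _ h4)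
      · exact (mem_sdiff.1 (mem_sdiff.1 h4).1).2 (hSU j hj ha)
    have hperm : L.Perm ((x₀, D₀) :: L.erase (x₀, D₀)) := List.perm_cons_erase hxL
    have hLlen : (L.erase (x₀, D₀)).length ≤ m := by
      have g1 := hPE.length_le hFlen hFdeg
      have g2 := List.length_erase_le (a := (x₀, D₀)) (l := L)
      have g3 : b * (Z.card + 1) ≤ b * (T₀ + 1) := Nat.mul_le_mul_left _ (by omega)
      omega
    have hisz : AEB.isz L = AEB.isz (L.erase (x₀, D₀)) + (D₀.size + 1) := by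
      rw [isz_perm hperm, AEB.isz_cons]
      ring
    have hxyZ : x₀ ∈ insert y Z := by
      rcases (AET.PE.host hPE _ hxL).1 with g1 | g1
      · simp only at g1
        rw [g1]
        exact mem_insert_self _ _
      · exact mem_insert_of_mem g1
    obtain ⟨A', hAQ, hA⟩ := hitems hT (E := E) (𝓕 := 𝓕) (ν := ν) hn₁ hHhc S (fun j hj => by rw [hEH]; exact hS j hj)
      hdis Q hQX hQE hHQ hSQ
      (L.erase (x₀, D₀)) hLlen (by
        intro q hq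
        have hqL := List.mem_of_mem_erase hq
        obtain ⟨g1, g2⟩ := pe_deg hPE hFdeg q hqL
        refine ⟨g1, g2, hWit q.2 (hLW q hqL), ?_⟩
        intro S' P' k1 k2 k3 k4
        rw [hEH] at k3
        exact hGood q.1 (hLG q hqL) S' P' k1 k2 k3 k4) x₀ D₀ C hC0 (by rw [← hn]; exact hD₀) (by
        intro P' hP'Q hHP' hSP' hP'c
        obtain ⟨hS1, hS2, hS3, -⟩ := hS m le_rfl
        have hP'X := hP'Q.trans hQX
        have hgd := hGood x₀ (hLG _ hxL) (S m) P' hSP' hP'X hS2 hS3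
        refine hHB hT P' x₀ hP'c hgd ?_
        rcases hcl with ⟨i, hi, rfl⟩ | ⟨hnn, hdeg⟩
        · have hxE : x i ∈ E := by
            rw [hEd]
            exact mem_inter.2 ⟨hxyZ, hxE0 i hi⟩
          refine (hHost i hi hxE).cl D₀ (by rw [hEH]; exact hS1) hSP' hHP' hP'X (disjoint_of_subset_left hP'Q hQE)
            (by rw [hEH]; exact hS2) hS3
        · refine ⟨?_, fun h => absurd h hnn⟩
          have g4 := hO x₀ (hGX (hLG _ hxL)) hdeg (S m) hS2 hS3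
          unfold ClD
          refine ((mul_le_mul_of_nonneg_left (by exact_mod_cast card_le_card hP'X) hs'0.le).trans g4).trans ?_
          refine Nat.cast_le.2 (card_le_card ?_)
          intro v hv
          rw [mem_inter, mem_nO] at hv
          rw [mem_filter]
          exact ⟨hSP' hv.2, hGood v hv.1.1 (S m) P' hSP' hP'X hS2 hS3, hv.1.2⟩) (by
        rw [hisz] at hQc
        push_cast at hQc
        linarith only [hQc])
    exact ⟨A', hAQ, hA.perm hperm.symm⟩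
  have hlen_le : ∀ (l : List V), l.length ≤ T₀ → l.toFinset.card ≤ T₀ := fun l hl => (List.toFinset_card_le l).trans hl
  rcases hcases with ⟨i, hi, hxw⟩ | ⟨y, wy, ⟨hyU, hyG, hyw, hwyl, hwyp, hwy⟩, i, hi, hyx⟩ |
    ⟨y, wy, f, wf, ⟨hyU, hyG, hyw, hwyl, hwyp, hwy⟩, hyO, hfU, hfG, hyf, hfN, hwfl, hwfp, hwf⟩
  · -- a host
    obtain ⟨l1, l2, l3⟩ := hLa i hi
    obtain ⟨Z, L, z1, z2, z3, z4, z5⟩ := routeA1W hT hWF (hF.b0 hNN) hFc (x i) (La i) l2 (fun z hz => (l3 z hz).2.1) l1.ge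
    refine key (x i) Z L (x i) c hxw ?_ ?_ ?_ z1 z3 ?_ z5 (hF.h1 c hNN hFc) sz1 (Or.inl ⟨i, hi, rfl⟩)
    · exact fun ha => hT.irr _ (l3 _ (List.mem_toFinset.1 (z2 ha))).2.1
    · exact (card_le_card z2).trans (hlen_le _ (by (clear * - hT₀ hN₀ hi l1; omega)))
    · intro a ha
      left
      rcases mem_insert.1 ha with h | h
      · rw [h]; exact hxE0 i hi
      · exact hLE0 i hi a (List.mem_toFinset.1 (z2 h))
    · intro q hq
      rcases z4 q hq with h | h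
      · rw [h]; exact (hxG i hi).1
      · exact (l3 _ h).1
  · -- `y` in `G` leads to a host
    obtain ⟨l1, l2, l3⟩ := hLa i hi
    have hyB : y ∉ B := (mem_sdiff.1 (mem_sdiff.1 (mem_sdiff.1 hyU).1).1).2
    have hyE0 : y ∉ E0 := fun h => hyB (by rw [hB]; exact mem_union_left _ h)
    have hwyE0 : ∀ a ∈ wy, a ∉ E0 := fun a ha h => (mem_sdiff.1 (mem_sdiff.1 (mem_sdiff.1 (hwy a ha).2.2).1).1).2
      (by rw [hB]; exact mem_union_left _ h)
    have hnd : (x i :: wy ++ La i).Nodup := by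
      rw [List.cons_append, List.nodup_cons, List.mem_append, not_or, List.nodup_append]
      refine ⟨⟨fun h => hwyE0 _ h (hxE0 i hi), fun h => hT.irr _ (l3 _ h).2.1⟩, tl_nodup hT hwyp,
        tl_nodup hT l2, ?_⟩
      intro a ha a' ha' haa
      subst haa
      exact hwyE0 a ha (hLE0 i hi a ha')
    obtain ⟨Z, L, z1, z2, z3, z4, z5⟩ := routeA2W hT hWF hWc (hF.b0 hNN) (hF.b1 c hNN hFc) hFc hcc' y (x i) wy (La i) hwyp
      (fun z hz => (hwy z hz).2.1) hyx l2 (fun z hz => (l3 z hz).2.1) hnd hwyl.ge l1.ge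
    have hmem : ∀ a ∈ Z, a = x i ∨ a ∈ wy ∨ a ∈ La i := by
      intro a ha
      have := List.mem_toFinset.1 (z2 ha)
      simpa [or_assoc] using this
    refine key y Z L (x i) c' hyw ?_ ?_ ?_ z1 z3 ?_ z5 (hF.h2 c c' hFc hcc') sz2 (Or.inl ⟨i, hi, rfl⟩)
    · intro ha
      rcases hmem y ha with h | h | h
      · exact hyE0 (h ▸ hxE0 i hi)
      · exact hT.irr _ (hwy y h).2.1
      · exact hyE0 (hLE0 i hi y h)
    · refine (card_le_card z2).trans (hlen_le _ ?_)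
      simp only [List.cons_append, List.length_cons, List.length_append, hwyl, l1]
      have : 1 ≤ b * (m₀ + 1) := Nat.one_le_iff_ne_zero.2 (by (clear * - hb; positivity))
      omega
    · intro a ha
      rcases mem_insert.1 ha with h | h
      · right; rw [h]; exact hyU
      · rcases hmem a h with h | h | h
        · left; rw [h]; exact hxE0 i hi
        · right; exact (hwy a h).2.2
        · left; exact hLE0 i hi a h
    · intro q hq
      rcases z4 q hq with h | h | h | h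
      · rw [h]; exact hyG
      · rw [h]; exact (hxG i hi).1
      · exact (hwy _ h).1
      · exact (l3 _ h).1
  -- `y` in `G`, `f` outside `G` leads to many hosts
  have hyB : y ∉ B := (mem_sdiff.1 (mem_sdiff.1 (mem_sdiff.1 hyU).1).1).2
  have hyE0 : y ∉ E0 := fun h => hyB (by rw [hB]; exact mem_union_left _ h)
  have hwyE0 : ∀ a ∈ wy, a ∉ E0 := fun a ha h => (mem_sdiff.1 (mem_sdiff.1 (mem_sdiff.1 (hwy a ha).2.2).1).1).2
    (by rw [hB]; exact mem_union_left _ h)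
  by_cases hNNc : NN c
  swap
  · -- the heavy out-branch of the branch is in the dense class
    obtain ⟨Z, L, z1, z2, z3, z4, z5⟩ := routeA1W hT hWF (hF.b0 hNN) hFc y wy hwyp (fun z hz => (hwy z hz).2.1) hwyl.ge
    refine key y Z L y c hyw ?_ ?_ ?_ z1 z3 ?_ z5 (hF.h1 c hNN hFc) sz1 (Or.inr ⟨hNNc, hyO⟩)
    · exact fun ha => hT.irr _ (hwy _ (List.mem_toFinset.1 (z2 ha))).2.1
    · exact (card_le_card z2).trans (hlen_le _ (by omega))
    · intro a ha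
      right
      rcases mem_insert.1 ha with h | h
      · rw [h]; exact hyU
      · exact (hwy a (List.mem_toFinset.1 (z2 h))).2.2
    · intro q hq
      rcases z4 q hq with h | h
      · rw [h]; exact hyG
      · exact (hwy _ h).1
  obtain ⟨c₁, c'', hcc₁, hc'c''⟩ := id hNNc
  have hc₁ : c₁ = c' := by
    rw [hcc'] at hcc₁
    simpa using hcc₁.symm
  subst hc₁
  have hfB : f ∉ B := (mem_sdiff.1 (mem_sdiff.1 (mem_sdiff.1 hfU).1).1).2
  obtain ⟨sl, s1, s5, s2, s3⟩ := slots_fix (k := b) hT hxi hLa hLd (f := f) (by omega)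
  have hslE : ∀ a ∈ slv sl, a ∈ E0 := by
    intro a ha
    obtain ⟨q, hq, hq'⟩ := mem_slv.1 ha
    obtain ⟨-, i, hiN, rfl⟩ := s2 q hq
    rcases hq' with h | h
    · rw [h]; exact hxE0 i hiN
    · exact hLE0 i hiN a h
  have hwfE0 : ∀ a ∈ wf, a ∉ E0 := fun a ha h => (mem_sdiff.1 (mem_sdiff.1 (mem_sdiff.1 (hwf a ha).2.2.1).1).1).2
    (by rw [hB]; exact mem_union_left _ h)
  have hnd : (f :: wy ++ (wf ++ slv sl)).Nodup := by
    rw [List.cons_append, List.nodup_cons, List.mem_append, List.mem_append, not_or, not_or, List.nodup_append,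
      List.nodup_append]
    refine ⟨⟨fun h => hfG (hwy _ h).1, fun h => hfG (hwf _ h).1, fun h => hfG (hE0G (hslE f h))⟩, tl_nodup hT hwyp,
      ⟨tl_nodup hT hwfp, s3, ?_⟩, ?_⟩
    · intro a ha a' ha' haa
      subst haa
      exact hwfE0 a ha (hslE a ha')
    · intro a ha a' ha' haa
      subst haa
      rcases List.mem_append.1 ha' with h | h
      · exact (hwf a h).2.2.2.2 ha
      · exact hwyE0 a ha (hslE a h)
  obtain ⟨Z, L, q₀, hq₀, z1, z2, z3, z4, z5⟩ := routeA3W hT (b := b) hWF hWc hWo (hF.b0 hNN) (hF.b1 c hNN hFc) (hF.b2 c hNN hFc) hclen hFc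
    hcc' hc'c'' y f wy wf sl hwyp (fun z hz => (hwy z hz).2.1) hyf hwfp (fun z hz => (hwf z hz).2.1)
    (fun q hq => (s2 q hq).1) s1.ge hnd hwyl.ge hwfl.ge
  have hmem : ∀ a ∈ Z, a = f ∨ a ∈ wy ∨ a ∈ wf ∨ a ∈ slv sl := by
    intro a ha
    have := List.mem_toFinset.1 (z2 ha)
    simpa [or_assoc] using this
  obtain ⟨-, i, hi, hix⟩ := s2 q₀ hq₀
  refine key y Z L q₀.1 c'' hyw ?_ ?_ ?_ z1 z3 ?_ z5 (hF.h3 c c₁ c'' hFc hcc' hc'c'') (sz3 c'' hc'len hc'c'')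
    (Or.inl ⟨i, hi, by rw [hix]⟩)
  · intro ha
    rcases hmem y ha with h | h | h | h
    · exact hfG (h ▸ hyG)
    · exact hT.irr _ (hwy y h).2.1
    · exact (hwf y h).2.2.2.1 rfl
    · exact hyE0 (hslE y h)
  · refine (card_le_card z2).trans (hlen_le _ ?_)
    simp only [List.cons_append, List.length_cons, List.length_append, hwyl, hwfl, s5]
    (clear * - hT₀; omega)
  · intro a ha
    rcases mem_insert.1 ha with h | h
    · right; rw [h]; exact hyU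
    · rcases hmem a h with h | h | h | h
      · right; rw [h]; exact hfU
      · right; exact (hwy a h).2.2
      · right; exact (hwf a h).2.2.1
      · left; exact hslE a h
  · intro q hq
    rcases z4 q hq with h | h | h | h
    · rw [h]; exact hyG
    · exact (hwy _ h).1
    · exact (hwf _ h).1
    · exact hE0G (hslE _ h)

end AER
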