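import Pool.Agent.AEK.LT1
import Pool.Agent.AEF.LightHost

/-!
# A light tree at a host

The rooted theorem `AEK.lt1` for a vertex `x` with a linear number of good out-neighbours (`light_nx`, `light`), or which is
good itself (`light_good`).
-/

set_option autoImplicit false

namespace AER

open Finset AE15 AED AELT
open scoped Classical

/-- **A light tree at a vertex with linearly many good out-neighbours**, with a linear bound for the in-closure -/
theorem light_nx (b : ℕ) (hb : 1 ≤ b) {κ γ ε₀ : ℝ} (hκ : 0 < κ) (hγ : 0 < γ) (hε : 0 < ε₀) : ∃ n₀ : ℕ,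
    ∀ {V : Type} {R : V → V → Prop}, AE32.Tour R → ∀ (Y Nx : Finset V) (x : V), n₀ ≤ Y.card → (∀ v ∈ Nx, R x v) →
      (∀ v ∈ Nx, Good R κ (ε₀ / 2) Y v) → γ * Y.card ≤ ((Nx ∩ Y).card : ℝ) → ∀ c : Fd, c.len ≤ b → c.Deg b →
        (AEB.blk c + 1 : ℝ) ≤ γ / 8 * Y.card → (c.size + 1 : ℝ) ≤ (1 - ε₀) * Y.card → In R c (R x) Y := by
  obtain ⟨ε, hεd⟩ : ∃ ε : ℝ, ε = min (γ / 8) (ε₀ / 2) := ⟨_, rfl⟩
  have e0 : 0 < ε := by rw [hεd]; exact lt_min (by positivity) (by positivity)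
  have e1 : ε ≤ γ / 8 := by rw [hεd]; exact min_le_left _ _
  have e2 : ε ≤ ε₀ / 2 := by rw [hεd]; exact min_le_right _ _
  obtain ⟨n₀, hn₀⟩ := AEK.lt1 b hb (κ := κ) (ε := ε) hκ e0
  refine ⟨max n₀ ⌈8 / γ⌉₊, ?_⟩
  intro V R hT Y Nx x hY hx hg hc c hl hd hblk hsz
  obtain ⟨q, hq⟩ : ∃ q : ℝ, q = (Y.card : ℝ) := ⟨_, rfl⟩
  have hq8 : 8 ≤ γ * q := by
    have h1 : ((⌈8 / γ⌉₊ : ℕ) : ℝ) ≤ Y.card := by exact_mod_cast (le_max_right _ _).trans hY
    have h2 := (Nat.le_ceil (8 / γ)).trans h1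
    rw [div_le_iff₀ hγ, ← hq] at h2
    linarith
  have hq0 : 0 ≤ q := by rw [hq]; exact Nat.cast_nonneg _
  obtain ⟨W, hW⟩ : ∃ W, W = Nx ∩ Y := ⟨_, rfl⟩
  obtain ⟨j, hj⟩ : ∃ j : ℕ, j = ⌈γ / 4 * q⌉₊ := ⟨_, rfl⟩
  have hj1 : γ / 4 * q ≤ j := by rw [hj]; exact Nat.le_ceil _
  have hj2 : (j : ℝ) < γ / 4 * q + 1 := by rw [hj]; exact Nat.ceil_lt_add_one (by positivity)
  have hlow := AEF.card_low_nI hT W j
  rw [← hq] at hc hblk hsz
  rw [← hW] at hc
  have hεq : ε * q ≤ γ / 8 * q := mul_le_mul_of_nonneg_right e1 hq0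
  have hεq2 : ε * q ≤ ε₀ / 2 * q := mul_le_mul_of_nonneg_right e2 hq0
  refine hn₀ hT Y (R x) ((le_max_left _ _).trans hY) c hl hd ?_ ?_
  · rw [← hq]
    have : (1 - ε₀) * q ≤ (1 - ε) * q := mul_le_mul_of_nonneg_right (by linarith) hq0
    linarith
  · rw [← hq]
    have h1 : W \ W.filter (fun u => (nI R W u).card < j) ⊆
        Y.filter (fun w => R x w ∧ Wide R κ ((dcl c + 1) + ε * q) Y w ∧
          Wide (fun a b => R b a) κ ((AEB.blk c + 1) + ε * q) Y w) := by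
      intro w hw
      rw [mem_sdiff, mem_filter, not_and, not_lt] at hw
      have hwN : w ∈ Nx := by rw [hW] at hw; exact (mem_inter.1 hw.1).1
      have hwY : w ∈ Y := by rw [hW] at hw; exact (mem_inter.1 hw.1).2
      have hwj := hw.2 hw.1
      rw [mem_filter]
      refine ⟨hwY, hx w hwN, ?_, ?_⟩
      · intro Q hQ hnQ hcQ
        have h2 := hg w hwN Q hQ hnQ hcQ
        rw [← hq] at h2
        have h3 : (Y.card : ℝ) = (Y \ Q).card + Q.card := by exact_mod_cast (card_sdiff_add_card_eq_card hQ).symm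
        rw [← hq] at h3
        have h4 : (dcl c : ℝ) ≤ c.size := by exact_mod_cast AEK.dcl_le_size c
        have h5 : (1 - ε₀) * q = q - ε₀ * q := by ring
        have h6 : ε₀ / 2 * q = ε₀ * q / 2 := by ring
        rw [h5] at hsz
        rw [h6] at h2 hεq2
        linarith
      · intro Q hQ hnQ _
        have h2 : nI R W w ⊆ Q := by
          intro u hu
          rw [mem_nI] at hu
          refine hnQ (mem_nO.2 ⟨?_, hu.2⟩)
          have := hu.1
          rw [hW] at this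
          exact (mem_inter.1 this).2
        have h3 : (j : ℝ) ≤ Q.card := by exact_mod_cast hwj.trans (card_le_card h2)
        have h4 : γ / 8 * q = γ * q / 8 := by ring
        have h6 : γ / 4 * q = γ * q / 4 := by ring
        rw [h4] at hblk hεq
        rw [h6] at hj1
        linarith
    have h2 : W.card ≤ (W \ W.filter (fun u => (nI R W u).card < j)).card + 2 * j := by
      have h3 := card_sdiff_add_card_eq_card (filter_subset (fun u => (nI R W u).card < j) W)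
      omega
    have h3 : (W.card : ℝ) ≤ (W \ W.filter (fun u => (nI R W u).card < j)).card + 2 * j := by
      exact_mod_cast h2
    have h4 : ((W \ W.filter (fun u => (nI R W u).card < j)).card : ℝ) ≤
        ((Y.filter (fun w => R x w ∧ Wide R κ ((dcl c + 1) + ε * q) Y w ∧
          Wide (fun a b => R b a) κ ((AEB.blk c + 1) + ε * q) Y w)).card : ℝ) := by
      exact_mod_cast card_le_card h1
    refine le_trans ?_ h4
    have h4 : γ / 8 * q = γ * q / 8 := by ring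
    have h6 : γ / 4 * q = γ * q / 4 := by ring
    rw [h4] at hεq
    rw [h6] at hj2
    linarith

/-- **A light tree at a vertex with linearly many good out-neighbours** (bounded in-closure) -/
theorem light (b B : ℕ) (hb : 1 ≤ b) {κ γ ε₀ : ℝ} (hκ : 0 < κ) (hγ : 0 < γ) (hε : 0 < ε₀) : ∃ n₀ : ℕ,
    ∀ {V : Type} {R : V → V → Prop}, AE32.Tour R → ∀ (Y Nx : Finset V) (x : V), n₀ ≤ Y.card → (∀ v ∈ Nx, R x v) →
      (∀ v ∈ Nx, Good R κ (ε₀ / 2) Y v) → γ * Y.card ≤ ((Nx ∩ Y).card : ℝ) → ∀ c : Fd, c.len ≤ b → c.Deg b →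
        AEB.blk c ≤ B → (c.size + 1 : ℝ) ≤ (1 - ε₀) * Y.card → In R c (R x) Y := by
  obtain ⟨n₀, h₀⟩ := light_nx b hb hκ hγ hε
  refine ⟨max n₀ ⌈8 * (B + 1) / γ⌉₊, ?_⟩
  intro V R hT Y Nx x hY hx hg hc c hl hd hblk hsz
  refine h₀ hT Y Nx x ((le_max_left _ _).trans hY) hx hg hc c hl hd ?_ hsz
  have h1 : ((⌈8 * (B + 1) / γ⌉₊ : ℕ) : ℝ) ≤ Y.card := by exact_mod_cast (le_max_right _ _).trans hY
  have h2 := (Nat.le_ceil (8 * ((B : ℝ) + 1) / γ)).trans h1
  rw [div_le_iff₀ hγ] at h2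
  have h3 : (AEB.blk c : ℝ) ≤ B := by exact_mod_cast hblk
  have h4 : γ / 8 * (Y.card : ℝ) = Y.card * γ / 8 := by ring
  rw [h4]
  linarith

/-- **A light tree at a good vertex**, with a linear bound for the in-closure -/
theorem light_good (b : ℕ) (hb : 1 ≤ b) {κ η : ℝ} (hκ : 0 < κ) (hκ1 : κ ≤ 1) (hη : 0 < η) (hη1 : η ≤ 1 / 2) :
    ∃ (γ : ℝ) (n₀ : ℕ), 0 < γ ∧ ∀ {V : Type} {R : V → V → Prop}, AE32.Tour R → ∀ (Y : Finset V) (x : V), n₀ ≤ Y.card →
      Good R κ η Y x → ∀ c : Fd, c.len ≤ b → c.Deg b → (AEB.blk c + 1 : ℝ) ≤ γ * Y.card →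
        (c.size + 1 : ℝ) ≤ (1 - 8 * η) * Y.card → In R c (R x) Y := by
  have hk : 0 < AEF.kGO κ η := AEF.kGO_pos hκ hη
  obtain ⟨n₀, h₀⟩ := light_nx b hb (κ := AEF.κGO κ η) (γ := AEF.kGO κ η) (ε₀ := 8 * η) (AEF.κGO_pos hκ hη) hk (by positivity)
  refine ⟨AEF.kGO κ η / 8, max n₀ ⌈20 / η⌉₊, by positivity, ?_⟩
  intro V R hT Y x hY hg c hl hd hblk hsz
  have h20 : 20 ≤ η * Y.card := by
    have h1 : ((⌈20 / η⌉₊ : ℕ) : ℝ) ≤ Y.card := by exact_mod_cast (le_max_right _ _).trans hY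
    have h2 := (Nat.le_ceil (20 / η)).trans h1
    rw [div_le_iff₀ hη] at h2
    linarith
  have h1 := AEF.good_out hT hκ hκ1 hη hη1 h20 hg
  refine h₀ hT Y ((nO R Y x).filter (fun w => Good R (AEF.κGO κ η) (4 * η) Y w)) x ((le_max_left _ _).trans hY) ?_ ?_ ?_ c
    hl hd ?_ hsz
  · intro v hv
    exact (mem_nO.1 (mem_filter.1 hv).1).2
  · intro v hv
    have h2 : 8 * η / 2 = 4 * η := by ring
    rw [h2]
    exact (mem_filter.1 hv).2
  · rw [inter_eq_left.2 ((filter_subset _ _).trans nO_sub)]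
    exact h1
  · exact hblk

end AER
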