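import Pool.Agent.AER.DefsR
import Pool.Agent.AER.Light

/-!
# All items at the hosts

`items_core`: light items one after another, a designated item last and exactly. `items`: the form used at the hosts
fixed in advance.
-/

set_option autoImplicit false

namespace AER

open Finset AE15 AED AELT AEB
open scoped Classical

variable {V : Type*} {R : V → V → Prop}

/-- **Light items one after another, the designated item last.** Each light item uses up one of the sets `S j`. -/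
theorem items_core {q₀ : V × Fd} {H : Finset V} {t C₁ : ℕ} : ∀ (L : List (V × Fd)) (S : ℕ → Finset V) (P : Finset V),
    H ⊆ P → (∀ j ≤ L.length, S j ⊆ P) → (∀ j ≤ L.length, Disjoint (S j) H) →
    (∀ i ≤ L.length, ∀ j ≤ L.length, i ≠ j → Disjoint (S i) (S j)) →
    (∀ q ∈ L, ∀ j ≤ L.length, ∀ Y ⊆ P, S j ⊆ Y → q.2.size + 1 + t ≤ Y.card → In R q.2 (R q.1) Y) →
    (∀ j ≤ L.length, ∀ Y ⊆ P, S j ⊆ Y → H ⊆ Y → q₀.2.size + 1 + C₁ ≤ Y.card → In R q₀.2 (R q₀.1) Y) →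
    H.card + ∑ j ∈ range (L.length + 1), (S j).card + t ≤ q₀.2.size + 1 → isz (q₀ :: L) + C₁ ≤ P.card →
      ∃ A ⊆ P, EmbI R (q₀ :: L) A := by
  intro L
  induction L with
  | nil =>
    intro S P hH hS _ _ _ hheavy _ hP
    obtain ⟨x, hx, A, hA, hxA, hr, he⟩ := hheavy 0 le_rfl P (Subset.refl _) (hS 0 le_rfl) hH (by
      simpa [AEB.isz_cons, AEB.isz_nil] using hP)
    refine ⟨insert x A, insert_subset hx hA, insert x A, ∅, disjoint_empty_right _, by simp, ⟨x, A, hr, hxA, rfl, he⟩, rfl⟩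
  | cons q L ih =>
    intro S P hH hS hSH hSS hlight hheavy hsum hP
    obtain ⟨Rs, hRs⟩ : ∃ Rs : Finset V, Rs = H ∪ (range (L.length + 1)).biUnion (fun j => S (j + 1)) := ⟨_, rfl⟩
    have hlen : (q :: L).length = L.length + 1 := rfl
    rw [hlen] at hS hSH hSS hlight hheavy hsum
    have hRc : Rs.card ≤ H.card + ∑ j ∈ range (L.length + 1), (S (j + 1)).card := by
      rw [hRs]
      exact (card_union_le _ _).trans (Nat.add_le_add_left card_biUnion_le _)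
    have hsum' : H.card + (∑ j ∈ range (L.length + 1), (S (j + 1)).card + (S 0).card) + t ≤ q₀.2.size + 1 := by
      rw [← sum_range_succ' (fun j => (S j).card) (L.length + 1)]
      exact hsum
    have hY1 : S 0 ⊆ P \ Rs := by
      intro v hv
      rw [mem_sdiff, hRs, mem_union, mem_biUnion]
      refine ⟨hS 0 (Nat.zero_le _) hv, ?_⟩
      rintro (h | ⟨j, hj, h⟩)
      · exact disjoint_left.1 (hSH 0 (Nat.zero_le _)) hv h
      · rw [mem_range] at hj
        exact disjoint_left.1 (hSS 0 (Nat.zero_le _) (j + 1) (by omega) (by omega)) hv h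
    have hPc : P.card ≤ (P \ Rs).card + Rs.card := by
      have := le_card_sdiff Rs P
      omega
    rw [AEB.isz_cons, AEB.isz_cons] at hP
    obtain ⟨x, hx, A, hA, hxA, hr, he⟩ := hlight q (List.mem_cons_self ..) 0 (Nat.zero_le _) (P \ Rs) sdiff_subset hY1 (by
      omega)
    have hxP : x ∈ P := (mem_sdiff.1 hx).1
    have hAc : A.card = q.2.size := he.card
    have hIA : insert x A ⊆ P \ Rs := insert_subset hx hA
    have hRd : ∀ W : Finset V, W ⊆ Rs → W ⊆ P → W ⊆ P \ insert x A := by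
      intro W hW hWP v hv
      rw [mem_sdiff]
      refine ⟨hWP hv, fun h => ?_⟩
      exact (mem_sdiff.1 (hIA h)).2 (hW hv)
    have hsub : P \ insert x A ⊆ P := sdiff_subset
    obtain ⟨B, hB, hE⟩ := ih (fun j => S (j + 1)) (P \ insert x A)
      (hRd H (by rw [hRs]; exact subset_union_left) hH)
      (fun j hj => hRd _ (by
        rw [hRs]
        exact (subset_biUnion_of_mem (fun j => S (j + 1)) (mem_range.2 (by omega))).trans subset_union_right)
        (hS (j + 1) (by omega)))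
      (fun j hj => hSH (j + 1) (by omega))
      (fun i hi j hj hij => hSS (i + 1) (by omega) (j + 1) (by omega) (by omega))
      (fun r hr j hj Y hY => hlight r (List.mem_cons_of_mem _ hr) (j + 1) (by omega) Y (hY.trans hsub))
      (fun j hj Y hY => hheavy (j + 1) (by omega) Y (hY.trans hsub))
      (by
        have : H.card + ∑ j ∈ range (L.length + 1), (S (j + 1)).card + t ≤ q₀.2.size + 1 := by omega
        exact this)
      (by
        have h1 : (insert x A).card = q.2.size + 1 := by rw [card_insert_of_notMem hxA, hAc]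
        have h2 := card_sdiff_add_card_eq_card (show insert x A ⊆ P from insert_subset hxP (hA.trans sdiff_subset))
        rw [AEB.isz_cons]
        omega)
    have hE' : EmbI R (q :: q₀ :: L) (insert x A ∪ B) := by
      refine ⟨insert x A, B, ?_, rfl, ⟨x, A, hr, hxA, rfl, he⟩, hE⟩
      rw [disjoint_right]
      intro v hv
      exact (mem_sdiff.1 (hB hv)).2
    refine ⟨insert x A ∪ B, union_subset (hIA.trans sdiff_subset) (hB.trans hsub), hE'.perm (List.Perm.swap _ _ _)⟩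

/-- the class `ClB` is monotone in the number of uncovered vertices -/
theorem ClB.cl {Gd : V → Prop} {s : ℝ} {p : NP} {X : Finset V} {N : V → Prop} (h : ClB R Gd s p p.u0 X N) (F : Fd) :
    Cl R Gd s p F X N := by
  obtain ⟨h1, U, Q, hU, hQ, h2, h3⟩ := h
  refine ⟨h1, fun _ => ⟨h1, U, Q, hU.trans ?_, hQ, h2, h3⟩⟩
  unfold NP.ub
  split_ifs <;> omega

/-- **All items at the hosts fixed in advance**, with a designated item `q₀`: it is embedded last, by the property `hq₀`,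
which is used for sets containing the reserve `H` and one of the sets `S j` -/
theorem items_des (b B m N : ℕ) (hb : 1 ≤ b) {p : NP} {κ η s γ δ ν τ h : ℝ} (hκ : 0 < κ) (hγ : 0 < γ)
    (hδ : 0 < δ) (hτ : 0 < τ) (hη : η ≤ τ / 8) (hh : h ≤ τ / 4) (hδτ : 2 * (m + 1) * δ ≤ τ / 4) (C₁ : ℕ) :
    ∃ n₁ : ℕ, ∀ {V : Type} {R : V → V → Prop}, AE32.Tour R → ∀ {X E : Finset V} {𝓕 : Finset (Finset V)}
      {H : Finset V} {x : ℕ → V} {Nx : ℕ → Finset V}, n₁ ≤ X.card → (H.card : ℝ) ≤ h * X.card →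
      (∀ i < N, Host R p κ η s γ δ ν X E 𝓕 H (x i) (Nx i)) → ∀ S : ℕ → Finset V,
      (∀ j ≤ m, S j ⊆ X \ (E ∪ H) ∧ Rep (X \ (E ∪ H)) 𝓕 ν (S j) ∧ δ * X.card ≤ ((S j).card : ℝ) ∧
        ((S j).card : ℝ) ≤ 2 * δ * X.card) → (∀ i ≤ m, ∀ j ≤ m, i ≠ j → Disjoint (S i) (S j)) →
      ∀ P ⊆ X, H ⊆ P → (∀ j ≤ m, S j ⊆ P) → ∀ (q₀ : V × Fd) (L : List (V × Fd)), L.length ≤ m →
        (∀ q ∈ L, (∃ i < N, q.1 = x i) ∧ q.2.len ≤ b ∧ q.2.Deg b ∧ AEB.blk q.2 ≤ B) →
        τ * X.card ≤ (q₀.2.size + 1 : ℝ) →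
        (∀ j ≤ m, ∀ Y ⊆ P, S j ⊆ Y → H ⊆ Y → q₀.2.size + 1 + C₁ ≤ Y.card → In R q₀.2 (R q₀.1) Y) →
          isz (q₀ :: L) + C₁ ≤ P.card → ∃ A ⊆ P, EmbI R (q₀ :: L) A := by
  obtain ⟨n₀, h₀⟩ := light b B hb (κ := κ) (γ := γ * δ) (ε₀ := τ / 4) hκ (by positivity) (by positivity)
  refine ⟨⌈4 / τ⌉₊ + ⌈4 * n₀ / τ⌉₊, ?_⟩
  intro V R hT X E 𝓕 H x Nx hX hHc hHost S hS hSS P hPX hHP hSP q₀ L hLm hL hq₀ hheavy hP
  have hX0 : (0 : ℝ) ≤ X.card := Nat.cast_nonneg _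
  have hX1 : 4 ≤ τ * X.card := by
    have h1 : ((⌈4 / τ⌉₊ : ℕ) : ℝ) ≤ X.card := by exact_mod_cast (Nat.le_add_right _ _).trans hX
    have h2 := (Nat.le_ceil (4 / τ)).trans h1
    rw [div_le_iff₀ hτ] at h2
    linarith
  have hX2 : 4 * (n₀ : ℝ) ≤ τ * X.card := by
    have h1 : ((⌈4 * n₀ / τ⌉₊ : ℕ) : ℝ) ≤ X.card := by exact_mod_cast (Nat.le_add_left _ _).trans hX
    have h2 := (Nat.le_ceil (4 * (n₀ : ℝ) / τ)).trans h1
    rw [div_le_iff₀ hτ] at h2
    linarith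
  obtain ⟨t, ht⟩ : ∃ t : ℕ, t = ⌈τ / 4 * X.card⌉₊ := ⟨_, rfl⟩
  have ht1 : τ / 4 * X.card ≤ t := by rw [ht]; exact Nat.le_ceil _
  have ht2 : (t : ℝ) < τ / 4 * X.card + 1 := by rw [ht]; exact Nat.ceil_lt_add_one (by positivity)
  refine items_core (t := t) L S P hHP (fun j hj => hSP j (hj.trans hLm)) ?_
    (fun i hi j hj => hSS i (hi.trans hLm) j (hj.trans hLm)) ?_
    (fun j hj => hheavy j (hj.trans hLm)) ?_ hP
  · intro j hj
    rw [disjoint_right]
    intro v hv hvS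
    exact (mem_sdiff.1 ((hS j (hj.trans hLm)).1 hvS)).2 (mem_union_right _ hv)
  · intro q hq j hj Y hY hSY hsz
    obtain ⟨⟨i, hi, hqi⟩, hl, hd, hblk⟩ := hL q hq
    obtain ⟨hS1, hS2, hS3, hS4⟩ := hS j (hj.trans hLm)
    have hH := hHost i hi
    have hYX : Y ⊆ X := hY.trans hPX
    have hYc : (Y.card : ℝ) ≤ X.card := by exact_mod_cast card_le_card hYX
    have hY0 : (0 : ℝ) ≤ Y.card := Nat.cast_nonneg _
    have hszR : (q.2.size : ℝ) + 1 + t ≤ Y.card := by exact_mod_cast hsz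
    have hszn : (0 : ℝ) ≤ q.2.size := Nat.cast_nonneg _
    have hYτ : τ / 4 * (Y.card : ℝ) ≤ τ / 4 * X.card := mul_le_mul_of_nonneg_left hYc (by positivity)
    rw [hqi]
    refine h₀ hT Y (Nx i) (x i) ?_ hH.out ?_ ?_ q.2 hl hd hblk ?_
    · have : (n₀ : ℝ) ≤ Y.card := by linarith
      exact_mod_cast this
    · intro v hv
      exact AEF.Good_mono le_rfl (by linarith) (hH.good (S j) Y hSY hYX hS2 hS3 v hv)
    · have h1 := hH.meet (S j) hS2
      have h2 : ((Nx i ∩ S j).card : ℝ) ≤ (Nx i ∩ Y).card := by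
        exact_mod_cast card_le_card (inter_subset_inter (Subset.refl _) hSY)
      have h3 : γ * (δ * X.card) ≤ γ * (S j).card := mul_le_mul_of_nonneg_left hS3 hγ.le
      have h4 : γ * δ * Y.card ≤ γ * δ * X.card := mul_le_mul_of_nonneg_left hYc (by positivity)
      have h5 : γ * δ * X.card = γ * (δ * X.card) := by ring
      linarith
    · have h1 : (1 - τ / 4) * (Y.card : ℝ) = Y.card - τ / 4 * Y.card := by ring
      rw [h1]
      linarith
  · have h1 : ∑ j ∈ range (L.length + 1), ((S j).card : ℝ) ≤ (m + 1) * (2 * δ * X.card) := by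
      calc ∑ j ∈ range (L.length + 1), ((S j).card : ℝ) ≤ ∑ j ∈ range (m + 1), ((S j).card : ℝ) := by
            refine sum_le_sum_of_subset_of_nonneg ?_ (fun _ _ _ => Nat.cast_nonneg _)
            intro j hj
            rw [mem_range] at hj ⊢
            omega
        _ ≤ ∑ _j ∈ range (m + 1), 2 * δ * X.card := by
            refine sum_le_sum fun j hj => ?_
            rw [mem_range] at hj
            exact (hS j (by omega)).2.2.2
        _ = (m + 1) * (2 * δ * X.card) := by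
            rw [sum_const, card_range, nsmul_eq_mul]
            push_cast
            ring
    have h2 : (m + 1) * (2 * δ * (X.card : ℝ)) ≤ τ / 4 * X.card := by
      have : (m + 1) * (2 * δ * (X.card : ℝ)) = 2 * (m + 1) * δ * X.card := by ring
      rw [this]
      exact mul_le_mul_of_nonneg_right hδτ hX0
    have h3 : h * (X.card : ℝ) ≤ τ / 4 * X.card := mul_le_mul_of_nonneg_right hh hX0
    have h4 : ((H.card + ∑ j ∈ range (L.length + 1), (S j).card + t : ℕ) : ℝ) ≤ ((q₀.2.size + 1 : ℕ) : ℝ) := by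
      push_cast
      linarith
    exact_mod_cast h4

/-- **Light items at good hosts, a designated item last**: the light items hang at vertices which are good in every set
containing one of the sets `S j` -/
theorem items_good (b B m : ℕ) (hb : 1 ≤ b) {κ η δ τ h : ℝ} (hκ : 0 < κ) (hκ1 : κ ≤ 1) (hη0 : 0 < η)
    (hτ : 0 < τ) (hη : η ≤ τ / 32) (hτ1 : τ ≤ 1) (hh : h ≤ τ / 4) (hδτ : 2 * (m + 1) * δ ≤ τ / 4) (C₁ : ℕ) :
    ∃ n₁ : ℕ, ∀ {V : Type} {R : V → V → Prop}, AE32.Tour R → ∀ {X H : Finset V}, n₁ ≤ X.card →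
      (H.card : ℝ) ≤ h * X.card → ∀ S : ℕ → Finset V,
      (∀ j ≤ m, Disjoint (S j) H ∧ ((S j).card : ℝ) ≤ 2 * δ * X.card) →
      (∀ i ≤ m, ∀ j ≤ m, i ≠ j → Disjoint (S i) (S j)) →
      ∀ P ⊆ X, H ⊆ P → (∀ j ≤ m, S j ⊆ P) → ∀ (q₀ : V × Fd) (L : List (V × Fd)), L.length ≤ m →
        (∀ q ∈ L, (∀ j ≤ m, ∀ Y ⊆ P, S j ⊆ Y → Good R κ η Y q.1) ∧ q.2.len ≤ b ∧ q.2.Deg b ∧ AEB.blk q.2 ≤ B) →
        τ * X.card ≤ (q₀.2.size + 1 : ℝ) →
        (∀ j ≤ m, ∀ Y ⊆ P, S j ⊆ Y → H ⊆ Y → q₀.2.size + 1 + C₁ ≤ Y.card → In R q₀.2 (R q₀.1) Y) →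
          isz (q₀ :: L) + C₁ ≤ P.card → ∃ A ⊆ P, EmbI R (q₀ :: L) A := by
  obtain ⟨γ, n₀, hγ, h₀⟩ := light_good b hb (κ := κ) (η := η) hκ hκ1 hη0 (by linarith)
  refine ⟨⌈4 / τ⌉₊ + ⌈4 * n₀ / τ⌉₊ + ⌈4 * (B + 1) / (γ * τ)⌉₊, ?_⟩
  intro V R hT X H hX hHc S hS hSS P hPX hHP hSP q₀ L hLm hL hq₀ hheavy hP
  have hX0 : (0 : ℝ) ≤ X.card := Nat.cast_nonneg _
  have hX1 : 4 ≤ τ * X.card := by
    have h1 : ((⌈4 / τ⌉₊ : ℕ) : ℝ) ≤ X.card := by
      exact_mod_cast (Nat.le_add_right _ _).trans ((Nat.le_add_right _ _).trans hX)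
    have h2 := (Nat.le_ceil (4 / τ)).trans h1
    rw [div_le_iff₀ hτ] at h2
    linarith
  have hX2 : 4 * (n₀ : ℝ) ≤ τ * X.card := by
    have h1 : ((⌈4 * n₀ / τ⌉₊ : ℕ) : ℝ) ≤ X.card := by
      exact_mod_cast (Nat.le_add_left _ _).trans ((Nat.le_add_right _ _).trans hX)
    have h2 := (Nat.le_ceil (4 * (n₀ : ℝ) / τ)).trans h1
    rw [div_le_iff₀ hτ] at h2
    linarith
  have hX3 : 4 * ((B : ℝ) + 1) ≤ γ * (τ * X.card) := by
    have h1 : ((⌈4 * ((B : ℝ) + 1) / (γ * τ)⌉₊ : ℕ) : ℝ) ≤ X.card := by exact_mod_cast (Nat.le_add_left _ _).trans hX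
    have h2 := (Nat.le_ceil (4 * ((B : ℝ) + 1) / (γ * τ))).trans h1
    rw [div_le_iff₀ (by positivity)] at h2
    linarith
  obtain ⟨t, ht⟩ : ∃ t : ℕ, t = ⌈τ / 4 * X.card⌉₊ := ⟨_, rfl⟩
  have ht1 : τ / 4 * X.card ≤ t := by rw [ht]; exact Nat.le_ceil _
  have ht2 : (t : ℝ) < τ / 4 * X.card + 1 := by rw [ht]; exact Nat.ceil_lt_add_one (by positivity)
  refine items_core (t := t) L S P hHP (fun j hj => hSP j (hj.trans hLm)) (fun j hj => (hS j (hj.trans hLm)).1)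
    (fun i hi j hj => hSS i (hi.trans hLm) j (hj.trans hLm)) ?_
    (fun j hj => hheavy j (hj.trans hLm)) ?_ hP
  · intro q hq j hj Y hY hSY hsz
    obtain ⟨hg, hl, hd, hblk⟩ := hL q hq
    have hYX : Y ⊆ X := hY.trans hPX
    have hYc : (Y.card : ℝ) ≤ X.card := by exact_mod_cast card_le_card hYX
    have hY0 : (0 : ℝ) ≤ Y.card := Nat.cast_nonneg _
    have hszR : (q.2.size : ℝ) + 1 + t ≤ Y.card := by exact_mod_cast hsz
    have hszn : (0 : ℝ) ≤ q.2.size := Nat.cast_nonneg _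
    have hYη : 8 * η * (Y.card : ℝ) ≤ τ / 4 * X.card := by
      calc 8 * η * (Y.card : ℝ) ≤ τ / 4 * Y.card := mul_le_mul_of_nonneg_right (by linarith) hY0
        _ ≤ τ / 4 * X.card := mul_le_mul_of_nonneg_left hYc (by positivity)
    have htY : τ / 4 * X.card ≤ (Y.card : ℝ) := by linarith
    refine h₀ hT Y q.1 ?_ (hg j (hj.trans hLm) Y hY hSY) q.2 hl hd ?_ ?_
    · have : (n₀ : ℝ) ≤ Y.card := by linarith
      exact_mod_cast this
    · have h3 : (AEB.blk q.2 : ℝ) ≤ B := by exact_mod_cast hblk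
      have h4 : γ * (τ / 4 * X.card) ≤ γ * Y.card := mul_le_mul_of_nonneg_left htY hγ.le
      have h5 : γ * (τ / 4 * X.card) = γ * (τ * X.card) / 4 := by ring
      linarith
    · have h1 : (1 - 8 * η) * (Y.card : ℝ) = Y.card - 8 * η * Y.card := by ring
      rw [h1]
      linarith
  · have h1 : ∑ j ∈ range (L.length + 1), ((S j).card : ℝ) ≤ (m + 1) * (2 * δ * X.card) := by
      calc ∑ j ∈ range (L.length + 1), ((S j).card : ℝ) ≤ ∑ j ∈ range (m + 1), ((S j).card : ℝ) := by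
            refine sum_le_sum_of_subset_of_nonneg ?_ (fun _ _ _ => Nat.cast_nonneg _)
            intro j hj
            rw [mem_range] at hj ⊢
            omega
        _ ≤ ∑ _j ∈ range (m + 1), 2 * δ * X.card := by
            refine sum_le_sum fun j hj => ?_
            rw [mem_range] at hj
            exact (hS j (by omega)).2
        _ = (m + 1) * (2 * δ * X.card) := by
            rw [sum_const, card_range, nsmul_eq_mul]
            push_cast
            ring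
    have h2 : (m + 1) * (2 * δ * (X.card : ℝ)) ≤ τ / 4 * X.card := by
      have : (m + 1) * (2 * δ * (X.card : ℝ)) = 2 * (m + 1) * δ * X.card := by ring
      rw [this]
      exact mul_le_mul_of_nonneg_right hδτ hX0
    have h3 : h * (X.card : ℝ) ≤ τ / 4 * X.card := mul_le_mul_of_nonneg_right hh hX0
    have h4 : ((H.card + ∑ j ∈ range (L.length + 1), (S j).card + t : ℕ) : ℝ) ≤ ((q₀.2.size + 1 : ℕ) : ℝ) := by
      push_cast
      linarith
    exact_mod_cast h4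

/-- **All items at the hosts, the largest one last and exactly** -/
theorem items (b B m N : ℕ) (hb : 1 ≤ b) {p : NP} {κ η s γ δ ν C τ h : ℝ} (hκ : 0 < κ) (hγ : 0 < γ)
    (hδ : 0 < δ) (_hC : 0 ≤ C) (hτ : 0 < τ) (hη : η ≤ τ / 8) (hh : h ≤ τ / 4) (hδτ : 2 * (m + 1) * δ ≤ τ / 4) :
    ∃ n₁ C₁ : ℕ, ∀ {V : Type} {R : V → V → Prop}, AE32.Tour R → ∀ {X E : Finset V} {𝓕 : Finset (Finset V)}
      {H : Finset V} {x : ℕ → V} {Nx : ℕ → Finset V}, n₁ ≤ X.card → (H.card : ℝ) ≤ h * X.card →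
      (∀ i < N, Host R p κ η s γ δ ν X E 𝓕 H (x i) (Nx i)) → ∀ S : ℕ → Finset V,
      (∀ j ≤ m, S j ⊆ X \ (E ∪ H) ∧ Rep (X \ (E ∪ H)) 𝓕 ν (S j) ∧ δ * X.card ≤ ((S j).card : ℝ) ∧
        ((S j).card : ℝ) ≤ 2 * δ * X.card) → (∀ i ≤ m, ∀ j ≤ m, i ≠ j → Disjoint (S i) (S j)) →
      ∀ P ⊆ X, Disjoint P E → H ⊆ P → (∀ j ≤ m, S j ⊆ P) → ∀ (Cls : Fd → Prop) (M : ℕ),
        (∀ F, Cls F → F.len ≤ b ∧ F.Deg b ∧ AEB.blk F ≤ B) →
        (∀ F, Cls F → F.size ≤ M → AEB.EE R κ η s p 1 C F) → ∀ L : List (V × Fd), L.length ≤ m + 1 →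
        (∀ q ∈ L, (∃ i < N, q.1 = x i) ∧ Cls q.2 ∧ q.2.size ≤ M) → (∃ q ∈ L, τ * X.card ≤ (q.2.size + 1 : ℝ)) →
          isz L + C₁ ≤ P.card → ∃ A ⊆ P, EmbI R L A := by
  obtain ⟨n₁, h₁⟩ := items_des b B m N hb (p := p) (s := s) (ν := ν) hκ hγ hδ hτ hη hh hδτ ⌈C⌉₊
  refine ⟨n₁, ⌈C⌉₊, ?_⟩
  intro V R hT X E 𝓕 H x Nx hX hHc hHost S hS hSS P hPX hPE hHP hSP Cls M hCls hEE L hLm hL hbig hP
  obtain ⟨q₀, hq₀, hq₀τ⟩ := hbig
  obtain ⟨L₁, L₂, hL12⟩ := List.append_of_mem hq₀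
  have hperm : (q₀ :: (L₁ ++ L₂)).Perm L := by
    rw [hL12]
    exact List.perm_middle.symm
  have hlen : (q₀ :: (L₁ ++ L₂)).length = L.length := hperm.length_eq
  have hmem : ∀ q ∈ q₀ :: (L₁ ++ L₂), q ∈ L := fun q hq => hperm.mem_iff.1 hq
  have hiszL : isz (q₀ :: (L₁ ++ L₂)) = isz L := by
    unfold AEB.isz
    exact (hperm.map _).sum_eq
  obtain ⟨A, hA, hE⟩ := h₁ hT (E := E) (x := x) (Nx := Nx) hX hHc hHost S hS hSS P hPX hHP hSP q₀ (L₁ ++ L₂) (by
    simp only [List.length_cons] at hlen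
    omega) (fun q hq => by
      obtain ⟨h1, h2, -⟩ := hL q (hmem q (List.mem_cons_of_mem _ hq))
      exact ⟨h1, hCls q.2 h2⟩) hq₀τ (by
    intro j hj Y hY hSY hHY hsz
    obtain ⟨⟨i, hi, hqi⟩, h2, h3⟩ := hL q₀ hq₀
    obtain ⟨hS1, hS2, hS3, hS4⟩ := hS j hj
    refine hEE q₀.2 h2 h3 Y (R q₀.1) ?_ ?_
    · have h4 : ((q₀.2.size + 1 + ⌈C⌉₊ : ℕ) : ℝ) ≤ Y.card := by exact_mod_cast hsz
      have h5 := Nat.le_ceil C
      push_cast at h4
      linarith
    · rw [hqi]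
      exact ClB.cl ((hHost i hi).cls (S j) Y hS1 hSY hHY (hY.trans hPX) (disjoint_of_subset_left hY hPE) hS2 hS3) _) (by
    rw [hiszL]
    exact hP)
  exact ⟨A, hA, hE.perm hperm⟩

end AER
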