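import Pool.Agent.AER.Broad
import Pool.Agent.AER.Sup
import Pool.Agent.AER.Items
import Pool.Agent.AEZ.Rest2

/-!
# Rigid ends: the coarse state of a tree with an in-child whose branch is a large out-arborescence
-/

set_option autoImplicit false

namespace AER

open Finset AE15 AED AELT AEB
open scoped Classical

theorem exists_npu (b l : ℕ) (hb : 1 ≤ b) (g : ℕ → ℕ) : ∃ p : NP, p.OK ∧ p.b = b ∧ p.l = l ∧ ab p.b p.l ≤ p.a ∧
    g p.c0 ≤ p.u0 := by
  obtain ⟨p, hp, h1, h2, h3, -⟩ := exists_np b l 0 hb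
  refine ⟨{ p with u0 := max p.M0 (g p.c0) }, ⟨hp.hb, hp.ha, hp.hc, hp.hcx, hp.hq, hp.hg, hp.hA0, hp.hB, hp.hr0, hp.hc0,
    hp.he, hp.hc1, hp.hM0, le_max_left _ _⟩, h1, h2, ?_, le_max_right _ _⟩
  rw [h1, h2]
  exact h3

/-- **Rigid end**: `c` is the children forest of a vertex with an in-child whose branch (children forest `F`) is an
out-arborescence with at least `θ |T|` vertices -/
theorem rigI_node (b : ℕ) (hb : 1 ≤ b) {θ κ ε β : ℝ} (hθ : 0 < θ) (hκ : 0 < κ) (hε : 0 < ε) (hβ : 0 < β) : ∃ C₀ : ℝ,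
    ∀ C : ℝ, C₀ ≤ C → ∀ F s : Fd, (Fd.node false F s).len ≤ b → (Fd.node false F s).Deg b → FOK b 0 0 F →
      θ * ((Fd.node false F s).size + 1) ≤ (F.size + 1 : ℝ) → AEJ.Coarse κ ε β C (.node false F s) := by
  obtain ⟨β₀, hβ₀⟩ : ∃ β₀ : ℝ, β₀ = min β 1 := ⟨_, rfl⟩
  obtain ⟨θ₀, hθ₀⟩ : ∃ θ₀ : ℝ, θ₀ = min θ 1 := ⟨_, rfl⟩
  obtain ⟨ε₂, hε₂⟩ : ∃ ε₂ : ℝ, ε₂ = min ε (β₀ / 16) := ⟨_, rfl⟩
  have b1 : 0 < β₀ := by rw [hβ₀]; exact lt_min hβ one_pos
  have b2 : β₀ ≤ β := by rw [hβ₀]; exact min_le_left _ _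
  have b3 : β₀ ≤ 1 := by rw [hβ₀]; exact min_le_right _ _
  have t1 : 0 < θ₀ := by rw [hθ₀]; exact lt_min hθ one_pos
  have t2 : θ₀ ≤ θ := by rw [hθ₀]; exact min_le_left _ _
  have t3 : θ₀ ≤ 1 := by rw [hθ₀]; exact min_le_right _ _
  have e1 : 0 < ε₂ := by rw [hε₂]; exact lt_min hε (by positivity)
  have e2 : ε₂ ≤ ε := by rw [hε₂]; exact min_le_left _ _
  have e3 : ε₂ ≤ β₀ / 16 := by rw [hε₂]; exact min_le_right _ _
  obtain ⟨θ₂, hθ₂⟩ : ∃ θ₂ : ℝ, θ₂ = θ₀ / 2 := ⟨_, rfl⟩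
  have t4 : 0 < θ₂ := by rw [hθ₂]; positivity
  have t5 : θ₂ ≤ 1 / 2 := by rw [hθ₂]; linarith
  obtain ⟨N₀, hN₀⟩ : ∃ N₀ : ℕ, N₀ = 2 * (b * b + 1) := ⟨_, rfl⟩
  obtain ⟨e, he⟩ : ∃ e : ℕ, e = N₀ + 1 + b := ⟨_, rfl⟩
  obtain ⟨m, hm⟩ : ∃ m : ℕ, m = b * b * b + b := ⟨_, rfl⟩
  have hm0 : (0 : ℝ) ≤ m := Nat.cast_nonneg _
  obtain ⟨nl, hlt⟩ := AEK.lt1 b hb hκ e1
  obtain ⟨δ₀, hδ₀, hrest⟩ := AEZ.rest2 b m hb hκ e1 t4
  obtain ⟨τ, hτ⟩ : ∃ τ : ℝ, τ = θ₂ / (2 * (m + 1)) := ⟨_, rfl⟩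
  have hτ0 : 0 < τ := by rw [hτ]; positivity
  have hτ1 : τ ≤ 1 := by
    rw [hτ, div_le_one (by positivity)]
    linarith
  obtain ⟨δ, hδ⟩ : ∃ δ : ℝ, δ = min δ₀ (τ / 4) / (2 * (m + 1)) := ⟨_, rfl⟩
  have hm1 : (0 : ℝ) < 2 * (m + 1) := by positivity
  have d1 : 0 < δ := by rw [hδ]; exact div_pos (lt_min hδ₀ (by positivity)) hm1
  have d2 : 2 * (m + 1) * δ = min δ₀ (τ / 4) := by rw [hδ]; field_simp
  have d3 : 2 * (m + 1) * δ ≤ δ₀ := by rw [d2]; exact min_le_left _ _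
  have d4 : 2 * (m + 1) * δ ≤ τ / 4 := by rw [d2]; exact min_le_right _ _
  have d5 : δ ≤ 1 := by nlinarith
  obtain ⟨h, hh⟩ : ∃ h : ℝ, h = min (δ₀ / 2) (τ / 4) := ⟨_, rfl⟩
  have h1 : 0 < h := by rw [hh]; exact lt_min (by positivity) (by positivity)
  have h2 : h ≤ δ₀ / 2 := by rw [hh]; exact min_le_left _ _
  have h3 : h ≤ τ / 4 := by rw [hh]; exact min_le_right _ _
  obtain ⟨p, hp, hpb, hpl, hab, hpu⟩ := exists_npu b 0 hb (fun c0 => 2 * (e + 2 * c0 + 2) + N₀ + 2)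
  obtain ⟨D₁, hD₁⟩ := exists_hosts p hp N₀ e (by omega) hpu d1 d5 h1 (ε₀ := τ / 8) (by positivity)
  obtain ⟨D, hD⟩ : ∃ D : ℕ, D = max (max D₁ p.A) 64 := ⟨_, rfl⟩
  obtain ⟨ω, c', η, η₁, κ₀, κ₁, κ', γ₀, τ', s', σ₂, μ, P⟩ := exists_KB (D := D) (by rw [hD]; exact le_max_right _ _)
  obtain ⟨hη, γ, ν, n₀, hγ, hν, hhosts⟩ := hD₁ D (by rw [hD]; exact (le_max_left _ _).trans (le_max_left _ _)) P
  obtain ⟨Ce, hCe, hEE⟩ := ee_all p hp hab (D₀ := D) (by rw [hD]; exact (le_max_right _ _).trans (le_max_left _ _)) P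
  obtain ⟨-, -, -, -, -, -, -, -, -, -, -, hκ'0, -⟩ := P.num
  obtain ⟨n₂, hrest⟩ := hrest δ d1 d3 ν hν (16 * N₀)
  obtain ⟨n₁, C₁, hitems⟩ := items b 0 m N₀ hb (p := p) (κ := κ') (η := η) (s := s') (γ := γ) (δ := δ) (ν := ν) (C := Ce)
    (τ := τ) (h := h) hκ'0 hγ d1 hCe hτ0 hη h3 d4
  refine ⟨nl + n₀ + n₁ + n₂ + C₁ + e + 2 * (1 + b + b * b) / θ₂ + 2 * e / δ₀ + 16 * (4 + 2 * (N₀ + b) + 1) / β₀, ?_⟩
  intro C hC F s hl hDg hF hθF V R hT X N hX hN
  obtain ⟨n, hn⟩ : ∃ n : ℝ, n = (X.card : ℝ) := ⟨_, rfl⟩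
  have q1 : (0 : ℝ) ≤ 2 * (1 + b + b * b) / θ₂ := by positivity
  have q2 : (0 : ℝ) ≤ 2 * e / δ₀ := by positivity
  have q3 : (0 : ℝ) ≤ 16 * (4 + 2 * (N₀ + b) + 1) / β₀ := by positivity
  have q4 : (0 : ℝ) ≤ nl := Nat.cast_nonneg _
  have q5 : (0 : ℝ) ≤ n₀ := Nat.cast_nonneg _
  have q6 : (0 : ℝ) ≤ n₁ := Nat.cast_nonneg _
  have q7 : (0 : ℝ) ≤ n₂ := Nat.cast_nonneg _
  have q8 : (0 : ℝ) ≤ C₁ := Nat.cast_nonneg _
  have q9 : (0 : ℝ) ≤ e := Nat.cast_nonneg _
  have hC0 : 0 ≤ C := by linarith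
  have hsz : (Fd.node false F s).size = F.size + s.size + 1 := rfl
  have hszr : ((Fd.node false F s).size : ℝ) = F.size + s.size + 1 := by rw [hsz]; push_cast; ring
  have hF0 : (0 : ℝ) ≤ F.size := Nat.cast_nonneg _
  have hs0 : (0 : ℝ) ≤ s.size := Nat.cast_nonneg _
  rw [← hn, hszr] at hX
  have hXn : (nl : ℝ) + n₀ + n₁ + n₂ + C₁ + e + 2 * (1 + b + b * b) / θ₂ + 2 * e / δ₀ +
      16 * (4 + 2 * (N₀ + b) + 1) / β₀ ≤ n := by linarith
  have hcard : ∀ a : ℕ, (a : ℝ) ≤ n → a ≤ X.card := fun a ha => by rw [hn] at ha; exact_mod_cast ha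
  have hnl : nl ≤ X.card := hcard _ (by linarith)
  have hn₀ : n₀ ≤ X.card := hcard _ (by linarith)
  have hn₁ : n₁ ≤ X.card := hcard _ (by linarith)
  have hn₂ : n₂ ≤ X.card := hcard _ (by linarith)
  have hnpos : 0 < n := by linarith
  obtain ⟨N0, hN0⟩ : ∃ N0, N0 = AEJ.Adm R κ ε (.node false F s) X N := ⟨_, rfl⟩
  rw [← hn, ← hN0] at hN
  have hN0X : N0 ⊆ X := by rw [hN0]; exact filter_subset _ _
  -- the light theorem if there is room
  by_cases hroom : ((Fd.node false F s).size + 1 : ℝ) ≤ (1 - ε₂) * X.card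
  · refine hlt hT X N hnl _ hl hDg hroom ?_
    have g1 : ε₂ * n ≤ β * n := mul_le_mul_of_nonneg_right (by linarith) hnpos.le
    rw [← hn]
    refine (g1.trans hN).trans ?_
    have g2 : N0 ⊆ X.filter (fun z => N z ∧ Wide R κ ((dcl (Fd.node false F s) + 1) + ε₂ * n) X z ∧
        Wide (fun a b => R b a) κ ((AEB.blk (Fd.node false F s) + 1) + ε₂ * n) X z) := by
      intro v hv
      rw [hN0, AEJ.Adm, mem_filter] at hv
      rw [mem_filter]
      have g3 : ε₂ * n ≤ ε * n := mul_le_mul_of_nonneg_right e2 hnpos.le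
      refine ⟨hv.1, hv.2.1, AEK.wide_mono ?_ hv.2.2.1, AEK.wide_mono ?_ hv.2.2.2⟩
      · rw [← hn]; linarith
      · rw [← hn]; linarith
    exact_mod_cast card_le_card g2
  push Not at hroom
  rw [hszr, ← hn] at hroom
  have hFn : θ₂ * n ≤ F.size + 1 := by
    have g1 : θ₀ * ((F.size + s.size + 1 : ℝ) + 1) ≤ θ * ((F.size + s.size + 1 : ℝ) + 1) :=
      mul_le_mul_of_nonneg_right t2 (by positivity)
    rw [hszr] at hθF
    have g2 : n / 2 ≤ (F.size + s.size + 1 : ℝ) + 1 := by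
      have : ε₂ * n ≤ 1 / 2 * n := mul_le_mul_of_nonneg_right (by linarith) hnpos.le
      linarith
    have g3 : θ₀ * (n / 2) ≤ θ₀ * ((F.size + s.size + 1 : ℝ) + 1) := mul_le_mul_of_nonneg_left g2 t1.le
    rw [hθ₂]
    linarith
  have hlS : s.len ≤ b := by
    have : (Fd.node false F s).len = s.len + 1 := rfl
    omega
  have hsl : ((s.size : ℝ) + 1) ≤ (1 - θ₂) * X.card := by rw [← hn]; linarith
  obtain ⟨x, hxX, hxi, hE⟩ := hhosts hT X hn₀
  obtain ⟨t, ht⟩ : ∃ t : ℝ, t = β₀ / 16 * n := ⟨_, rfl⟩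
  -- the common part of both cases
  have key : ∀ (y : V) (E Z : Finset V) (L : List (V × Fd)), E ⊆ X → E.card ≤ e → (∀ i < N₀, x i ∈ E) → y ∈ E → y ∉ Z →
      Z ⊆ E → Z.card ≤ b + b * b → PE R F y Z L → L.length ≤ m →
      (∀ q ∈ L, (∃ i < N₀, q.1 = x i) ∧ FOK b 0 0 q.2) → t ≤ ((nO R N0 y).card : ℝ) → In R (.node false F s) N X := by
    intro y E Z L hEX hEc hxE hyE hyZ hZE hZc hPE hLl hL hty
    obtain ⟨𝓕, H, Nx, h𝓕, hHX, hHE, hHc, hHost⟩ := hE E hEX hEc hxE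
    have hEH : ((E ∪ H).card : ℝ) ≤ δ₀ * X.card := by
      have g1 : ((E ∪ H).card : ℝ) ≤ E.card + H.card := by exact_mod_cast card_union_le _ _
      have g2 : (E.card : ℝ) ≤ e := by exact_mod_cast hEc
      have g3 : h * (X.card : ℝ) ≤ δ₀ / 2 * X.card := mul_le_mul_of_nonneg_right h2 (Nat.cast_nonneg _)
      have g4 : (e : ℝ) ≤ δ₀ / 2 * X.card := by
        have g5 : 2 * e / δ₀ ≤ n := by linarith
        rw [div_le_iff₀ hδ₀] at g5
        rw [← hn]
        linarith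
      linarith
    obtain ⟨S, hS, hdis, hin⟩ := hrest hT X (E ∪ H) (fun z => N z ∧ R y z) 𝓕 hn₂ h𝓕 hEH s hlS hDg.2.2 hsl (by
      have g1 : ε₂ * n ≤ t := by rw [ht]; exact mul_le_mul_of_nonneg_right e3 hnpos.le
      rw [← hn]
      refine (g1.trans hty).trans ?_
      have g2 : nO R N0 y ⊆ X.filter (fun z => (N z ∧ R y z) ∧ Wide R κ ((dcl s + 1) + ε₂ * n) X z ∧
          Wide (fun a b => R b a) κ ((AEB.blk s + 1) + ε₂ * n) X z) := by
        intro v hv
        rw [mem_nO, hN0, AEJ.Adm, mem_filter] at hv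
        rw [mem_filter]
        have g3 : ε₂ * n ≤ ε * n := mul_le_mul_of_nonneg_right e2 hnpos.le
        have g4 : ((dcl s : ℕ) : ℝ) ≤ dcl (Fd.node false F s) := by
          have : dcl s ≤ dcl (Fd.node false F s) := by simp only [dcl]; omega
          exact_mod_cast this
        have g5 : ((AEB.blk s : ℕ) : ℝ) ≤ AEB.blk (Fd.node false F s) := by
          have : AEB.blk s ≤ AEB.blk (Fd.node false F s) := by simp only [AEB.blk]; omega
          exact_mod_cast this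
        refine ⟨hv.1.1, ⟨hv.1.2.1, hv.2⟩, AEK.wide_mono ?_ hv.1.2.2.1, AEK.wide_mono ?_ hv.1.2.2.2⟩
        · rw [← hn]; linarith
        · rw [← hn]; linarith
      exact_mod_cast card_le_card g2)
    have hSU : ∀ j ≤ m, S j ⊆ (range (m + 1)).biUnion S := fun j hj =>
      subset_biUnion_of_mem S (mem_range.2 (by omega))
    refine glue_core (C₁ := C₁) (Z := Z) (L := L) (U := (range (m + 1)).biUnion S) hEX hyE hyZ hZE hHX hHE ?_ hPE hT.irr
      hin ?_ ?_
    · intro a ha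
      obtain ⟨j, hj, haj⟩ := mem_biUnion.1 ha
      have g1 := (hS j (by rw [mem_range] at hj; omega)).1 haj
      rw [mem_sdiff, mem_union, not_or] at g1
      exact mem_sdiff.2 ⟨g1.1, g1.2.1⟩
    · intro Q hQX hQE hHQ hUQ hQc
      have hLbig : ∃ q ∈ L, τ * X.card ≤ (q.2.size + 1 : ℝ) := by
        have g1 := hPE.size
        have g2 : θ₂ / 2 * n ≤ (AEB.isz L : ℝ) := by
          have g3 : 2 * (1 + b + b * b) / θ₂ ≤ n := by linarith
          rw [div_le_iff₀ t4] at g3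
          have g4 : (F.size : ℝ) = Z.card + AEB.isz L := by exact_mod_cast g1
          have g5 : (Z.card : ℝ) ≤ b + b * b := by exact_mod_cast hZc
          linarith
        have g6 : L ≠ [] := by
          rintro rfl
          simp only [AEB.isz_nil, Nat.cast_zero] at g2
          have : 0 < θ₂ / 2 * n := by positivity
          linarith
        obtain ⟨q, hq, g7⟩ := exists_big g6
        refine ⟨q, hq, ?_⟩
        have g8 : (AEB.isz L : ℝ) ≤ (m + 1) * (q.2.size + 1) := by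
          have g9 : (AEB.isz L : ℝ) ≤ L.length * (q.2.size + 1) := by exact_mod_cast g7
          have g10 : (L.length : ℝ) ≤ m + 1 := by exact_mod_cast (by omega : L.length ≤ m + 1)
          exact g9.trans (mul_le_mul_of_nonneg_right g10 (by positivity))
        rw [hτ, ← hn]
        have g11 : θ₂ / 2 * n ≤ (m + 1) * (q.2.size + 1 : ℝ) := g2.trans g8
        rw [div_mul_eq_mul_div, div_le_iff₀ hm1]
        linarith
      refine hitems hT hn₁ hHc hHost S hS hdis Q hQX hQE hHQ (fun j hj => (hSU j hj).trans hUQ) (FOK b 0 0) F.size ?_ ?_ L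
        (by omega) ?_ hLbig hQc
      · intro F' hF'
        refine ⟨hF'.1, hF'.2.1, ?_⟩
        have := hF'.blk_le le_rfl
        simp at this
        omega
      · intro F' hF' _
        exact hEE hT F' (by rw [hpb, hpl]; exact hF')
      · intro q hq
        exact ⟨(hL q hq).1, (hL q hq).2, (AET.PE.host hPE q hq).2.le⟩
    · have g1 : ((s.size + F.size + 1 + C₁ + E.card : ℕ) : ℝ) ≤ X.card := by
        push_cast
        have g2 : (E.card : ℝ) ≤ e := by exact_mod_cast hEc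
        rw [← hn]
        linarith
      exact_mod_cast g1
  have hximg : ((range N₀).image x).card ≤ N₀ := card_image_le.trans (card_range N₀).le
  by_cases hcase : ∃ i < N₀, t ≤ ((nO R N0 (x i)).card : ℝ)
  · -- a host sees many possible roots
    obtain ⟨i, hi, hti⟩ := hcase
    refine key (x i) ((range N₀).image x) ∅ (F.trees.map (fun p => (x i, p.2))) ?_ (by omega) ?_ ?_ (by simp) (by simp)
      (by simp) (pure_pend hF (x i)) ?_ ?_ hti
    · intro a ha
      obtain ⟨j, hj, rfl⟩ := mem_image.1 ha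
      exact hxX j (mem_range.1 hj)
    · exact fun j hj => mem_image.2 ⟨j, mem_range.2 hj, rfl⟩
    · exact mem_image.2 ⟨i, mem_range.2 hi, rfl⟩
    · rw [List.length_map, length_trees]
      have := hF.1
      omega
    · intro q hq
      obtain ⟨r, hr, rfl⟩ := List.mem_map.1 hq
      exact ⟨⟨i, hi, rfl⟩, (pure_child hF hr).2⟩
  · push Not at hcase
    have hbig : 16 * (4 + 2 * (N₀ + b) + 1) / β₀ ≤ n := by linarith
    rw [div_le_iff₀ b1] at hbig
    have hN0c : β₀ * n ≤ N0.card := (mul_le_mul_of_nonneg_right b2 hnpos.le).trans hN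
    have hNb : (0 : ℝ) ≤ N₀ + b := by positivity
    have hβn : 0 < β₀ * n := by positivity
    have hne : N0.Nonempty := by
      rw [← card_pos]
      have : (0 : ℝ) < N0.card := by linarith
      exact_mod_cast this
    obtain ⟨y, hy, hyc, f, hf, hfi⟩ := broad hT (b := b) hne (x := x) (N := N₀) (t := t) (by omega)
      (fun i hi => (hcase i hi).le) (by
        rw [ht]
        push_cast
        linarith)
    have hyX := hN0X hy
    obtain ⟨K, hK⟩ : ∃ K, K = (range N₀).image x \ {y} := ⟨_, rfl⟩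
    obtain ⟨E, hEd⟩ : ∃ E, E = insert y ((range N₀).image x ∪ (range b).image f) := ⟨_, rfl⟩
    have hfy : ∀ j < b, f j ≠ y := by
      intro j hj h
      have g1 := (hf j hj).2.1
      rw [h] at g1
      exact hT.irr _ g1
    obtain ⟨Z, L, z1, z2, z3, z4, z5⟩ := bcast b hF (y := y) (f := f) (K := K) (fun j hj => (hf j hj).2.1) hfi
      (by
        intro j hj h
        rw [hK, mem_sdiff, mem_image] at h
        obtain ⟨⟨i, hi, h⟩, -⟩ := h
        exact (hf j hj).2.2.1 i (mem_range.1 hi) h.symm)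
      (by
        intro j hj
        obtain ⟨-, -, -, g1⟩ := hf j hj
        have g2 : ((range N₀).filter (fun i => R (f j) (x i))).card ≤ (K.filter (fun a => R (f j) a)).card + 1 := by
          have g3 : (((range N₀).filter (fun i => R (f j) (x i))).image x).card =
              ((range N₀).filter (fun i => R (f j) (x i))).card := by
            apply card_image_of_injOn
            intro a ha a' ha' haa
            rw [mem_coe, mem_filter, mem_range] at ha ha'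
            exact hxi a ha.1 a' ha'.1 haa
          have g4 : ((range N₀).filter (fun i => R (f j) (x i))).image x ⊆
              insert y (K.filter (fun a => R (f j) a)) := by
            intro a ha
            obtain ⟨i, hi, rfl⟩ := mem_image.1 ha
            rw [mem_filter] at hi
            rw [mem_insert, mem_filter, hK, mem_sdiff, mem_singleton]
            by_cases g5 : x i = y
            · exact Or.inl g5
            · exact Or.inr ⟨⟨mem_image_of_mem x hi.1, g5⟩, hi.2⟩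
          rw [← g3]
          exact (card_le_card g4).trans (card_insert_le _ _)
        omega)
    have hZE : Z ⊆ E := by
      intro a ha
      rw [hEd, mem_insert, mem_union]
      rcases mem_union.1 (z2 ha) with g1 | g1
      · exact Or.inr (Or.inr g1)
      · rw [hK, mem_sdiff] at g1
        exact Or.inr (Or.inl g1.1)
    have hyZ : y ∉ Z := by
      intro h
      rcases mem_union.1 (z2 h) with g1 | g1
      · obtain ⟨j, hj, g2⟩ := mem_image.1 g1
        exact hfy j (mem_range.1 hj) g2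
      · rw [hK, mem_sdiff, mem_singleton] at g1
        exact g1.2 rfl
    refine key y E Z L ?_ ?_ ?_ ?_ hyZ hZE z3 z1 (by omega) ?_ ?_
    · intro a ha
      rw [hEd, mem_insert, mem_union] at ha
      rcases ha with rfl | ha | ha
      · exact hyX
      · obtain ⟨i, hi, rfl⟩ := mem_image.1 ha
        exact hxX i (mem_range.1 hi)
      · obtain ⟨j, hj, rfl⟩ := mem_image.1 ha
        exact hN0X (hf j (mem_range.1 hj)).1
    · rw [hEd]
      have g1 := card_insert_le y ((range N₀).image x ∪ (range b).image f)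
      have g2 := card_union_le ((range N₀).image x) ((range b).image f)
      have g3 : ((range b).image f).card ≤ b := card_image_le.trans (card_range b).le
      omega
    · intro i hi
      rw [hEd]
      exact mem_insert_of_mem (mem_union_left _ (mem_image_of_mem x (mem_range.2 hi)))
    · rw [hEd]; exact mem_insert_self _ _
    · intro q hq
      obtain ⟨g1, g2⟩ := z5 q hq
      rw [hK, mem_sdiff, mem_image] at g1
      obtain ⟨⟨i, hi, g3⟩, -⟩ := g1
      exact ⟨⟨i, mem_range.1 hi, g3.symm⟩, g2⟩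
    · have g1 : (N0.card : ℝ) ≤ 2 * (nO R N0 y).card + 1 := by exact_mod_cast hyc
      rw [ht]
      linarith

theorem rigI (b : ℕ) (hb : 1 ≤ b) {θ κ ε β : ℝ} (hθ : 0 < θ) (hκ : 0 < κ) (hε : 0 < ε) (hβ : 0 < β) : ∃ C₀ : ℝ,
    ∀ C : ℝ, C₀ ≤ C → ∀ c F : Fd, c.len ≤ b → c.Deg b → (false, F) ∈ c.trees → FOK b 0 0 F →
      θ * (c.size + 1) ≤ (F.size + 1 : ℝ) → AEJ.Coarse κ ε β C c := by
  obtain ⟨C₀, h⟩ := rigI_node b hb hθ hκ hε hβ
  refine ⟨C₀, ?_⟩
  intro C hC c F hl hD hF hFOK hθF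
  obtain ⟨s, hs⟩ := eqt_first hF
  have h1 : AEJ.Coarse κ ε β C (.node false F s) := h C hC F s (by rw [hs.len]; exact hl) (hs.deg b hD) hFOK
    (by rw [hs.size]; exact hθF)
  exact @AEJ.Coarse.eqt κ ε β C c (.node false F s) h1 hs

end AER
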