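import Pool.Agent.AEZ.Rest2
import Pool.Agent.AEJ.Mark

/-!
# The possible hosts of a marked vertex

The rooted theorem for light trees is robust, hence the possible hosts of any vertex form a linear set. This holds outside a
small set and outside small representative reserves, which are chosen before the tree.
-/

set_option autoImplicit false

namespace AER

open Finset AE15 AED AELT AEK AEZ
open scoped Classical

theorem exists_embM {V : Type*} {R : V → V → Prop} {M : AEJ.Mn} : ∀ {x : V} {S : Finset V}, Emb R M.un x S →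
    ∃ w, AEJ.EmbM R M x S w := by
  induction M with
  | leaf s => intro x S h; exact ⟨x, h, rfl⟩
  | step s d e t ih =>
    rintro x S ⟨x1, A, B, h1, h2, h3, h4, h5, h6, h7⟩
    obtain ⟨w, hw⟩ := ih h6
    exact ⟨w, x1, A, B, h1, h2, h3, h4, h5, hw, h7⟩

/-- **Avoidance**: the possible hosts of the mark form a linear set -/
theorem avoid (b m : ℕ) (hb : 1 ≤ b) {κ ε θ : ℝ} (hκ : 0 < κ) (hε : 0 < ε) (hθ : 0 < θ) : ∃ δ₀ : ℝ, 0 < δ₀ ∧
    ∀ δ : ℝ, 0 < δ → 2 * (m + 1) * δ ≤ δ₀ → ∀ ν : ℝ, 0 < ν → ∀ M : ℕ, ∃ n₀ : ℕ, ∀ {V : Type} {R : V → V → Prop}, AE32.Tour R →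
      ∀ (X E : Finset V) (𝓕 : Finset (Finset V)), n₀ ≤ X.card → 𝓕.card ≤ M * X.card ^ 2 →
        (E.card : ℝ) ≤ δ₀ * X.card →
        ∃ S : ℕ → Finset V, (∀ j ≤ m, S j ⊆ X \ E ∧ Rep (X \ E) 𝓕 ν (S j) ∧ δ * X.card ≤ ((S j).card : ℝ) ∧
            ((S j).card : ℝ) ≤ 2 * δ * X.card) ∧ (∀ i ≤ m, ∀ j ≤ m, i ≠ j → Disjoint (S i) (S j)) ∧
          ∀ (N : V → Prop) (Mk : AEJ.Mn), Mk.un.len ≤ b → Mk.un.Deg b → (Mk.un.size + 1 : ℝ) ≤ (1 - θ) * X.card →
            ε * X.card ≤ ((X.filter (fun z => N z ∧ Wide R κ ((dcl Mk.un + 1) + ε * X.card) X z ∧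
              Wide (fun a b => R b a) κ ((AEB.blk Mk.un + 1) + ε * X.card) X z)).card : ℝ) →
            ∃ W ⊆ (X \ E) \ (range (m + 1)).biUnion S, δ₀ * X.card ≤ (W.card : ℝ) ∧ ∀ w ∈ W, ∃ z ∈ X, ∃ A : Finset V,
              N z ∧ z ∉ A ∧ insert z A ⊆ (X \ E) \ (range (m + 1)).biUnion S ∧ AEJ.EmbM R Mk z A w := by
  obtain ⟨δ₀, hδ₀⟩ : ∃ δ₀ : ℝ, δ₀ = min (min (κ / 8) (ε / 16)) (min (θ / 16) (1 / 16)) := ⟨_, rfl⟩
  have c1 : δ₀ ≤ κ / 8 := by rw [hδ₀]; exact (min_le_left _ _).trans (min_le_left _ _)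
  have c2 : δ₀ ≤ ε / 16 := by rw [hδ₀]; exact (min_le_left _ _).trans (min_le_right _ _)
  have c3 : δ₀ ≤ θ / 16 := by rw [hδ₀]; exact (min_le_right _ _).trans (min_le_left _ _)
  have c4 : δ₀ ≤ 1 / 16 := by rw [hδ₀]; exact (min_le_right _ _).trans (min_le_right _ _)
  have c5 : 0 < δ₀ := by
    rw [hδ₀]
    exact lt_min (lt_min (by positivity) (by positivity)) (lt_min (by positivity) (by norm_num))
  obtain ⟨ε₁, hε₁⟩ : ∃ ε₁ : ℝ, ε₁ = min (ε / 2) (θ / 2) := ⟨_, rfl⟩
  have e1 : ε₁ ≤ ε / 2 := by rw [hε₁]; exact min_le_left _ _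
  have e2 : ε₁ ≤ θ / 2 := by rw [hε₁]; exact min_le_right _ _
  have e3 : 0 < ε₁ := by rw [hε₁]; exact lt_min (by positivity) (by positivity)
  refine ⟨δ₀, c5, ?_⟩
  intro δ hδ hδδ ν hν M
  have hm0 : (0 : ℝ) ≤ m := Nat.cast_nonneg _
  have hδ1 : δ ≤ 1 / 32 := by linarith only [mul_nonneg hm0 hδ.le, hδδ, c4]
  obtain ⟨n₁, hpc⟩ := exists_pieces (ε := min ν 1) (c := δ) (lt_min hν one_pos) (min_le_right _ _) hδ (m + 2)
  obtain ⟨n₂, hlt⟩ := lt1 b hb (κ := κ / 2) (ε := ε₁) (by positivity) e3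
  refine ⟨max (2 * n₁) (max (2 * n₂) (32 * M + 1)), ?_⟩
  intro V R hT X E 𝓕 hn h𝓕 hE
  have hn1 : 2 * n₁ ≤ X.card := (le_max_left _ _).trans hn
  have hn2 : 2 * n₂ ≤ X.card := ((le_max_left _ _).trans (le_max_right _ _)).trans hn
  have hn3 : 32 * M + 1 ≤ X.card := ((le_max_right _ _).trans (le_max_right _ _)).trans hn
  have hX0 : 0 < X.card := by omega
  have hXR : (0 : ℝ) < X.card := by exact_mod_cast hX0
  have hA : (X.card : ℝ) ≤ (X \ E).card + E.card := by
    have h1 : X ⊆ (X \ E) ∪ E := by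
      intro x hx
      by_cases hxE : x ∈ E
      · exact mem_union_right _ hxE
      · exact mem_union_left _ (mem_sdiff.2 ⟨hx, hxE⟩)
    exact_mod_cast (card_le_card h1).trans (card_union_le _ _)
  have hA1 : (1 - δ₀) * X.card ≤ ((X \ E).card : ℝ) := by linarith only [hE, hA]
  have hA0 : ((X \ E).card : ℝ) ≤ X.card := by exact_mod_cast card_le_card sdiff_subset
  have hA2 : X.card ≤ 2 * (X \ E).card := by
    have : (X.card : ℝ) ≤ 2 * (X \ E).card := by linarith only [mul_le_mul_of_nonneg_right c4 hXR.le, hA1, hXR]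
    exact_mod_cast this
  have hcard : 𝓕.card ≤ (X \ E).card ^ 5 := by
    have h5 : X.card ^ 5 ≤ 32 * (X \ E).card ^ 5 := by
      calc X.card ^ 5 ≤ (2 * (X \ E).card) ^ 5 := Nat.pow_le_pow_left hA2 5
        _ = _ := by ring
    have h6 : 32 * (M * X.card ^ 2) ≤ X.card ^ 5 := by
      have h7 : 32 * M ≤ X.card := by omega
      have h8 : 1 ≤ X.card ^ 2 := Nat.one_le_pow _ _ hX0
      calc 32 * (M * X.card ^ 2) = 32 * M * X.card ^ 2 := by ring
        _ ≤ X.card * X.card ^ 2 := Nat.mul_le_mul_right _ h7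
        _ = X.card ^ 3 := by ring
        _ ≤ X.card ^ 5 := Nat.pow_le_pow_right hX0 (by norm_num)
    omega
  -- the pieces
  obtain ⟨s, hs⟩ : ∃ s : Fin (m + 2) → ℝ, s = fun i : Fin (m + 2) => if (i : ℕ) < m + 1 then δ * X.card else
      (1 - 2 * δ) * (X \ E).card - (m + 1) * (δ * X.card) := ⟨_, rfl⟩
  have hlast : 0 ≤ (1 - 2 * δ) * ((X \ E).card : ℝ) - (m + 1) * (δ * X.card) := by
    have h1 : (m + 1) * (δ * X.card) ≤ δ₀ / 2 * X.card := by
      have : (m + 1) * δ ≤ δ₀ / 2 := by linarith only [hδδ]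
      calc (m + 1) * (δ * X.card) = (m + 1) * δ * X.card := by ring
        _ ≤ _ := mul_le_mul_of_nonneg_right this hXR.le
    have h2 : 15 / 16 * ((X \ E).card : ℝ) ≤ (1 - 2 * δ) * (X \ E).card :=
      mul_le_mul_of_nonneg_right (by linarith only [hδ1]) (Nat.cast_nonneg _)
    linarith only [mul_le_mul_of_nonneg_right c4 hXR.le, hA1, hXR, h1, h2]
  have hsum : ∑ i, s i = (1 - 2 * δ) * (X \ E).card := by
    rw [hs, Fin.sum_univ_castSucc]
    simp only [Fin.val_castSucc, Fin.val_last, lt_irrefl, if_false]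
    rw [Finset.sum_congr rfl (fun i _ => if_pos i.2), sum_const, card_univ, Fintype.card_fin, nsmul_eq_mul]
    push_cast
    ring
  obtain ⟨Pf, Q, p1, -, p3, p4, p5, p6, p7, p8, -⟩ := hpc (X \ E) 𝓕 (by omega) hcard (m + 2) s le_rfl (fun i => by
    rw [hs]
    simp only
    split_ifs
    · (clear * - hδ hX0; positivity)
    · exact hlast) (le_of_eq hsum)
  -- upper bounds
  have hub : ∀ i : Fin (m + 2), ((Pf i).card : ℝ) ≤ s i + δ * X.card := by
    intro i
    have h1 : (∑ j, ((Pf j).card : ℝ)) + Q.card ≤ (X \ E).card := by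
      have h2 : (univ.biUnion Pf) ∪ Q ⊆ X \ E := by
        intro x hx
        rcases mem_union.1 hx with hx | hx
        · obtain ⟨j, _, hj⟩ := mem_biUnion.1 hx
          exact p1 j hj
        · exact p5 hx
      have h3 := card_le_card h2
      rw [card_union_of_disjoint (by
        rw [disjoint_biUnion_left]
        intro j _
        exact p4 j), card_biUnion (fun x _ y _ hxy => p3 x y hxy)] at h3
      exact_mod_cast h3
    have h2 : ∑ j, ((Pf j).card : ℝ) = (Pf i).card + ∑ j ∈ univ.erase i, ((Pf j).card : ℝ) := by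
      rw [← add_sum_erase _ _ (mem_univ i)]
    have h3 : ∑ j, s j = s i + ∑ j ∈ univ.erase i, s j := by
      rw [← add_sum_erase _ _ (mem_univ i)]
    have h4 : ∑ j ∈ univ.erase i, s j ≤ ∑ j ∈ univ.erase i, ((Pf j).card : ℝ) := sum_le_sum (fun j _ => p6 j)
    have h5 : δ * ((X \ E).card : ℝ) ≤ δ * X.card := mul_le_mul_of_nonneg_left hA0 hδ.le
    linarith only [hsum, p8, h1, h2, h3, h4, h5]
  obtain ⟨S, hS⟩ : ∃ S : ℕ → Finset V, S = fun j => if h : j < m + 1 then Pf ⟨j, by omega⟩ else ∅ := ⟨_, rfl⟩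
  have hSj : ∀ j, ∀ h : j < m + 1, S j = Pf ⟨j, by omega⟩ := by
    intro j h
    rw [hS]
    exact dif_pos h
  have hsj : ∀ j, ∀ h : j < m + 1, s ⟨j, by omega⟩ = δ * X.card := by
    intro j h
    rw [hs]
    exact if_pos h
  have hS2 : ∀ j < m + 1, ((S j).card : ℝ) ≤ 2 * δ * X.card := by
    intro j h
    rw [hSj j h]
    have := hub ⟨j, by omega⟩
    rw [hsj j h] at this
    linarith only [h, this]
  refine ⟨S, ?_, ?_, ?_⟩
  · intro j hj
    have hj' : j < m + 1 := by omega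
    refine ⟨?_, ?_, ?_, hS2 j hj'⟩
    · rw [hSj j hj']
      exact p1 _
    · rw [hSj j hj']
      exact rep_mono (p7 _) (min_le_left _ _)
    · rw [hSj j hj', ← hsj j hj']
      exact p6 _
  · intro i hi j hj hij
    rw [hSj i (by omega), hSj j (by omega)]
    refine p3 _ _ ?_
    intro h
    exact hij (congrArg Fin.val h)
  · intro N Mk hl hdg hc hN
    obtain ⟨c, hcM⟩ : ∃ c, c = Mk.un := ⟨_, rfl⟩
    rw [← hcM] at hl hdg hc hN
    obtain ⟨U, hU⟩ : ∃ U, U = (X \ E) \ (range (m + 1)).biUnion S := ⟨_, rfl⟩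
    rw [← hU]
    obtain ⟨W, hW⟩ : ∃ W, W = U.filter (fun w => ∃ z ∈ X, ∃ A : Finset V,
              N z ∧ z ∉ A ∧ insert z A ⊆ U ∧ AEJ.EmbM R Mk z A w) := ⟨_, rfl⟩
    refine ⟨W, by rw [hW]; exact filter_subset _ _, ?_, fun w hw => by
      rw [hW, mem_filter] at hw
      exact hw.2⟩
    by_contra hWc
    push Not at hWc
    obtain ⟨P, hP⟩ : ∃ P, P = U \ W := ⟨_, rfl⟩
    have hPX : P ⊆ X := by rw [hP, hU]; exact sdiff_subset.trans (sdiff_subset.trans sdiff_subset)
    have hbu : (((range (m + 1)).biUnion S).card : ℝ) ≤ δ₀ * X.card := by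
      have h1 : (((range (m + 1)).biUnion S).card : ℝ) ≤ ∑ j ∈ range (m + 1), ((S j).card : ℝ) := by
        exact_mod_cast card_biUnion_le
      have h2 : ∑ j ∈ range (m + 1), ((S j).card : ℝ) ≤ ∑ _j ∈ range (m + 1), 2 * δ * X.card :=
        sum_le_sum (fun j hj => hS2 j (mem_range.1 hj))
      rw [sum_const, card_range, nsmul_eq_mul] at h2
      push_cast at h2
      have h3 : ((m : ℝ) + 1) * (2 * δ * X.card) = 2 * (m + 1) * δ * X.card := by ring
      have h4 := mul_le_mul_of_nonneg_right hδδ hXR.le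
      linarith only [h1, h2, h4]
    have hXP : ((X \ P).card : ℝ) ≤ 3 * δ₀ * X.card := by
      have h1 : X \ P ⊆ E ∪ ((range (m + 1)).biUnion S ∪ W) := by
        intro x hx
        rw [mem_sdiff, hP, mem_sdiff, hU, mem_sdiff, mem_sdiff] at hx
        rw [mem_union, mem_union]
        by_contra hc
        rw [not_or, not_or] at hc
        exact hx.2 ⟨⟨⟨hx.1, hc.1⟩, hc.2.1⟩, hc.2.2⟩
      have h2 : ((X \ P).card : ℝ) ≤ E.card + (((range (m + 1)).biUnion S).card + W.card) := by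
        have h3 := (card_le_card h1).trans (card_union_le _ _)
        have h4 := card_union_le ((range (m + 1)).biUnion S) W
        exact_mod_cast (by omega : (X \ P).card ≤ E.card + (((range (m + 1)).biUnion S).card + W.card))
      linarith only [hE, hWc, hbu, h2]
    have hPn : (P.card : ℝ) ≤ X.card := by exact_mod_cast card_le_card hPX
    have hPc : (1 - 3 * δ₀) * X.card ≤ (P.card : ℝ) := by
      have h1 : (X.card : ℝ) = (X \ P).card + P.card := by exact_mod_cast (card_sdiff_add_card_eq_card hPX).symm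
      linarith only [hXP, h1]
    have hP2 : (X.card : ℝ) / 2 ≤ P.card := by linarith only [mul_le_mul_of_nonneg_right c4 hXR.le, hPc, hXR]
    have hP0 : (0 : ℝ) < P.card := by linarith only [hXR, hP2]
    have hk : ((X \ P).card : ℝ) ≤ κ / 2 * X.card := hXP.trans (mul_le_mul_of_nonneg_right (by linarith only [c1, c5]) hXR.le)
    have hs0 : (0 : ℝ) ≤ (c.size : ℝ) := Nat.cast_nonneg _
    have ha : ∀ d : ℝ, d + ε₁ * P.card ≤ d + ε * X.card - (X \ P).card := by
      intro d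
      have h1 : ε₁ * P.card ≤ ε / 2 * X.card :=
        (mul_le_mul_of_nonneg_left hPn e3.le).trans (mul_le_mul_of_nonneg_right e1 hXR.le)
      have h2 : 3 * δ₀ * X.card ≤ ε / 4 * X.card := mul_le_mul_of_nonneg_right (by linarith only [c2, c5]) hXR.le
      have h3 : 0 ≤ ε * X.card := by (clear * - hε hX0; positivity)
      linarith only [hWc, hXP, h1, h2]
    obtain ⟨z, hz, A, hA, hzA, hNz, hemb⟩ : In R c N P := by
      refine hlt hT P N ?_ c hl hdg ?_ ?_
      · have : (n₂ : ℝ) ≤ P.card := by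
          have h1 : (2 * n₂ : ℝ) ≤ X.card := by exact_mod_cast hn2
          linarith only [hP2, h1]
        exact_mod_cast this
      · refine hc.trans ?_
        rcases le_or_gt 0 (1 - ε₁) with h | h
        · refine le_trans ?_ (mul_le_mul_of_nonneg_left hPc h)
          rw [← mul_assoc]
          refine mul_le_mul_of_nonneg_right ?_ hXR.le
          linarith only [mul_nonneg e3.le c5.le, e2, c3, hθ]
        · exfalso
          have h2 : 1 - θ < 0 := by linarith only [e2, hδ, hδ1, h]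
          have h3 : (1 - θ) * (X.card : ℝ) < 0 := mul_neg_of_neg_of_pos h2 hXR
          linarith only [hδ, hδ1, hc, h3]
      · obtain ⟨FN, hFN⟩ : ∃ FN, FN = X.filter (fun z => N z ∧ Wide R κ ((dcl c + 1) + ε * X.card) X z ∧
            Wide (fun a b => R b a) κ ((AEB.blk c + 1) + ε * X.card) X z) := ⟨_, rfl⟩
        rw [← hFN] at hN
        have h1 : (FN.card : ℝ) ≤ (FN ∩ P).card + (X \ P).card := by
          have h2 : FN ⊆ (FN ∩ P) ∪ (X \ P) := by
            intro x hx
            have hxX : x ∈ X := by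
              rw [hFN] at hx
              exact (mem_filter.1 hx).1
            by_cases hxP : x ∈ P
            · exact mem_union_left _ (mem_inter.2 ⟨hx, hxP⟩)
            · exact mem_union_right _ (mem_sdiff.2 ⟨hxX, hxP⟩)
          exact_mod_cast (card_le_card h2).trans (card_union_le _ _)
        have h2 : ε₁ * P.card ≤ ((FN ∩ P).card : ℝ) := by
          have h3 := ha 0
          linarith only [hN, h1, h3]
        refine h2.trans (Nat.cast_le.2 (card_le_card ?_))
        intro z hz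
        rw [mem_inter, hFN, mem_filter] at hz
        obtain ⟨⟨hzX, hzN, hw1, hw2⟩, hzP⟩ := hz
        rw [mem_filter]
        exact ⟨hzP, hzN, wide_mono (ha _) (wide_small hPX hk hκ.le hw1), wide_mono (ha _) (wide_small hPX hk hκ.le hw2)⟩
    rw [hcM] at hemb
    obtain ⟨w, hw⟩ := exists_embM hemb
    have hinP : insert z A ⊆ P := insert_subset hz hA
    have hPU : P ⊆ U := by rw [hP]; exact sdiff_subset
    have hwP : w ∈ P := by
      rcases hw.mem with h | h
      · rw [h]; exact hz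
      · exact hA h
    rw [hP, mem_sdiff, hW, mem_filter] at hwP
    exact hwP.2 ⟨hwP.1, z, hPX hz, A, hNz, hzA, hinP.trans hPU, hw⟩

end AER
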