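import Pool.Agent.AER.Glue

/-!
# The vertices which lead to the hosts
-/

set_option autoImplicit false

namespace AER

open Finset AE15 AED AELT AEB
open scoped Classical

variable {V : Type} {R : V → V → Prop}

theorem exists_fun {T : Finset V} {b : ℕ} (hb : b ≤ T.card) (y : V) : ∃ f : ℕ → V, (∀ j < b, f j ∈ T) ∧
    ∀ i < b, ∀ j < b, f i = f j → i = j := by
  refine ⟨fun j => if h : j < T.card then (T.equivFin.symm ⟨j, h⟩).1 else y, ?_, ?_⟩
  · intro j hj
    have h1 : j < T.card := lt_of_lt_of_le hj hb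
    simp only [h1, dif_pos]
    exact (T.equivFin.symm ⟨j, h1⟩).2
  · intro i hi j hj h
    have h1 : i < T.card := lt_of_lt_of_le hi hb
    have h2 : j < T.card := lt_of_lt_of_le hj hb
    simp only [h1, h2, dif_pos] at h
    have h3 := T.equivFin.symm.injective (Subtype.ext h)
    exact congrArg Fin.val h3

/-- no vertex `x i` sees many vertices of `N0`: then most vertices of `A ⊆ N0` dominate at least half of the vertices `x i` -/
theorem most_see (hT : AE32.Tour R) {N0 A : Finset V} (hA : A ⊆ N0) {x : ℕ → V} {N : ℕ} {t : ℝ} (hN : 1 ≤ N)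
    (hx : ∀ i < N, ((nO R N0 (x i)).card : ℝ) ≤ t) :
    (A.card : ℝ) ≤ (A.filter (fun f => N ≤ 2 * ((range N).filter (fun i => R f (x i))).card)).card + 2 * (t + 1) := by
  obtain ⟨Bd, hBd⟩ : ∃ Bd, Bd = A.filter (fun f => ¬ N ≤ 2 * ((range N).filter (fun i => R f (x i))).card) := ⟨_, rfl⟩
  have h1 : (A.filter (fun f => N ≤ 2 * ((range N).filter (fun i => R f (x i))).card)).card + Bd.card = A.card := by
    rw [hBd]
    exact card_filter_add_card_filter_not _
  have h2 : ∑ f ∈ Bd, ((range N).filter (fun i => ¬ R f (x i))).card =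
      ∑ i ∈ range N, (Bd.filter (fun f => ¬ R f (x i))).card :=
    sum_card_bipartiteAbove_eq_sum_card_bipartiteBelow (fun f i => ¬ R f (x i))
  have h3 : ∀ f ∈ Bd, N ≤ 2 * ((range N).filter (fun i => ¬ R f (x i))).card := by
    intro f hf
    rw [hBd, mem_filter] at hf
    have h4 : ((range N).filter (fun i => R f (x i))).card + ((range N).filter (fun i => ¬ R f (x i))).card =
        (range N).card := card_filter_add_card_filter_not _
    rw [card_range] at h4
    omega
  have h4 : Bd.card * N ≤ 2 * ∑ f ∈ Bd, ((range N).filter (fun i => ¬ R f (x i))).card := by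
    rw [mul_sum, ← smul_eq_mul]
    exact card_nsmul_le_sum _ _ _ h3
  have h5 : ∀ i ∈ range N, ((Bd.filter (fun f => ¬ R f (x i))).card : ℝ) ≤ t + 1 := by
    intro i hi
    have h6 : Bd.filter (fun f => ¬ R f (x i)) ⊆ insert (x i) (nO R N0 (x i)) := by
      intro f hf
      rw [mem_filter, hBd, mem_filter] at hf
      rw [mem_insert, mem_nO]
      by_cases h7 : f = x i
      · exact Or.inl h7
      · right
        refine ⟨hA hf.1.1, ?_⟩
        rcases hT.tot f (x i) h7 with h8 | h8
        · exact absurd h8 hf.2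
        · exact h8
    have h7 := (card_le_card h6).trans (card_insert_le _ _)
    have h8 : ((Bd.filter (fun f => ¬ R f (x i))).card : ℝ) ≤ (nO R N0 (x i)).card + 1 := by exact_mod_cast h7
    have h9 := hx i (mem_range.1 hi)
    linarith
  have h6 : ((∑ i ∈ range N, (Bd.filter (fun f => ¬ R f (x i))).card : ℕ) : ℝ) ≤ N * (t + 1) := by
    push_cast
    refine (sum_le_card_nsmul _ _ _ h5).trans ?_
    rw [card_range, nsmul_eq_mul]
  have h7 : (Bd.card : ℝ) * N ≤ 2 * (t + 1) * N := by
    have h8 : ((Bd.card * N : ℕ) : ℝ) ≤ ((2 * ∑ f ∈ Bd, ((range N).filter (fun i => ¬ R f (x i))).card : ℕ) : ℝ) := by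
      exact_mod_cast h4
    rw [h2] at h8
    push_cast at h8 h6
    linarith
  have h8 : (0 : ℝ) < N := by exact_mod_cast hN
  have h9 := le_of_mul_le_mul_right h7 h8
  have h10 : (A.card : ℝ) = (A.filter (fun f => N ≤ 2 * ((range N).filter (fun i => R f (x i))).card)).card + Bd.card := by
    exact_mod_cast h1.symm
  linarith

/-- the second case of the dichotomy -/
theorem broad (hT : AE32.Tour R) {N0 : Finset V} (hne : N0.Nonempty) {x : ℕ → V} {N b : ℕ} {t : ℝ} (hN : 1 ≤ N)
    (hx : ∀ i < N, ((nO R N0 (x i)).card : ℝ) ≤ t) (hbig : 4 * (t + 1) + 2 * (N + b) + 1 ≤ (N0.card : ℝ)) :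
    ∃ y ∈ N0, N0.card ≤ 2 * (nO R N0 y).card + 1 ∧ ∃ f : ℕ → V, (∀ j < b, f j ∈ N0 ∧ R y (f j) ∧
      (∀ i < N, f j ≠ x i) ∧ N ≤ 2 * ((range N).filter (fun i => R (f j) (x i))).card) ∧
        ∀ i < b, ∀ j < b, f i = f j → i = j := by
  obtain ⟨y, hy, -, -, h1⟩ := super_vertex hT (X := N0) (G := N0) hne (m := 0) (fun u hu hu' => absurd hu hu')
  have h2 := most_see hT (N0 := N0) (A := nO R N0 y) (fun v hv => (mem_nO.1 hv).1) hN hx
  obtain ⟨T, hT'⟩ : ∃ T, T = ((nO R N0 y).filter (fun f => N ≤ 2 * ((range N).filter (fun i => R f (x i))).card)) \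
    (range N).image x := ⟨_, rfl⟩
  have h3 : b ≤ T.card := by
    have h4 : ((nO R N0 y).filter (fun f => N ≤ 2 * ((range N).filter (fun i => R f (x i))).card)).card ≤
        T.card + N := by
      have h5 : ((nO R N0 y).filter (fun f => N ≤ 2 * ((range N).filter (fun i => R f (x i))).card)) ⊆
          T ∪ (range N).image x := by
        intro a ha
        rw [hT', mem_union, mem_sdiff]
        tauto
      have h6 := (card_le_card h5).trans (card_union_le _ _)
      have h7 : ((range N).image x).card ≤ N := card_image_le.trans (card_range N).le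
      omega
    have h5 : (((nO R N0 y).filter (fun f => N ≤ 2 * ((range N).filter (fun i => R f (x i))).card)).card : ℝ) ≤
        T.card + N := by exact_mod_cast h4
    have h6 : (N0.card : ℝ) ≤ 2 * (nO R N0 y).card + 1 := by exact_mod_cast h1
    have h7 : (b : ℝ) ≤ T.card := by linarith
    exact_mod_cast h7
  obtain ⟨f, hf1, hf2⟩ := exists_fun h3 y
  refine ⟨y, hy, h1, f, ?_, hf2⟩
  intro j hj
  have h4 := hf1 j hj
  rw [hT', mem_sdiff, mem_filter, mem_nO, mem_image] at h4
  refine ⟨h4.1.1.1, h4.1.1.2, ?_, h4.1.2⟩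
  intro i hi h5
  exact h4.2 ⟨i, mem_range.2 hi, h5.symm⟩

end AER
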