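import Pool.Agent.AEB.MainB
import Pool.Agent.AEB.CovE
import Pool.Agent.AEK.LT1
import Pool.Agent.AEJ.Defs

/-!
# Rigid ends: hosts fixed in advance
-/

set_option autoImplicit false

namespace AER

open Finset AE15 AED AELT AEB
open scoped Classical

/-- a host `x` fixed in `X`: `Nx` are good out-neighbours of it, `E` is the set of explicit hosts, `H` is the reserve, `𝓕` is
a family of sets. Whatever set `P` is left over, if it contains a set `S` which represents `𝓕` in `X \ (E ∪ H)` and has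
density at least `δ`, then the vertices of `Nx` are good in `P`; if it also contains `H` and avoids `E`, then `(P, R x)` is
in the exact class. -/
structure Host {V : Type} (R : V → V → Prop) (p : NP) (κ η s γ δ ν : ℝ) (X E : Finset V) (𝓕 : Finset (Finset V))
    (H : Finset V) (x : V) (Nx : Finset V) : Prop where
  sub : Nx ⊆ X
  out : ∀ v ∈ Nx, R x v
  meet : ∀ S : Finset V, Rep (X \ (E ∪ H)) 𝓕 ν S → γ * S.card ≤ ((Nx ∩ S).card : ℝ)
  good : ∀ S P : Finset V, S ⊆ P → P ⊆ X → Rep (X \ (E ∪ H)) 𝓕 ν S → δ * X.card ≤ (S.card : ℝ) →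
    ∀ v ∈ Nx, Good R κ η P v
  cls : ∀ S P : Finset V, S ⊆ X \ (E ∪ H) → S ⊆ P → H ⊆ P → P ⊆ X → Disjoint P E → Rep (X \ (E ∪ H)) 𝓕 ν S →
    δ * X.card ≤ (S.card : ℝ) → ClB R (Good R κ η P) s p p.u0 P (R x)

end AER
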