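import Pool.Agent.AER.DefsR
import Pool.Agent.AER.Bcast
import Pool.Agent.AE15.Super
import Pool.Agent.AEJ.Tree

/-!
# Rigid ends: gluing the branch to the rest of the tree
-/

set_option autoImplicit false

namespace AER

open Finset AE15 AED AELT AEB
open scoped Classical

variable {V : Type} {R : V → V → Prop}

/-- the rest `s` of the tree is in `X \ (E ∪ H) \ U` with its root behind `y`, the branch hangs partially on `y`, and all
items can be embedded in whatever is left -/
theorem glue_core {X E H U Z : Finset V} {y : V} {N : V → Prop} {F s : Fd} {L : List (V × Fd)} {C₁ : ℕ} (hEX : E ⊆ X)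
    (hy : y ∈ E) (hyZ : y ∉ Z) (hZ : Z ⊆ E) (hHX : H ⊆ X) (hHE : Disjoint H E) (hUX : U ⊆ X \ E)
    (hPE : PE R F y Z L) (hR : ∀ a, ¬ R a a)
    (hin : In R s (fun z => N z ∧ R y z) ((X \ (E ∪ H)) \ U))
    (hit : ∀ P ⊆ X, Disjoint P E → H ⊆ P → U ⊆ P → isz L + C₁ ≤ P.card → ∃ A ⊆ P, EmbI R L A)
    (hcard : s.size + F.size + 1 + C₁ + E.card ≤ X.card) : In R (.node false F s) N X := by
  obtain ⟨z, hz, B, hB, hzB, ⟨hNz, hyz⟩, hemb⟩ := hin
  have hzX := (mem_sdiff.1 hz).1
  rw [mem_sdiff, mem_union, not_or] at hzX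
  obtain ⟨hzX, hzE, hzH⟩ := hzX
  have hzU := (mem_sdiff.1 hz).2
  have hB' : ∀ a ∈ B, a ∈ X ∧ a ∉ E ∧ a ∉ H ∧ a ∉ U := by
    intro a ha
    have h1 := hB ha
    rw [mem_sdiff, mem_sdiff, mem_union, not_or] at h1
    exact ⟨h1.1.1, h1.1.2.1, h1.1.2.2, h1.2⟩
  obtain ⟨P, hP⟩ : ∃ P, P = (X \ E) \ insert z B := ⟨_, rfl⟩
  have hmP : ∀ a, a ∈ P ↔ a ∈ X ∧ a ∉ E ∧ a ≠ z ∧ a ∉ B := by
    intro a
    rw [hP, mem_sdiff, mem_sdiff, mem_insert, not_or]
    tauto
  have hPX : P ⊆ X := fun a ha => ((hmP a).1 ha).1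
  have hPE' : Disjoint P E := by
    rw [disjoint_left]
    exact fun a ha => ((hmP a).1 ha).2.1
  have hHP : H ⊆ P := by
    intro a ha
    rw [hmP]
    refine ⟨hHX ha, disjoint_left.1 hHE ha, ?_, fun h => (hB' a h).2.2.1 ha⟩
    rintro rfl
    exact hzH ha
  have hUP : U ⊆ P := by
    intro a ha
    rw [hmP]
    have h1 := mem_sdiff.1 (hUX ha)
    refine ⟨h1.1, h1.2, ?_, fun h => (hB' a h).2.2.2 ha⟩
    rintro rfl
    exact hzU ha
  have hsz := hPE.size
  have hBc := hemb.card
  have hPc : isz L + C₁ ≤ P.card := by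
    have h1 : X.card ≤ P.card + E.card + (insert z B).card := by
      have h2 : X ⊆ P ∪ (E ∪ insert z B) := by
        intro a ha
        rw [mem_union, mem_union, mem_insert, hmP]
        tauto
      have h3 := (card_le_card h2).trans (card_union_le _ _)
      have h4 := card_union_le E (insert z B)
      omega
    have h2 := card_insert_le z B
    omega
  obtain ⟨A, hAP, hA⟩ := hit P hPX hPE' hHP hUP hPc
  have hZA : Disjoint Z A := by
    rw [disjoint_left]
    intro a ha ha2
    exact disjoint_left.1 hPE' (hAP ha2) (hZ ha)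
  have hemF := hPE.complete hA hZA
  have hyA : y ∉ Z ∪ A := by
    rw [mem_union, not_or]
    exact ⟨hyZ, fun h => disjoint_left.1 hPE' (hAP h) hy⟩
  have hyB : y ∉ B := fun h => (hB' y h).2.1 hy
  have hdis : Disjoint (Z ∪ A) B := by
    rw [disjoint_left]
    intro a ha ha2
    rcases mem_union.1 ha with h1 | h1
    · exact (hB' a ha2).2.1 (hZ h1)
    · exact ((hmP a).1 (hAP h1)).2.2.2 ha2
  refine ⟨z, hzX, insert y ((Z ∪ A) ∪ B), ?_, ?_, hNz, y, Z ∪ A, B, ?_, hyA, hyB, hdis, rfl, hemF, hemb⟩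
  · intro a ha
    rcases mem_insert.1 ha with rfl | ha
    · exact hEX hy
    rcases mem_union.1 ha with ha | ha
    · rcases mem_union.1 ha with ha | ha
      · exact hEX (hZ ha)
      · exact hPX (hAP ha)
    · exact (hB' a ha).1
  · rw [mem_insert, not_or, mem_union, not_or, mem_union, not_or]
    refine ⟨?_, ⟨fun h => hzE (hZ h), fun h => ((hmP z).1 (hAP h)).2.2.1 rfl⟩, hzB⟩
    rintro rfl
    exact hR _ hyz
  · simpa [Adj] using hyz

/-- some item has at least the average size -/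
theorem exists_big {L : List (V × Fd)} (hL : L ≠ []) : ∃ q ∈ L, isz L ≤ L.length * (q.2.size + 1) := by
  induction L with
  | nil => exact absurd rfl hL
  | cons a L ih =>
    by_cases h : L = []
    · subst h
      exact ⟨a, List.mem_cons_self, by simp [AEB.isz]⟩
    · obtain ⟨q, hq, h1⟩ := ih h
      rw [AEB.isz_cons, List.length_cons]
      rcases le_total a.2.size q.2.size with h2 | h2
      · refine ⟨q, List.mem_cons_of_mem _ hq, ?_⟩
        rw [add_mul, one_mul]
        omega
      · refine ⟨a, List.mem_cons_self, ?_⟩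
        have h3 : L.length * (q.2.size + 1) ≤ L.length * (a.2.size + 1) := Nat.mul_le_mul_left _ (by omega)
        rw [add_mul, one_mul]
        omega

/-- the tree in another order: the given in-child comes first -/
theorem eqt_first {c F : Fd} {d : Bool} (h : (d, F) ∈ c.trees) : ∃ s : Fd, AEJ.Eqt c (.node d F s) := by
  obtain ⟨l₁, l₂, h1⟩ := List.append_of_mem h
  refine ⟨ofT (l₁ ++ l₂), AEJ.Eqt.of_perm ?_⟩
  simp only [Fd.trees, trees_ofT]
  rw [h1]
  exact List.perm_middle

end AER
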