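import Pool.Agent.AEG.RoundLt

/-!
# Exact embedding of an out-forest at a fixed host
-/

set_option autoImplicit false

namespace AER

open Finset AE15 AED AEB AEG
open scoped Classical

/-- **The class of a tree at the host `z`**, from a graded family of good dominators -/
theorem cl_of_cnt {V : Type*} {R : V → V → Prop} (hT : AE32.Tour R) {p : NP} (hp : p.OK) {X Dz U₀ : Finset V} {z : V}
    {κ η s : ℝ} {m : ℕ} (hDX : Dz ⊆ X) (hD : ∀ v ∈ Dz, R z v ∧ Good R κ η X v) (hs : s * X.card ≤ Dz.card)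
    (hU : U₀.card ≤ m) (hcnt : ∀ u ∈ X, u ∉ U₀ → ¬ R z u → 2 * p.c0 < (nI R Dz u).card) (hm : m ≤ p.u0) (F : Fd) :
    AEB.Cl R (Good R κ η X) s p F X (R z) := by
  have hD' : ClD (Good R κ η X) s X (R z) := by
    refine hs.trans (Nat.cast_le.2 (card_le_card ?_))
    intro v hv
    rw [mem_filter]
    exact ⟨hDX hv, (hD v hv).2, (hD v hv).1⟩
  have hUc : U₀.card ≤ p.ub F := by
    have h4 : p.u0 ≤ p.ub F := by
      unfold NP.ub
      split_ifs <;> omega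
    omega
  have hkey : ∀ u ∈ X, R z u ∨ u ∈ U₀ ∨ ∃ v ∈ X, R z v ∧ R v u ∧ Strong R (Good R κ η X) p.c0 p.c X v := by
    intro u huX
    by_cases hN : R z u
    · exact Or.inl hN
    right
    by_cases huU : u ∈ U₀
    · exact Or.inl huU
    right
    have hj := hcnt u huX huU hN
    obtain ⟨v, hv, hvc⟩ := exists_deg_in hT (S := nI R Dz u) (c := p.c0) (by omega)
    rw [mem_nI] at hv
    obtain ⟨hv1, hv2⟩ := hD v hv.1
    have hsub : nI R (nI R Dz u) v ⊆ nI R (X.filter (Good R κ η X)) v := by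
      apply nI_mono
      intro w hw
      have h1 := (mem_nI.1 hw).1
      rw [mem_filter]
      exact ⟨hDX h1, (hD w h1).2⟩
    have h1 : p.c0 ≤ (nI R (X.filter (Good R κ η X)) v).card := hvc.trans (card_le_card hsub)
    have h2 : p.c ≤ p.c0 := by
      have := hp.hc0
      generalize 2 ^ p.r0 = x at this
      omega
    exact ⟨v, hDX hv.1, hv1, hv.2, ⟨hv2, h1.trans (card_le_card (nI_mono (filter_subset _ _)))⟩, h2.trans h1⟩
  refine ⟨hD', fun _ => ⟨hD', U₀, ∅, hUc, by simp, fun u hu => ?_, fun u hu => ?_⟩⟩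
  · rcases hkey u hu with h1 | h1 | ⟨v, h1, h2, h3, h4⟩
    · exact Or.inl h1
    · exact Or.inr (Or.inr (Or.inl h1))
    · exact Or.inr (Or.inr (Or.inr ⟨v, h1, h2, h3, h4.1⟩))
  · rcases hkey u hu with h1 | h1 | h1
    · exact Or.inl h1
    · exact Or.inr (Or.inr (Or.inl h1))
    · exact Or.inr (Or.inr (Or.inr (Or.inr h1)))

/-- **Exact embedding of an out-forest at a fixed host**, general dominators. `Dz`: good out-neighbours of the host `z`;
`Z`: a bounded set of vertices which are not covered -/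
theorem host_gen (p : NP) (hp : p.OK) (hab : ab p.b p.l ≤ p.a) {D₀ : ℕ} (hD₀ : p.A ≤ D₀) (hD₁ : 2 * p.b ≤ D₀)
    {ω c η η₁ κ₀ κ₁ κ γ₀ τ s σ₂ μ : ℝ} (P : KB D₀ ω c η η₁ κ₀ κ₁ κ γ₀ τ s σ₂ μ) {γ : ℝ} (hγ : κ₁ ≤ γ) (hγs : 2 * s ≤ c * γ)
    (Kd w₀ : ℕ) : ∃ C : ℕ, ∀ {V : Type} {R : V → V → Prop}, AE32.Tour R → ∀ (X Z Dz : Finset V) (z : V), z ∈ X →
      Good R κ η X z → Dz ⊆ X → Disjoint Dz Z → (∀ g ∈ Dz, R z g ∧ Good R κ₁ η₁ X g) → γ * X.card ≤ Dz.card →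
      (∀ j : ℕ, (X.filter (fun u => u ∉ Z ∧ u ≠ z ∧ ¬ R z u ∧ (nI R Dz u).card ≤ j)).card ≤ Kd * j) → Z.card ≤ w₀ →
      ∀ D : Fd, FOK p.b p.l 0 D → (∀ q ∈ D.trees, q.1 = true) → D.size + C ≤ X.card →
      ∃ S ⊆ X, z ∉ S ∧ Emb R D z S := by
  obtain ⟨hω0, hω1, hc0, hc1, hη0, hη1, hη₁0, hη₁1, hκ₀0, hκ₁0, hκ₁1, hκ0, hκ1, hs0, hγ₀0, hτ0, hσ₂0, hμ0, hκ₁η, hκs⟩ :=
    P.num
  have hωD : 2 * ω * D₀ = 1 := by
    have h1 : (0 : ℝ) < D₀ := by
      have := P.hD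
      exact_mod_cast (by omega : 0 < D₀)
    rw [P.hω]
    field_simp
  obtain ⟨CE, hCE, hEE⟩ := ee_all p hp hab hD₀ P
  obtain ⟨δZ, n₀, M₉, C₉, K₁, hδZ0, hM₉, hgen⟩ := light_gen p hp P hκ0 le_rfl CE hCE 1 Kd hγ
  obtain ⟨p₁, hp₁, q1, q2, q3, q4, q5, q6, q7⟩ := exists_np2 p hp (w₀ + K₁ * (2 * p.c0))
  obtain ⟨CE1, hCE1, hEE1⟩ := ee_all p₁ hp₁ (by rw [q1, q2, q3]; exact hab) (by rw [q6]; exact hD₀) P
  refine ⟨n₀ + ⌈(w₀ : ℝ) / δZ⌉₊ + ⌈CE1⌉₊ + 1, ?_⟩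
  intro V R hT X Z Dz z hz hzG hDX hDZ hD hDc hcnt hZ D hDF hDf hX
  by_cases hDn : D = Fd.nil
  · refine ⟨∅, empty_subset _, notMem_empty _, ?_⟩
    rw [hDn]
    rfl
  obtain ⟨a, Lr, hperm, hbig⟩ := exists_large p.b D hDn hDF.1
  have ha1 : a.1 = true := hDf a (hperm.mem_iff.2 List.mem_cons_self)
  have haF : FOK p.b p.l 0 a.2 := by
    have := (hDF.child (hperm.mem_iff.2 List.mem_cons_self)).1
    rw [ha1] at this
    simpa using this
  have hsza := size_ofT hperm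
  have hhs : hosts [(z, ofT Lr)] = {z} := by
    ext v
    rw [mem_hosts, mem_singleton]
    constructor
    · rintro ⟨o, ho, rfl⟩
      rw [List.mem_singleton] at ho
      rw [ho]
    · rintro rfl
      exact ⟨_, List.mem_singleton_self _, rfl⟩
  have hirr : ¬ R z z := hT.irr z
  have hzD : z ∉ Dz := fun h => hirr (hD z h).1
  have hsize : ((ofT Lr).size : ℝ) ≤ (1 - 2 * ω) * X.card := by
    have h1 : ((ofT Lr).size + 1 : ℝ) + a.2.size = D.size := by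
      have : D.size = (ofT Lr).size + 1 + a.2.size := by omega
      rw [this]
      push_cast
      ring
    have h2 : (D.size : ℝ) ≤ p.b * (a.2.size + 1) := by exact_mod_cast hbig
    have h3 : (D.size : ℝ) ≤ X.card := by exact_mod_cast (by omega : D.size ≤ X.card)
    have h4 : 2 * ω * (2 * p.b) ≤ 1 := by
      rw [← hωD]
      apply mul_le_mul_of_nonneg_left _ (by linarith)
      exact_mod_cast hD₁
    have h5 : 2 * ω * D.size ≤ a.2.size + 1 := by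
      have h6 : (0 : ℝ) ≤ (a.2.size : ℝ) + 1 := by positivity
      have h7 := mul_le_mul_of_nonneg_left h2 (show 0 ≤ 2 * ω by linarith)
      have h8 := mul_le_mul_of_nonneg_right h4 h6
      linarith
    have h6 : (1 - 2 * ω) * D.size ≤ (1 - 2 * ω) * X.card := mul_le_mul_of_nonneg_left h3 (by linarith)
    linarith
  obtain ⟨T, Q, hET, hTs, hQs, hTQ, hg, hd, hcj, -⟩ := hgen hT (hEE hT) X X Z Dz z [(z, ofT Lr)] (by omega) hDX hDZ (by
      rw [hhs, disjoint_singleton_right]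
      exact hzD) (fun g hg => (hD g hg).2) hDc (by
      intro j
      refine (card_le_card ?_).trans (hcnt j)
      intro u hu
      rw [mem_filter, hhs, mem_singleton] at hu
      rw [mem_filter]
      exact hu) (by
      have h1 : (Z.card : ℝ) ≤ w₀ := by exact_mod_cast hZ
      have h2 : (w₀ : ℝ) / δZ ≤ X.card := (Nat.le_ceil _).trans (by
        exact_mod_cast (by omega : ⌈(w₀ : ℝ) / δZ⌉₊ ≤ X.card))
      rw [div_le_iff₀ hδZ0] at h2
      linarith) (by simp) (by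
      intro o ho
      rw [List.mem_singleton] at ho
      rw [ho]
      refine ⟨hz, hzG, fok_ofT hDF hperm, ?_⟩
      rw [trees_ofT]
      exact fun q hq => hDf q (hperm.mem_iff.2 (List.mem_cons_of_mem _ hq))) (by
      have h1 : totB [(z, ofT Lr)] = (ofT Lr).size := by simp [totB]
      rw [h1]
      exact hsize)
  rw [hhs] at hTs hQs hcj
  have hET' : Emb R (ofT Lr) z T := by
    obtain ⟨T₁, T₂, -, h2, h3, h4⟩ := hET
    rw [h2, show T₂ = ∅ from h4, union_empty]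
    exact h3
  have hTm : ∀ v ∈ T, v ∈ X ∧ v ∉ Z ∧ v ≠ z := by
    intro v hv
    have := hTs hv
    rw [mem_sdiff, mem_union, not_or, mem_singleton] at this
    exact ⟨this.1, this.2.1, this.2.2⟩
  obtain ⟨X', hX'⟩ : ∃ X', X' = X \ ({z} ∪ T) := ⟨_, rfl⟩
  have hX'm : ∀ v, v ∈ X' ↔ v ∈ X ∧ v ≠ z ∧ v ∉ T := by
    intro v
    rw [hX', mem_sdiff, mem_union, mem_singleton, not_or]
  have hX'X : X' ⊆ X := by rw [hX']; exact sdiff_subset
  have hQX' : Q ⊆ X' := by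
    intro v hv
    have := hQs hv
    rw [mem_sdiff, mem_union, not_or, mem_singleton] at this
    exact (hX'm v).2 ⟨this.1, this.2.2, fun h => disjoint_left.1 hTQ h hv⟩
  have hX'c : a.2.size + 1 + ⌈CE1⌉₊ ≤ X'.card := by
    have h1 := le_card_sdiff ({z} ∪ T) X
    rw [← hX'] at h1
    have h2 := card_union_le {z} T
    rw [card_singleton, show T.card = (ofT Lr).size from hET'.card] at h2
    omega
  have hcl : AEB.Cl R (Good R κ η X') s p₁ a.2 X' (R z) := by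
    refine cl_of_cnt (Dz := Dz ∩ Q) (U₀ := Z ∪ X.filter (fun u => u ∉ Z ∧ u ∉ ({z} : Finset V) ∧ ¬ R z u ∧
      (nI R Dz u ∩ Q).card ≤ 2 * p.c0)) hT hp₁ (inter_subset_right.trans hQX') ?_ ?_ (m := w₀ + K₁ * (2 * p.c0)) ?_ ?_ q7 _
    · intro v hv
      rw [mem_inter] at hv
      exact ⟨(hD v hv.1).1, hg X' hX'X hQX' v hv.1⟩
    · refine le_trans ?_ hd
      have h2 : (X'.card : ℝ) ≤ X.card := by exact_mod_cast card_le_card hX'X
      refine (mul_le_mul_of_nonneg_left h2 hs0.le).trans (mul_le_mul_of_nonneg_right ?_ (Nat.cast_nonneg _))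
      linarith
    · exact (card_union_le _ _).trans (Nat.add_le_add hZ (hcj _))
    · intro u hu huU hzu
      rw [q5]
      by_contra hc
      push Not at hc
      apply huU
      rw [mem_union, mem_filter]
      by_cases huZ : u ∈ Z
      · exact Or.inl huZ
      · right
        have h3 := (hX'm u).1 hu
        refine ⟨h3.1, huZ, by rw [mem_singleton]; exact h3.2.1, hzu, le_trans (card_le_card ?_) hc⟩
        intro v hv
        rw [mem_inter, mem_nI] at hv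
        rw [mem_nI, mem_inter]
        exact ⟨⟨hv.1.1, hv.2⟩, hv.1.2⟩
  obtain ⟨x, hx, B, hB, hxB, hzx, hEB⟩ := hEE1 hT a.2 (by rw [q1, q2]; exact haF) X' (R z) (by
    have h1 : CE1 ≤ ⌈CE1⌉₊ := Nat.le_ceil _
    have h3 : (a.2.size : ℝ) + 1 + ⌈CE1⌉₊ ≤ X'.card := by exact_mod_cast hX'c
    linarith) hcl
  have hxB' : ∀ u ∈ insert x B, u ∈ X ∧ u ≠ z ∧ u ∉ T := by
    intro u hu
    rw [mem_insert] at hu
    rcases hu with rfl | hu
    · exact (hX'm u).1 hx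
    · exact (hX'm u).1 (hB hu)
  refine ⟨insert x B ∪ T, ?_, ?_, emb_join hperm ha1 hzx hxB hEB hET' ?_⟩
  · exact union_subset (fun u hu => (hxB' u hu).1) (fun u hu => (hTm u hu).1)
  · rw [mem_union, not_or]
    exact ⟨fun h => (hxB' z h).2.1 rfl, fun h => (hTm z h).2.2 rfl⟩
  · rw [disjoint_left]
    exact fun u hu => (hxB' u hu).2.2

/-- **Exact embedding of an out-forest at a super vertex** -/
theorem host_exact (p : NP) (hp : p.OK) (hab : ab p.b p.l ≤ p.a) {D₀ : ℕ} (hD₀ : p.A ≤ D₀) (hD₁ : 2 * p.b ≤ D₀)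
    {ω c η η₁ κ₀ κ₁ κ γ₀ τ s σ₂ μ : ℝ} (P : KB D₀ ω c η η₁ κ₀ κ₁ κ γ₀ τ s σ₂ μ) (w₀ : ℕ) : ∃ C : ℕ, ∀ {V : Type}
      {R : V → V → Prop}, AE32.Tour R → ∀ (X G Z : Finset V) (z : V) (m : ℕ), G ⊆ X → (∀ g ∈ G, Good R κ₁ η₁ X g) →
      γ₀ * X.card ≤ G.card → XD R X G Z m z → (m : ℝ) ≤ γ₀ / 16 * X.card → Z.card ≤ w₀ →
      ∀ D : Fd, FOK p.b p.l 0 D → (∀ q ∈ D.trees, q.1 = true) → D.size + C ≤ X.card →
      ∃ S ⊆ X, z ∉ S ∧ Emb R D z S := by
  obtain ⟨hω0, hω1, hc0, hc1, hη0, hη1, hη₁0, hη₁1, hκ₀0, hκ₁0, hκ₁1, hκ0, hκ1, hs0, hγ₀0, hτ0, hσ₂0, hμ0, hκ₁η, hκs⟩ :=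
    P.num
  have hγ₀ := P.hγ₀
  have hcη : c * η ≤ 1 * η := mul_le_mul_of_nonneg_right (by linarith) hη0.le
  obtain ⟨g₀, hg₀⟩ := exists_nat_ge (8 / γ₀)
  have hg₀' : 8 ≤ γ₀ * g₀ := by
    rw [div_le_iff₀ hγ₀0] at hg₀
    linarith
  obtain ⟨C, hC⟩ := host_gen p hp hab hD₀ hD₁ P (γ := γ₀ / 4) (by linarith) (by
    rw [P.hs, hγ₀]
    have : 0 < c * η₁ := by positivity
    linarith) (g₀ + 2) w₀
  obtain ⟨n₂, hn₂⟩ := exists_big [((4 * (w₀ + 1) : ℝ), γ₀)] (by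
    intro q hq
    simp only [List.mem_cons, List.not_mem_nil, or_false] at hq
    rcases hq with rfl
    exact hγ₀0)
  refine ⟨C + n₂, ?_⟩
  intro V R hT X G Z z m hG hGg hGc hXD hm hZ D hDF hDf hX
  have b1 : (4 * (w₀ + 1) : ℝ) ≤ γ₀ * X.card := hn₂ X.card (by omega) ((4 * (w₀ + 1) : ℝ), γ₀) (by simp)
  have hzG := hXD.hx
  rw [mem_sdiff] at hzG
  have hzX := hG hzG.1
  have hDc : γ₀ / 4 * X.card ≤ (nO R (G \ Z) z).card := by
    have h1 : (G.card : ℝ) ≤ (G \ Z).card + Z.card := by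
      exact_mod_cast card_le_card_sdiff_add_card (s := G) (t := Z)
    have h2 : ((G \ Z).card : ℝ) ≤ 2 * (nO R (G \ Z) z).card + 1 := by exact_mod_cast hXD.h4
    have h3 : (Z.card : ℝ) ≤ w₀ := by exact_mod_cast hZ
    linarith
  refine hC hT X Z (nO R (G \ Z) z) z hzX ?_ (nO_sub.trans (sdiff_subset.trans hG)) ?_ ?_ hDc
    (xd_cnt hT hXD hzX hm hDc hg₀') hZ D hDF hDf (by omega)
  · exact GdU_self.1 (AEB.Good.gdU (hGg z hzG.1) (Subset.refl _) (mul_le_mul_of_nonneg_right (by linarith)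
      (Nat.cast_nonneg _)) (by linarith))
  · rw [disjoint_left]
    intro v hv
    rw [mem_nO, mem_sdiff] at hv
    exact hv.1.2
  · intro v hv
    rw [mem_nO, mem_sdiff] at hv
    exact ⟨hv.2, hGg v hv.1.1⟩

end AER
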