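import Pool.Agent.AER.DefsR
import Pool.Agent.AET.LightOne

/-!
# All items at good hosts, the heavy item last and exactly

The light items are embedded one after another, the `j`-th one in the unused part of `P` without the reserve `H` and
without the representative sets of the later items (it contains its own representative set `S j`, so the host is good
there). The heavy item is embedded in everything that is left.
-/

set_option autoImplicit false

namespace AER

open Finset AE15 AED AELT AEB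
open scoped Classical

theorem itemsG (b m : ℕ) (hb : 1 ≤ b) {κ η δ τ h : ℝ} (hκ : 0 < κ) (hκ1 : κ ≤ 1) (hη : 0 < η) (hη1 : η ≤ 1 / 20)
    (hητ : η ≤ τ / 64) (hδ : 0 < δ) (hτ : 0 < τ) (hh : h ≤ τ / 4) (hδτ : 2 * (m + 1) * δ ≤ τ / 4) :
    ∃ (γB : ℝ) (n₁ : ℕ), 0 < γB ∧ ∀ {V : Type} {R : V → V → Prop}, AE32.Tour R → ∀ {X E : Finset V}
      {𝓕 : Finset (Finset V)} {H : Finset V} {ν : ℝ}, n₁ ≤ X.card → (H.card : ℝ) ≤ h * X.card → ∀ S : ℕ → Finset V,
      (∀ j ≤ m, S j ⊆ X \ (E ∪ H) ∧ Rep (X \ (E ∪ H)) 𝓕 ν (S j) ∧ δ * X.card ≤ ((S j).card : ℝ) ∧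
        ((S j).card : ℝ) ≤ 2 * δ * X.card) → (∀ i ≤ m, ∀ j ≤ m, i ≠ j → Disjoint (S i) (S j)) →
      ∀ P ⊆ X, Disjoint P E → H ⊆ P → (∀ j ≤ m, S j ⊆ P) → ∀ L : List (V × Fd), L.length ≤ m →
        (∀ q ∈ L, q.2.len ≤ b ∧ q.2.Deg b ∧ (AEB.blk q.2 + 1 : ℝ) ≤ γB * X.card ∧ ∀ S' P' : Finset V, S' ⊆ P' → P' ⊆ X →
          Rep (X \ (E ∪ H)) 𝓕 ν S' → δ * X.card ≤ (S'.card : ℝ) → Good R κ η P' q.1) →
        ∀ (z : V) (D : Fd) (Ce : ℝ), 0 ≤ Ce → τ * X.card ≤ (D.size + 1 : ℝ) →
          (∀ P' ⊆ P, H ⊆ P' → S m ⊆ P' → (D.size + 1 : ℝ) + Ce ≤ P'.card → In R D (R z) P') →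
            (AEB.isz L : ℝ) + (D.size + 1) + Ce ≤ P.card → ∃ A ⊆ P, EmbI R ((z, D) :: L) A := by
  obtain ⟨γ, ε₀, μ₀, m₁, hγ, hε₀, hμ₀, -, hlight⟩ := AET.light_one b hb hκ hκ1 hη hη1
  refine ⟨γ * τ / 2, ⌈2 * (m₁ : ℝ) / τ⌉₊, by positivity, ?_⟩
  intro V R hT X E 𝓕 H ν hX hHc S hS hSd P hPX _ hHP hSP L hLm hL z D Ce hCe0 hD hbox hszR
  have hX0 : (0 : ℝ) ≤ X.card := Nat.cast_nonneg _
  have hXm : 2 * (m₁ : ℝ) ≤ τ * X.card := by
    have h1 : 2 * (m₁ : ℝ) / τ ≤ X.card := (Nat.le_ceil _).trans (by exact_mod_cast hX)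
    rw [div_le_iff₀ hτ] at h1
    linarith
  -- the light items
  have key : ∀ (L : List (V × Fd)) (k : ℕ) (P : Finset V), P ⊆ X → H ⊆ P → (∀ j, k ≤ j → j ≤ m → S j ⊆ P) →
      k + L.length ≤ m → (∀ q ∈ L, q.2.len ≤ b ∧ q.2.Deg b ∧ (AEB.blk q.2 + 1 : ℝ) ≤ γ * τ / 2 * X.card ∧
        ∀ S' P' : Finset V, S' ⊆ P' → P' ⊆ X → Rep (X \ (E ∪ H)) 𝓕 ν S' → δ * X.card ≤ (S'.card : ℝ) →
          Good R κ η P' q.1) →
      (AEB.isz L : ℝ) + τ * X.card ≤ P.card → ∃ A ⊆ P, EmbI R L A ∧ Disjoint A H ∧ Disjoint A (S m) := by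
    intro L
    induction L with
    | nil =>
      intro k P _ _ _ _ _ _
      exact ⟨∅, empty_subset _, rfl, disjoint_empty_left _, disjoint_empty_left _⟩
    | cons q L ih =>
      intro k P hPX hHP hSP hk hL hsz
      rw [List.length_cons] at hk
      rw [AEB.isz_cons] at hsz
      push_cast at hsz
      obtain ⟨hq1, hq2, hq3, hq4⟩ := hL q List.mem_cons_self
      obtain ⟨T, hT'⟩ : ∃ T, T = (Finset.Ico (k + 1) (m + 1)).biUnion S := ⟨_, rfl⟩
      obtain ⟨Y, hY⟩ : ∃ Y, Y = P \ (H ∪ T) := ⟨_, rfl⟩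
      have hmT : ∀ a, a ∈ T ↔ ∃ j, (k + 1 ≤ j ∧ j < m + 1) ∧ a ∈ S j := by
        intro a
        rw [hT', mem_biUnion]
        simp only [Finset.mem_Ico]
      have hSY : S k ⊆ Y := by
        intro a ha
        rw [hY, mem_sdiff, mem_union, not_or]
        refine ⟨hSP k le_rfl (by omega) ha, ?_, ?_⟩
        · have h1 := mem_sdiff.1 ((hS k (by omega)).1 ha)
          exact fun h2 => h1.2 (mem_union_right _ h2)
        · intro h1
          obtain ⟨j, hj, haj⟩ := (hmT a).1 h1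
          exact disjoint_left.1 (hSd k (by omega) j (by omega) (by omega)) ha haj
      have hYP : Y ⊆ P := by rw [hY]; exact sdiff_subset
      have hgood : Good R κ η Y q.1 := hq4 (S k) Y hSY (hYP.trans hPX) (hS k (by omega)).2.1 (hS k (by omega)).2.2.1
      -- the size of `Y`
      have hTc : (T.card : ℝ) ≤ τ / 4 * X.card := by
        have h1 : T.card ≤ ∑ j ∈ Finset.Ico (k + 1) (m + 1), (S j).card := by
          rw [hT']
          exact card_biUnion_le
        have h2 : (T.card : ℝ) ≤ ∑ j ∈ Finset.Ico (k + 1) (m + 1), ((S j).card : ℝ) := by exact_mod_cast h1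
        have h3 : ∑ j ∈ Finset.Ico (k + 1) (m + 1), ((S j).card : ℝ) ≤
            ∑ _j ∈ Finset.Ico (k + 1) (m + 1), 2 * δ * X.card := by
          refine Finset.sum_le_sum fun j hj => ?_
          rw [Finset.mem_Ico] at hj
          exact (hS j (by omega)).2.2.2
        rw [Finset.sum_const, Nat.card_Ico, nsmul_eq_mul] at h3
        have h4 : ((m + 1 - (k + 1) : ℕ) : ℝ) ≤ m + 1 := by
          exact_mod_cast (by omega : m + 1 - (k + 1) ≤ m + 1)
        have h5 : ((m + 1 - (k + 1) : ℕ) : ℝ) * (2 * δ * X.card) ≤ (m + 1) * (2 * δ * X.card) :=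
          mul_le_mul_of_nonneg_right h4 (by positivity)
        have h6 : (m + 1 : ℝ) * (2 * δ * X.card) = 2 * (m + 1) * δ * X.card := by ring
        have h7 : 2 * (m + 1) * δ * X.card ≤ τ / 4 * X.card := mul_le_mul_of_nonneg_right hδτ hX0
        linarith
      have hHc' : (H.card : ℝ) ≤ τ / 4 * X.card := hHc.trans (mul_le_mul_of_nonneg_right hh hX0)
      have hYc : (P.card : ℝ) ≤ Y.card + H.card + T.card := by
        have h1 : P ⊆ Y ∪ (H ∪ T) := by
          intro a ha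
          rw [hY]
          by_cases h2 : a ∈ H ∪ T
          · exact mem_union_right _ h2
          · exact mem_union_left _ (mem_sdiff.2 ⟨ha, h2⟩)
        have h2 := (card_le_card h1).trans (card_union_le _ _)
        have h3 := card_union_le H T
        have h4 : P.card ≤ Y.card + H.card + T.card := by omega
        exact_mod_cast h4
      have hPc : (P.card : ℝ) ≤ X.card := by exact_mod_cast card_le_card hPX
      have hi0 : (0 : ℝ) ≤ isz L := Nat.cast_nonneg _
      have hY1 : (q.2.size + 1 : ℝ) + τ / 2 * X.card ≤ Y.card := by linarith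
      have hsz0 : (0 : ℝ) ≤ q.2.size := Nat.cast_nonneg _
      have hτX : 0 ≤ τ * X.card := by positivity
      -- the light item
      have hin : In R q.2 (R q.1) Y := by
        have hm₁ : m₁ ≤ Y.card := by
          have h1 : (m₁ : ℝ) ≤ Y.card := by linarith
          exact_mod_cast h1
        obtain ⟨𝓕', -, -, h2⟩ := hlight hT Y q.1 hm₁ hgood
        have h3 := h2 Y Subset.rfl (by
          have h4 : Y \ Y = ∅ := sdiff_self
          rw [h4, card_empty, Nat.cast_zero]
          positivity)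
        refine h3 Y Subset.rfl hm₁ ?_ q.2 hq1 hq2 ?_ ?_
        · intro F _
          have h4 : ((F ∩ Y).card : ℝ) / Y.card * Y.card ≤ (F ∩ Y).card := by
            rcases Nat.eq_zero_or_pos Y.card with h5 | h5
            · rw [h5]
              simp
            · have h6 : (0 : ℝ) < Y.card := by exact_mod_cast h5
              rw [div_mul_cancel₀ _ h6.ne']
          have h5 : 0 ≤ ε₀ * (Y.card : ℝ) := by positivity
          rw [sub_mul]
          linarith
        · rw [one_mul]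
          have h4 : (q.2.size + 1 : ℝ) ≤ X.card := by linarith
          have h5 : η * (q.2.size + 1 : ℝ) ≤ τ / 64 * X.card :=
            mul_le_mul hητ h4 (by linarith) (by linarith)
          have h6 : η * X.card ≤ 1 / 20 * X.card := mul_le_mul_of_nonneg_right hη1 hX0
          have h7 : (1 - 8 * η) * ((q.2.size + 1 : ℝ) + τ / 2 * X.card) ≤ (1 - 8 * η) * Y.card :=
            mul_le_mul_of_nonneg_left hY1 (by linarith)
          have h8 : η * (τ * X.card) ≤ 1 / 20 * (τ * X.card) := mul_le_mul_of_nonneg_right hη1 hτX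
          have h9 : (1 - 8 * η) * ((q.2.size + 1 : ℝ) + τ / 2 * X.card) =
            (q.2.size + 1 : ℝ) - 8 * (η * (q.2.size + 1 : ℝ)) + τ / 2 * X.card - 4 * (η * (τ * X.card)) := by ring
          linarith
        · rw [one_mul]
          have h5 : γ * (τ / 2 * X.card) ≤ γ * Y.card := mul_le_mul_of_nonneg_left (by linarith) hγ.le
          have h6 : γ * (τ / 2 * X.card) = γ * τ / 2 * X.card := by ring
          linarith
      obtain ⟨x, hx, A₁, hA₁, hxA₁, hRx, hemb⟩ := hin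
      have hcard := hemb.card
      obtain ⟨P₂, hP₂⟩ : ∃ P₂, P₂ = P \ insert x A₁ := ⟨_, rfl⟩
      have hiY : insert x A₁ ⊆ Y := insert_subset hx hA₁
      have hYm : ∀ a ∈ Y, a ∈ P ∧ a ∉ H ∧ a ∉ T := by
        intro a ha
        rw [hY, mem_sdiff, mem_union, not_or] at ha
        exact ha
      have hP₂c : P.card = P₂.card + (q.2.size + 1) := by
        have h1 := card_sdiff_add_card_eq_card (hiY.trans hYP)
        rw [← hP₂, card_insert_of_notMem hxA₁, hcard] at h1
        omega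
      obtain ⟨A₂, hA₂P, hA₂, hA₂H, hA₂S⟩ := ih (k + 1) P₂ (by rw [hP₂]; exact sdiff_subset.trans hPX) (by
        intro a ha
        rw [hP₂, mem_sdiff]
        exact ⟨hHP ha, fun h1 => (hYm a (hiY h1)).2.1 ha⟩) (by
        intro j hj1 hj2 a ha
        rw [hP₂, mem_sdiff]
        exact ⟨hSP j (by omega) hj2 ha, fun h1 => (hYm a (hiY h1)).2.2 ((hmT a).2 ⟨j, ⟨hj1, by omega⟩, ha⟩)⟩) (by omega)
        (fun q' hq' => hL q' (List.mem_cons_of_mem _ hq')) (by
        have h1 : (P.card : ℝ) = P₂.card + (q.2.size + 1) := by exact_mod_cast hP₂c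
        linarith)
      refine ⟨insert x A₁ ∪ A₂, union_subset (hiY.trans hYP) (hA₂P.trans (by rw [hP₂]; exact sdiff_subset)),
        ⟨insert x A₁, A₂, ?_, rfl, ⟨x, A₁, hRx, hxA₁, rfl, hemb⟩, hA₂⟩, ?_, ?_⟩
      · rw [disjoint_left]
        intro a ha ha2
        have h1 := hA₂P ha2
        rw [hP₂, mem_sdiff] at h1
        exact h1.2 ha
      · rw [disjoint_union_left]
        refine ⟨?_, hA₂H⟩
        rw [disjoint_left]
        exact fun a ha => (hYm a (hiY ha)).2.1
      · rw [disjoint_union_left]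
        refine ⟨?_, hA₂S⟩
        rw [disjoint_left]
        intro a ha ha2
        exact (hYm a (hiY ha)).2.2 ((hmT a).2 ⟨m, by omega, ha2⟩)
  obtain ⟨A, hAP, hA, hAH, hAS⟩ := key L 0 P hPX hHP (fun j _ hj => hSP j hj) (by omega) hL (by linarith)
  have hAc := hA.card
  obtain ⟨P', hP'⟩ : ∃ P', P' = P \ A := ⟨_, rfl⟩
  have hPc : (P.card : ℝ) = P'.card + AEB.isz L := by
    have h1 := card_sdiff_add_card_eq_card hAP
    rw [← hP', hAc] at h1
    exact_mod_cast h1.symm
  obtain ⟨x, hx, A₁, hA₁, hxA₁, hRx, hemb⟩ := hbox P' (by rw [hP']; exact sdiff_subset) (by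
    intro a ha
    rw [hP', mem_sdiff]
    exact ⟨hHP ha, fun h1 => disjoint_left.1 hAH h1 ha⟩) (by
    intro a ha
    rw [hP', mem_sdiff]
    exact ⟨hSP m le_rfl ha, fun h1 => disjoint_left.1 hAS h1 ha⟩) (by linarith)
  have hiP : insert x A₁ ⊆ P' := insert_subset hx hA₁
  refine ⟨insert x A₁ ∪ A, union_subset (hiP.trans (by rw [hP']; exact sdiff_subset)) hAP, insert x A₁, A, ?_, rfl,
    ⟨x, A₁, hRx, hxA₁, rfl, hemb⟩, hA⟩
  rw [disjoint_left]
  intro a ha ha2
  have h1 := hiP ha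
  rw [hP', mem_sdiff] at h1
  exact h1.2 ha2

end AER
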