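import Pool.Agent.AER.Sup

/-!
# Rigid ends, general version: hosts fixed in advance, and the structure set
-/

set_option autoImplicit false

namespace AER

open Finset AE15 AED AELT AEB
open scoped Classical

/-- successive vertices of maximal out-degree in a structure set -/
theorem exists_seqG {V : Type} {R : V → V → Prop} (hT : AE32.Tour R) {X G Z₀ : Finset V} {m : ℕ} (hG : G ⊆ X)
    (hm : ∀ u ∈ X, u ∉ G → (nO R G u).card ≤ m) (v₀ : V) (N : ℕ) (hN : N + Z₀.card ≤ G.card) :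
    ∃ x : ℕ → V, ∀ i < N, XD R X G ((range i).image x ∪ Z₀) m (x i) := by
  induction N with
  | zero => exact ⟨fun _ => v₀, fun i hi => absurd hi (Nat.not_lt_zero i)⟩
  | succ N ih =>
    obtain ⟨x, hx⟩ := ih (by omega)
    have hne : (G \ ((range N).image x ∪ Z₀)).Nonempty := by
      rw [← card_pos]
      have h1 := le_card_sdiff ((range N).image x ∪ Z₀) G
      have h2 : ((range N).image x).card ≤ N := by
        simpa using card_image_le (s := range N) (f := x)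
      have h3 := card_union_le ((range N).image x) Z₀
      omega
    obtain ⟨z, hz⟩ := exists_x hT hG hm hne
    refine ⟨Function.update x N z, ?_⟩
    have hcong : ∀ i ≤ N, (range i).image (Function.update x N z) = (range i).image x := by
      intro i hi
      apply image_congr
      intro k hk
      have hk' : k < i := by simpa using hk
      exact Function.update_of_ne (by omega) _ _
    intro i hi
    rw [hcong i (by omega)]
    by_cases h : i = N
    · subst h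
      rw [Function.update_self]
      exact hz
    · rw [Function.update_of_ne h]
      exact hx i (by omega)

/-- a vertex of maximal out-degree in `G \ Z` covers everything, up to a bounded number of vertices -/
theorem covE_of_xdG {V : Type} {R : V → V → Prop} (hT : AE32.Tour R) {p : NP} (hp : p.OK) {X G Z E : Finset V}
    {m N e : ℕ} {x : V} {γ : ℝ} (hG : G ⊆ X) (h : XD R X G Z m x) (hE : E.card ≤ e) (hZN : Z.card ≤ N)
    (hu : 2 * (e + 2 * p.c0 + 2) + N + 2 ≤ p.u0) (hγ : γ * X.card + m < ((nO R (G \ Z) x).card : ℝ))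
    (hJ : ((e + 2 * p.c0 + 1 : ℕ) : ℝ) ≤ γ * X.card) : CovE R p γ X G E x p.u0 := by
  obtain ⟨Nx, hNx⟩ : ∃ Nx, Nx = nO R (G \ Z) x := ⟨_, rfl⟩
  have hNG : Nx ⊆ G := by
    rw [hNx]
    exact nO_sub.trans sdiff_subset
  -- vertices outside `G` have many dominators
  have hout : ∀ u ∈ X, u ∉ G → γ * X.card < ((nI R Nx u).card : ℝ) := by
    intro u hu huG
    have h1 := h.h3 u hu huG
    rw [← hNx] at h1 hγ
    have h2 : ((Nx.card : ℕ) : ℝ) ≤ (nI R Nx u).card + m := by exact_mod_cast h1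
    linarith only [hγ, h2]
  -- vertices with few dominators
  have hfew : ∀ j : ℕ, (j : ℝ) ≤ γ * X.card → ∀ u ∈ X, R u x → (nI R Nx u).card ≤ j → u ∉ Z →
      u ∈ (G \ Z).filter (fun u => R u x ∧ (nI R (nO R (G \ Z) x) u).card ≤ j) := by
    intro j hj u hu hux huj huZ
    have huG : u ∈ G := by
      by_contra huG
      have h1 := hout u hu huG
      have h2 : ((nI R Nx u).card : ℝ) ≤ j := by exact_mod_cast huj
      linarith only [hj, h1, h2]
    rw [mem_filter, mem_sdiff, ← hNx]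
    exact ⟨⟨huG, huZ⟩, hux, huj⟩
  have hcov : ∀ u ∈ X, u ∉ E → R u x →
      u ∉ X.filter (fun u => u ∉ Z ∧ R u x ∧ (nI R Nx u).card ≤ e + 2 * p.c0 + 1) ∪ Z →
      ∃ h ∈ Nx, h ∉ E ∧ R h u ∧ p.c0 ≤ (nI R (X \ E) h).card ∧ p.c ≤ (nI R (G \ E) h).card := by
    intro u hu huE hux huU
    rw [mem_union, not_or] at huU
    have h1 : e + 2 * p.c0 + 1 < (nI R Nx u).card := by
      by_contra hc
      exact huU.1 (mem_filter.2 ⟨hu, huU.2, hux, not_lt.1 hc⟩)
    have h2 : 2 * p.c0 + 1 ≤ (nI R Nx u \ E).card := by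
      have := le_card_sdiff E (nI R Nx u)
      omega
    obtain ⟨v, hv, hv2⟩ := exists_deg_in hT h2
    rw [mem_sdiff, mem_nI] at hv
    have h3 : nI R Nx u \ E ⊆ G \ E := sdiff_subset_sdiff (nI_sub.trans hNG) (Subset.refl _)
    have h4 : G \ E ⊆ X \ E := sdiff_subset_sdiff hG (Subset.refl _)
    exact ⟨v, hv.1.1, hv.2, hv.1.2, hv2.trans (card_le_card (nI_mono (h3.trans h4))),
      (hp.c_le.trans hv2).trans (card_le_card (nI_mono h3))⟩
  refine ⟨Nx, X.filter (fun u => u ∉ Z ∧ R u x ∧ (nI R Nx u).card ≤ e + 2 * p.c0 + 1) ∪ Z, ∅, hNG, ?_, ?_, ?_, ?_, ?_,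
    ?_, ?_⟩
  · intro v hv
    rw [hNx, mem_nO] at hv
    exact hv.2
  · rw [hNx]
    have : (0 : ℝ) ≤ m := Nat.cast_nonneg _
    linarith only [hγ]
  · have h1 : (X.filter (fun u => u ∉ Z ∧ R u x ∧ (nI R Nx u).card ≤ e + 2 * p.c0 + 1)).card ≤
        2 * (e + 2 * p.c0 + 1) := by
      refine (card_le_card (t := (G \ Z).filter (fun u => R u x ∧
        (nI R (nO R (G \ Z) x) u).card ≤ e + 2 * p.c0 + 1)) ?_).trans (h.h2 _)
      intro u hu
      rw [mem_filter] at hu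
      exact hfew _ hJ u hu.1 hu.2.2.1 hu.2.2.2 hu.2.1
    have h2 := card_union_le (X.filter (fun u => u ∉ Z ∧ R u x ∧ (nI R Nx u).card ≤ e + 2 * p.c0 + 1)) Z
    omega
  · simp
  · intro j hj
    have h1 : (nI R X x).filter (fun u => (nI R Nx u).card ≤ j) ⊆
        (G \ Z).filter (fun u => R u x ∧ (nI R (nO R (G \ Z) x) u).card ≤ j) ∪ Z := by
      intro u hu
      rw [mem_filter, mem_nI] at hu
      rw [mem_union]
      by_cases huZ : u ∈ Z
      · exact Or.inr huZ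
      · exact Or.inl (hfew j hj u hu.1.1 hu.1.2 hu.2 huZ)
    have h2 := (card_le_card h1).trans (card_union_le _ _)
    have h3 := h.h2 j
    omega
  · intro u hu huE hux _ huU
    obtain ⟨v, h1, h2, h3, h4, _⟩ := hcov u hu huE hux huU
    exact ⟨v, h1, h2, h3, h4⟩
  · intro u hu huE hux _ huU _
    exact hcov u hu huE hux huU

/-- **Hosts fixed in advance, and the structure set.** -/
theorem exists_hostsG (p : NP) (hp : p.OK) (N e M' : ℕ) (hN : 1 ≤ N)
    (hu : 2 * (e + 2 * p.c0 + 2) + N + 2 + 4 * M' ≤ p.u0)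
    {δ h ε₀ : ℝ} (hδ : 0 < δ) (hδ1 : δ ≤ 1) (hh : 0 < h) (hε : 0 < ε₀) : ∃ D₁ : ℕ, ∀ D : ℕ, D₁ ≤ D →
      ∀ {ω c η η₁ κ₀ κ₁ κ γ₀ τ s σ₂ μ : ℝ}, KB D ω c η η₁ κ₀ κ₁ κ γ₀ τ s σ₂ μ → η ≤ ε₀ ∧
        ∃ (γ γ₂ ν : ℝ) (n₀ : ℕ), 0 < γ ∧ 0 < γ₂ ∧ γ₂ ≤ ε₀ ∧ 0 < ν ∧ ∀ {V : Type} {R : V → V → Prop}, AE32.Tour R →
          ∀ X : Finset V, n₀ ≤ X.card → ∃ (x : ℕ → V) (G : Finset V), G ⊆ X ∧ γ₂ * X.card ≤ G.card ∧
            (∀ u ∈ X, u ∉ G → 16 * (nO R G u).card ≤ G.card) ∧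
            (∀ i < N, x i ∈ G ∧ M' ≤ (nI R G (x i)).card) ∧ (∀ i < N, ∀ j < N, x i = x j → i = j) ∧
            ∀ E ⊆ X, E.card ≤ e → ∃ (𝓕 : Finset (Finset V)) (H : Finset V) (Nx : ℕ → Finset V),
              𝓕.card ≤ 16 * N * X.card ^ 2 ∧ H ⊆ X ∧ Disjoint H E ∧ (H.card : ℝ) ≤ h * X.card ∧
              (∀ i < N, x i ∈ E → Host R p κ η s γ δ ν X E 𝓕 H (x i) (Nx i)) ∧
              (∀ g ∈ G, ∀ S P : Finset V, S ⊆ P → P ⊆ X → Rep (X \ (E ∪ H)) 𝓕 ν S → δ * X.card ≤ (S.card : ℝ) →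
                Good R κ η P g) ∧
              (∀ z ∈ X, γ₂ / 4 * X.card ≤ (nI R G z).card → ∀ S : Finset V, Rep (X \ (E ∪ H)) 𝓕 ν S →
                δ * X.card ≤ (S.card : ℝ) → s * X.card ≤ ((nI R G z ∩ S).card : ℝ)) ∧
              ∀ z ∈ X, γ₂ / 4 * X.card ≤ (nO R G z).card → ∀ S : Finset V, Rep (X \ (E ∪ H)) 𝓕 ν S →
                δ * X.card ≤ (S.card : ℝ) → s * X.card ≤ ((nO R G z ∩ S).card : ℝ) := by
  obtain ⟨D₁, hD₁⟩ := kb_small hδ hε
  refine ⟨D₁, fun D hD {ω c η η₁ κ₀ κ₁ κ γ₀ τ s σ₂ μ} P => ?_⟩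
  obtain ⟨q1, q2, q3⟩ := hD₁ D hD P
  obtain ⟨hω0, hω1, hc0, hc1, hη0, hη1, hη₁0, hη₁1, hκ₀0, hκ₁0, hκ₁1, hκ0, hκ1, hs0, hγ₀0, hτ0, hσ₂0, hμ0, hκ₁η, hκs⟩ :=
    P.num
  clear P hD₁ hκ₁η hκs hκ₁1 hκ1 hη₁1 hω0 hω1 hc0 hc1 hη₁0 hκ₀0 hκ₁0 hγ₀0 hτ0 hσ₂0 hμ0
  refine ⟨q1, ?_⟩
  obtain ⟨a, ha⟩ : ∃ a : ℝ, a = δ * η / 4 := ⟨_, rfl⟩
  obtain ⟨k, hk⟩ : ∃ k : ℝ, k = (a / 64) ^ 2 / 4 := ⟨_, rfl⟩
  rw [← ha, ← hk] at q2
  rw [← ha] at q3
  obtain ⟨w, hw⟩ : ∃ w : ℝ, w = (1 + p.c0 + p.c : ℝ) := ⟨_, rfl⟩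
  have hw1 : 1 ≤ w := by
    rw [hw]
    have h1 : (0 : ℝ) ≤ p.c0 := Nat.cast_nonneg _
    have h2 : (0 : ℝ) ≤ p.c := Nat.cast_nonneg _
    linarith only []
  have hN1 : (1 : ℝ) ≤ N := by exact_mod_cast hN
  have ha0 : 0 < a := by rw [ha]; positivity
  have ha1 : a ≤ 1 := by
    rw [ha]
    have : δ * η ≤ 1 * η := mul_le_mul_of_nonneg_right hδ1 hη0.le
    linarith only [hη1, this]
  have hk0 : 0 < k := by rw [hk]; positivity
  have hka : k ≤ a / 64 := by
    rw [hk, pow_two]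
    have : a / 64 * (a / 64) ≤ 1 * (a / 64) := mul_le_mul_of_nonneg_right (by linarith only [hη0, hη1, ha1]) (by positivity)
    linarith only [hk, hk0, this]
  obtain ⟨g, hg⟩ : ∃ g : ℝ, g = min (min h (k / 8)) (a / 64) := ⟨_, rfl⟩
  have hg0 : 0 < g := by rw [hg]; positivity
  have hgh : g ≤ h := by rw [hg]; exact (min_le_left _ _).trans (min_le_left _ _)
  have hgk : g ≤ k / 8 := by rw [hg]; exact (min_le_left _ _).trans (min_le_right _ _)
  have hga : g ≤ a / 64 := by rw [hg]; exact min_le_right _ _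
  obtain ⟨σ, hσ⟩ : ∃ σ : ℝ, σ = min (min (a / 8) k) (g / (3 * N * w)) := ⟨_, rfl⟩
  have hσ0 : 0 < σ := by rw [hσ]; positivity
  have hσa : σ ≤ a / 8 := by rw [hσ]; exact (min_le_left _ _).trans (min_le_left _ _)
  have hσk : σ ≤ k := by rw [hσ]; exact (min_le_left _ _).trans (min_le_right _ _)
  have hσg : 3 * w * σ * N ≤ g := by
    have h1 : σ ≤ g / (3 * N * w) := by rw [hσ]; exact min_le_right _ _
    rw [le_div_iff₀ (by positivity)] at h1
    linarith only [h1]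
  obtain ⟨ν, hν⟩ : ∃ ν : ℝ, ν = δ * σ / 8 := ⟨_, rfl⟩
  have hν0 : 0 < ν := by rw [hν]; positivity
  have hνσ : ν ≤ σ / 8 := by
    rw [hν]
    have : δ * σ ≤ 1 * σ := mul_le_mul_of_nonneg_right hδ1 hσ0.le
    linarith only [this]
  obtain ⟨M, hM⟩ : ∃ M : ℕ, M = 64 * (e + (N + 2 * M') + p.c0 + p.c1 + p.u0 + p.g + 2) := ⟨_, rfl⟩
  refine ⟨a / 32, a / 2, ν, ⌈M / ν⌉₊ + 1, by positivity, by positivity, ?_, hν0, ?_⟩
  · rw [ha]
    have h1 : δ * η ≤ 1 * η := mul_le_mul_of_nonneg_right hδ1 hη0.le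
    linarith only [hε, q1, h1]
  intro V R hT X hX
  obtain ⟨n, hn⟩ : ∃ n : ℝ, n = (X.card : ℝ) := ⟨_, rfl⟩
  have hX1 : 1 ≤ X.card := by omega
  have hn1 : 1 ≤ n := by rw [hn]; exact_mod_cast hX1
  have hMn : (M : ℝ) ≤ ν * n := by
    have h1 : (M : ℝ) / ν ≤ n := by
      rw [hn]
      exact (Nat.le_ceil _).trans (by exact_mod_cast (by omega : ⌈(M : ℝ) / ν⌉₊ ≤ X.card))
    rw [div_le_iff₀ hν0] at h1
    linarith only [h1]
  have hMr : (M : ℝ) = 64 * (e + (N + 2 * M') + p.c0 + p.c1 + p.u0 + p.g + 2) := by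
    rw [hM]
    push_cast
    ring
  have z6 : (0 : ℝ) ≤ M' := Nat.cast_nonneg _
  have z1 : (0 : ℝ) ≤ e := Nat.cast_nonneg _
  have z2 : (0 : ℝ) ≤ p.c0 := Nat.cast_nonneg _
  have z3 : (0 : ℝ) ≤ p.c1 := Nat.cast_nonneg _
  have z4 : (0 : ℝ) ≤ p.u0 := Nat.cast_nonneg _
  have z5 : (0 : ℝ) ≤ p.g := Nat.cast_nonneg _
  have hνn : ν * n ≤ k / 8 * n := mul_le_mul_of_nonneg_right (by linarith only [hσk, hνσ]) (by linarith only [hn1])
  have hνa : ν * n ≤ a / 512 * n := mul_le_mul_of_nonneg_right (by linarith only [hka, hσk, hνσ]) (by linarith only [hn1])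
  -- the structure set
  obtain ⟨G, hGX, hG1, hG2, hG3⟩ := structure_lemma hT X (η := a) (κ₀ := a / 64) (by positivity) (by linarith only [hη0, hη1, ha1]) ha1 (by
    rw [← hn]
    linarith only [hN1, hMn, hMr, hνa])
  rw [← hk] at hG2
  rw [← hn] at hG1 hG3
  obtain ⟨m, hm⟩ : ∃ m : ℕ, m = ⌊2 * (a / 64) * n⌋₊ := ⟨_, rfl⟩
  have hmn : (m : ℝ) ≤ a / 32 * n := by
    have h1 : (m : ℝ) ≤ 2 * (a / 64) * n := by
      rw [hm]
      exact Nat.floor_le (by positivity)
    linarith only [h1]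
  have hm' : ∀ u ∈ X, u ∉ G → (nO R G u).card ≤ m := by
    intro u hu huG
    rw [hm]
    exact Nat.le_floor (hG3 u hu huG).le
  have hGc : 59 / 64 * a * n ≤ (G.card : ℝ) := by
    have : (a - 5 * (a / 64)) * n = 59 / 64 * a * n := by ring
    linarith only [hG1]
  have han : 0 < a * n := by positivity
  obtain ⟨Z₀, hZ₀⟩ : ∃ Z₀ : Finset V, Z₀ = G.filter (fun v => (nI R G v).card < M') := ⟨_, rfl⟩
  have hZ₀c : Z₀.card ≤ 2 * M' := by
    rw [hZ₀]
    exact card_lowin hT G M'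
  have hNG : N + Z₀.card ≤ G.card := by
    have h1 : ((N + 2 * M' : ℕ) : ℝ) ≤ G.card := by
      push_cast
      linarith only [hN1, hMn, hMr, hνa, hG1]
    have h2 : N + 2 * M' ≤ G.card := by exact_mod_cast h1
    omega
  obtain ⟨v₀, hv₀⟩ : X.Nonempty := card_pos.1 (by omega)
  obtain ⟨x, hx⟩ := exists_seqG hT hGX hm' v₀ N hNG
  refine ⟨x, G, hGX, ?_, ?_, ?_, ?_, ?_⟩
  · rw [← hn]
    linarith only [hN1, hMn, hMr, hνa, hG1]
  · intro u hu huG
    have h1 := (hG3 u hu huG).le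
    have h2 : ((16 * (nO R G u).card : ℕ) : ℝ) ≤ G.card := by
      push_cast
      have h3 : 2 * (a / 64) * n = 1 / 32 * (a * n) := by ring
      have h4 : 59 / 64 * a * n = 59 / 64 * (a * n) := by ring
      linarith only [hN1, hMn, hMr, hνa, hG1, h1]
    exact_mod_cast h2
  · intro i hi
    have h1 := mem_sdiff.1 (hx i hi).hx
    refine ⟨h1.1, ?_⟩
    by_contra h2
    refine h1.2 (mem_union_right _ ?_)
    rw [hZ₀]
    exact mem_filter.2 ⟨h1.1, not_le.1 h2⟩
  · have key : ∀ i < N, ∀ j < N, i < j → x i ≠ x j := by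
      intro i _ j hj hij h1
      have h2 := (mem_sdiff.1 (hx j hj).hx).2
      exact h2 (mem_union_left _ (mem_image.2 ⟨i, mem_range.2 hij, h1⟩))
    intro i hi j hj h1
    rcases lt_trichotomy i j with h2 | h2 | h2
    · exact absurd h1 (key i hi j hj h2)
    · exact h2
    · exact absurd h1.symm (key j hj i hi h2)
  intro E hE hEe
  have hEr : (E.card : ℝ) ≤ e := by exact_mod_cast hEe
  have hcov : ∀ i < N, CovE R p (a / 8) X G E (x i) p.u0 := by
    intro i hi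
    have hZ : ((range i).image x ∪ Z₀).card ≤ N + 2 * M' := by
      have h1 : ((range i).image x).card ≤ i := by simpa using card_image_le (s := range i) (f := x)
      have h2 := card_union_le ((range i).image x) Z₀
      omega
    refine covE_of_xdG (N := N + 2 * M') (e := e) hT hp hGX (hx i hi) hEe hZ (by omega) ?_ ?_
    · have h1 := (hx i hi).h4
      have h2 := le_card_sdiff ((range i).image x ∪ Z₀) G
      have h3 : G.card ≤ 2 * (nO R (G \ ((range i).image x ∪ Z₀)) (x i)).card + 1 + (N + 2 * M') := by omega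
      have h4 : (G.card : ℝ) ≤ 2 * (nO R (G \ ((range i).image x ∪ Z₀)) (x i)).card + 1 + (N + 2 * M') := by
        exact_mod_cast h3
      rw [← hn]
      linarith only [hN1, hMn, hMr, hνa, hG1, hmn, h4]
    · rw [← hn]
      push_cast
      linarith only [hN1, hMn, hMr, hνa]
  have key : ∀ i, ∃ (𝓕 : Finset (Finset V)) (H Nx : Finset V), (𝓕.card ≤ 8 * X.card ^ 2 ∧ H ⊆ X ∧
      Disjoint H E ∧ (H.card : ℝ) ≤ 3 * (1 + p.c0 + p.c) * σ * X.card ∧ Nx ⊆ G) ∧ (i < N → x i ∈ E →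
      (∀ v ∈ Nx, R (x i) v) ∧ a / 8 * X.card ≤ Nx.card ∧
      ∀ A Q P : Finset V, A ⊆ X → (X.card : ℝ) ≤ 2 * A.card → Q ⊆ A → Rep A 𝓕 ν Q →
        δ * A.card ≤ Q.card → P ⊆ X → Disjoint P E → Q ⊆ P → H ⊆ P → (((X \ A) \ P).card : ℝ) ≤ ν * X.card →
        ClB R (Good R κ η P) s p p.u0 P (R (x i))) := by
    intro i
    by_cases hi : i < N ∧ x i ∈ E
    · obtain ⟨𝓕, H, Nx, k1, k2, k3, k4, k5, k6⟩ := host_data (κ := κ) (η := η) (s := s) (σ := σ) (δ := ν) (ν := ν)
        (c := δ) hT hp hGX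
        hG2 (hcov i hi.1) hi.2 (card_pos.1 (by omega)) hκ0 hη0 hk0 ha0 hσ0 hν0.le hν0 hδ hδ1 hσa (by linarith only [hν, hν0])
        hσk (by linarith only [hκ0, q2]) (by rw [ha]; have := mul_pos hδ hη0; linarith only [ha, hka, hg0, hgk]) hs0 (by linarith only [q3]) (by
          rw [← hn]
          have h1 : δ * σ * n = 8 * (ν * n) := by rw [hν]; ring
          linarith only [hN1, hMn, hMr, h1])
      exact ⟨𝓕, H, Nx, ⟨k1, k2, k3, k4, k5⟩, fun _ _ => k6⟩
    · refine ⟨∅, ∅, ∅, ⟨?_, empty_subset _, disjoint_empty_left _, ?_, empty_subset _⟩, fun h1 h2 => absurd ⟨h1, h2⟩ hi⟩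
      · simp
      · rw [card_empty, ← hw, ← hn]
        have : 0 ≤ 3 * w * σ * n := by positivity
        simpa using this
  choose 𝓕i Hi Ni hkey using key
  obtain ⟨FF, hF1, hF2, hF3⟩ := exists_family R k a X
  obtain ⟨H, hH⟩ : ∃ H, H = (range N).biUnion Hi := ⟨_, rfl⟩
  obtain ⟨𝓖, h𝓖⟩ : ∃ 𝓖, 𝓖 = X.image (nI R G) ∪ X.image (nO R G) := ⟨_, rfl⟩
  obtain ⟨𝓕, h𝓕⟩ : ∃ 𝓕, 𝓕 = ((FF ∪ (range N).biUnion 𝓕i) ∪ (range N).image Ni) ∪ 𝓖 := ⟨_, rfl⟩
  have hHX : H ⊆ X := by
    rw [hH]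
    intro v hv
    obtain ⟨i, hi, hv⟩ := mem_biUnion.1 hv
    exact (hkey i).1.2.1 hv
  have hHE : Disjoint H E := by
    rw [hH, disjoint_biUnion_left]
    intro i hi
    exact (hkey i).1.2.2.1
  have hHc : (H.card : ℝ) ≤ g * n := by
    have h1 : H.card ≤ ∑ i ∈ range N, (Hi i).card := by
      rw [hH]
      exact card_biUnion_le
    have h2 : (H.card : ℝ) ≤ ∑ i ∈ range N, ((Hi i).card : ℝ) := by exact_mod_cast h1
    have h3 : ∑ i ∈ range N, ((Hi i).card : ℝ) ≤ ∑ _i ∈ range N, 3 * w * σ * n := by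
      apply sum_le_sum
      intro i hi
      have h4 := (hkey i).1.2.2.2.1
      rw [← hw, ← hn] at h4
      exact h4
    rw [sum_const, card_range, nsmul_eq_mul] at h3
    have h5 : 3 * w * σ * N * n ≤ g * n := mul_le_mul_of_nonneg_right hσg (by linarith only [hn1])
    linarith only [h2, h3, h5]
  have hBc : ((E ∪ H).card : ℝ) ≤ (g + ν) * n := by
    have h1 : ((E ∪ H).card : ℝ) ≤ E.card + H.card := by exact_mod_cast card_union_le _ _
    linarith only [hN1, hMn, hMr, hEr, hHc, h1]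
  have hBX : E ∪ H ⊆ X := union_subset hE hHX
  have hgoodG : ∀ S P : Finset V, S ⊆ P → P ⊆ X → Rep (X \ (E ∪ H)) 𝓕 ν S → δ * X.card ≤ (S.card : ℝ) →
      ∀ g ∈ G, Good R κ η P g := by
    intro S P hSP hP hS hSc v hv
    have hSP' : (S.card : ℝ) ≤ P.card := by exact_mod_cast card_le_card hSP
    have hPX : (P.card : ℝ) ≤ n := by rw [hn]; exact_mod_cast card_le_card hP
    rw [← hn] at hSc
    refine hF3 P hP κ η ?_ ?_ v (hGX hv) (hG2 v hv)
    · intro F hF hFc
      rw [← hn] at hFc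
      have hF' : F ∈ 𝓕 := by
        rw [h𝓕]
        exact mem_union_left _ (mem_union_left _ (mem_union_left _ hF))
      have h1 := rep_meet' hS hF' (hF2 F hF) hX1
      rw [← hn] at h1
      have h2 : k / 2 ≤ ((F.card : ℝ) - (E ∪ H).card) / n - ν := by
        have h3 : k / 2 + ν ≤ ((F.card : ℝ) - (E ∪ H).card) / n := by
          rw [le_div_iff₀ (by linarith only [hn1])]
          have h4 : (g + ν) * n ≤ (k / 8 + k / 8) * n := mul_le_mul_of_nonneg_right (by linarith only [hgk, hσk, hνσ]) (by linarith only [hn1])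
          have h5 : (k / 2 + ν) * n ≤ (k / 2 + k / 8) * n := mul_le_mul_of_nonneg_right (by linarith only [hσk, hνσ]) (by linarith only [hn1])
          have h6 : 0 ≤ k * n := mul_nonneg hk0.le (by linarith only [hn1])
          linarith only [hN1, hMn, hMr, hνn, hBc, hFc, h4]
        linarith only [h3]
      have h3 : k / 2 * S.card ≤ ((F ∩ S).card : ℝ) :=
        (mul_le_mul_of_nonneg_right h2 (Nat.cast_nonneg _)).trans h1
      have h4 : ((F ∩ S).card : ℝ) ≤ (F ∩ P).card := by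
        exact_mod_cast card_le_card (inter_subset_inter (Subset.refl _) hSP)
      have h5 : k / 2 * (δ * n) ≤ k / 2 * S.card := mul_le_mul_of_nonneg_left hSc (by linarith only [hg0, hgk])
      have h6 : κ * P.card ≤ κ * n := mul_le_mul_of_nonneg_left hPX hκ0.le
      have h7 : κ * n ≤ δ * k / 4 * n := mul_le_mul_of_nonneg_right q2 (by linarith only [hn1])
      have h8 : 0 ≤ δ * k * n := mul_nonneg (mul_nonneg hδ.le hk0.le) (by linarith only [hn1])
      linarith only [h3, h4, h5, h6, h7]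
    · intro F hF hFc
      rw [← hn] at hFc
      have h1 : ((F ∩ P).card : ℝ) ≤ F.card := by exact_mod_cast card_le_card inter_subset_left
      have h2 : a * n ≤ η * (δ * n) := by
        have h3 : a * n = η * (δ * n) / 4 := by rw [ha]; ring
        have h4 : 0 ≤ η * (δ * n) := by positivity
        linarith only [hη0, hη1, hN1, hMn, hMr, hνa, h3]
      have h3 : η * (δ * n) ≤ η * P.card := mul_le_mul_of_nonneg_left (hSc.trans hSP') hη0.le
      linarith only [hFc, h1, h2, h3]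
  have hmeet : ∀ F ∈ 𝓖, F ⊆ X → a / 2 / 4 * X.card ≤ (F.card : ℝ) → ∀ S : Finset V,
      Rep (X \ (E ∪ H)) 𝓕 ν S → δ * X.card ≤ (S.card : ℝ) → s * X.card ≤ ((F ∩ S).card : ℝ) := by
    intro F hF hFX hFc S hS hSc
    have hF' : F ∈ 𝓕 := by
      rw [h𝓕]
      exact mem_union_right _ hF
    have h1 := rep_meet' hS hF' hFX hX1
    rw [← hn] at h1 hFc hSc ⊢
    have h2 : a / 32 ≤ ((F.card : ℝ) - (E ∪ H).card) / n - ν := by
      have h3 : a / 32 + ν ≤ ((F.card : ℝ) - (E ∪ H).card) / n := by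
        rw [le_div_iff₀ (by linarith only [hn1])]
        have h4 : (g + ν) * n ≤ (a / 64 + a / 512) * n := mul_le_mul_of_nonneg_right (by linarith only [hka, hgk, hσa, hνσ]) (by linarith only [hn1])
        have h5 : (a / 32 + ν) * n ≤ (a / 32 + a / 512) * n := mul_le_mul_of_nonneg_right (by linarith only [hka, hσk, hνσ]) (by linarith only [hn1])
        linarith only [hN1, hMn, hMr, hνa, hBc, hFc, h4]
      linarith only [h3]
    have h3 : a / 32 * S.card ≤ ((F ∩ S).card : ℝ) :=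
      (mul_le_mul_of_nonneg_right h2 (Nat.cast_nonneg _)).trans h1
    have h4 : a / 32 * (δ * n) ≤ a / 32 * S.card := mul_le_mul_of_nonneg_left hSc (by positivity)
    have h5 : s * n ≤ δ * (a / 8) / 4 * n := mul_le_mul_of_nonneg_right q3 (by linarith only [hn1])
    have h6 : δ * (a / 8) / 4 * n = a / 32 * (δ * n) := by ring
    linarith only [h3, h4, h5]
  refine ⟨𝓕, H, Ni, ?_, hHX, hHE, ?_, ?_, ?_, ?_, ?_⟩
  · rw [h𝓕]
    have h1 : ((range N).biUnion 𝓕i).card ≤ N * (8 * X.card ^ 2) := by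
      have h2 := card_biUnion_le (s := range N) (t := 𝓕i)
      have h3 : ∑ i ∈ range N, (𝓕i i).card ≤ ∑ _i ∈ range N, 8 * X.card ^ 2 :=
        sum_le_sum fun i _ => (hkey i).1.1
      rw [sum_const, card_range, smul_eq_mul] at h3
      exact h2.trans h3
    have h2 : ((range N).image Ni).card ≤ N := by
      simpa using card_image_le (s := range N) (f := Ni)
    have h3 := card_union_le (FF ∪ (range N).biUnion 𝓕i) ((range N).image Ni)
    have h8 := card_union_le ((FF ∪ (range N).biUnion 𝓕i) ∪ (range N).image Ni) 𝓖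
    have h9 : 𝓖.card ≤ X.card + X.card := by
      rw [h𝓖]
      exact (card_union_le _ _).trans (Nat.add_le_add card_image_le card_image_le)
    have h4 := card_union_le FF ((range N).biUnion 𝓕i)
    have h5 : X.card * (X.card + 1) + N * (8 * X.card ^ 2) + N + (X.card + X.card) ≤ 16 * N * X.card ^ 2 := by
      have h6 : X.card * (X.card + 1) ≤ 2 * (1 * X.card ^ 2) := by
        have t1 := Nat.mul_le_mul_left X.card hX1
        rw [pow_two]
        linarith only [t1]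
      have h7 : 1 * X.card ^ 2 ≤ N * X.card ^ 2 := Nat.mul_le_mul_right _ hN
      have h8 : N * 1 ≤ N * X.card ^ 2 := Nat.mul_le_mul_left _ (Nat.one_le_pow _ _ hX1)
      have h10 : X.card + X.card ≤ 2 * (1 * X.card ^ 2) := by
        have t1 := Nat.mul_le_mul_left X.card hX1
        rw [pow_two]
        linarith only [h6]
      linarith only [hX, h6, h7, h8]
    omega
  · have h1 : g * n ≤ h * n := mul_le_mul_of_nonneg_right hgh (by linarith only [hn1])
    rw [← hn]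
    linarith only [hHc, h1]
  · intro i hi hxi
    obtain ⟨⟨k1, k2, k3, k4, k5⟩, k⟩ := hkey i
    obtain ⟨k6, k7, k8⟩ := k hi hxi
    have hNm : Ni i ∈ 𝓕 := by
      rw [h𝓕]
      exact mem_union_left _ (mem_union_right _ (mem_image_of_mem _ (mem_range.2 hi)))
    have hnn : (0 : ℝ) < X.card := by rw [← hn]; linarith only [hn1]
    refine ⟨k5.trans hGX, k6, ?_, ?_, ?_⟩
    · intro S hS
      refine le_trans (mul_le_mul_of_nonneg_right ?_ (Nat.cast_nonneg _)) (rep_meet' hS hNm (k5.trans hGX) hX1)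
      rw [← hn] at k7 ⊢
      have h1 : a / 32 + ν ≤ (((Ni i).card : ℝ) - (E ∪ H).card) / n := by
        rw [le_div_iff₀ (by linarith only [hn1])]
        have h2 : (g + ν) * n ≤ (a / 64 + a / 512) * n := mul_le_mul_of_nonneg_right (by linarith only [hka, hgk, hσa, hνσ]) (by linarith only [hn1])
        have h3 : (a / 32 + ν) * n ≤ (a / 32 + a / 512) * n := mul_le_mul_of_nonneg_right (by linarith only [hka, hσk, hνσ]) (by linarith only [hn1])
        linarith only [hN1, hMn, hMr, hνa, hBc, k7, h2]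
      linarith only [h1]
    · intro S P hSP hP hS hSc v hv
      exact hgoodG S P hSP hP hS hSc v (k5 hv)
    · intro S P hSA hSP hHP hP hPE hS hSc
      have h𝓕i : 𝓕i i ⊆ 𝓕 := by
        rw [h𝓕]
        intro F hF
        exact mem_union_left _ (mem_union_left _ (mem_union_right _ (mem_biUnion.2 ⟨i, mem_range.2 hi, hF⟩)))
      have hA1 : X.card ≤ (X \ (E ∪ H)).card + (E ∪ H).card := by
        have := le_card_sdiff (E ∪ H) X
        omega
      have hA2 : (X.card : ℝ) ≤ (X \ (E ∪ H)).card + (E ∪ H).card := by exact_mod_cast hA1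
      refine k8 (X \ (E ∪ H)) S P sdiff_subset ?_ hSA (fun F hF => hS F (h𝓕i hF)) ?_ hP hPE hSP ?_ ?_
      · rw [← hn] at hA2 ⊢
        have h2 : (g + ν) * n ≤ 1 / 4 * n := mul_le_mul_of_nonneg_right (by linarith only [hη0, hη1, ha1, hka, hgk, hσa, hνσ]) (by linarith only [hn1])
        linarith only [hη0, hη1, hN1, hMn, hMr, hHc, hBc, hA2, h2]
      · refine le_trans (mul_le_mul_of_nonneg_left ?_ hδ.le) hSc
        exact_mod_cast card_le_card sdiff_subset
      · refine Subset.trans ?_ hHP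
        rw [hH]
        exact subset_biUnion_of_mem Hi (mem_range.2 hi)
      · have h1 : (X \ (X \ (E ∪ H))) \ P ⊆ E := by
          intro v hv
          rw [mem_sdiff, mem_sdiff, mem_sdiff] at hv
          by_contra hvE
          refine hv.2 (hHP ?_)
          have h2 : v ∈ E ∪ H := by
            by_contra h3
            exact hv.1.2 ⟨hv.1.1, h3⟩
          rcases mem_union.1 h2 with h3 | h3
          · exact absurd h3 hvE
          · exact h3
        have h2 : ((((X \ (X \ (E ∪ H))) \ P).card : ℕ) : ℝ) ≤ E.card := by exact_mod_cast card_le_card h1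
        rw [← hn]
        linarith only [hN1, hMn, hMr, hEr, h2]
  · intro v hv S P hSP hP hS hSc
    exact hgoodG S P hSP hP hS hSc v hv
  · intro z hz hzc S hS hSc
    refine hmeet _ ?_ (nI_sub.trans hGX) hzc S hS hSc
    rw [h𝓖]
    exact mem_union_left _ (mem_image_of_mem _ hz)
  · intro z hz hzc S hS hSc
    refine hmeet _ ?_ (nO_sub.trans hGX) hzc S hS hSc
    rw [h𝓖]
    exact mem_union_right _ (mem_image_of_mem _ hz)

end AER
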