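import Pool.Agent.AER.RouteA
import Pool.Agent.AER.SupG
import Pool.Agent.AER.ItemsG
import Pool.Agent.AEZ.Rest2

/-!
# Rigid ends, general version: the coarse state of a tree with an in-child whose branch is large and rigid

The class theorem is a hypothesis on the heavy branches at the depths `0, …, 3` of the branch, with the same constant `C`.
-/

set_option autoImplicit false

namespace AER

open Finset AE15 AED AELT AEB
open scoped Classical

/-- the tree with children forest `D` can be embedded exactly at every host `x` which is good and has the class property -/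
def HB (p : NP) (κ η s C : ℝ) (D : Fd) : Prop := ∀ {V : Type} {R : V → V → Prop}, AE32.Tour R → ∀ (P : Finset V) (x : V),
  (D.size + 1 : ℝ) + C ≤ P.card → Good R κ η P x → AEB.Cl R (Good R κ η P) s p D P (R x) → In R D (R x) P

theorem HB.of_ee {p : NP} {κ η s C : ℝ} {D : Fd} (h : ∀ {V : Type} {R : V → V → Prop}, AE32.Tour R →
    AEB.EE R κ η s p 1 C D) : HB p κ η s C D := by
  intro V R hT P x hP _ hcl
  exact h hT P (R x) (by linarith) hcl

/-- the hypotheses on the rigid branch (children forest `F` of its root) -/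
structure RigH (b m₀ : ℕ) (γB : ℝ) (p : NP) (κ η s C : ℝ) (F : Fd) : Prop where
  ee : ¬ NN F → ∀ {V : Type} {R : V → V → Prop}, AE32.Tour R → AEB.EE R κ η s p 1 C F
  b0 : NN F → AEB.blk F ≤ m₀
  b1 : ∀ c, NN F → F.hv = some (true, c) → AEB.blk c ≤ m₀
  b2 : ∀ c, NN F → F.hv = some (true, c) → ∀ D, (true, D) ∈ c.trees → AEB.blk D ≤ m₀
  h1 : ∀ c, NN F → F.hv = some (true, c) → HB p κ η s C c
  h2 : ∀ c c', F.hv = some (true, c) → c.hv = some (true, c') → HB p κ η s C c'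
  h3 : ∀ c c' c'', F.hv = some (true, c) → c.hv = some (true, c') → c'.hv = some (true, c'') → HB p κ η s C c''
  it : ∀ {V : Type} {R : V → V → Prop} {y : V} {Z : Finset V} {L : List (V × Fd)}, PE R F y Z L →
    ∀ q ∈ L, (AEB.blk q.2 + 1 : ℝ) ≤ γB * (F.size + 1)

/-- sizes of the heavy branches at the depths `1`, `2`, `3` -/
theorem size_chain {b : ℕ} {τ θ n : ℝ} (hb : 1 ≤ b) (hτ : τ * (2 * (b : ℝ) ^ 3) = θ) (hn : 0 < n) (hθ : 0 < θ)
    (hbig : 2 * (1 + b + b * b) ≤ θ * n) {F c c' : Fd} (hlF : F.len ≤ b) (hlc : c.len ≤ b)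
    (hFn : θ * n ≤ F.size + 1) (hF : F.hv = some (true, c)) (hc : c.hv = some (true, c')) :
    τ * n ≤ c.size + 1 ∧ τ * n ≤ c'.size + 1 ∧ ∀ c'', c'.len ≤ b → c'.hv = some (true, c'') → τ * n ≤ c''.size + 1 := by
  have hb1 : (1 : ℝ) ≤ b := by exact_mod_cast hb
  have h1 := hv_size hF hlF
  have h2 := hv_size hc hlc
  simp only at h1 h2
  have hτ0 : 0 < τ := by
    by_contra h
    push Not at h
    have : τ * (2 * (b : ℝ) ^ 3) ≤ 0 := mul_nonpos_of_nonpos_of_nonneg h (by positivity)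
    linarith
  have hc0 : (0 : ℝ) ≤ c.size := Nat.cast_nonneg _
  have hc'0 : (0 : ℝ) ≤ c'.size := Nat.cast_nonneg _
  have k1 : θ * n / 2 + b * b ≤ b * c.size := by nlinarith
  have k2 : θ * n / 2 ≤ b * (b * c'.size) := by
    have h3 : b * (c.size : ℝ) ≤ b * (b * (c'.size + 1)) := mul_le_mul_of_nonneg_left h2 (by linarith)
    nlinarith
  have e1 : τ * n * (b : ℝ) ^ 3 = θ * n / 2 := by
    rw [← hτ]
    ring
  have hτn : 0 < τ * n := by positivity
  refine ⟨?_, ?_, ?_⟩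
  · have h3 : τ * n * b ≤ τ * n * (b : ℝ) ^ 3 := by
      apply mul_le_mul_of_nonneg_left _ hτn.le
      calc (b : ℝ) = b ^ 1 := (pow_one _).symm
        _ ≤ b ^ 3 := pow_le_pow_right₀ hb1 (by norm_num)
    have h4 : b * (τ * n) ≤ b * (c.size : ℝ) := by nlinarith
    have h5 := le_of_mul_le_mul_left h4 (by linarith : (0 : ℝ) < b)
    linarith
  · have h3 : τ * n * (b * b) ≤ τ * n * (b : ℝ) ^ 3 := by
      apply mul_le_mul_of_nonneg_left _ hτn.le
      calc (b : ℝ) * b = b ^ 2 := by ring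
        _ ≤ b ^ 3 := pow_le_pow_right₀ hb1 (by norm_num)
    have h4 : (b * b) * (τ * n) ≤ (b * b) * (c'.size : ℝ) := by nlinarith
    have h5 := le_of_mul_le_mul_left h4 (by positivity : (0 : ℝ) < b * b)
    linarith
  · intro c'' hl hc''
    have h3 := hv_size hc'' hl
    simp only at h3
    have h4 : b * (b * (c'.size : ℝ)) ≤ b * (b * (b * (c''.size + 1))) :=
      mul_le_mul_of_nonneg_left (mul_le_mul_of_nonneg_left h3 (by linarith)) (by linarith)
    have h5 : (b : ℝ) ^ 3 * (τ * n) ≤ (b : ℝ) ^ 3 * (c''.size + 1) := by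
      have : b * (b * (b * ((c''.size : ℝ) + 1))) = (b : ℝ) ^ 3 * (c''.size + 1) := by ring
      nlinarith
    exact le_of_mul_le_mul_left h5 (by positivity)


/-- **Rigid end, general version** -/
theorem rigG (b m₀ : ℕ) (hb : 1 ≤ b) {θ κ ε β : ℝ} (hθ : 0 < θ) (hκ : 0 < κ) (hε : 0 < ε) (hβ : 0 < β) :
    ∃ g : ℕ → ℕ, ∀ p : NP, p.OK → g p.c0 ≤ p.u0 → ∃ D₁ : ℕ, ∀ D : ℕ, D₁ ≤ D →
      ∀ {ω c η η₁ κ₀ κ₁ κ' γ₀ τ s' σ₂ μ : ℝ}, KB D ω c η η₁ κ₀ κ₁ κ' γ₀ τ s' σ₂ μ → ∃ γB C₀ : ℝ, 0 < γB ∧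
        ∀ C : ℝ, C₀ ≤ C → ∀ F s : Fd, (Fd.node false F s).len ≤ b → (Fd.node false F s).Deg b →
          θ * ((Fd.node false F s).size + 1) ≤ (F.size + 1 : ℝ) → RigH b m₀ γB p κ' η s' C F →
            AEJ.Coarse κ ε β C (.node false F s) := by
  have hb1 : (1 : ℝ) ≤ b := by exact_mod_cast hb
  obtain ⟨β₀, hβ₀⟩ : ∃ β₀ : ℝ, β₀ = min β 1 := ⟨_, rfl⟩
  obtain ⟨θ₀, hθ₀⟩ : ∃ θ₀ : ℝ, θ₀ = min θ 1 := ⟨_, rfl⟩
  obtain ⟨ε₂, hε₂⟩ : ∃ ε₂ : ℝ, ε₂ = min ε (β₀ / 16) := ⟨_, rfl⟩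
  have b1 : 0 < β₀ := by rw [hβ₀]; exact lt_min hβ one_pos
  have b2 : β₀ ≤ β := by rw [hβ₀]; exact min_le_left _ _
  have b3 : β₀ ≤ 1 := by rw [hβ₀]; exact min_le_right _ _
  have t1 : 0 < θ₀ := by rw [hθ₀]; exact lt_min hθ one_pos
  have t2 : θ₀ ≤ θ := by rw [hθ₀]; exact min_le_left _ _
  have t3 : θ₀ ≤ 1 := by rw [hθ₀]; exact min_le_right _ _
  have e1 : 0 < ε₂ := by rw [hε₂]; exact lt_min hε (by positivity)
  have e2 : ε₂ ≤ ε := by rw [hε₂]; exact min_le_left _ _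
  have e3 : ε₂ ≤ β₀ / 16 := by rw [hε₂]; exact min_le_right _ _
  obtain ⟨θ₂, hθ₂⟩ : ∃ θ₂ : ℝ, θ₂ = θ₀ / 2 := ⟨_, rfl⟩
  have t4 : 0 < θ₂ := by rw [hθ₂]; positivity
  have t5 : θ₂ ≤ 1 / 2 := by rw [hθ₂]; linarith
  obtain ⟨T₀, hT₀⟩ : ∃ T₀ : ℕ, T₀ = 2 + 2 * m₀ + b * (m₀ + 1) := ⟨_, rfl⟩
  obtain ⟨N₀, hN₀⟩ : ∃ N₀ : ℕ, N₀ = 2 * T₀ := ⟨_, rfl⟩
  obtain ⟨M₁, hM₁⟩ : ∃ M₁ : ℕ, M₁ = 2 ^ m₀ + T₀ := ⟨_, rfl⟩
  obtain ⟨e, he⟩ : ∃ e : ℕ, e = T₀ + 1 := ⟨_, rfl⟩
  obtain ⟨m, hm⟩ : ∃ m : ℕ, m = b * (T₀ + 1) := ⟨_, rfl⟩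
  have hm0 : (0 : ℝ) ≤ m := Nat.cast_nonneg _
  obtain ⟨nl, hlt⟩ := AEK.lt1 b hb hκ e1
  obtain ⟨δ₀, hδ₀, hrest⟩ := AEZ.rest2 b m hb hκ e1 t4
  obtain ⟨τ, hτ⟩ : ∃ τ : ℝ, τ = θ₂ / (2 * (b : ℝ) ^ 3) := ⟨_, rfl⟩
  have hτ0 : 0 < τ := by rw [hτ]; positivity
  have hb3 : (1 : ℝ) ≤ (b : ℝ) ^ 3 := one_le_pow₀ hb1
  have hτb : τ * (2 * (b : ℝ) ^ 3) = θ₂ := by rw [hτ]; field_simp
  have hτ1 : τ ≤ 1 := by nlinarith
  obtain ⟨δ, hδ⟩ : ∃ δ : ℝ, δ = min δ₀ (τ / 4) / (2 * (m + 1)) := ⟨_, rfl⟩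
  have hm1 : (0 : ℝ) < 2 * (m + 1) := by positivity
  have d1 : 0 < δ := by rw [hδ]; exact div_pos (lt_min hδ₀ (by positivity)) hm1
  have d2 : 2 * (m + 1) * δ = min δ₀ (τ / 4) := by rw [hδ]; field_simp
  have d3 : 2 * (m + 1) * δ ≤ δ₀ := by rw [d2]; exact min_le_left _ _
  have d4 : 2 * (m + 1) * δ ≤ τ / 4 := by rw [d2]; exact min_le_right _ _
  have d5 : δ ≤ 1 := by nlinarith
  obtain ⟨h, hh⟩ : ∃ h : ℝ, h = min (δ₀ / 2) (τ / 4) := ⟨_, rfl⟩
  have h1 : 0 < h := by rw [hh]; exact lt_min (by positivity) (by positivity)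
  have h2 : h ≤ δ₀ / 2 := by rw [hh]; exact min_le_left _ _
  have h3 : h ≤ τ / 4 := by rw [hh]; exact min_le_right _ _
  obtain ⟨ε₀, hε₀⟩ : ∃ ε₀ : ℝ, ε₀ = min (τ / 64) (β₀ / 16) := ⟨_, rfl⟩
  have g1 : 0 < ε₀ := by rw [hε₀]; exact lt_min (by positivity) (by positivity)
  have g2 : ε₀ ≤ τ / 64 := by rw [hε₀]; exact min_le_left _ _
  have g3 : ε₀ ≤ β₀ / 16 := by rw [hε₀]; exact min_le_right _ _
  refine ⟨fun c0 => 2 * (e + 2 * c0 + 2) + N₀ + 2 + 4 * M₁, ?_⟩
  intro p hp hpu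
  obtain ⟨D₁, hD₁⟩ := exists_hostsG p hp N₀ e M₁ (by omega) hpu d1 d5 h1 (ε₀ := ε₀) g1
  refine ⟨D₁, ?_⟩
  intro D hD ω c₀ η η₁ κ₀ κ₁ κ' γ₀ τ' s' σ₂ μ P
  obtain ⟨hη, γ, γ₂, ν, n₀, hγ, hγ₂, hγε, hν, hhosts⟩ := hD₁ D hD P
  obtain ⟨-, -, -, -, hη0, -, -, hη₁c, -, hκ₁0, -, hκ'0, hκ'1, hs'0, -, -, -, -, hκ₁η, -⟩ := P.num
  have hη₁s : κ' ≤ 1 := by
    have hc1 : c₀ ≤ 1 / 1024 := P.num.2.2.2.1
    have hc0 : 0 < c₀ := P.num.2.2.1
    have h5 : c₀ * η ≤ 1 * η := mul_le_mul_of_nonneg_right (by linarith) hη0.le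
    linarith
  obtain ⟨n₂, hrest⟩ := hrest δ d1 d3 ν hν (16 * N₀)
  obtain ⟨γB, n₁, hγB, hitems⟩ := itemsG b m hb (κ := κ') (η := η) (δ := δ) (τ := τ) (h := h) hκ'0 hη₁s hη0
    (by linarith) (by linarith) d1 hτ0 h3 d4
  refine ⟨γB, nl + n₀ + n₁ + n₂ + 2 * (1 + b + b * b) / θ₂ + 2 * e / δ₀ + 64 * (N₀ + M₁ + 8) / β₀ +
    64 * (M₁ + 8) / γ₂, hγB, ?_⟩
  intro C hC F s hl hDg hθF hF V R hT X N hX hN
  obtain ⟨n, hn⟩ : ∃ n : ℝ, n = (X.card : ℝ) := ⟨_, rfl⟩
  have q1 : (0 : ℝ) ≤ 2 * (1 + b + b * b) / θ₂ := by positivity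
  have q2 : (0 : ℝ) ≤ 2 * e / δ₀ := by positivity
  have q3 : (0 : ℝ) ≤ 64 * (N₀ + M₁ + 8) / β₀ := by positivity
  have q0 : (0 : ℝ) ≤ 64 * (M₁ + 8) / γ₂ := by positivity
  have q4 : (0 : ℝ) ≤ nl := Nat.cast_nonneg _
  have q5 : (0 : ℝ) ≤ n₀ := Nat.cast_nonneg _
  have q6 : (0 : ℝ) ≤ n₁ := Nat.cast_nonneg _
  have q7 : (0 : ℝ) ≤ n₂ := Nat.cast_nonneg _
  have hC0 : 0 ≤ C := by linarith
  have hsz : (Fd.node false F s).size = F.size + s.size + 1 := rfl
  have hszr : ((Fd.node false F s).size : ℝ) = F.size + s.size + 1 := by rw [hsz]; push_cast; ring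
  have hF0 : (0 : ℝ) ≤ F.size := Nat.cast_nonneg _
  have hs0 : (0 : ℝ) ≤ s.size := Nat.cast_nonneg _
  have hXC := hX
  rw [← hn, hszr] at hX
  have hXn : (nl : ℝ) + n₀ + n₁ + n₂ + 2 * (1 + b + b * b) / θ₂ + 2 * e / δ₀ +
      64 * (N₀ + M₁ + 8) / β₀ + 64 * (M₁ + 8) / γ₂ ≤ n := by linarith
  have hcard : ∀ a : ℕ, (a : ℝ) ≤ n → a ≤ X.card := fun a ha => by rw [hn] at ha; exact_mod_cast ha
  have hnl : nl ≤ X.card := hcard _ (by linarith)
  have hn₀ : n₀ ≤ X.card := hcard _ (by linarith)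
  have hn₁ : n₁ ≤ X.card := hcard _ (by linarith)
  have hn₂ : n₂ ≤ X.card := hcard _ (by linarith)
  have hnpos : 0 < n := by linarith
  obtain ⟨N0, hN0⟩ : ∃ N0, N0 = AEJ.Adm R κ ε (.node false F s) X N := ⟨_, rfl⟩
  rw [← hn, ← hN0] at hN
  have hN0X : N0 ⊆ X := by rw [hN0]; exact filter_subset _ _
  -- the light theorem if there is room
  by_cases hroom : ((Fd.node false F s).size + 1 : ℝ) ≤ (1 - ε₂) * X.card
  · refine hlt hT X N hnl _ hl hDg hroom ?_
    have g1 : ε₂ * n ≤ β * n := mul_le_mul_of_nonneg_right (by linarith) hnpos.le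
    rw [← hn]
    refine (g1.trans hN).trans ?_
    have g2 : N0 ⊆ X.filter (fun z => N z ∧ Wide R κ ((dcl (Fd.node false F s) + 1) + ε₂ * n) X z ∧
        Wide (fun a b => R b a) κ ((AEB.blk (Fd.node false F s) + 1) + ε₂ * n) X z) := by
      intro v hv
      rw [hN0, AEJ.Adm, mem_filter] at hv
      rw [mem_filter]
      have g3 : ε₂ * n ≤ ε * n := mul_le_mul_of_nonneg_right e2 hnpos.le
      refine ⟨hv.1, hv.2.1, AEK.wide_mono ?_ hv.2.2.1, AEK.wide_mono ?_ hv.2.2.2⟩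
      · rw [← hn]; linarith
      · rw [← hn]; linarith
    exact_mod_cast card_le_card g2
  push Not at hroom
  rw [hszr, ← hn] at hroom
  have hFn : θ₂ * n ≤ F.size + 1 := by
    have g1 : θ₀ * ((F.size + s.size + 1 : ℝ) + 1) ≤ θ * ((F.size + s.size + 1 : ℝ) + 1) :=
      mul_le_mul_of_nonneg_right t2 (by positivity)
    rw [hszr] at hθF
    have g2 : n / 2 ≤ (F.size + s.size + 1 : ℝ) + 1 := by
      have : ε₂ * n ≤ 1 / 2 * n := mul_le_mul_of_nonneg_right (by linarith) hnpos.le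
      linarith
    have g3 : θ₀ * (n / 2) ≤ θ₀ * ((F.size + s.size + 1 : ℝ) + 1) := mul_le_mul_of_nonneg_left g2 t1.le
    rw [hθ₂]
    linarith
  have hlS : s.len ≤ b := by
    have : (Fd.node false F s).len = s.len + 1 := rfl
    omega
  have hFlen : F.len ≤ b := hDg.1
  have hFdeg : F.Deg b := hDg.2.1
  have hsl : ((s.size : ℝ) + 1) ≤ (1 - θ₂) * X.card := by rw [← hn]; linarith
  have hFX : (F.size : ℝ) + 1 ≤ X.card := by rw [← hn]; linarith
  obtain ⟨x, G, hGX, hGc, hG16, hxG, hxi, hE⟩ := hhosts hT X hn₀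
  obtain ⟨t, ht⟩ : ∃ t : ℝ, t = β₀ / 16 * n := ⟨_, rfl⟩
  have hbigθ : 2 * (1 + b + b * b) ≤ θ₂ * n := by
    have g3 : 2 * (1 + b + b * b) / θ₂ ≤ n := by linarith
    rw [div_le_iff₀ t4] at g3
    linarith
  have hbigβ : 64 * (N₀ + M₁ + 8) ≤ β₀ * n := by
    have g3 : 64 * (N₀ + M₁ + 8) / β₀ ≤ n := by linarith
    rw [div_le_iff₀ b1] at g3
    linarith
  have hbigγ : 64 * (M₁ + 8) ≤ γ₂ * n := by
    have g3 : 64 * (M₁ + 8) / γ₂ ≤ n := by linarith
    rw [div_le_iff₀ hγ₂] at g3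
    linarith
  have hN₀0 : (0 : ℝ) ≤ N₀ := Nat.cast_nonneg _
  have hM₁0 : (0 : ℝ) ≤ M₁ := Nat.cast_nonneg _
  have hβn : 0 < β₀ * n := by positivity
  have hN0c : β₀ * n ≤ N0.card := (mul_le_mul_of_nonneg_right b2 hnpos.le).trans hN
  have hγ₂n : γ₂ * n ≤ β₀ / 16 * n := mul_le_mul_of_nonneg_right (by linarith) hnpos.le
  rw [← hn] at hGc
  -- the root set of the rest
  have hadm : ∀ (N' : V → Prop) (A : Finset V), A ⊆ N0 → (∀ v ∈ A, N' v) → ε₂ * n ≤ A.card →
      ε₂ * X.card ≤ ((X.filter (fun z => N' z ∧ Wide R κ ((dcl s + 1) + ε₂ * X.card) X z ∧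
        Wide (fun a b => R b a) κ ((AEB.blk s + 1) + ε₂ * X.card) X z)).card : ℝ) := by
    intro N' A hA hQ hAc
    rw [← hn]
    refine hAc.trans ?_
    have g2 : A ⊆ X.filter (fun z => N' z ∧ Wide R κ ((dcl s + 1) + ε₂ * n) X z ∧
        Wide (fun a b => R b a) κ ((AEB.blk s + 1) + ε₂ * n) X z) := by
      intro v hv
      have hv0 := hA hv
      rw [hN0, AEJ.Adm, mem_filter] at hv0
      rw [mem_filter]
      have g3 : ε₂ * n ≤ ε * n := mul_le_mul_of_nonneg_right e2 hnpos.le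
      have g4 : ((dcl s : ℕ) : ℝ) ≤ dcl (Fd.node false F s) := by
        have : dcl s ≤ dcl (Fd.node false F s) := by simp only [dcl]; omega
        exact_mod_cast this
      have g5 : ((AEB.blk s : ℕ) : ℝ) ≤ AEB.blk (Fd.node false F s) := by
        have : AEB.blk s ≤ AEB.blk (Fd.node false F s) := by simp only [AEB.blk]; omega
        exact_mod_cast this
      refine ⟨hv0.1, hQ v hv, AEK.wide_mono ?_ hv0.2.2.1, AEK.wide_mono ?_ hv0.2.2.2⟩
      · rw [← hn]; linarith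
      · rw [← hn]; linarith
    exact_mod_cast card_le_card g2
  have hEHc : ∀ E H : Finset V, E.card ≤ e → (H.card : ℝ) ≤ h * X.card → ((E ∪ H).card : ℝ) ≤ δ₀ * X.card := by
    intro E H hEc hHc
    have g1 : ((E ∪ H).card : ℝ) ≤ E.card + H.card := by exact_mod_cast card_union_le _ _
    have g2 : (E.card : ℝ) ≤ e := by exact_mod_cast hEc
    have g3 : h * (X.card : ℝ) ≤ δ₀ / 2 * X.card := mul_le_mul_of_nonneg_right h2 (Nat.cast_nonneg _)
    have g4 : (e : ℝ) ≤ δ₀ / 2 * X.card := by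
      have g5 : 2 * e / δ₀ ≤ n := by linarith
      rw [div_le_iff₀ hδ₀] at g5
      rw [← hn]
      linarith
    linarith
  by_cases hNN : NN F
  swap
  · -- the class of the branch is the dense class
    obtain ⟨𝓕, H, Nx, h𝓕, hHX, -, hHc, -, hGood, hI, -⟩ := hE ∅ (empty_subset _) (by simp)
    obtain ⟨A, hA⟩ : ∃ A, A = N0.filter (fun z => γ₂ / 4 * X.card ≤ (nI R G z).card) := ⟨_, rfl⟩
    have hAc : ε₂ * n ≤ A.card := by
      obtain ⟨a, ha⟩ : ∃ a : ℕ, a = ⌈γ₂ / 4 * n⌉₊ := ⟨_, rfl⟩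
      have ha1 : (a : ℝ) ≤ γ₂ / 4 * n + 1 := by
        rw [ha]
        exact (Nat.ceil_lt_add_one (by positivity)).le
      have g4 : N0 ⊆ A ∪ low R a G := by
        intro v hv
        rw [mem_union, hA, mem_filter, mem_low]
        by_cases hvG : v ∈ G
        · by_cases hva : (nI R G v).card < a
          · exact Or.inr ⟨hvG, hva⟩
          · left
            refine ⟨hv, ?_⟩
            push Not at hva
            rw [← hn]
            refine (Nat.le_ceil _).trans ?_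
            rw [← ha]
            exact_mod_cast hva
        · left
          refine ⟨hv, ?_⟩
          have g5 := hG16 v (hN0X hv) hvG
          have g6 := card_nO_add_nI hT hvG
          have g7 : 15 * G.card ≤ 16 * (nI R G v).card := by omega
          have g8 : 15 * (G.card : ℝ) ≤ 16 * (nI R G v).card := by exact_mod_cast g7
          rw [← hn]
          have : 0 < γ₂ * n := by positivity
          linarith
      have g5 := (card_le_card g4).trans (card_union_le _ _)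
      have g6 := card_low_in hT a G
      have g7 : (N0.card : ℝ) ≤ A.card + 2 * a := by exact_mod_cast (by omega : N0.card ≤ A.card + 2 * a)
      have g8 : ε₂ * n ≤ β₀ / 16 * n := mul_le_mul_of_nonneg_right e3 hnpos.le
      linarith
    obtain ⟨S, hS, hdis, hin⟩ := hrest hT X (∅ ∪ H) (fun z => N z ∧ γ₂ / 4 * X.card ≤ (nI R G z).card) 𝓕 hn₂ h𝓕
      (hEHc ∅ H (by simp) hHc) s hlS hDg.2.2 hsl
      (hadm (fun z => N z ∧ γ₂ / 4 * X.card ≤ (nI R G z).card) A (by rw [hA]; exact filter_subset _ _)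
        (fun v hv => by
          rw [hA, mem_filter] at hv
          have h5 := hv.1
          rw [hN0, AEJ.Adm, mem_filter] at h5
          exact ⟨h5.2.1, hv.2⟩) hAc)
    have hSU : ∀ j ≤ m, S j ⊆ (range (m + 1)).biUnion S := fun j hj =>
      subset_biUnion_of_mem S (mem_range.2 (by omega))
    have hUX : (range (m + 1)).biUnion S ⊆ X := by
      intro a ha
      obtain ⟨j, hj, haj⟩ := mem_biUnion.1 ha
      exact (mem_sdiff.1 ((hS j (by rw [mem_range] at hj; omega)).1 haj)).1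
    rw [empty_union] at hin
    refine glue_whole (C := C) hHX hUX hin ?_ hXC
    intro z hzX hQz Q hQX hHQ hUQ hQc
    refine hF.ee hNN hT Q (fun v => R v z) hQc ⟨?_, fun h => absurd h hNN⟩
    obtain ⟨hS1, hS2, hS3, -⟩ := hS m le_rfl
    have g4 := hI z hzX hQz (S m) hS2 hS3
    have hSQ : S m ⊆ Q := (hSU m le_rfl).trans hUQ
    unfold ClD
    refine ((mul_le_mul_of_nonneg_left (by exact_mod_cast card_le_card hQX) hs'0.le).trans g4).trans ?_
    refine Nat.cast_le.2 (card_le_card ?_)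
    intro v hv
    rw [mem_inter, mem_nI] at hv
    rw [mem_filter]
    exact ⟨hSQ hv.2, hGood v hv.1.1 (S m) Q hSQ hQX hS2 hS3, hv.1.2⟩
  obtain ⟨c, c', hFc, hcc'⟩ := id hNN
  have hclen : c.len ≤ b := ((Fd.deg_iff b F).1 hFdeg _ (hv_mem hFc)).1
  have hcdeg : c.Deg b := ((Fd.deg_iff b F).1 hFdeg _ (hv_mem hFc)).2
  have hc'len : c'.len ≤ b := ((Fd.deg_iff b c).1 hcdeg _ (hv_mem hcc')).1
  obtain ⟨sz1, sz2, sz3⟩ := size_chain hb hτb hnpos t4 hbigθ hFlen hclen hFn hFc hcc'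
  -- the common part of the cases
  have key : ∀ (y : V) (Z : Finset V) (L : List (V × Fd)) (x₀ : V) (D₀ : Fd), y ∈ X → Z ⊆ X → y ∉ Z → Z.card ≤ T₀ →
      PE R F y Z L → (x₀, D₀) ∈ L → (∀ q ∈ L, q.1 ∈ G) → HB p κ' η s' C D₀ → τ * n ≤ D₀.size + 1 →
      ((∃ i < N₀, x₀ = x i) ∨ (¬ NN D₀ ∧ γ₂ / 4 * X.card ≤ (nO R G x₀).card)) → t ≤ ((nO R N0 y).card : ℝ) →
      In R (.node false F s) N X := by
    intro y Z L x₀ D₀ hyX hZX hyZ hZc hPE hxL hLG hHB hD₀ hcl hty
    obtain ⟨𝓕, H, Nx, h𝓕, hHX, hHE, hHc, hHost, hGood, -, hO⟩ := hE (insert y Z) (by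
      intro a ha
      rcases mem_insert.1 ha with rfl | ha
      · exact hyX
      · exact hZX ha) ((card_insert_le _ _).trans (by omega))
    obtain ⟨S, hS, hdis, hin⟩ := hrest hT X (insert y Z ∪ H) (fun z => N z ∧ R y z) 𝓕 hn₂ h𝓕
      (hEHc _ H ((card_insert_le _ _).trans (by omega)) hHc) s hlS hDg.2.2 hsl
      (hadm (fun z => N z ∧ R y z) (nO R N0 y) nO_sub (fun v hv => by
          have h5 := (mem_nO.1 hv).1
          rw [hN0, AEJ.Adm, mem_filter] at h5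
          exact ⟨h5.2.1, (mem_nO.1 hv).2⟩) (by
        refine le_trans ?_ hty
        rw [ht]
        exact mul_le_mul_of_nonneg_right e3 hnpos.le))
    have hSU : ∀ j ≤ m, S j ⊆ (range (m + 1)).biUnion S := fun j hj =>
      subset_biUnion_of_mem S (mem_range.2 (by omega))
    refine glue_exact (C := C) (Z := Z) (L := L) (U := (range (m + 1)).biUnion S) hyX hZX hyZ hHX hHE ?_ hPE hT.irr
      hin ?_ hXC
    · intro a ha
      obtain ⟨j, hj, haj⟩ := mem_biUnion.1 ha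
      have g1 := (hS j (by rw [mem_range] at hj; omega)).1 haj
      rw [mem_sdiff, mem_union, not_or] at g1
      exact mem_sdiff.2 ⟨g1.1, g1.2.1⟩
    · intro Q hQX hQE hHQ hUQ hQc
      have hperm : L.Perm ((x₀, D₀) :: L.erase (x₀, D₀)) := List.perm_cons_erase hxL
      have hLlen : (L.erase (x₀, D₀)).length ≤ m := by
        have g1 := hPE.length_le hFlen hFdeg
        have g2 := List.length_erase_le (a := (x₀, D₀)) (l := L)
        have g3 : b * (Z.card + 1) ≤ b * (T₀ + 1) := Nat.mul_le_mul_left _ (by omega)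
        omega
      have hxE : x₀ ∈ insert y Z := by
        rcases (AET.PE.host hPE _ hxL).1 with g1 | g1
        · simp only at g1
          rw [g1]
          exact mem_insert_self _ _
        · exact mem_insert_of_mem g1
      have hisz : AEB.isz L = AEB.isz (L.erase (x₀, D₀)) + (D₀.size + 1) := by
        rw [isz_perm hperm, AEB.isz_cons]
        ring
      obtain ⟨A, hAQ, hA⟩ := hitems hT hn₁ hHc S hS hdis Q hQX hQE hHQ (fun j hj => (hSU j hj).trans hUQ)
        (L.erase (x₀, D₀)) hLlen (by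
          intro q hq
          have hqL := List.mem_of_mem_erase hq
          obtain ⟨g1, g2⟩ := pe_deg hPE hFdeg q hqL
          refine ⟨g1, g2, (hF.it hPE q hqL).trans (mul_le_mul_of_nonneg_left hFX hγB.le), ?_⟩
          intro S' P' k1 k2 k3 k4
          exact hGood q.1 (hLG q hqL) S' P' k1 k2 k3 k4) x₀ D₀ C hC0 (by rw [← hn]; exact hD₀) (by
          intro P' hP'Q hHP' hSP' hP'c
          obtain ⟨hS1, hS2, hS3, -⟩ := hS m le_rfl
          have hP'X := hP'Q.trans hQX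
          have hgd := hGood x₀ (hLG _ hxL) (S m) P' hSP' hP'X hS2 hS3
          refine hHB hT P' x₀ hP'c hgd ?_
          rcases hcl with ⟨i, hi, rfl⟩ | ⟨hnn, hdeg⟩
          · exact (hHost i hi hxE).cl D₀ hS1 hSP' hHP' hP'X (disjoint_of_subset_left hP'Q hQE) hS2 hS3
          · refine ⟨?_, fun h => absurd h hnn⟩
            have g4 := hO x₀ (hGX (hLG _ hxL)) hdeg (S m) hS2 hS3
            unfold ClD
            refine ((mul_le_mul_of_nonneg_left (by exact_mod_cast card_le_card hP'X) hs'0.le).trans g4).trans ?_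
            refine Nat.cast_le.2 (card_le_card ?_)
            intro v hv
            rw [mem_inter, mem_nO] at hv
            rw [mem_filter]
            exact ⟨hSP' hv.2, hGood v hv.1.1 (S m) P' hSP' hP'X hS2 hS3, hv.1.2⟩) (by
          rw [hisz] at hQc
          push_cast at hQc
          linarith)
      exact ⟨A, hAQ, hA.perm hperm.symm⟩
  have hlen_le : ∀ (l : List V), l.length ≤ T₀ → l.toFinset.card ≤ T₀ := fun l hl => (List.toFinset_card_le l).trans hl
  by_cases hcase : ∃ i < N₀, t ≤ ((nO R N0 (x i)).card : ℝ)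
  · -- a host sees many possible roots
    obtain ⟨i, hi, hti⟩ := hcase
    obtain ⟨hxiG, hxiM⟩ := hxG i hi
    obtain ⟨w, w1, w2, w3⟩ := lists hT m₀ G ∅ (x i) (by rw [card_empty]; omega)
    obtain ⟨Z, L, z1, z2, z3, z4⟩ := routeA1 hT (hF.b0 hNN) hFc (x i) w w3 (fun z hz => (w2 z hz).2.1) w1.ge
    refine key (x i) Z L (x i) c (hGX hxiG) ?_ ?_ ?_ z1 z3 ?_ (hF.h1 c hNN hFc) sz1 (Or.inl ⟨i, hi, rfl⟩) hti
    · exact fun a ha => hGX (w2 a (List.mem_toFinset.1 (z2 ha))).1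
    · exact fun ha => hT.irr _ (w2 _ (List.mem_toFinset.1 (z2 ha))).2.1
    · exact (card_le_card z2).trans (hlen_le w (by omega))
    · intro q hq
      rcases z4 q hq with h | h
      · rw [h]; exact hxiG
      · exact (w2 _ h).1
  push Not at hcase
  obtain ⟨N1, hN1⟩ : ∃ N1, N1 = N0.filter (fun f => N₀ ≤ 2 * ((range N₀).filter (fun i => R f (x i))).card) := ⟨_, rfl⟩
  have hN1c : β₀ * n - 2 * (t + 1) ≤ (N1.card : ℝ) := by
    have g1 := most_see hT (N0 := N0) (A := N0) (Subset.refl _) (x := x) (N := N₀) (t := t) (by omega)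
      (fun i hi => (hcase i hi).le)
    rw [← hN1] at g1
    linarith
  have hN1N0 : N1 ⊆ N0 := by rw [hN1]; exact filter_subset _ _
  have hN1s : ∀ f ∈ N1, N₀ ≤ 2 * ((range N₀).filter (fun i => R f (x i))).card := by
    intro f hf
    rw [hN1, mem_filter] at hf
    exact hf.2
  by_cases hcase2 : β₀ / 4 * n ≤ ((N1 ∩ G).card : ℝ)
  · -- many possible roots are in `G`
    obtain ⟨A, hA⟩ : ∃ A, A = (N1 ∩ G) \ low R M₁ G := ⟨_, rfl⟩
    have hAc : β₀ / 4 * n ≤ A.card + 2 * M₁ := by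
      have g1 := le_card_sdiff (low R M₁ G) (N1 ∩ G)
      have g2 := card_low_in hT M₁ G
      have g3 : ((N1 ∩ G).card : ℝ) ≤ A.card + 2 * M₁ := by
        rw [hA]
        exact_mod_cast (by omega : (N1 ∩ G).card ≤ ((N1 ∩ G) \ low R M₁ G).card + 2 * M₁)
      linarith
    have hAne : A.Nonempty := by
      rw [← card_pos]
      have : (0 : ℝ) < A.card := by linarith
      exact_mod_cast this
    obtain ⟨y, hy, -, -, hyc⟩ := super_vertex hT (X := A) (G := A) hAne (m := 0) (fun u hu hu' => absurd hu hu')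
    have hyA := hy
    rw [hA, mem_sdiff, mem_inter, mem_low, not_and, not_lt] at hy
    obtain ⟨⟨hyN1, hyG⟩, hyM⟩ := hy
    have hyM := hyM hyG
    have hAN0 : A ⊆ N0 := by
      rw [hA]
      exact sdiff_subset.trans (inter_subset_left.trans hN1N0)
    have hty : t ≤ ((nO R N0 y).card : ℝ) := by
      have g1 : ((nO R A y).card : ℝ) ≤ (nO R N0 y).card := by exact_mod_cast card_le_card (nO_mono hAN0)
      have g2 : (A.card : ℝ) ≤ 2 * (nO R A y).card + 1 := by exact_mod_cast hyc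
      rw [ht]
      linarith
    obtain ⟨i, hi⟩ : ((range N₀).filter (fun i => R y (x i))).Nonempty := by
      rw [← card_pos]
      have := hN1s y hyN1
      omega
    rw [mem_filter, mem_range] at hi
    obtain ⟨hi, hyx⟩ := hi
    obtain ⟨hxiG, hxiM⟩ := hxG i hi
    obtain ⟨w, w1, w2, w3⟩ := lists hT m₀ G {x i} y (by rw [card_singleton]; omega)
    obtain ⟨w', v1, v2, v3⟩ := lists hT m₀ G (insert y w.toFinset) (x i) (by
      have g1 := card_insert_le y w.toFinset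
      have g2 := List.toFinset_card_le w
      omega)
    have hnd : (x i :: w ++ w').Nodup := by
      rw [List.cons_append, List.nodup_cons, List.mem_append, not_or, List.nodup_append]
      refine ⟨⟨fun h => (w2 _ h).2.2 (mem_singleton_self _), fun h => hT.irr _ (v2 _ h).2.1⟩, tl_nodup hT w3,
        tl_nodup hT v3, ?_⟩
      intro a ha a' ha' haa
      subst haa
      exact (v2 a ha').2.2 (mem_insert_of_mem (List.mem_toFinset.2 ha))
    obtain ⟨Z, L, z1, z2, z3, z4⟩ := routeA2 hT (hF.b0 hNN) (hF.b1 c hNN hFc) hFc hcc' y (x i) w w' w3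
      (fun z hz => (w2 z hz).2.1) hyx v3 (fun z hz => (v2 z hz).2.1) hnd w1.ge v1.ge
    have hmem : ∀ a ∈ Z, a = x i ∨ a ∈ w ∨ a ∈ w' := by
      intro a ha
      have := List.mem_toFinset.1 (z2 ha)
      simpa [or_assoc] using this
    refine key y Z L (x i) c' (hGX hyG) ?_ ?_ ?_ z1 z3 ?_ (hF.h2 c c' hFc hcc') sz2 (Or.inl ⟨i, hi, rfl⟩) hty
    · intro a ha
      rcases hmem a ha with rfl | h | h
      · exact hGX hxiG
      · exact hGX (w2 a h).1
      · exact hGX (v2 a h).1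
    · intro ha
      rcases hmem y ha with h | h | h
      · rw [← h] at hyx
        exact hT.irr _ hyx
      · exact hT.irr _ (w2 y h).2.1
      · exact (v2 y h).2.2 (mem_insert_self _ _)
    · refine (card_le_card z2).trans (hlen_le _ ?_)
      simp only [List.cons_append, List.length_cons, List.length_append, w1, v1]
      have : 1 ≤ b * (m₀ + 1) := Nat.one_le_iff_ne_zero.2 (by positivity)
      omega
    · intro q hq
      rcases z4 q hq with h | h | h | h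
      · rw [h]; exact hyG
      · rw [h]; exact hxiG
      · exact (w2 _ h).1
      · exact (v2 _ h).1
  push Not at hcase2
  -- most possible roots are outside `G`
  obtain ⟨Lo, hLo⟩ : ∃ Lo, Lo = N1 \ G := ⟨_, rfl⟩
  have hLoc : β₀ / 2 * n ≤ (Lo.card : ℝ) := by
    have g1 : N1.card = (N1 ∩ G).card + Lo.card := by
      rw [hLo, ← card_inter_add_card_sdiff N1 G]
    have g2 : (N1.card : ℝ) = (N1 ∩ G).card + Lo.card := by exact_mod_cast g1
    rw [ht] at hN1c
    linarith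
  have hLoG : ∀ u ∈ Lo, u ∉ G := fun u hu => by rw [hLo, mem_sdiff] at hu; exact hu.2
  have hLoN1 : Lo ⊆ N1 := by rw [hLo]; exact sdiff_subset
  have hLone : Lo.Nonempty := by
    rw [← card_pos]
    have : (0 : ℝ) < Lo.card := by linarith
    exact_mod_cast this
  obtain ⟨a, ha⟩ : ∃ a : ℕ, a = ⌈γ₂ / 4 * n⌉₊ := ⟨_, rfl⟩
  have ha1 : (a : ℝ) ≤ γ₂ / 4 * n + 1 := by
    rw [ha]
    exact (Nat.ceil_lt_add_one (by positivity)).le
  have hGbig : 64 * (M₁ + 8) ≤ (G.card : ℝ) := hbigγ.trans hGc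
  obtain ⟨y, hyG, hyL, hyM, hya⟩ := typical hT hLoG hLone
    (fun u hu => hG16 u (hN0X (hN1N0 (hLoN1 hu))) (hLoG u hu)) M₁ a (by
      have g1 : (8 * (2 * M₁ + 2 * a) : ℝ) < 7 * G.card := by linarith
      exact_mod_cast g1)
  have hty : t ≤ ((nO R N0 y).card : ℝ) := by
    have g1 : ((nO R Lo y).card : ℝ) ≤ (nO R N0 y).card := by
      exact_mod_cast card_le_card (nO_mono (hLoN1.trans hN1N0))
    have g2 : (Lo.card : ℝ) ≤ 2 * (nO R Lo y).card := by exact_mod_cast hyL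
    rw [ht]
    linarith
  by_cases hNNc : NN c
  swap
  · -- the heavy out-branch of the branch is in the dense class
    obtain ⟨w, w1, w2, w3⟩ := lists hT m₀ G ∅ y (by rw [card_empty]; omega)
    obtain ⟨Z, L, z1, z2, z3, z4⟩ := routeA1 hT (hF.b0 hNN) hFc y w w3 (fun z hz => (w2 z hz).2.1) w1.ge
    refine key y Z L y c (hGX hyG) ?_ ?_ ?_ z1 z3 ?_ (hF.h1 c hNN hFc) sz1 (Or.inr ⟨hNNc, ?_⟩) hty
    · exact fun a ha => hGX (w2 a (List.mem_toFinset.1 (z2 ha))).1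
    · exact fun ha => hT.irr _ (w2 _ (List.mem_toFinset.1 (z2 ha))).2.1
    · exact (card_le_card z2).trans (hlen_le w (by omega))
    · intro q hq
      rcases z4 q hq with h | h
      · rw [h]; exact hyG
      · exact (w2 _ h).1
    · rw [← hn]
      refine (Nat.le_ceil _).trans ?_
      rw [← ha]
      exact_mod_cast hya
  obtain ⟨c₁, c'', hcc₁, hc'c''⟩ := id hNNc
  have hc₁ : c₁ = c' := by
    rw [hcc'] at hcc₁
    simpa using hcc₁.symm
  subst hc₁
  obtain ⟨f, hf⟩ : (nO R Lo y).Nonempty := by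
    rw [← card_pos]
    have := card_pos.2 hLone
    omega
  rw [mem_nO] at hf
  obtain ⟨hfL, hyf⟩ := hf
  have hfG := hLoG f hfL
  have hfX := hN0X (hN1N0 (hLoN1 hfL))
  have hfN : N₀ ≤ 2 * ((range N₀).filter (fun i => R f (x i))).card := hN1s f (hLoN1 hfL)
  obtain ⟨w, w1, w2, w3⟩ := lists hT m₀ G ∅ y (by rw [card_empty]; omega)
  have hfdeg : M₁ ≤ (nI R G f).card := by
    have g5 := hG16 f hfX hfG
    have g6 := card_nO_add_nI hT hfG
    have g7 : 64 * (M₁ + 8) ≤ G.card := by exact_mod_cast hGbig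
    omega
  obtain ⟨wf, v1, v2, v3⟩ := lists hT m₀ G (insert y w.toFinset) f (by
    have g1 := card_insert_le y w.toFinset
    have g2 := List.toFinset_card_le w
    omega)
  obtain ⟨sl, s1, s5, s2, s3, s4⟩ := slots' hT f m₀ G (((range N₀).filter (fun i => R f (x i))).image x)
    (by
      intro a ha
      obtain ⟨i, hi, rfl⟩ := mem_image.1 ha
      exact (mem_filter.1 hi).2) b (insert y (w.toFinset ∪ wf.toFinset))
    (by
      have g3 : (((range N₀).filter (fun i => R f (x i))).image x).card =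
          ((range N₀).filter (fun i => R f (x i))).card := by
        apply card_image_of_injOn
        intro a ha a' ha' haa
        rw [mem_coe, mem_filter, mem_range] at ha ha'
        exact hxi a ha.1 a' ha'.1 haa
      have g1 := card_insert_le y (w.toFinset ∪ wf.toFinset)
      have g2 := card_union_le w.toFinset wf.toFinset
      have g4 := List.toFinset_card_le w
      have g5 := List.toFinset_card_le wf
      rw [g3]
      omega)
    (by
      intro a ha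
      obtain ⟨i, hi, rfl⟩ := mem_image.1 ha
      have g0 := (hxG i (mem_range.1 (mem_filter.1 hi).1)).2
      have g1 := card_insert_le y (w.toFinset ∪ wf.toFinset)
      have g2 := card_union_le w.toFinset wf.toFinset
      have g4 := List.toFinset_card_le w
      have g5 := List.toFinset_card_le wf
      omega)
  have hslG : ∀ a ∈ slv sl, a ∈ G := by
    intro a ha
    obtain ⟨q, hq, hq'⟩ := mem_slv.1 ha
    obtain ⟨-, k2, k3⟩ := s2 q hq
    rcases hq' with h | h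
    · rw [h]
      obtain ⟨i, hi, h5⟩ := mem_image.1 k2
      rw [← h5]
      exact (hxG i (mem_range.1 (mem_filter.1 hi).1)).1
    · exact k3 a h
  have hnd : (f :: w ++ (wf ++ slv sl)).Nodup := by
    rw [List.cons_append, List.nodup_cons, List.mem_append, List.mem_append, not_or, not_or, List.nodup_append,
      List.nodup_append]
    refine ⟨⟨fun h => hfG (w2 _ h).1, fun h => hfG (v2 _ h).1, fun h => hfG (hslG f h)⟩, tl_nodup hT w3,
      ⟨tl_nodup hT v3, s3, ?_⟩, ?_⟩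
    · intro a ha a' ha' haa
      subst haa
      exact s4 a ha' (mem_insert_of_mem (mem_union_right _ (List.mem_toFinset.2 ha)))
    · intro a ha a' ha' haa
      subst haa
      rcases List.mem_append.1 ha' with h | h
      · exact (v2 a h).2.2 (mem_insert_of_mem (List.mem_toFinset.2 ha))
      · exact s4 a h (mem_insert_of_mem (mem_union_left _ (List.mem_toFinset.2 ha)))
  obtain ⟨Z, L, q₀, hq₀, z1, z2, z3, z4⟩ := routeA3 hT (b := b) (hF.b0 hNN) (hF.b1 c hNN hFc) (hF.b2 c hNN hFc) hclen hFc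
    hcc' hc'c'' y f w wf sl w3 (fun z hz => (w2 z hz).2.1) hyf v3 (fun z hz => (v2 z hz).2.1) (fun q hq => (s2 q hq).1)
    s1.ge hnd w1.ge v1.ge
  have hmem : ∀ a ∈ Z, a = f ∨ a ∈ w ∨ a ∈ wf ∨ a ∈ slv sl := by
    intro a ha
    have := List.mem_toFinset.1 (z2 ha)
    simpa [or_assoc] using this
  obtain ⟨i, hi, hix⟩ := mem_image.1 (s2 q₀ hq₀).2.1
  refine key y Z L q₀.1 c'' (hGX hyG) ?_ ?_ ?_ z1 z3 ?_ (hF.h3 c c₁ c'' hFc hcc' hc'c'') (sz3 c'' hc'len hc'c'')
    (Or.inl ⟨i, mem_range.1 (mem_filter.1 hi).1, hix.symm⟩) hty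
  · intro a ha
    rcases hmem a ha with rfl | h | h | h
    · exact hfX
    · exact hGX (w2 a h).1
    · exact hGX (v2 a h).1
    · exact hGX (hslG a h)
  · intro ha
    rcases hmem y ha with h | h | h | h
    · exact hfG (h ▸ hyG)
    · exact hT.irr _ (w2 y h).2.1
    · exact (v2 y h).2.2 (mem_insert_self _ _)
    · exact s4 y h (mem_insert_self _ _)
  · refine (card_le_card z2).trans (hlen_le _ ?_)
    simp only [List.cons_append, List.length_cons, List.length_append, w1, v1, s5]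
    omega
  · intro q hq
    rcases z4 q hq with h | h | h | h
    · rw [h]; exact hyG
    · exact (w2 _ h).1
    · exact (v2 _ h).1
    · exact hslG _ h

end AER
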