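import Pool.Agent.AER.PrepG

/-!
# Rigid ends, general version: partial embeddings of the top of the branch, with explicit bounds for the blocks
-/

set_option autoImplicit false

namespace AER

open Finset AE15 AED AELT AEB
open scoped Classical

variable {V : Type} {R : V → V → Prop}

theorem routeA1 (hT : AE32.Tour R) {m : ℕ} {F c : Fd} (hbF : blk F ≤ m) (hFc : F.hv = some (true, c)) (y : V)
    (w : List V) (hw : w.Pairwise R) (hwy : ∀ z ∈ w, R z y) (hl : m ≤ w.length) :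
    ∃ Z L, PE R F y Z L ∧ Z ⊆ w.toFinset ∧ (y, c) ∈ L ∧ ∀ q ∈ L, q.1 = y ∨ q.1 ∈ w := by
  obtain ⟨Z, L, h1, h2, h3⟩ := pe_block hT F y w hw hwy (hbF.trans hl)
  refine ⟨Z, L, h1, h2, h3 c (hv_mem hFc), fun q hq => ?_⟩
  rcases (AET.PE.host h1 q hq).1 with h | h
  · exact Or.inl h
  · exact Or.inr (List.mem_toFinset.1 (h2 h))

theorem routeA2 (hT : AE32.Tour R) {m : ℕ} {F c c' : Fd} (hbF : blk F ≤ m) (hbc : blk c ≤ m)
    (hFc : F.hv = some (true, c)) (hc : c.hv = some (true, c')) (y x : V) (w w' : List V)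
    (hw : w.Pairwise R) (hwy : ∀ z ∈ w, R z y) (hyx : R y x) (hw' : w'.Pairwise R) (hwx : ∀ z ∈ w', R z x)
    (hnd : (x :: w ++ w').Nodup) (hl : m ≤ w.length) (hl' : m ≤ w'.length) :
    ∃ Z L, PE R F y Z L ∧ Z ⊆ (x :: w ++ w').toFinset ∧ (x, c') ∈ L ∧
      ∀ q ∈ L, q.1 = y ∨ q.1 = x ∨ q.1 ∈ w ∨ q.1 ∈ w' := by
  obtain ⟨Z₁, L₁, h1, h2, h3, h4⟩ := routeA1 hT hbc hc x w' hw' hwx hl'
  rw [List.cons_append, List.nodup_cons, List.nodup_append] at hnd
  obtain ⟨n1, n2, n3, n4⟩ := hnd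
  have hx1 : x ∉ Z₁ := fun h => n1 (List.mem_append_right _ (List.mem_toFinset.1 (h2 h)))
  obtain ⟨Z, L, k1, k2, k3, k4, k5⟩ := pe_heavy_host hT hFc y x w hw hwy hyx h1 hx1 (fun z hz =>
    ⟨fun h => n1 (h ▸ List.mem_append_left _ hz), fun h => n4 z hz z (List.mem_toFinset.1 (h2 h)) rfl⟩)
    (hbF.trans hl)
  refine ⟨Z, L, k1, ?_, k4 _ h3, ?_⟩
  · intro a ha
    rw [List.mem_toFinset, List.mem_append, List.mem_cons]
    rcases mem_union.1 (k2 ha) with h | h
    · exact Or.inl (Or.inr (List.mem_toFinset.1 h))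
    · rcases mem_insert.1 h with h | h
      · exact Or.inl (Or.inl h)
      · exact Or.inr (List.mem_toFinset.1 (h2 h))
  · intro q hq
    rcases k5 q hq with h | h | h
    · exact Or.inl h
    · exact Or.inr (Or.inr (Or.inl h))
    · rcases h4 q h with h | h
      · exact Or.inr (Or.inl h)
      · exact Or.inr (Or.inr (Or.inr h))

theorem routeA3 (hT : AE32.Tour R) {b m : ℕ} {F c c' c'' : Fd} (hbF : blk F ≤ m) (hbc : blk c ≤ m)
    (hbo : ∀ D, (true, D) ∈ c.trees → blk D ≤ m) (hlc : c.len ≤ b)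
    (hFc : F.hv = some (true, c)) (hc : c.hv = some (true, c')) (hc' : c'.hv = some (true, c''))
    (y f : V) (w wf : List V) (sl : List (V × List V)) (hw : w.Pairwise R) (hwy : ∀ z ∈ w, R z y) (hyf : R y f)
    (hwf : wf.Pairwise R) (hwff : ∀ z ∈ wf, R z f) (hsl : ∀ q ∈ sl, Slot R f m q) (hb : b ≤ sl.length)
    (hnd : (f :: w ++ (wf ++ slv sl)).Nodup) (hl : m ≤ w.length) (hl' : m ≤ wf.length) :
    ∃ Z L, ∃ q₀ ∈ sl, PE R F y Z L ∧ Z ⊆ (f :: w ++ (wf ++ slv sl)).toFinset ∧ (q₀.1, c'') ∈ L ∧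
      ∀ q ∈ L, q.1 = y ∨ q.1 ∈ w ∨ q.1 ∈ wf ∨ q.1 ∈ slv sl := by
  rw [List.cons_append, List.nodup_cons, List.nodup_append] at hnd
  obtain ⟨n1, n2, n3, n4⟩ := hnd
  obtain ⟨Z₁, L₁, h1, h2, h3, h4⟩ := pe_tops hT c f m wf sl hwf hwff (hbc.trans hl') hbo (hlc.trans hb) hsl n3
  obtain ⟨q₀, hq₀, hq₁, hq₂⟩ := h4 c' (hv_mem hc)
  have hmem : ∀ a ∈ Z₁, a ∈ wf ++ slv sl := fun a ha => List.mem_toFinset.1 (h2 ha)
  have hf1 : f ∉ Z₁ := fun h => n1 (List.mem_append_right _ (hmem f h))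
  obtain ⟨Z, L, k1, k2, k3, k4, k5⟩ := pe_heavy_host hT hFc y f w hw hwy hyf h1 hf1 (fun z hz =>
    ⟨fun h => n1 (h ▸ List.mem_append_left _ hz), fun h => n4 z hz z (hmem z h) rfl⟩) (hbF.trans hl)
  refine ⟨Z, L, q₀, hq₀, k1, ?_, k4 _ (hq₂ c'' (hv_mem hc')), ?_⟩
  · intro a ha
    rw [List.mem_toFinset, List.mem_append, List.mem_cons]
    rcases mem_union.1 (k2 ha) with h | h
    · exact Or.inl (Or.inr (List.mem_toFinset.1 h))
    · rcases mem_insert.1 h with h | h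
      · exact Or.inl (Or.inl h)
      · exact Or.inr (hmem a h)
  · intro q hq
    rcases k5 q hq with h | h | h
    · exact Or.inl h
    · exact Or.inr (Or.inl h)
    · have h5 := hmem _ (h3 q h)
      rcases List.mem_append.1 h5 with h6 | h6
      · exact Or.inr (Or.inr (Or.inl h6))
      · exact Or.inr (Or.inr (Or.inr h6))

/-- degrees of the pending items -/
theorem pe_deg {b : ℕ} {F : Fd} {v : V} {Z : Finset V} {L : List (V × Fd)} (h : PE R F v Z L) (hd : F.Deg b) :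
    ∀ q ∈ L, q.2.len ≤ b ∧ q.2.Deg b := by
  induction h with
  | nil v => simp
  | pend c s v A L _ ih =>
    intro q hq
    rcases List.mem_cons.1 hq with rfl | hq
    · exact ⟨hd.1, hd.2.1⟩
    · exact ih hd.2.2 q hq
  | place d c s v x A B L₁ L₂ _ _ _ _ _ _ ih1 ih2 =>
    intro q hq
    rcases List.mem_append.1 hq with hq | hq
    · exact ih1 hd.2.1 q hq
    · exact ih2 hd.2.2 q hq

/-- the rest `s` of the tree is in `X \ (E ∪ H) \ U` with its root behind `y`, the branch hangs partially on `y`, and all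
items can be embedded in whatever is left (nothing is wasted) -/
theorem glue_exact {X H U Z : Finset V} {y : V} {N : V → Prop} {F s : Fd} {L : List (V × Fd)} {C : ℝ} (hyX : y ∈ X)
    (hZX : Z ⊆ X) (hyZ : y ∉ Z) (hHX : H ⊆ X) (hHE : Disjoint H (insert y Z)) (hUX : U ⊆ X \ insert y Z)
    (hPE : PE R F y Z L) (hR : ∀ a, ¬ R a a)
    (hin : In R s (fun z => N z ∧ R y z) ((X \ (insert y Z ∪ H)) \ U))
    (hit : ∀ P ⊆ X, Disjoint P (insert y Z) → H ⊆ P → U ⊆ P → (AEB.isz L : ℝ) + C ≤ P.card → ∃ A ⊆ P, EmbI R L A)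
    (hcard : ((Fd.node false F s).size + 1 : ℝ) + C ≤ X.card) : In R (.node false F s) N X := by
  obtain ⟨E, hEd⟩ : ∃ E, E = insert y Z := ⟨_, rfl⟩
  rw [← hEd] at hHE hUX hin hit
  have hy : y ∈ E := by rw [hEd]; exact mem_insert_self _ _
  have hZ : Z ⊆ E := by rw [hEd]; exact subset_insert _ _
  have hEX : E ⊆ X := by
    rw [hEd]
    intro a ha
    rcases mem_insert.1 ha with rfl | ha
    · exact hyX
    · exact hZX ha
  have hEc : E.card = Z.card + 1 := by rw [hEd, card_insert_of_notMem hyZ]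
  obtain ⟨z, hz, B, hB, hzB, ⟨hNz, hyz⟩, hemb⟩ := hin
  have hzX := (mem_sdiff.1 hz).1
  rw [mem_sdiff, mem_union, not_or] at hzX
  obtain ⟨hzX, hzE, hzH⟩ := hzX
  have hzU := (mem_sdiff.1 hz).2
  have hB' : ∀ a ∈ B, a ∈ X ∧ a ∉ E ∧ a ∉ H ∧ a ∉ U := by
    intro a ha
    have h1 := hB ha
    rw [mem_sdiff, mem_sdiff, mem_union, not_or] at h1
    exact ⟨h1.1.1, h1.1.2.1, h1.1.2.2, h1.2⟩
  obtain ⟨P, hP⟩ : ∃ P, P = (X \ E) \ insert z B := ⟨_, rfl⟩
  have hmP : ∀ a, a ∈ P ↔ a ∈ X ∧ a ∉ E ∧ a ≠ z ∧ a ∉ B := by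
    intro a
    rw [hP, mem_sdiff, mem_sdiff, mem_insert, not_or]
    tauto
  have hPX : P ⊆ X := fun a ha => ((hmP a).1 ha).1
  have hPE' : Disjoint P E := by
    rw [disjoint_left]
    exact fun a ha => ((hmP a).1 ha).2.1
  have hHP : H ⊆ P := by
    intro a ha
    rw [hmP]
    refine ⟨hHX ha, disjoint_left.1 hHE ha, ?_, fun h => (hB' a h).2.2.1 ha⟩
    rintro rfl
    exact hzH ha
  have hUP : U ⊆ P := by
    intro a ha
    rw [hmP]
    have h1 := mem_sdiff.1 (hUX ha)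
    refine ⟨h1.1, h1.2, ?_, fun h => (hB' a h).2.2.2 ha⟩
    rintro rfl
    exact hzU ha
  have hsz := hPE.size
  have hBc := hemb.card
  have hPc : (AEB.isz L : ℝ) + C ≤ P.card := by
    have h1 : X.card ≤ P.card + E.card + (insert z B).card := by
      have h2 : X ⊆ P ∪ (E ∪ insert z B) := by
        intro a ha
        rw [mem_union, mem_union, mem_insert, hmP]
        tauto
      have h3 := (card_le_card h2).trans (card_union_le _ _)
      have h4 := card_union_le E (insert z B)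
      omega
    have h2 := card_insert_le z B
    have h3 : X.card ≤ P.card + (Z.card + 1) + (s.size + 1) := by omega
    have h4 : (X.card : ℝ) ≤ P.card + (Z.card + 1) + (s.size + 1) := by exact_mod_cast h3
    have h5 : (F.size : ℝ) = Z.card + AEB.isz L := by exact_mod_cast hsz
    have h6 : ((Fd.node false F s).size : ℝ) = F.size + s.size + 1 := by
      have : (Fd.node false F s).size = F.size + s.size + 1 := rfl
      rw [this]
      push_cast
      ring
    linarith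
  obtain ⟨A, hAP, hA⟩ := hit P hPX hPE' hHP hUP hPc
  have hZA : Disjoint Z A := by
    rw [disjoint_left]
    intro a ha ha2
    exact disjoint_left.1 hPE' (hAP ha2) (hZ ha)
  have hemF := hPE.complete hA hZA
  have hyA : y ∉ Z ∪ A := by
    rw [mem_union, not_or]
    exact ⟨hyZ, fun h => disjoint_left.1 hPE' (hAP h) hy⟩
  have hyB : y ∉ B := fun h => (hB' y h).2.1 hy
  have hdis : Disjoint (Z ∪ A) B := by
    rw [disjoint_left]
    intro a ha ha2
    rcases mem_union.1 ha with h1 | h1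
    · exact (hB' a ha2).2.1 (hZ h1)
    · exact ((hmP a).1 (hAP h1)).2.2.2 ha2
  refine ⟨z, hzX, insert y ((Z ∪ A) ∪ B), ?_, ?_, hNz, y, Z ∪ A, B, ?_, hyA, hyB, hdis, rfl, hemF, hemb⟩
  · intro a ha
    rcases mem_insert.1 ha with rfl | ha
    · exact hyX
    rcases mem_union.1 ha with ha | ha
    · rcases mem_union.1 ha with ha | ha
      · exact hZX ha
      · exact hPX (hAP ha)
    · exact (hB' a ha).1
  · rw [mem_insert, not_or, mem_union, not_or, mem_union, not_or]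
    refine ⟨?_, ⟨fun h => hzE (hZ h), fun h => ((hmP z).1 (hAP h)).2.2.1 rfl⟩, hzB⟩
    rintro rfl
    exact hR _ hyz
  · simpa [Adj] using hyz

/-- the whole branch is embedded at once, its root dominates the root of the rest -/
theorem glue_whole {X H U : Finset V} {N : V → Prop} {F s : Fd} {C : ℝ} {Q : V → Prop} (hHX : H ⊆ X) (hUX : U ⊆ X)
    (hin : In R s (fun z => N z ∧ Q z) ((X \ H) \ U))
    (hit : ∀ z ∈ X, Q z → ∀ P ⊆ X, H ⊆ P → U ⊆ P → 1 * (F.size + 1 : ℝ) + C ≤ P.card → In R F (fun v => R v z) P)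
    (hcard : ((Fd.node false F s).size + 1 : ℝ) + C ≤ X.card) : In R (.node false F s) N X := by
  obtain ⟨z, hz, B, hB, hzB, ⟨hNz, hQz⟩, hemb⟩ := hin
  have hzX := (mem_sdiff.1 hz).1
  rw [mem_sdiff] at hzX
  obtain ⟨hzX, hzH⟩ := hzX
  have hzU := (mem_sdiff.1 hz).2
  have hB' : ∀ a ∈ B, a ∈ X ∧ a ∉ H ∧ a ∉ U := by
    intro a ha
    have h1 := hB ha
    rw [mem_sdiff, mem_sdiff] at h1
    exact ⟨h1.1.1, h1.1.2, h1.2⟩
  obtain ⟨P, hP⟩ : ∃ P, P = X \ insert z B := ⟨_, rfl⟩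
  have hmP : ∀ a, a ∈ P ↔ a ∈ X ∧ a ≠ z ∧ a ∉ B := by
    intro a
    rw [hP, mem_sdiff, mem_insert, not_or]
  have hPX : P ⊆ X := fun a ha => ((hmP a).1 ha).1
  have hHP : H ⊆ P := by
    intro a ha
    rw [hmP]
    refine ⟨hHX ha, ?_, fun h => (hB' a h).2.1 ha⟩
    rintro rfl
    exact hzH ha
  have hUP : U ⊆ P := by
    intro a ha
    rw [hmP]
    refine ⟨hUX ha, ?_, fun h => (hB' a h).2.2 ha⟩
    rintro rfl
    exact hzU ha
  have hBc := hemb.card
  have hPc : 1 * (F.size + 1 : ℝ) + C ≤ P.card := by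
    have h1 : X.card ≤ P.card + (insert z B).card := by
      have h2 : X ⊆ P ∪ insert z B := by
        intro a ha
        rw [mem_union, mem_insert, hmP]
        tauto
      exact (card_le_card h2).trans (card_union_le _ _)
    have h2 := card_insert_le z B
    have h3 : X.card ≤ P.card + (s.size + 1) := by omega
    have h4 : (X.card : ℝ) ≤ P.card + (s.size + 1) := by exact_mod_cast h3
    have h6 : ((Fd.node false F s).size : ℝ) = F.size + s.size + 1 := by
      have : (Fd.node false F s).size = F.size + s.size + 1 := rfl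
      rw [this]
      push_cast
      ring
    linarith
  obtain ⟨y, hyP, A, hAP, hyA, hyz, hA⟩ := hit z hzX hQz P hPX hHP hUP hPc
  have hy := (hmP y).1 hyP
  refine ⟨z, hzX, insert y (A ∪ B), ?_, ?_, hNz, y, A, B, by simpa [Adj] using hyz, hyA, hy.2.2, ?_, rfl, hA, hemb⟩
  · intro a ha
    rcases mem_insert.1 ha with rfl | ha
    · exact hy.1
    rcases mem_union.1 ha with ha | ha
    · exact hPX (hAP ha)
    · exact (hB' a ha).1
  · rw [mem_insert, not_or, mem_union, not_or]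
    exact ⟨fun h => hy.2.1 h.symm, fun h => ((hmP z).1 (hAP h)).2.1 rfl, hzB⟩
  · rw [disjoint_left]
    intro a ha ha2
    exact ((hmP a).1 (hAP ha)).2.2 ha2

end AER
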