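import Pool.Agent.AEB.Blocks
import Pool.Agent.AET.PredL

/-!
# The roots of all out-trees of a vertex are placed, with their blocks
-/

set_option autoImplicit false

namespace AER

open Finset AE15 AED AEB
open scoped Classical

variable {V : Type*} {R : V → V → Prop}

/-- the vertices of a list of slots: a slot is a vertex with a list of vertices dominating it -/
def slv (sl : List (V × List V)) : List V := sl.flatMap (fun q => q.1 :: q.2)

/-- a slot for a root hanging on `f`, with room for a block with at most `B` vertices -/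
def Slot (R : V → V → Prop) (f : V) (B : ℕ) (q : V × List V) : Prop :=
  R f q.1 ∧ q.2.Pairwise R ∧ (∀ z ∈ q.2, R z q.1) ∧ B ≤ q.2.length

theorem mem_slv {sl : List (V × List V)} {a : V} : a ∈ slv sl ↔ ∃ q ∈ sl, a = q.1 ∨ a ∈ q.2 := by
  simp only [slv, List.mem_flatMap, List.mem_cons]

/-- the in-trees: blocks on the list `w`; the out-trees: the roots in the slots, with their blocks; everything else is
pending -/
theorem pel_tops (hT : AE32.Tour R) (f : V) (B : ℕ) (ts : List (Bool × Fd)) : ∀ (w : List V) (sl : List (V × List V)),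
    w.Pairwise R → (∀ z ∈ w, R z f) → (ts.map (fun p => if p.1 then 0 else blk p.2 + 1)).sum ≤ w.length →
    (∀ p ∈ ts, p.1 = true → blk p.2 ≤ B) → ts.length ≤ sl.length → (∀ q ∈ sl, Slot R f B q) →
    (w ++ slv sl).Nodup → ∃ Z L, PEL R f ts Z L ∧ Z ⊆ (w ++ slv sl).toFinset ∧ (∀ p ∈ L, p.1 ∈ Z) ∧
      ∀ c, (true, c) ∈ ts → ∃ q ∈ sl, q.1 ∈ Z ∧ ∀ c', (true, c') ∈ c.trees → (q.1, c') ∈ L := by
  induction ts with
  | nil =>
    intro w sl _ _ _ _ _ _ _
    exact ⟨∅, [], ⟨rfl, rfl⟩, by simp, by simp, by simp⟩
  | cons p ts ih =>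
    intro w sl hw hwf hl hB hlen hsl hnd
    obtain ⟨d, c⟩ := p
    cases d with
    | true =>
      obtain _ | ⟨q, sl⟩ := sl
      · simp at hlen
      simp only [List.map_cons, List.sum_cons, if_true, Nat.zero_add] at hl
      obtain ⟨s1, s2, s3, s4⟩ := hsl q List.mem_cons_self
      have hbc : blk c ≤ q.2.length := (hB (true, c) List.mem_cons_self rfl).trans s4
      obtain ⟨Z₁, L₁, h1, h2, h3⟩ := pe_block hT c q.1 q.2 s2 s3 hbc
      have hnd' : (w ++ slv sl).Nodup := by
        refine hnd.sublist ?_
        refine List.Sublist.append_left ?_ w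
        rw [slv, slv, List.flatMap_cons]
        exact List.sublist_append_right _ _
      obtain ⟨Z₂, L₂, h4, h5, h6, h7⟩ := ih w sl hw hwf hl (fun p hp => hB p (List.mem_cons_of_mem _ hp))
        (by simpa using hlen) (fun q' hq' => hsl q' (List.mem_cons_of_mem _ hq')) hnd'
      have hq1 : q.1 ∉ Z₁ := fun h => hT.irr _ (s3 _ (List.mem_toFinset.1 (h2 h)))
      -- the vertices of the first slot are not among the others
      have hdis : ∀ a, a = q.1 ∨ a ∈ q.2 → a ∉ w ++ slv sl := by
        intro a ha hb
        have h8 : slv (q :: sl) = (q.1 :: q.2) ++ slv sl := by rw [slv, slv, List.flatMap_cons]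
        rw [h8] at hnd
        rw [List.nodup_append] at hnd
        obtain ⟨n1, n2, n3⟩ := hnd
        rw [List.nodup_append] at n2
        obtain ⟨n4, n5, n6⟩ := n2
        have ha' : a ∈ q.1 :: q.2 := List.mem_cons.2 ha
        rcases List.mem_append.1 hb with hb | hb
        · exact n3 a hb a (List.mem_append_left _ ha') rfl
        · exact n6 a ha' a hb rfl
      have hd : Disjoint (insert q.1 Z₁) Z₂ := by
        rw [disjoint_left]
        intro a ha ha2
        refine hdis a ?_ (List.mem_toFinset.1 (h5 ha2))
        rcases mem_insert.1 ha with h8 | h8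
        · exact Or.inl h8
        · exact Or.inr (List.mem_toFinset.1 (h2 h8))
      refine ⟨insert q.1 Z₁ ∪ Z₂, L₁ ++ L₂, ⟨insert q.1 Z₁, Z₂, L₁, L₂, hd, rfl, rfl, Or.inr ⟨q.1, Z₁, by
        simpa [Adj] using s1, hq1, rfl, h1⟩, h4⟩, ?_, ?_, ?_⟩
      · intro a ha
        rw [List.mem_toFinset, List.mem_append, mem_slv]
        rcases mem_union.1 ha with h8 | h8
        · right
          refine ⟨q, List.mem_cons_self, ?_⟩
          rcases mem_insert.1 h8 with h9 | h9
          · exact Or.inl h9
          · exact Or.inr (List.mem_toFinset.1 (h2 h9))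
        · have h9 := List.mem_toFinset.1 (h5 h8)
          rcases List.mem_append.1 h9 with h10 | h10
          · exact Or.inl h10
          · obtain ⟨q', h11, h12⟩ := mem_slv.1 h10
            exact Or.inr ⟨q', List.mem_cons_of_mem _ h11, h12⟩
      · intro p hp
        rcases List.mem_append.1 hp with hp | hp
        · rcases (AET.PE.host h1 p hp).1 with h8 | h8
          · rw [h8]
            exact mem_union_left _ (mem_insert_self _ _)
          · exact mem_union_left _ (mem_insert_of_mem h8)
        · exact mem_union_right _ (h6 p hp)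
      · intro c₁ hc₁
        rcases List.mem_cons.1 hc₁ with h8 | h8
        · simp only [Prod.mk.injEq, true_and] at h8
          subst h8
          exact ⟨q, List.mem_cons_self, mem_union_left _ (mem_insert_self _ _), fun c' hc' =>
            List.mem_append_left _ (h3 c' hc')⟩
        · obtain ⟨q', h9, h10, h11⟩ := h7 c₁ h8
          exact ⟨q', List.mem_cons_of_mem _ h9, mem_union_right _ h10, fun c' hc' =>
            List.mem_append_right _ (h11 c' hc')⟩
    | false =>
      replace hl : blk c + 1 + (ts.map (fun p => if p.1 then 0 else blk p.2 + 1)).sum ≤ w.length := by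
        simpa only [List.map_cons, List.sum_cons, Bool.false_eq_true, if_false] using hl
      obtain ⟨w₁, y, w₂, rfl, hw₁⟩ : ∃ w₁ y w₂, w = w₁ ++ y :: w₂ ∧ w₁.length = blk c := by
        have h1 : blk c < w.length := by omega
        refine ⟨w.take (blk c), w[blk c], w.drop (blk c + 1), ?_, ?_⟩
        · rw [List.getElem_cons_drop, List.take_append_drop]
        · rw [List.length_take]
          omega
      simp only [List.length_append, List.length_cons] at hl
      have hnd0 := tl_nodup hT hw
      rw [List.pairwise_append, List.pairwise_cons] at hw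
      obtain ⟨hp1, ⟨hp2, hp3⟩, hp4⟩ := hw
      rw [List.nodup_append, List.nodup_cons] at hnd0
      obtain ⟨hn1, ⟨hn2, hn3⟩, hn4⟩ := hnd0
      obtain ⟨Z₁, L₁, h1, h2, h3⟩ := pe_block hT c y w₁ hp1 (fun z hz => hp4 z hz y (by simp)) hw₁.ge
      have hnd' : (w₂ ++ slv sl).Nodup := by
        refine hnd.sublist ?_
        refine List.Sublist.append_right ?_ _
        exact (List.sublist_cons_self y w₂).trans (List.sublist_append_right w₁ _)
      obtain ⟨Z₂, L₂, h4, h5, h6, h7⟩ := ih w₂ sl hp3 (fun z hz => hwf z (by simp [hz])) (by omega)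
        (fun p hp => hB p (List.mem_cons_of_mem _ hp)) (by simp only [List.length_cons] at hlen; omega) hsl hnd'
      have hy1 : y ∉ Z₁ := fun h => hn4 y (List.mem_toFinset.1 (h2 h)) y (by simp) rfl
      have hdis : ∀ a, a = y ∨ a ∈ w₁ → a ∉ w₂ ++ slv sl := by
        intro a ha hb
        rw [List.nodup_append] at hnd
        obtain ⟨n1, n2, n3⟩ := hnd
        have ha' : a ∈ w₁ ++ y :: w₂ := by
          rcases ha with rfl | ha
          · simp
          · simp [ha]
        rcases List.mem_append.1 hb with hb | hb
        · rcases ha with rfl | ha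
          · exact hn2 hb
          · exact hn4 a ha a (by simp [hb]) rfl
        · exact n3 a ha' a hb rfl
      have hd : Disjoint (insert y Z₁) Z₂ := by
        rw [disjoint_left]
        intro a ha ha2
        refine hdis a ?_ (List.mem_toFinset.1 (h5 ha2))
        rcases mem_insert.1 ha with h8 | h8
        · exact Or.inl h8
        · exact Or.inr (List.mem_toFinset.1 (h2 h8))
      refine ⟨insert y Z₁ ∪ Z₂, L₁ ++ L₂, ⟨insert y Z₁, Z₂, L₁, L₂, hd, rfl, rfl, Or.inr ⟨y, Z₁, by
        simpa [Adj] using hwf y (by simp), hy1, rfl, h1⟩, h4⟩, ?_, ?_, ?_⟩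
      · intro a ha
        rw [List.mem_toFinset, List.mem_append]
        rcases mem_union.1 ha with h8 | h8
        · left
          rcases mem_insert.1 h8 with h9 | h9
          · simp [h9]
          · simp [List.mem_toFinset.1 (h2 h9)]
        · have h9 := List.mem_toFinset.1 (h5 h8)
          rcases List.mem_append.1 h9 with h10 | h10
          · left
            simp [h10]
          · exact Or.inr h10
      · intro p hp
        rcases List.mem_append.1 hp with hp | hp
        · rcases (AET.PE.host h1 p hp).1 with h8 | h8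
          · rw [h8]
            exact mem_union_left _ (mem_insert_self _ _)
          · exact mem_union_left _ (mem_insert_of_mem h8)
        · exact mem_union_right _ (h6 p hp)
      · intro c₁ hc₁
        rcases List.mem_cons.1 hc₁ with h8 | h8
        · simp at h8
        · obtain ⟨q', h9, h10, h11⟩ := h7 c₁ h8
          exact ⟨q', h9, mem_union_right _ h10, fun c' hc' => List.mem_append_right _ (h11 c' hc')⟩

theorem length_trees (F : Fd) : F.trees.length = F.len := by
  induction F with
  | nil => rfl
  | node d c s _ ihs => simp only [Fd.trees, List.length_cons, Fd.len, ihs]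

theorem pe_tops (hT : AE32.Tour R) (F : Fd) (f : V) (B : ℕ) (w : List V) (sl : List (V × List V))
    (hw : w.Pairwise R) (hwf : ∀ z ∈ w, R z f) (hl : blk F ≤ w.length) (hB : ∀ c, (true, c) ∈ F.trees → blk c ≤ B)
    (hlen : F.len ≤ sl.length) (hsl : ∀ q ∈ sl, Slot R f B q) (hnd : (w ++ slv sl).Nodup) :
    ∃ Z L, PE R F f Z L ∧ Z ⊆ (w ++ slv sl).toFinset ∧ (∀ p ∈ L, p.1 ∈ Z) ∧
      ∀ c, (true, c) ∈ F.trees → ∃ q ∈ sl, q.1 ∈ Z ∧ ∀ c', (true, c') ∈ c.trees → (q.1, c') ∈ L := by
  rw [blk_eq] at hl
  obtain ⟨Z, L, h1, h2, h3, h4⟩ := pel_tops hT f B F.trees w sl hw hwf hl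
    (fun p hp hpt => by obtain ⟨d, c⟩ := p; simp only at hpt; subst hpt; exact hB c hp)
    (by rw [length_trees]; exact hlen) hsl hnd
  exact ⟨Z, L, (pe_iff F f Z L).2 h1, h2, h3, h4⟩

end AER
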